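import Pool.Agent.H1.ND.D

/-!
# LD: two ellipses close to each other, every conductivity: definitions

Sequences of pairs of ellipses `(0, 1, μ₁ j)`, `(c₂ j, r₂ j, μ₂ j)` with `μ₁ j, μ₂ j → μ`, `‖μ‖ < 1`, and distance `d j → 0`.
Notation: `x = ‖μ‖²`; the ellipse is `z = w + μ/w`, `‖w‖ < 1`; functions of `w` on annuli. For a function `F` of `w` write
`F* (w) = conj (F (1/conj w))`.
-/

set_option autoImplicit false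

namespace LD1

open Complex Set Filter Topology MeasureTheory EW1 EX1 ND1
open scoped ComplexConjugate ContDiff Real

/-- limits: `μ₁, μ₂ → μ`, `c₂/d → γ`, `(r₂ - 1)/d → a`, `(μ₂ - μ₁)/d → β` -/
structure LimG (S : Sq) (μ₀ : ℝ) (μ : ℂ) (a : ℝ) (γ β : ℂ) : Prop where
  pos : ∀ j, 0 < S.d j
  small : ∀ j, S.d j ≤ 1 / 100
  m1 : ∀ j, ‖S.μ₁ j‖ ≤ μ₀
  m2 : ∀ j, ‖S.μ₂ j‖ ≤ μ₀
  lm1 : Tendsto S.μ₁ atTop (𝓝 μ)
  lm2 : Tendsto S.μ₂ atTop (𝓝 μ)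
  ld : Tendsto S.d atTop (𝓝 0)
  lc : Tendsto (fun j => S.c₂ j / (S.d j : ℂ)) atTop (𝓝 γ)
  lr : Tendsto (fun j => (S.r₂ j - 1) / S.d j) atTop (𝓝 a)
  lb : Tendsto (fun j => (S.μ₂ j - S.μ₁ j) / (S.d j : ℂ)) atTop (𝓝 β)

/-- a locally bounded sequence of functions, holomorphic near the closed ellipses, with a limit on the limit ellipse -/
structure LBG (S : Sq) (μ : ℂ) (F : ℕ → ℂ → ℂ) (F₀ : ℂ → ℂ) : Prop where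
  hol : ∀ j, ∃ N : Set ℂ, IsOpen N ∧ S.K₁ j ⊆ N ∧ S.K₂ j ⊆ N ∧ DifferentiableOn ℂ (F j) N
  bd : ∀ σ : ℝ, 0 < σ → σ < 1 → ∃ C : ℝ, ∀ j z, z ∈ S.E₁ σ j ∪ S.E₂ σ j → ‖F j z‖ ≤ C
  hol0 : DifferentiableOn ℂ F₀ (Dp 0 1 μ 1)
  lim : ∀ z ∈ Dp 0 1 μ 1, Tendsto (fun j => F j z) atTop (𝓝 (F₀ z))

/-- the background fields of solutions: the identity holds, normalized -/
structure SolG (S : Sq) (ρ : ℝ) (l : ℕ → ℝ) (N : ℕ → Set ℂ) (m : ℕ → ℂ → ℂ) : Prop where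
  opn : ∀ j, IsOpen (N j)
  sub₁ : ∀ j, S.K₁ j ⊆ N j
  sub₂ : ∀ j, S.K₂ j ⊆ N j
  hol : ∀ j, DifferentiableOn ℂ (m j) (N j)
  idn : ∀ j (A : ℂ → ℂ), DifferentiableOn ℂ A (N j) →
    Idn 0 1 (S.μ₁ j) (S.c₂ j) (S.r₂ j) (S.μ₂ j) (l j) ρ A (m j)
  nn : ∀ j, NN 0 1 (S.μ₁ j) (S.c₂ j) (S.r₂ j) (S.μ₂ j) (m j) = S.d j ^ 2

/-- the point `ρ e^(it)` -/
noncomputable def pr (ρ t : ℝ) : ℂ := ρ * exp (t * I)

noncomputable def zw (μ w : ℂ) : ℂ := w + μ * w⁻¹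

/-- `w` times the derivative of `zw` -/
noncomputable def pw (μ w : ℂ) : ℂ := w - μ * w⁻¹

/-- `zw*` -/
noncomputable def zs (μ w : ℂ) : ℂ := w⁻¹ + conj μ * w

/-- `pw*` -/
noncomputable def ps (μ w : ℂ) : ℂ := w⁻¹ - conj μ * w

/-- derivative of the curve with respect to the parameters -/
noncomputable def zt (μ : ℂ) (a : ℝ) (γ β w : ℂ) : ℂ := γ + a * (w + μ * w⁻¹) + β * w⁻¹

/-- `(ps zt + pw zt*)/2`; real for `‖w‖ = 1` (there it is `Re (conj p ζ)`) -/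
noncomputable def Uw (μ : ℂ) (a : ℝ) (γ β w : ℂ) : ℂ :=
  conj β / 2 * w ^ 2 + (conj γ - conj μ * γ) / 2 * w + ((a * (1 - ‖μ‖ ^ 2) - (conj μ * β).re : ℝ) : ℂ) +
    (γ - μ * conj γ) / 2 * w⁻¹ + β / 2 * w⁻¹ ^ 2

/-- Laurent coefficient of a function of `w`, on the circle of radius `ρ` -/
noncomputable def cz (ρ : ℝ) (F : ℂ → ℂ) (n : ℤ) : ℂ := (∫ t in (0 : ℝ)..(2 * π), F (pr ρ t) * pr ρ t ^ (-n)) / (2 * π)

/-- coefficients of `zt/pw = ∑ P_k w^(-k)`, for `‖w‖² > ‖μ‖` -/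
noncomputable def Pc (μ : ℂ) (a : ℝ) (γ β : ℂ) : ℕ → ℂ
  | 0 => a
  | 1 => γ
  | 2 => 2 * a * μ + β
  | n + 3 => μ * Pc μ a γ β (n + 1)

/-- the coefficient of the field inside the ellipse (order `n + 1`), from the one of the background field; `M = f - l conj μ^(n+1) conj f` -/
noncomputable def fh (l : ℝ) (μ M : ℂ) (n : ℕ) : ℂ :=
  (M + l * conj μ ^ (n + 1) * conj M) / ((1 - l ^ 2 * ‖μ‖ ^ (2 * (n + 1)) : ℝ) : ℂ)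

/-- `∑ f_n (w^(n+1) - (μ/w)^(n+1))` -/
noncomputable def sE (μ : ℂ) (f : ℕ → ℂ) (w : ℂ) : ℂ := ∑' n : ℕ, f n * (w ^ (n + 1) - (μ * w⁻¹) ^ (n + 1))

/-- `y + ∑ g_n (w^(n+1) + (μ/w)^(n+1))` -/
noncomputable def sY (μ y : ℂ) (g : ℕ → ℂ) (w : ℂ) : ℂ := y + ∑' n : ℕ, g n * (w ^ (n + 1) + (μ * w⁻¹) ^ (n + 1))

/-- growth of the coefficients: holomorphic in the unit disk -/
def Gr (f : ℕ → ℂ) : Prop := ∀ s : ℝ, 0 < s → s < 1 → ∃ C : ℝ, ∀ n, ‖f n‖ * s ^ n ≤ C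

/-- decay of the coefficients: holomorphic in `‖w‖ < 1/‖μ‖` -/
def Dc (μ : ℂ) (g : ℕ → ℂ) : Prop := ∀ s : ℝ, 0 < s → s * ‖μ‖ < 1 → ∃ C : ℝ, ∀ n, ‖g n‖ * s ^ n ≤ C

/-- the function `g*` of a polynomial -/
noncomputable def gs (g : Polynomial ℂ) (w : ℂ) : ℂ := conj (g.eval (conj w)⁻¹)

/-- twice `U` times the field, continued to a neighborhood of the unit circle -/
noncomputable def TT (μ y : ℂ) (g : ℕ → ℂ) (l : ℝ) (w : ℂ) : ℂ := pw μ w * ps μ w * (conj (sY μ y g (conj w)⁻¹) - l * sY μ y g w)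

end LD1
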