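import Pool.Agent.H1.LD.D
import Pool.Agent.H1.ND.Nb
import Pool.Agent.H1.EW.Fb
import Pool.Agent.H1.EW.Ga

/-!
ROW LD/La. Limits of the coefficients `fc`, first variation. Same as `fcL`, `fcD` in `ND/Nb.lean` (there `μ = 0`, `ρ = 1/2`), now near the ellipse `(0,1,μ)`; the curve `c + r (w + μ_i/w)`, `‖w‖ = ρ`, is in `Dp c r μ_i σ` for
`(ρ² + μ₀)/(ρ(1+μ₀)) < σ < 1` (`crv` in `EW/Fb.lean`). `F j → F₀` locally uniformly on `Dp 0 1 μ 1` (bounded holomorphic functions on a slightly smaller ellipse, pointwise convergence). The first variation: primitive `Φ` of `F j` (convex domain), `fc (n+1) = (n+1)` times the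
coefficient of `Φ` on the curve (integration by parts), `(Φ (z₂) - Φ (z₁))/d → F₀ (zw μ w) zt(w)`, `(z₂ - z₁)/d → zt μ a γ β w`.
-/

set_option autoImplicit false

namespace LD1

open Complex Set Filter Topology MeasureTheory EW1 EX1 ND1
open scoped ComplexConjugate ContDiff Real

/-- what is used about the sequence of functions -/
structure La_H (D1 D2 : Set ℂ) (δ C : ℝ) (F : ℕ → ℂ → ℂ) (F₀ : ℂ → ℂ) : Prop where
  c1 : Convex ℝ D1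
  c2 : Convex ℝ D2
  o2 : IsOpen D2
  δp : 0 < δ
  pos : 0 ≤ C
  ball : ∀ z ∈ D1, Metric.closedBall z δ ⊆ D2
  hol : ∀ j, DifferentiableOn ℂ (F j) D2
  bd : ∀ j, ∀ z ∈ D2, ‖F j z‖ ≤ C
  lim : ∀ z ∈ D2, Tendsto (fun j => F j z) atTop (𝓝 (F₀ z))

theorem La_H.sub {D1 D2 : Set ℂ} {δ C : ℝ} {F : ℕ → ℂ → ℂ} {F₀ : ℂ → ℂ} (h : La_H D1 D2 δ C F F₀) : D1 ⊆ D2 :=
  fun z hz => h.ball z hz (Metric.mem_closedBall_self h.δp.le)

theorem La_lip {D1 D2 : Set ℂ} {δ C : ℝ} {F : ℕ → ℂ → ℂ} {F₀ : ℂ → ℂ} (h : La_H D1 D2 δ C F F₀) (j : ℕ) {x y : ℂ}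
    (hx : x ∈ D1) (hy : y ∈ D1) : ‖F j y - F j x‖ ≤ C / δ * ‖y - x‖ := by
  have hderiv : ∀ z ∈ D1, ‖deriv (F j) z‖ ≤ C / δ := by
    intro z hz
    exact Complex.norm_deriv_le_of_forall_mem_sphere_norm_le (c := z) (R := δ) (C := C) (f := F j) h.δp
      ((h.hol j).mono (Metric.closure_ball_subset_closedBall.trans (h.ball z hz))).diffContOnCl
      (fun z' hz' => h.bd j z' (h.ball z hz (Metric.sphere_subset_closedBall hz')))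
  exact h.c1.norm_image_sub_le_of_norm_deriv_le
    (fun z hz => (h.hol j z (h.sub hz)).differentiableAt (h.o2.mem_nhds (h.sub hz))) hderiv hx hy

theorem La_tay {D1 D2 : Set ℂ} {δ C : ℝ} {F : ℕ → ℂ → ℂ} {F₀ : ℂ → ℂ} (h : La_H D1 D2 δ C F F₀) (j : ℕ) {Φ : ℂ → ℂ}
    (hΦ : ∀ z ∈ D2, HasDerivAt Φ (F j z) z) {x y : ℂ} (hx : x ∈ D1)
    (hy : y ∈ D1) : ‖Φ y - Φ x - F j x * (y - x)‖ ≤ C / δ * ‖y - x‖ * ‖y - x‖ := by
  have hconv : Convex ℝ (Metric.closedBall x ‖y - x‖ ∩ D1) := (convex_closedBall _ _).inter h.c1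
  have hCδ : 0 ≤ C / δ := div_nonneg h.pos h.δp.le
  have h := hconv.norm_image_sub_le_of_norm_hasDerivWithin_le (f := fun z => Φ z - F j x * z) (f' := fun z => F j z - F j x * 1)
    (C := C / δ * ‖y - x‖) (x := x) (y := y)
    (fun z hz => ((hΦ z (h.sub hz.2)).sub ((hasDerivAt_id z).const_mul (F j x))).hasDerivWithinAt)
    (fun z hz => by
      rw [mul_one]
      refine (La_lip h j hx hz.2).trans ?_
      have h1 : ‖z - x‖ ≤ ‖y - x‖ := mem_closedBall_iff_norm.1 hz.1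
      gcongr)
    ⟨Metric.mem_closedBall_self (norm_nonneg _), hx⟩ ⟨mem_closedBall_iff_norm.2 le_rfl, hy⟩
  have e : Φ y - Φ x - F j x * (y - x) = (Φ y - F j x * y) - (Φ x - F j x * x) := by ring
  rw [e]
  exact h

theorem La_n {ρ : ℝ} (hρ : 0 < ρ) (t : ℝ) : ‖pr ρ t‖ = ρ := by
  unfold pr
  rw [norm_mul, Complex.norm_exp_ofReal_mul_I, mul_one, Complex.norm_real, Real.norm_eq_abs, abs_of_pos hρ]

theorem La_0 {ρ : ℝ} (hρ : 0 < ρ) (t : ℝ) : pr ρ t ≠ 0 := by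
  intro h
  have := La_n hρ t
  rw [h, norm_zero] at this
  exact hρ.ne this

theorem La_in {ρ : ℝ} (hρ : 0 < ρ) (t : ℝ) : ‖(pr ρ t)⁻¹‖ = ρ⁻¹ := by
  rw [norm_inv, La_n hρ]

theorem La_c (ρ : ℝ) : Continuous (pr ρ) := by
  unfold pr
  fun_prop

theorem La_ic {ρ : ℝ} (hρ : 0 < ρ) : Continuous fun t => (pr ρ t)⁻¹ := (La_c ρ).inv₀ (La_0 hρ)

/-- the curve -/
noncomputable def La_z (ρ : ℝ) (c : ℂ) (r : ℝ) (μ : ℂ) (t : ℝ) : ℂ := c + r * (pr ρ t + μ * (pr ρ t)⁻¹)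

noncomputable def La_g (ρ : ℝ) (r : ℝ) (μ : ℂ) (t : ℝ) : ℂ := r * (pr ρ t - μ * (pr ρ t)⁻¹)

theorem La_z_cont {ρ : ℝ} (hρ : 0 < ρ) (c : ℂ) (r : ℝ) (μ : ℂ) : Continuous (La_z ρ c r μ) :=
  continuous_const.add (continuous_const.mul ((La_c ρ).add (continuous_const.mul (La_ic hρ))))

theorem La_g_cont {ρ : ℝ} (hρ : 0 < ρ) (r : ℝ) (μ : ℂ) : Continuous (La_g ρ r μ) :=
  continuous_const.mul ((La_c ρ).sub (continuous_const.mul (La_ic hρ)))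

theorem La_fc (ρ : ℝ) (c : ℂ) (r : ℝ) (μ : ℂ) (F : ℂ → ℂ) (n : ℕ) :
    fc c r μ F ρ n = (∫ t in (0 : ℝ)..(2 * π), F (La_z ρ c r μ t) * La_g ρ r μ t * (pr ρ t)⁻¹ ^ n) / (2 * π) := rfl

theorem La_g_le {ρ : ℝ} (hρ : 0 < ρ) {r : ℝ} {μ : ℂ} (hr : |r| ≤ 2) (hμ : ‖μ‖ ≤ 1) (t : ℝ) :
    ‖La_g ρ r μ t‖ ≤ 2 * (ρ + ρ⁻¹) := by
  unfold La_g
  rw [norm_mul, Complex.norm_real, Real.norm_eq_abs]
  have h1 : ‖pr ρ t - μ * (pr ρ t)⁻¹‖ ≤ ρ + ρ⁻¹ := by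
    refine (norm_sub_le _ _).trans ?_
    rw [norm_mul, La_n hρ, La_in hρ]
    have : ‖μ‖ * ρ⁻¹ ≤ 1 * ρ⁻¹ := by gcongr
    linarith
  gcongr

/-- limits of values at moving points -/
theorem La_val {D1 D2 : Set ℂ} {δ C : ℝ} {F : ℕ → ℂ → ℂ} {F₀ : ℂ → ℂ} (h : La_H D1 D2 δ C F F₀) {x : ℕ → ℂ} {y : ℂ}
    (hx : ∀ j, x j ∈ D1) (hy : y ∈ D1) (hl : Tendsto x atTop (𝓝 y)) : Tendsto (fun j => F j (x j)) atTop (𝓝 (F₀ y)) := by
  have h1 : Tendsto (fun j => F j (x j) - F j y) atTop (𝓝 0) := by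
    have h2 : Tendsto (fun j => C / δ * ‖x j - y‖) atTop (𝓝 (C / δ * ‖y - y‖)) :=
      ((hl.sub_const y).norm).const_mul _
    rw [sub_self, norm_zero, mul_zero] at h2
    exact squeeze_zero_norm (fun j => La_lip h j hy (hx j)) h2
  have h3 := h1.add (h.lim y (h.sub hy))
  rw [zero_add] at h3
  refine h3.congr fun j => ?_
  ring

/-- limit of the coefficients -/
theorem La_L {D1 D2 : Set ℂ} {δ C : ℝ} {F : ℕ → ℂ → ℂ} {F₀ : ℂ → ℂ} (h : La_H D1 D2 δ C F F₀) {ρ : ℝ} (hρ : 0 < ρ)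
    {c : ℕ → ℂ} {r : ℕ → ℝ} {μ : ℕ → ℂ} {m : ℂ} (hz : ∀ j t, La_z ρ (c j) (r j) (μ j) t ∈ D1) (hz0 : ∀ t, La_z ρ 0 1 m t ∈ D1)
    (hrb : ∀ j, |r j| ≤ 2) (hμb : ∀ j, ‖μ j‖ ≤ 1)
    (hc : Tendsto c atTop (𝓝 0)) (hr : Tendsto r atTop (𝓝 1)) (hμ : Tendsto μ atTop (𝓝 m)) (n : ℕ) :
    Tendsto (fun j => fc (c j) (r j) (μ j) (F j) ρ n) atTop (𝓝 (fc 0 1 m F₀ ρ n)) := by
  have hrC : Tendsto (fun j => (r j : ℂ)) atTop (𝓝 ((1 : ℝ) : ℂ)) := (Complex.continuous_ofReal.tendsto 1).comp hr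
  have hzl : ∀ t, Tendsto (fun j => La_z ρ (c j) (r j) (μ j) t) atTop (𝓝 (La_z ρ 0 1 m t)) := by
    intro t
    exact hc.add (hrC.mul (tendsto_const_nhds.add (hμ.mul_const _)))
  have hgl : ∀ t, Tendsto (fun j => La_g ρ (r j) (μ j) t) atTop (𝓝 (La_g ρ 1 m t)) := by
    intro t
    exact hrC.mul (tendsto_const_nhds.sub (hμ.mul_const _))
  have hint : Tendsto (fun j => ∫ t in (0 : ℝ)..(2 * π), F j (La_z ρ (c j) (r j) (μ j) t) * La_g ρ (r j) (μ j) t * (pr ρ t)⁻¹ ^ n) atTop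
      (𝓝 (∫ t in (0 : ℝ)..(2 * π), F₀ (La_z ρ 0 1 m t) * La_g ρ 1 m t * (pr ρ t)⁻¹ ^ n)) := by
    refine intervalIntegral.tendsto_integral_filter_of_dominated_convergence (fun _ => C * (2 * (ρ + ρ⁻¹)) * ρ⁻¹ ^ n) ?_ ?_ ?_ ?_
    · refine Eventually.of_forall fun j => ?_
      have h1 : Continuous fun t => F j (La_z ρ (c j) (r j) (μ j) t) :=
        (h.hol j).continuousOn.comp_continuous (La_z_cont hρ _ _ _) fun t => h.sub (hz j t)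
      exact ((h1.mul (La_g_cont hρ _ _)).mul ((La_ic hρ).pow _)).aestronglyMeasurable
    · refine Eventually.of_forall fun j => Eventually.of_forall fun t _ => ?_
      rw [norm_mul, norm_mul, norm_pow, La_in hρ]
      have h1 := h.bd j _ (h.sub (hz j t))
      have h2 := La_g_le hρ (hrb j) (hμb j) t
      have h3 := h.pos
      gcongr
    · exact intervalIntegrable_const
    · exact Eventually.of_forall fun t _ => ((La_val h (fun j => hz j t) (hz0 t) (hzl t)).mul (hgl t)).mul_const _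
  exact hint.div_const (2 * π : ℂ)

/-- integration by parts -/
theorem La_parts {D2 : Set ℂ} {F Φ : ℂ → ℂ} (hd : DifferentiableOn ℂ F D2)
    (hΦ : ∀ z ∈ D2, HasDerivAt Φ (F z) z) {ρ : ℝ} (hρ : 0 < ρ) {c : ℂ} {r : ℝ} {μ : ℂ} (hz : ∀ t, La_z ρ c r μ t ∈ D2) (n : ℕ) :
    fc c r μ F ρ n = n * ((∫ t in (0 : ℝ)..(2 * π), Φ (La_z ρ c r μ t) * (pr ρ t)⁻¹ ^ n) / (2 * π)) := by
  have hpd : ∀ t : ℝ, HasDerivAt (pr ρ) (I * pr ρ t) t := by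
    intro t
    have h1 : HasDerivAt (fun s : ℝ => ((s : ℂ) * I)) (1 * I) t := (hasDerivAt_id t).ofReal_comp.mul_const I
    have h2 := (h1.cexp).const_mul (ρ : ℂ)
    have e : (ρ : ℂ) * (exp ((t : ℂ) * I) * (1 * I)) = I * pr ρ t := by
      unfold pr
      ring
    rw [e] at h2
    exact h2
  have hpi : ∀ t : ℝ, HasDerivAt (fun t => (pr ρ t)⁻¹) (-(I * (pr ρ t)⁻¹)) t := by
    intro t
    have h1 := (hpd t).fun_inv (La_0 hρ t)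
    have e : -(I * pr ρ t) / pr ρ t ^ 2 = -(I * (pr ρ t)⁻¹) := by
      have := La_0 hρ t
      field_simp
    rw [e] at h1
    exact h1
  have hzd : ∀ t : ℝ, HasDerivAt (La_z ρ c r μ) (I * La_g ρ r μ t) t := by
    intro t
    have h1 := (((hpd t).add ((hpi t).const_mul μ)).const_mul (r : ℂ)).const_add c
    have e : (r : ℂ) * (I * pr ρ t + μ * -(I * (pr ρ t)⁻¹)) = I * La_g ρ r μ t := by
      unfold La_g
      ring
    rw [e] at h1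
    exact h1
  have hFc : Continuous fun t => F (La_z ρ c r μ t) := hd.continuousOn.comp_continuous (La_z_cont hρ _ _ _) hz
  have hΦo : ContinuousOn Φ D2 := fun z hz => (hΦ z hz).continuousAt.continuousWithinAt
  have hΦc : Continuous fun t => Φ (La_z ρ c r μ t) := hΦo.comp_continuous (La_z_cont hρ _ _ _) hz
  have hD : ∀ t : ℝ, HasDerivAt (fun t => Φ (La_z ρ c r μ t) * (pr ρ t)⁻¹ ^ n)
      (I * (F (La_z ρ c r μ t) * La_g ρ r μ t * (pr ρ t)⁻¹ ^ n) - I * (n * (Φ (La_z ρ c r μ t) * (pr ρ t)⁻¹ ^ n))) t := by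
    intro t
    have h1 := HasDerivAt.comp_of_eq t (hΦ _ (hz t)) (hzd t) rfl
    have h2 := (hpi t).fun_pow n
    have h3 := HasDerivAt.mul h1 h2
    have e : F (La_z ρ c r μ t) * (I * La_g ρ r μ t) * (pr ρ t)⁻¹ ^ n + Φ (La_z ρ c r μ t) * (n * (pr ρ t)⁻¹ ^ (n - 1) * -(I * (pr ρ t)⁻¹)) =
        I * (F (La_z ρ c r μ t) * La_g ρ r μ t * (pr ρ t)⁻¹ ^ n) - I * (n * (Φ (La_z ρ c r μ t) * (pr ρ t)⁻¹ ^ n)) := by
      rcases Nat.eq_zero_or_pos n with h0 | h0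
      · subst h0
        simp
        ring
      · obtain ⟨m, rfl⟩ := Nat.exists_eq_succ_of_ne_zero h0.ne'
        simp only [Nat.succ_eq_add_one, Nat.add_sub_cancel]
        rw [pow_succ]
        ring
    rw [← e]
    exact h3
  have hI1 : IntervalIntegrable (fun t => F (La_z ρ c r μ t) * La_g ρ r μ t * (pr ρ t)⁻¹ ^ n) volume 0 (2 * π) :=
    ((hFc.mul (La_g_cont hρ _ _)).mul ((La_ic hρ).pow _)).intervalIntegrable _ _
  have hI2 : IntervalIntegrable (fun t => Φ (La_z ρ c r μ t) * (pr ρ t)⁻¹ ^ n) volume 0 (2 * π) :=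
    (hΦc.mul ((La_ic hρ).pow _)).intervalIntegrable _ _
  have h4 := intervalIntegral.integral_eq_sub_of_hasDerivAt (fun t _ => hD t)
    ((hI1.const_mul I).sub ((hI2.const_mul (n : ℂ)).const_mul I))
  have hper : pr ρ (2 * π) = pr ρ 0 := by
    unfold pr
    push_cast
    rw [Complex.exp_two_pi_mul_I, zero_mul, Complex.exp_zero]
  have h5 : Φ (La_z ρ c r μ (2 * π)) * (pr ρ (2 * π))⁻¹ ^ n - Φ (La_z ρ c r μ 0) * (pr ρ 0)⁻¹ ^ n = 0 := by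
    unfold La_z
    rw [hper, sub_self]
  rw [h5, intervalIntegral.integral_sub (hI1.const_mul I) ((hI2.const_mul (n : ℂ)).const_mul I),
    intervalIntegral.integral_const_mul, intervalIntegral.integral_const_mul, intervalIntegral.integral_const_mul, ← mul_sub] at h4
  have h6 := (mul_eq_zero.1 h4).resolve_left I_ne_zero
  rw [sub_eq_zero] at h6
  rw [La_fc, h6]
  ring

/-- first variation -/
theorem La_D {D1 D2 : Set ℂ} {δ C : ℝ} {F : ℕ → ℂ → ℂ} {F₀ : ℂ → ℂ} (h : La_H D1 D2 δ C F F₀) {ρ : ℝ} (hρ : 0 < ρ)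
    {d : ℕ → ℝ} {c : ℕ → ℂ} {r : ℕ → ℝ} {μ₁ μ₂ : ℕ → ℂ} {m : ℂ} {a : ℝ} {γ β : ℂ}
    (hz₁ : ∀ j t, La_z ρ 0 1 (μ₁ j) t ∈ D1)
    (hz₂ : ∀ j t, La_z ρ (c j) (r j) (μ₂ j) t ∈ D1) (hz0 : ∀ t, La_z ρ 0 1 m t ∈ D1)
    (hμb : ∀ j, ‖μ₂ j‖ ≤ 1) (hd : ∀ j, 0 < d j) (hdd : ∀ j, ‖c j‖ + |r j - 1| + ‖μ₁ j - μ₂ j‖ = d j)
    (hμ₁ : Tendsto μ₁ atTop (𝓝 m)) (hμ₂ : Tendsto μ₂ atTop (𝓝 m)) (hd0 : Tendsto d atTop (𝓝 0))
    (hc : Tendsto (fun j => c j / (d j : ℂ)) atTop (𝓝 γ)) (hr : Tendsto (fun j => (r j - 1) / d j) atTop (𝓝 a))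
    (hb : Tendsto (fun j => (μ₂ j - μ₁ j) / (d j : ℂ)) atTop (𝓝 β)) (n : ℕ) :
    Tendsto (fun j => (fc (c j) (r j) (μ₂ j) (F j) ρ (n + 1) - fc 0 1 (μ₁ j) (F j) ρ (n + 1)) / (d j : ℂ)) atTop
      (𝓝 (((n : ℂ) + 1) * ((∫ t in (0 : ℝ)..(2 * π), F₀ (La_z ρ 0 1 m t) * zt m a γ β (pr ρ t) * (pr ρ t)⁻¹ ^ (n + 1)) / (2 * π)))) := by
  have hex : ∀ j, ∃ Φ : ℂ → ℂ, ∀ z ∈ D2, HasDerivAt Φ (F j z) z := by
    intro j
    obtain ⟨Φ, hΦ⟩ := h.c2.exists_forall_hasDerivWithinAt (h.hol j)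
    exact ⟨Φ, fun z hz => (hΦ z hz).hasDerivAt (h.o2.mem_nhds hz)⟩
  choose Φ hΦ using hex
  set z₁ : ℕ → ℝ → ℂ := fun j t => La_z ρ 0 1 (μ₁ j) t with hz₁'
  set z₂ : ℕ → ℝ → ℂ := fun j t => La_z ρ (c j) (r j) (μ₂ j) t with hz₂'
  have hb₁ : ∀ j t, z₁ j t ∈ D1 := hz₁
  have hb₂ : ∀ j t, z₂ j t ∈ D1 := hz₂
  have hdC : ∀ j, (d j : ℂ) ≠ 0 := fun j => by exact_mod_cast (hd j).ne'
  obtain ⟨A, hA⟩ : ∃ A : ℝ, A = 1 + (ρ + ρ⁻¹) + ρ⁻¹ := ⟨_, rfl⟩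
  have hA0 : 0 ≤ A := by
    rw [hA]
    positivity
  -- the difference of the points
  have hdiff : ∀ j t, z₂ j t - z₁ j t = c j + ((r j - 1 : ℝ) : ℂ) * (pr ρ t + μ₂ j * (pr ρ t)⁻¹) + (μ₂ j - μ₁ j) * (pr ρ t)⁻¹ := by
    intro j t
    simp only [hz₁', hz₂', La_z]
    push_cast
    ring
  have hdn : ∀ j t, ‖z₂ j t - z₁ j t‖ ≤ A * d j := by
    intro j t
    rw [hdiff]
    have h1 := hdd j
    have n1 := norm_nonneg (c j)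
    have n2 := abs_nonneg (r j - 1)
    have n3 := norm_nonneg (μ₁ j - μ₂ j)
    have hρi : 0 < ρ⁻¹ := inv_pos.2 hρ
    have e1 : ‖((r j - 1 : ℝ) : ℂ) * (pr ρ t + μ₂ j * (pr ρ t)⁻¹)‖ ≤ |r j - 1| * (ρ + ρ⁻¹) := by
      rw [norm_mul, Complex.norm_real, Real.norm_eq_abs]
      have : ‖pr ρ t + μ₂ j * (pr ρ t)⁻¹‖ ≤ ρ + ρ⁻¹ := by
        refine (norm_add_le _ _).trans ?_
        rw [norm_mul, La_n hρ, La_in hρ]
        have h3 := hμb j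
        have : ‖μ₂ j‖ * ρ⁻¹ ≤ 1 * ρ⁻¹ := by gcongr
        linarith
      gcongr
    have e2 : ‖(μ₂ j - μ₁ j) * (pr ρ t)⁻¹‖ = ‖μ₁ j - μ₂ j‖ * ρ⁻¹ := by
      rw [norm_mul, La_in hρ, norm_sub_rev]
    have e3 := norm_add₃_le (a := c j) (b := ((r j - 1 : ℝ) : ℂ) * (pr ρ t + μ₂ j * (pr ρ t)⁻¹)) (c := (μ₂ j - μ₁ j) * (pr ρ t)⁻¹)
    have f1 : |r j - 1| * (ρ + ρ⁻¹) ≤ |r j - 1| * A := by
      apply mul_le_mul_of_nonneg_left _ n2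
      rw [hA]
      linarith
    have f2 : ‖μ₁ j - μ₂ j‖ * ρ⁻¹ ≤ ‖μ₁ j - μ₂ j‖ * A := by
      apply mul_le_mul_of_nonneg_left _ n3
      rw [hA]
      linarith
    have f3 : ‖c j‖ * 1 ≤ ‖c j‖ * A := by
      apply mul_le_mul_of_nonneg_left _ n1
      rw [hA]
      linarith
    rw [← h1]
    linarith
  have hql : ∀ t, Tendsto (fun j => (z₂ j t - z₁ j t) / (d j : ℂ)) atTop (𝓝 (zt m a γ β (pr ρ t))) := by
    intro t
    have h1 : Tendsto (fun j => c j / (d j : ℂ) + (((r j - 1) / d j : ℝ) : ℂ) * (pr ρ t + μ₂ j * (pr ρ t)⁻¹) +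
        (μ₂ j - μ₁ j) / (d j : ℂ) * (pr ρ t)⁻¹) atTop (𝓝 (γ + (a : ℂ) * (pr ρ t + m * (pr ρ t)⁻¹) + β * (pr ρ t)⁻¹)) :=
      (hc.add (((Complex.continuous_ofReal.tendsto a).comp hr).mul (tendsto_const_nhds.add (hμ₂.mul_const _)))).add
        (hb.mul_const _)
    refine h1.congr fun j => ?_
    rw [hdiff]
    push_cast
    ring
  have hz1l : ∀ t, Tendsto (fun j => z₁ j t) atTop (𝓝 (La_z ρ 0 1 m t)) := by
    intro t
    exact tendsto_const_nhds.add (tendsto_const_nhds.mul (tendsto_const_nhds.add (hμ₁.mul_const _)))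
  have hCδ : 0 ≤ C / δ := div_nonneg h.pos h.δp.le
  -- the integrand
  have hlimP : ∀ t, Tendsto (fun j => (Φ j (z₂ j t) - Φ j (z₁ j t)) / (d j : ℂ)) atTop
      (𝓝 (F₀ (La_z ρ 0 1 m t) * zt m a γ β (pr ρ t))) := by
    intro t
    have h1 := (La_val h (fun j => hb₁ j t) (hz0 t) (hz1l t)).mul (hql t)
    have h2 : Tendsto (fun j => (Φ j (z₂ j t) - Φ j (z₁ j t) - F j (z₁ j t) * (z₂ j t - z₁ j t)) / (d j : ℂ)) atTop (𝓝 0) := by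
      have h3 : Tendsto (fun j => C / δ * (A * A) * d j) atTop (𝓝 (C / δ * (A * A) * 0)) := hd0.const_mul _
      rw [mul_zero] at h3
      refine squeeze_zero_norm (fun j => ?_) h3
      have hp := hd j
      rw [norm_div, Complex.norm_real, Real.norm_eq_abs, abs_of_pos hp, div_le_iff₀ hp]
      refine (La_tay h j (hΦ j) (hb₁ j t) (hb₂ j t)).trans ?_
      have h4 := hdn j t
      have h6 := norm_nonneg (z₂ j t - z₁ j t)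
      calc C / δ * ‖z₂ j t - z₁ j t‖ * ‖z₂ j t - z₁ j t‖ ≤ C / δ * (A * d j) * (A * d j) := by gcongr
        _ = C / δ * (A * A) * d j * d j := by ring
    have h4 := h2.add h1
    rw [zero_add] at h4
    refine h4.congr fun j => ?_
    have := hdC j
    field_simp
    ring
  have hΦc : ∀ j, ContinuousOn (Φ j) D2 := fun j z hz => (hΦ j z hz).continuousAt.continuousWithinAt
  have hc₁ : ∀ j, Continuous fun t => Φ j (z₁ j t) := fun j => (hΦc j).comp_continuous (La_z_cont hρ _ _ _) fun t => h.sub (hb₁ j t)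
  have hc₂ : ∀ j, Continuous fun t => Φ j (z₂ j t) := fun j => (hΦc j).comp_continuous (La_z_cont hρ _ _ _) fun t => h.sub (hb₂ j t)
  have hint : Tendsto (fun j => ∫ t in (0 : ℝ)..(2 * π), (Φ j (z₂ j t) - Φ j (z₁ j t)) / (d j : ℂ) * (pr ρ t)⁻¹ ^ (n + 1)) atTop
      (𝓝 (∫ t in (0 : ℝ)..(2 * π), F₀ (La_z ρ 0 1 m t) * zt m a γ β (pr ρ t) * (pr ρ t)⁻¹ ^ (n + 1))) := by
    refine intervalIntegral.tendsto_integral_filter_of_dominated_convergence (fun _ => C * A * ρ⁻¹ ^ (n + 1)) ?_ ?_ ?_ ?_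
    · refine Eventually.of_forall fun j => ?_
      exact ((((hc₂ j).sub (hc₁ j)).div_const _).mul ((La_ic hρ).pow _)).aestronglyMeasurable
    · refine Eventually.of_forall fun j => Eventually.of_forall fun t _ => ?_
      have hp := hd j
      have h1 : ‖Φ j (z₂ j t) - Φ j (z₁ j t)‖ ≤ C * ‖z₂ j t - z₁ j t‖ :=
        h.c2.norm_image_sub_le_of_norm_hasDerivWithin_le
          (fun z hz => (hΦ j z hz).hasDerivWithinAt) (h.bd j) (h.sub (hb₁ j t)) (h.sub (hb₂ j t))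
      rw [norm_mul, norm_div, norm_pow, La_in hρ, Complex.norm_real, Real.norm_eq_abs, abs_of_pos hp]
      have h2 : ‖Φ j (z₂ j t) - Φ j (z₁ j t)‖ / d j ≤ C * A := by
        rw [div_le_iff₀ hp]
        have h3 := hdn j t
        have h5 := h.pos
        calc _ ≤ _ := h1
          _ ≤ C * (A * d j) := by gcongr
          _ = _ := by ring
      gcongr
    · exact intervalIntegrable_const
    · exact Eventually.of_forall fun t _ => (hlimP t).mul_const _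
  have h7 := (hint.div_const (2 * π : ℂ)).const_mul ((n : ℂ) + 1)
  refine h7.congr fun j => ?_
  rw [La_parts (h.hol j) (hΦ j) hρ (fun t => h.sub (hb₁ j t)), La_parts (h.hol j) (hΦ j) hρ (fun t => h.sub (hb₂ j t))]
  have hI1 : IntervalIntegrable (fun t => Φ j (z₁ j t) * (pr ρ t)⁻¹ ^ (n + 1)) volume 0 (2 * π) :=
    ((hc₁ j).mul ((La_ic hρ).pow _)).intervalIntegrable _ _
  have hI2 : IntervalIntegrable (fun t => Φ j (z₂ j t) * (pr ρ t)⁻¹ ^ (n + 1)) volume 0 (2 * π) :=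
    ((hc₂ j).mul ((La_ic hρ).pow _)).intervalIntegrable _ _
  have h8 : (∫ t in (0 : ℝ)..(2 * π), (Φ j (z₂ j t) - Φ j (z₁ j t)) / (d j : ℂ) * (pr ρ t)⁻¹ ^ (n + 1)) =
      ((∫ t in (0 : ℝ)..(2 * π), Φ j (z₂ j t) * (pr ρ t)⁻¹ ^ (n + 1)) - ∫ t in (0 : ℝ)..(2 * π), Φ j (z₁ j t) * (pr ρ t)⁻¹ ^ (n + 1)) / (d j : ℂ) := by
    rw [← intervalIntegral.integral_sub hI2 hI1, ← intervalIntegral.integral_div]
    refine intervalIntegral.integral_congr fun t _ => ?_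
    show (Φ j (z₂ j t) - Φ j (z₁ j t)) / (d j : ℂ) * (pr ρ t)⁻¹ ^ (n + 1) =
      (Φ j (z₂ j t) * (pr ρ t)⁻¹ ^ (n + 1) - Φ j (z₁ j t) * (pr ρ t)⁻¹ ^ (n + 1)) / (d j : ℂ)
    ring
  rw [h8]
  simp only [hz₁', hz₂']
  push_cast
  ring

/-- the ellipse functional depends continuously on `μ` -/
theorem La_vv {μ : ℂ} (hμ : ‖μ‖ < 1) {σ σ' : ℝ} (h : σ < σ') :
    ∀ᶠ m in 𝓝 μ, ∀ z ∈ {z | ‖vv 0 1 μ z‖ ≤ σ}, ‖vv 0 1 m z‖ < σ' := by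
  refine IsCompact.eventually_forall_of_forall_eventually (cDp_compact one_pos hμ σ) fun z hz => ?_
  have hne : ((1 * (1 - ‖μ‖ ^ 2) : ℝ) : ℂ) ≠ 0 := by
    have h0 := norm_nonneg μ
    have : (0 : ℝ) < 1 * (1 - ‖μ‖ ^ 2) := by nlinarith
    exact_mod_cast this.ne'
  have hc : ContinuousAt (fun p : ℂ × ℂ => ‖vv 0 1 p.1 p.2‖) (μ, z) := by
    unfold vv
    refine ContinuousAt.norm (ContinuousAt.div ?_ ?_ hne)
    · exact Continuous.continuousAt (by fun_prop)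
    · exact Continuous.continuousAt (by fun_prop)
  exact hc.eventually (gt_mem_nhds (lt_of_le_of_lt hz h))

/-- the curves are in the slightly larger ellipse -/
theorem La_crv {μ₀ ρ : ℝ} (h0 : 0 ≤ μ₀) (h1 : μ₀ < ρ ^ 2) (hρ : 0 < ρ) (hρ1 : ρ < 1) {μ : ℂ} (hμ : ‖μ‖ ≤ μ₀) {σ : ℝ}
    (hσ : (ρ ^ 2 + μ₀) / (ρ * (1 + μ₀)) < σ) :
    ∀ᶠ p : ℂ × ℝ × ℂ in 𝓝 (0, 1, μ), ∀ w ∈ Metric.sphere (0 : ℂ) ρ, ‖vv 0 1 μ (p.1 + p.2.1 * (w + p.2.2 * w⁻¹))‖ < σ := by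
  refine IsCompact.eventually_forall_of_forall_eventually (isCompact_sphere (0 : ℂ) ρ) fun w hw => ?_
  have hwρ : ‖w‖ = ρ := mem_sphere_zero_iff_norm.1 hw
  have hw0 : w ≠ 0 := by
    intro h
    rw [h, norm_zero] at hwρ
    exact hρ.ne hwρ
  have hc : ContinuousAt (fun q : (ℂ × ℝ × ℂ) × ℂ => ‖vv 0 1 μ (q.1.1 + q.1.2.1 * (q.2 + q.1.2.2 * q.2⁻¹))‖) ((0, 1, μ), w) := by
    refine ContinuousAt.norm (ContinuousAt.comp (g := vv 0 1 μ) (vv_cont 0 1 μ).continuousAt ?_)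
    refine ContinuousAt.add (Continuous.continuousAt (by fun_prop)) (ContinuousAt.mul (Continuous.continuousAt (by fun_prop)) ?_)
    refine ContinuousAt.add (Continuous.continuousAt (by fun_prop)) (ContinuousAt.mul (Continuous.continuousAt (by fun_prop)) ?_)
    exact ContinuousAt.inv₀ continuous_snd.continuousAt hw0
  exact hc.eventually (gt_mem_nhds (lt_of_le_of_lt (crv h0 h1 hρ hρ1 one_pos hμ hwρ) hσ))

theorem La_dd (S : Sq) (j : ℕ) : ‖S.c₂ j‖ + |S.r₂ j - 1| + ‖S.μ₁ j - S.μ₂ j‖ = S.d j := by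
  unfold Sq.d dd
  rw [zero_sub, norm_neg, abs_sub_comm]

theorem La_C {S : Sq} {μ₀ : ℝ} {μ : ℂ} {a : ℝ} {γ β : ℂ} (hS : LimG S μ₀ μ a γ β) : Tendsto S.c₂ atTop (𝓝 0) := by
  refine squeeze_zero_norm (fun j => ?_) hS.ld
  have h := La_dd S j
  have n2 := abs_nonneg (S.r₂ j - 1)
  have n3 := norm_nonneg (S.μ₁ j - S.μ₂ j)
  linarith

theorem La_R {S : Sq} {μ₀ : ℝ} {μ : ℂ} {a : ℝ} {γ β : ℂ} (hS : LimG S μ₀ μ a γ β) : Tendsto S.r₂ atTop (𝓝 1) := by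
  have h1 : Tendsto (fun j => S.r₂ j - 1) atTop (𝓝 0) := by
    refine squeeze_zero_norm (fun j => ?_) hS.ld
    have h := La_dd S j
    have n1 := norm_nonneg (S.c₂ j)
    have n3 := norm_nonneg (S.μ₁ j - S.μ₂ j)
    rw [Real.norm_eq_abs]
    linarith
  have h2 := h1.add_const 1
  rw [zero_add] at h2
  refine h2.congr fun j => ?_
  ring

theorem La_rb {S : Sq} {μ₀ : ℝ} {μ : ℂ} {a : ℝ} {γ β : ℂ} (hS : LimG S μ₀ μ a γ β) (j : ℕ) : |S.r₂ j| ≤ 2 := by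
  have h := La_dd S j
  have h1 := hS.small j
  have n1 := norm_nonneg (S.c₂ j)
  have n2 : |S.r₂ j - 1| ≤ 1 := by
    have n3 := norm_nonneg (S.μ₁ j - S.μ₂ j)
    linarith
  have h2 := abs_le.1 n2
  rw [abs_le]
  constructor <;> linarith

/-- everything needed, from some index on -/
theorem La_all {μ₀ ρ : ℝ} (h0 : 0 ≤ μ₀) (h1 : μ₀ < ρ ^ 2) (hρ : 0 < ρ) (hρ1 : ρ < 1) {S : Sq} {μ : ℂ} {a : ℝ} {γ β : ℂ}
    (hS : LimG S μ₀ μ a γ β) {F : ℕ → ℂ → ℂ} {F₀ : ℂ → ℂ} (hF : LBG S μ F F₀) :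
    ∃ (J : ℕ) (D1 D2 : Set ℂ) (δ C : ℝ), La_H D1 D2 δ C (fun j => F (j + J)) F₀ ∧
      (∀ j t, La_z ρ 0 1 (S.μ₁ (j + J)) t ∈ D1) ∧ (∀ j t, La_z ρ (S.c₂ (j + J)) (S.r₂ (j + J)) (S.μ₂ (j + J)) t ∈ D1) ∧
      (∀ t, La_z ρ 0 1 μ t ∈ D1) := by
  have hρ2 : ρ ^ 2 < ρ := by nlinarith
  have hμρ : μ₀ < ρ := h1.trans hρ2
  have hμ₀1 : μ₀ < 1 := hμρ.trans hρ1
  have hμ : ‖μ‖ ≤ μ₀ := le_of_tendsto hS.lm1.norm (Eventually.of_forall hS.m1)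
  have hμ1 : ‖μ‖ < 1 := lt_of_le_of_lt hμ hμ₀1
  obtain ⟨τ, hτ⟩ : ∃ τ : ℝ, τ = (ρ ^ 2 + μ₀) / (ρ * (1 + μ₀)) := ⟨_, rfl⟩
  have hτ0 : 0 ≤ τ := by
    rw [hτ]
    positivity
  have hτ1 : τ < 1 := by
    rw [hτ, div_lt_one (by positivity)]
    nlinarith [mul_pos (sub_pos.2 hρ1) (sub_pos.2 hμρ)]
  obtain ⟨σ1, hσ1⟩ : ∃ σ : ℝ, σ = τ + (1 - τ) / 4 := ⟨_, rfl⟩
  obtain ⟨σ2, hσ2⟩ : ∃ σ : ℝ, σ = τ + (1 - τ) / 2 := ⟨_, rfl⟩
  obtain ⟨σ3, hσ3⟩ : ∃ σ : ℝ, σ = τ + 3 * (1 - τ) / 4 := ⟨_, rfl⟩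
  have a1 : τ < σ1 := by linarith
  have a2 : σ1 < σ2 := by linarith
  have a3 : σ2 < σ3 := by linarith
  have a4 : σ3 < 1 := by linarith
  obtain ⟨L, hL, hvL⟩ := vv_lip (r₀ := 1) (R := 1) one_pos h0 hμ₀1
  have hPS : PS 1 1 μ₀ 0 1 μ := ⟨by simp, le_rfl, le_rfl, hμ⟩
  have l1 : Tendsto (fun j => ((0 : ℂ), (1 : ℝ), S.μ₁ j)) atTop (𝓝 (0, 1, μ)) :=
    tendsto_const_nhds.prodMk_nhds (tendsto_const_nhds.prodMk_nhds hS.lm1)
  have l2 : Tendsto (fun j => (S.c₂ j, S.r₂ j, S.μ₂ j)) atTop (𝓝 (0, 1, μ)) :=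
    (La_C hS).prodMk_nhds ((La_R hS).prodMk_nhds hS.lm2)
  have hcrv := La_crv h0 h1 hρ hρ1 hμ (σ := σ1) (by rw [← hτ]; exact a1)
  obtain ⟨J, hJ⟩ := eventually_atTop.1 ((hS.lm1.eventually (La_vv hμ1 a3)).and ((l1.eventually hcrv).and (l2.eventually hcrv)))
  obtain ⟨C, hC⟩ := hF.bd σ3 (by linarith) a4
  have hE : ∀ j, J ≤ j → Dp 0 1 μ σ2 ⊆ S.E₁ σ3 j := by
    intro j hj z hz
    have hz' : ‖vv 0 1 μ z‖ < σ2 := hz
    exact (hJ j hj).1 z hz'.le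
  have hpr : ∀ t, pr ρ t ∈ Metric.sphere (0 : ℂ) ρ := fun t => mem_sphere_zero_iff_norm.2 (La_n hρ t)
  refine ⟨J, Dp 0 1 μ σ1, Dp 0 1 μ σ2, (σ2 - σ1) / L, C, ?_, ?_, ?_, ?_⟩
  · refine ⟨Dp_convex _ _ _ _, Dp_convex _ _ _ _, Dp_open _ _ _ _, div_pos (by linarith) hL, ?_, ?_, ?_, ?_, ?_⟩
    · have h3 : (0 : ℂ) ∈ Dp 0 1 μ σ2 := by
        show ‖vv 0 1 μ 0‖ < σ2
        simp only [vv, sub_zero, map_zero, mul_zero, zero_div, norm_zero]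
        linarith
      exact (norm_nonneg _).trans (hC J 0 (Or.inl (hE J le_rfl h3)))
    · intro z hz z' hz'
      have e1 : ‖vv 0 1 μ z‖ < σ1 := hz
      have e2 := hvL 0 1 μ hPS z' z
      have e3 : ‖z' - z‖ ≤ (σ2 - σ1) / L := mem_closedBall_iff_norm.1 hz'
      have e4 : ‖vv 0 1 μ z'‖ ≤ ‖vv 0 1 μ z‖ + ‖vv 0 1 μ z' - vv 0 1 μ z‖ := by
        have := norm_add_le (vv 0 1 μ z) (vv 0 1 μ z' - vv 0 1 μ z)
        rwa [add_sub_cancel] at this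
      have e5 : L * ‖z' - z‖ ≤ σ2 - σ1 := by
        rw [le_div_iff₀ hL] at e3
        linarith
      show ‖vv 0 1 μ z'‖ < σ2
      linarith
    · intro j
      obtain ⟨N, _, hN, _, hd⟩ := hF.hol (j + J)
      refine hd.mono fun z hz => hN ?_
      have := hE (j + J) (Nat.le_add_left _ _) hz
      exact le_of_lt ((show ‖vv 0 1 (S.μ₁ (j + J)) z‖ < σ3 from this).trans a4)
    · intro j z hz
      exact hC (j + J) z (Or.inl (hE (j + J) (Nat.le_add_left _ _) hz))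
    · intro z hz
      have h3 : z ∈ Dp 0 1 μ 1 := Dp_mono 0 1 μ (by linarith) hz
      exact (hF.lim z h3).comp (tendsto_add_atTop_nat J)
  · intro j t
    exact (hJ (j + J) (Nat.le_add_left _ _)).2.1 (pr ρ t) (hpr t)
  · intro j t
    exact (hJ (j + J) (Nat.le_add_left _ _)).2.2 (pr ρ t) (hpr t)
  · intro t
    have h3 := crv h0 h1 hρ hρ1 (c := 0) (r := 1) one_pos hμ (La_n hρ t)
    rw [← hτ] at h3
    exact lt_of_le_of_lt h3 a1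

theorem fcLG {μ₀ ρ : ℝ} (h0 : 0 ≤ μ₀) (h1 : μ₀ < ρ ^ 2) (hρ : 0 < ρ) (hρ1 : ρ < 1) {S : Sq} {μ : ℂ} {a : ℝ} {γ β : ℂ}
    (hS : LimG S μ₀ μ a γ β) {F : ℕ → ℂ → ℂ} {F₀ : ℂ → ℂ} (hF : LBG S μ F F₀) (n : ℕ) :
    Tendsto (fun j => fc 0 1 (S.μ₁ j) (F j) ρ (n + 1)) atTop (𝓝 (fc 0 1 μ F₀ ρ (n + 1))) ∧
    Tendsto (fun j => fc (S.c₂ j) (S.r₂ j) (S.μ₂ j) (F j) ρ (n + 1)) atTop (𝓝 (fc 0 1 μ F₀ ρ (n + 1))) := by
  obtain ⟨J, D1, D2, δ, C, hH, hz₁, hz₂, hz0⟩ := La_all h0 h1 hρ hρ1 hS hF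
  have hμ₀ : μ₀ ≤ 1 := by nlinarith
  have ht := tendsto_add_atTop_nat J
  constructor
  · rw [← tendsto_add_atTop_iff_nat J]
    exact La_L hH hρ hz₁ hz0 (fun j => by norm_num) (fun j => (hS.m1 _).trans hμ₀)
      tendsto_const_nhds tendsto_const_nhds (hS.lm1.comp ht) (n + 1)
  · rw [← tendsto_add_atTop_iff_nat J]
    exact La_L hH hρ hz₂ hz0 (fun j => La_rb hS _) (fun j => (hS.m2 _).trans hμ₀)
      ((La_C hS).comp ht) ((La_R hS).comp ht) (hS.lm2.comp ht) (n + 1)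

theorem fcDG {μ₀ ρ : ℝ} (h0 : 0 ≤ μ₀) (h1 : μ₀ < ρ ^ 2) (hρ : 0 < ρ) (hρ1 : ρ < 1) {S : Sq} {μ : ℂ} {a : ℝ} {γ β : ℂ}
    (hS : LimG S μ₀ μ a γ β) {F : ℕ → ℂ → ℂ} {F₀ : ℂ → ℂ} (hF : LBG S μ F F₀) (n : ℕ) :
    Tendsto (fun j => (fc (S.c₂ j) (S.r₂ j) (S.μ₂ j) (F j) ρ (n + 1) - fc 0 1 (S.μ₁ j) (F j) ρ (n + 1)) / (S.d j : ℂ)) atTop
      (𝓝 (((n : ℂ) + 1) * cz ρ (fun w => zt μ a γ β w * F₀ (zw μ w)) ((n : ℤ) + 1))) := by
  obtain ⟨J, D1, D2, δ, C, hH, hz₁, hz₂, hz0⟩ := La_all h0 h1 hρ hρ1 hS hF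
  have hμ₀ : μ₀ ≤ 1 := by nlinarith
  have ht := tendsto_add_atTop_nat J
  have h2 := La_D hH hρ (d := fun j => S.d (j + J)) hz₁ hz₂ hz0 (fun j => (hS.m2 _).trans hμ₀) (fun j => hS.pos _)
    (fun j => La_dd S _) (hS.lm1.comp ht) (hS.lm2.comp ht) (hS.ld.comp ht) (hS.lc.comp ht) (hS.lr.comp ht) (hS.lb.comp ht) n
  rw [← tendsto_add_atTop_iff_nat J]
  have e : cz ρ (fun w => zt μ a γ β w * F₀ (zw μ w)) ((n : ℤ) + 1) =
      (∫ t in (0 : ℝ)..(2 * π), F₀ (La_z ρ 0 1 μ t) * zt μ a γ β (pr ρ t) * (pr ρ t)⁻¹ ^ (n + 1)) / (2 * π) := by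
    unfold cz
    congr 1
    refine intervalIntegral.integral_congr fun t _ => ?_
    have e1 : La_z ρ 0 1 μ t = zw μ (pr ρ t) := by
      unfold La_z zw
      push_cast
      ring
    have e2 : pr ρ t ^ (-((n : ℤ) + 1)) = (pr ρ t)⁻¹ ^ (n + 1) := by
      rw [zpow_neg, inv_pow]
      norm_cast
    show zt μ a γ β (pr ρ t) * F₀ (zw μ (pr ρ t)) * pr ρ t ^ (-((n : ℤ) + 1)) = _
    rw [e1, e2]
    ring
  rw [e]
  exact h2

end LD1
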