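import Pool.Agent.H1.LD.La
import Pool.Agent.H1.ND.Na

/-!
ROW LD/Lb. First variation of the moments. Green's formula on the ellipse, contour moved to `‖w‖ = ρ`: with `z_i(w) = c + r (w + μ_i/w)`, `z_i*(w) = conj c + r (1/w + conj μ_i w)`:
`∫_{Dp c r μ_i 1} F conj z^b = (1/(2(b+1))) ∫_0^(2π) F (z_i(w)) z_i*(w)^(b+1) r (w - μ_i/w) dt`, `w = pr ρ t` (from `PM` in `ND/Na.lean`: `r (w - μ/w) F(z(w)) = ∑ F_n (w^n - (μ/w)^n)`, the right side is `π/(b+1)` times the constant coefficient of this times `z*^(b+1)`;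
`z*^(b+1)` is `b+1` times the `*` of a primitive of `z^b`; or prove it for `F` a polynomial (dense) or by Stokes on the boundary and Cauchy's theorem on the annulus `ρ < ‖w‖ < 1`). Derivative under the integral sign (as in `fcDG`, `LD/La.lean`) and integration by parts
(`w d/dw (F₀(z) ζ z*^(b+1))` has integral `0`, `w z' = pw`, `w (z*)' = -ps`): the limit is `∫ F₀(z) z*^b (ζ* pw + ζ ps)/2`, and `(ζ* pw + ζ ps)/2 = Uw` (`ζ = zt`, `ζ* = conj γ + a (1/w + conj μ w) + conj β w`).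
`LBG.mul`, `LBG.const`: as in `ND/Nc.lean`.
-/

set_option autoImplicit false

namespace LD1

open Complex Set Filter Topology MeasureTheory EW1 EX1 ND1
open scoped ComplexConjugate ContDiff Real

theorem Lb_mem {c : ℂ} {r : ℝ} (hr : 0 < r) {μ w : ℂ} (h1 : ‖μ‖ < ‖w‖) (h2 : ‖w‖ < 1) :
    c + r * (w + μ * w⁻¹) ∈ Dp c r μ 1 := by
  have ha0 : 0 ≤ ‖μ‖ := norm_nonneg μ
  have hs0 : 0 < ‖w‖ := ha0.trans_lt h1
  obtain ⟨s, hs⟩ : ∃ s : ℝ, s = ‖w‖ := ⟨_, rfl⟩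
  rw [← hs] at h1 h2 hs0
  have ha1 : ‖μ‖ < 1 := h1.trans h2
  have hq : 0 < 1 - ‖μ‖ ^ 2 := by nlinarith
  have hw0 : w ≠ 0 := by
    intro h
    rw [h, norm_zero] at hs
    linarith
  have hwc : w * conj w = ((s ^ 2 : ℝ) : ℂ) := by
    rw [Complex.mul_conj, Complex.normSq_eq_norm_sq, ← hs]
  have hsC : (s : ℂ) ≠ 0 := by exact_mod_cast hs0.ne'
  have hinv : w⁻¹ = conj w / ((s ^ 2 : ℝ) : ℂ) := by
    have hs2C : ((s ^ 2 : ℝ) : ℂ) ≠ 0 := by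
      push_cast
      exact pow_ne_zero 2 hsC
    rw [eq_div_iff hs2C, ← hwc, ← mul_assoc, inv_mul_cancel₀ hw0, one_mul]
  have hrC : (r : ℂ) ≠ 0 := by exact_mod_cast hr.ne'
  have hqC : ((1 - ‖μ‖ ^ 2 : ℝ) : ℂ) ≠ 0 := by exact_mod_cast hq.ne'
  have hμc : μ * conj μ = ((‖μ‖ ^ 2 : ℝ) : ℂ) := by
    rw [Complex.mul_conj, Complex.normSq_eq_norm_sq]
  have e : vv c r μ (c + r * (w + μ * w⁻¹)) =
      (((1 - ‖μ‖ ^ 2 / s ^ 2 : ℝ) : ℂ) * w + μ * (((1 / s ^ 2 - 1 : ℝ) : ℂ) * conj w)) / ((1 - ‖μ‖ ^ 2 : ℝ) : ℂ) := by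
    unfold vv
    have e1 : c + r * (w + μ * w⁻¹) - c = r * (w + μ * (conj w / ((s ^ 2 : ℝ) : ℂ))) := by
      rw [hinv]
      ring
    rw [e1]
    have e2 : (r : ℂ) * (w + μ * (conj w / ((s ^ 2 : ℝ) : ℂ))) -
        μ * conj ((r : ℂ) * (w + μ * (conj w / ((s ^ 2 : ℝ) : ℂ)))) =
        r * (((1 - ‖μ‖ ^ 2 / s ^ 2 : ℝ) : ℂ) * w + μ * (((1 / s ^ 2 - 1 : ℝ) : ℂ) * conj w)) := by
      simp only [map_mul, map_add, map_div₀, Complex.conj_ofReal, Complex.conj_conj]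
      push_cast
      push_cast at hμc
      linear_combination (-(r : ℂ) * w / (s : ℂ) ^ 2) * hμc
    rw [e2]
    push_cast
    push_cast at hqC
    field_simp
  have hn1 : 0 ≤ 1 - ‖μ‖ ^ 2 / s ^ 2 := by
    rw [sub_nonneg, div_le_one (by positivity)]
    nlinarith
  have hn2 : 0 ≤ 1 / s ^ 2 - 1 := by
    rw [sub_nonneg, le_div_iff₀ (by positivity)]
    nlinarith
  have h2' : ‖((1 - ‖μ‖ ^ 2 / s ^ 2 : ℝ) : ℂ) * w + μ * (((1 / s ^ 2 - 1 : ℝ) : ℂ) * conj w)‖ ≤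
      (1 - ‖μ‖ ^ 2 / s ^ 2) * s + ‖μ‖ * ((1 / s ^ 2 - 1) * s) := by
    refine (norm_add_le _ _).trans (le_of_eq ?_)
    rw [norm_mul, norm_mul, norm_mul, RCLike.norm_conj, ← hs, Complex.norm_real, Complex.norm_real, Real.norm_eq_abs,
      Real.norm_eq_abs, abs_of_nonneg hn1, abs_of_nonneg hn2]
  have h3 : (1 - ‖μ‖ ^ 2 / s ^ 2) * s + ‖μ‖ * ((1 / s ^ 2 - 1) * s) = (s ^ 2 + ‖μ‖) * (1 - ‖μ‖) / s := by
    field_simp
    ring
  rw [h3] at h2'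
  show ‖vv c r μ (c + r * (w + μ * w⁻¹))‖ < 1
  rw [e, norm_div, Complex.norm_real, Real.norm_eq_abs, abs_of_pos hq, div_lt_one hq]
  refine h2'.trans_lt ?_
  rw [div_lt_iff₀ hs0]
  have h4 : 0 < (1 - s) * (s - ‖μ‖) := mul_pos (by linarith) (by linarith)
  have h5 : 0 < 1 - ‖μ‖ := by linarith
  nlinarith [mul_pos h5 h4]

theorem Lb_pr_ne {ρ : ℝ} (hρ : 0 < ρ) (t : ℝ) : pr ρ t ≠ 0 :=
  mul_ne_zero (by exact_mod_cast hρ.ne') (Complex.exp_ne_zero _)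

theorem Lb_pr_norm {ρ : ℝ} (hρ : 0 < ρ) (t : ℝ) : ‖pr ρ t‖ = ρ := fbw_norm hρ t

theorem Lb_pr_cont (ρ : ℝ) : Continuous (pr ρ) := fbw_cont ρ

theorem Lb_pr_icont {ρ : ℝ} (hρ : 0 < ρ) : Continuous fun t => (pr ρ t)⁻¹ := (Lb_pr_cont ρ).inv₀ (Lb_pr_ne hρ)

/-- antisymmetry under `w ↦ μ/w` -/
theorem Lb_sym {c : ℂ} {r : ℝ} {μ : ℂ} {ρ : ℝ} (hr : 0 < r) (hρ0 : 0 < ρ) (hρ : ‖μ‖ < ρ ^ 2) (hρ1 : ρ < 1) {F : ℂ → ℂ}
    (hF : DifferentiableOn ℂ F (Dp c r μ 1)) (k : ℕ) :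
    ∫ t in (0 : ℝ)..(2 * π), F (c + r * (pr ρ t + μ * (pr ρ t)⁻¹)) * (r * (pr ρ t - μ * (pr ρ t)⁻¹)) *
      (pr ρ t ^ k + (μ * (pr ρ t)⁻¹) ^ k) = 0 := by
  by_cases hμ0 : μ = 0
  · subst hμ0
    have h0 : ∀ m : ℕ, ∫ t in (0 : ℝ)..(2 * π), F (c + r * pr ρ t) * (r * pr ρ t) * pr ρ t ^ m = 0 := by
      intro m
      have h1 : DifferentiableOn ℂ (fun w => F (c + r * w) * (r * w ^ m)) (Metric.ball 0 1) := by
        refine DifferentiableOn.mul (hF.comp (by fun_prop) fun w hw => ?_) (by fun_prop)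
        show c + r * w ∈ Dp c r 0 1
        by_cases hw0 : w = 0
        · subst hw0
          show ‖vv c r 0 (c + r * 0)‖ < 1
          unfold vv
          simp
        · have := Lb_mem (c := c) hr (μ := 0) (w := w) (by rw [norm_zero]; exact norm_pos_iff.2 hw0) (mem_ball_zero_iff.1 hw)
          rwa [zero_mul, add_zero] at this
      have h1' := h1.mono (Metric.closedBall_subset_ball hρ1)
      have h2 : (∮ z in C(0, ρ), F (c + r * z) * (r * z ^ m)) = 0 := by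
        refine Complex.circleIntegral_eq_zero_of_differentiable_on_off_countable hρ0.le Set.countable_empty
          h1'.continuousOn fun z hz => ?_
        exact (h1.mono (Metric.ball_subset_ball hρ1.le)).differentiableAt (Metric.isOpen_ball.mem_nhds hz.1)
      have h3 : (∮ z in C(0, ρ), F (c + r * z) * (r * z ^ m)) = I * ∫ t in (0 : ℝ)..(2 * π),
          F (c + r * pr ρ t) * (r * pr ρ t) * pr ρ t ^ m := by
        rw [circleIntegral, ← intervalIntegral.integral_const_mul]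
        refine intervalIntegral.integral_congr fun t _ => ?_
        have h4 : circleMap 0 ρ t = pr ρ t := by
          unfold circleMap pr
          ring
        show deriv (circleMap 0 ρ) t • (F (c + r * circleMap 0 ρ t) * (r * circleMap 0 ρ t ^ m)) = _
        rw [deriv_circleMap, h4, smul_eq_mul]
        ring
      rw [h3] at h2
      exact (mul_eq_zero.1 h2).resolve_left I_ne_zero
    rcases Nat.eq_zero_or_pos k with hk | hk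
    · subst hk
      have h5 : ∀ t : ℝ, F (c + r * (pr ρ t + 0 * (pr ρ t)⁻¹)) * (r * (pr ρ t - 0 * (pr ρ t)⁻¹)) *
          (pr ρ t ^ 0 + (0 * (pr ρ t)⁻¹) ^ 0) = 2 * (F (c + r * pr ρ t) * (r * pr ρ t) * pr ρ t ^ 0) := by
        intro t
        rw [zero_mul, add_zero, sub_zero, pow_zero, pow_zero]
        ring
      simp only [h5]
      rw [intervalIntegral.integral_const_mul, h0, mul_zero]
    · have h5 : ∀ t : ℝ, F (c + r * (pr ρ t + 0 * (pr ρ t)⁻¹)) * (r * (pr ρ t - 0 * (pr ρ t)⁻¹)) *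
          (pr ρ t ^ k + (0 * (pr ρ t)⁻¹) ^ k) = F (c + r * pr ρ t) * (r * pr ρ t) * pr ρ t ^ k := by
        intro t
        rw [zero_mul, add_zero, sub_zero, zero_pow (by omega), add_zero]
      simp only [h5]
      exact h0 k
  · have hμn : 0 < ‖μ‖ := norm_pos_iff.2 hμ0
    have hμρ : ‖μ‖ < ρ := hρ.trans (by nlinarith)
    obtain ⟨f, hf⟩ : ∃ f : ℂ → ℂ, f = fun ζ => F (c + r * (exp ζ + μ * (exp ζ)⁻¹)) * (r * (exp ζ - μ * (exp ζ)⁻¹)) *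
      (exp ζ ^ k + (μ * (exp ζ)⁻¹) ^ k) := ⟨_, rfl⟩
    have hfd : DifferentiableOn ℂ f {ζ | Real.log ‖μ‖ < ζ.re ∧ ζ.re < 0} := by
      rw [hf]
      have hi : Differentiable ℂ fun ζ : ℂ => (exp ζ)⁻¹ := fun ζ => (Complex.differentiable_exp ζ).inv (Complex.exp_ne_zero ζ)
      refine DifferentiableOn.mul (DifferentiableOn.mul ?_ ?_) ?_
      · refine hF.comp ?_ ?_
        · exact (Differentiable.differentiableOn (by fun_prop))
        · intro ζ hζ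
          refine Lb_mem hr ?_ ?_
          · rw [Complex.norm_exp]
            exact (Real.log_lt_iff_lt_exp hμn).1 hζ.1
          · rw [Complex.norm_exp]
            rw [← Real.exp_zero]
            exact Real.exp_lt_exp.2 hζ.2
      · exact (Differentiable.differentiableOn (by fun_prop))
      · exact (Differentiable.differentiableOn (by fun_prop))
    have hper : ∀ ζ : ℂ, f (ζ + 2 * π * I) = f ζ := by
      intro ζ
      rw [hf]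
      simp only
      rw [Complex.exp_periodic ζ]
    have hanti : ∀ ζ : ℂ, f (Complex.log μ - ζ) = -f ζ := by
      intro ζ
      rw [hf]
      simp only
      have h1 : exp (Complex.log μ - ζ) = μ * (exp ζ)⁻¹ := by
        rw [Complex.exp_sub, Complex.exp_log hμ0, div_eq_mul_inv]
      have h0 := Complex.exp_ne_zero ζ
      have h2 : μ * (μ * (exp ζ)⁻¹)⁻¹ = exp ζ := by
        rw [mul_inv, inv_inv, ← mul_assoc, mul_inv_cancel₀ hμ0, one_mul]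
      rw [h1, h2, add_comm (μ * (exp ζ)⁻¹) (exp ζ)]
      ring
    have hl1 : Real.log ‖μ‖ < Real.log ρ := Real.log_lt_log hμn hμρ
    have hl2 : Real.log ρ < 0 := Real.log_neg hρ0 hρ1
    have key := ED1.per_const hfd hper (ρ := Real.log ρ) (ρ' := Real.log ‖μ‖ - Real.log ρ) ⟨hl1, hl2⟩
      ⟨by linarith, by linarith⟩
    have e1 : ∀ t : ℝ, f (((Real.log ‖μ‖ - Real.log ρ : ℝ) : ℂ) + t * I) = -f ((Real.log ρ : ℂ) + ((arg μ - t : ℝ) : ℂ) * I) := by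
      intro t
      rw [← hanti]
      congr 1
      have : Complex.log μ = (Real.log ‖μ‖ : ℂ) + arg μ * I := rfl
      rw [this]
      push_cast
      ring
    simp only [e1] at key
    rw [intervalIntegral.integral_neg,
      intervalIntegral.integral_comp_sub_left (fun t : ℝ => f ((Real.log ρ : ℂ) + (t : ℂ) * I)) (arg μ)] at key
    have hg : Function.Periodic (fun t : ℝ => f ((Real.log ρ : ℂ) + (t : ℂ) * I)) (2 * π) := by
      intro t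
      have e2 : (Real.log ρ : ℂ) + ((t + 2 * π : ℝ) : ℂ) * I = ((Real.log ρ : ℂ) + (t : ℂ) * I) + 2 * π * I := by
        push_cast
        ring
      simp only [e2]
      exact hper _
    have h5 := hg.intervalIntegral_add_eq (arg μ - 2 * π) 0
    rw [sub_add_cancel, zero_add] at h5
    rw [sub_zero, h5] at key
    have h6 : ∫ t in (0 : ℝ)..(2 * π), f ((Real.log ρ : ℂ) + (t : ℂ) * I) = 0 := by
      have h7 : (2 : ℂ) * ∫ t in (0 : ℝ)..(2 * π), f ((Real.log ρ : ℂ) + (t : ℂ) * I) = 0 := by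
        rw [two_mul]
        nth_rewrite 2 [key]
        rw [add_neg_cancel]
      exact (mul_eq_zero.1 h7).resolve_left two_ne_zero
    rw [← h6]
    refine intervalIntegral.integral_congr fun t _ => ?_
    have h8 : exp ((Real.log ρ : ℂ) + (t : ℂ) * I) = pr ρ t := by
      rw [Complex.exp_add, ← Complex.ofReal_exp, Real.exp_log hρ0]
      rfl
    rw [hf]
    simp only
    rw [h8]


theorem Lb_zpow {ρ : ℝ} (hρ : 0 < ρ) (m : ℤ) :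
    ∫ t in (0 : ℝ)..(2 * π), pr ρ t ^ m = if m = 0 then (2 * π : ℂ) else 0 := by
  have h1 : ∀ t : ℝ, pr ρ t ^ m = (ρ : ℂ) ^ m * exp ((m * I) * t) := by
    intro t
    unfold pr
    rw [mul_zpow, ← Complex.exp_int_mul]
    congr 2
    ring
  simp only [h1]
  rw [intervalIntegral.integral_const_mul]
  split_ifs with h
  · subst h
    simp
  · have hm : (m : ℂ) * I ≠ 0 := mul_ne_zero (by exact_mod_cast h) I_ne_zero
    rw [integral_exp_mul_complex hm]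
    have h2 : (m : ℂ) * I * ((2 * π : ℝ) : ℂ) = m * (2 * π * I) := by push_cast; ring
    rw [h2, Complex.exp_int_mul_two_pi_mul_I]
    simp

/-- symmetric Laurent polynomials -/
def Lb_P (μ : ℂ) (b : ℕ) (f : ℂ → ℂ) : Prop :=
  ∃ u : ℕ → ℂ, ∀ w : ℂ, w ≠ 0 → f w = ∑ k ∈ Finset.range (b + 1), u k * (w ^ k + (μ * w⁻¹) ^ k)

theorem Lb_P.add {μ : ℂ} {b : ℕ} {f g : ℂ → ℂ} (hf : Lb_P μ b f) (hg : Lb_P μ b g) : Lb_P μ b (fun w => f w + g w) := by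
  obtain ⟨u, hu⟩ := hf
  obtain ⟨v, hv⟩ := hg
  refine ⟨fun k => u k + v k, fun w hw => ?_⟩
  simp only
  rw [hu w hw, hv w hw, ← Finset.sum_add_distrib]
  exact Finset.sum_congr rfl fun k _ => by ring

theorem Lb_P.smul {μ : ℂ} {b : ℕ} {f : ℂ → ℂ} (hf : Lb_P μ b f) (a : ℂ) : Lb_P μ b (fun w => a * f w) := by
  obtain ⟨u, hu⟩ := hf
  refine ⟨fun k => a * u k, fun w hw => ?_⟩
  simp only
  rw [hu w hw, Finset.mul_sum]
  exact Finset.sum_congr rfl fun k _ => by ring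

theorem Lb_P_base (μ : ℂ) {b k : ℕ} (hk : k ≤ b) : Lb_P μ b (fun w => w ^ k + (μ * w⁻¹) ^ k) := by
  refine ⟨fun i => if i = k then 1 else 0, fun w _ => ?_⟩
  rw [Finset.sum_eq_single_of_mem k (Finset.mem_range.2 (by omega))]
  · simp
  · intro i _ hi
    simp [hi]

theorem Lb_P_congr {μ : ℂ} {b : ℕ} {f g : ℂ → ℂ} (hf : Lb_P μ b f) (h : ∀ w : ℂ, w ≠ 0 → g w = f w) : Lb_P μ b g := by
  obtain ⟨u, hu⟩ := hf
  exact ⟨u, fun w hw => by rw [h w hw, hu w hw]⟩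

theorem Lb_P_sum {μ : ℂ} {b : ℕ} (s : Finset ℕ) (f : ℕ → ℂ → ℂ) (h : ∀ k ∈ s, Lb_P μ b (f k)) :
    Lb_P μ b (fun w => ∑ k ∈ s, f k w) := by
  induction s using Finset.induction_on with
  | empty => exact ⟨fun _ => 0, fun w _ => by simp⟩
  | insert a s ha ih =>
    have h1 := (h a (Finset.mem_insert_self _ _)).add (ih fun k hk => h k (Finset.mem_insert_of_mem hk))
    exact Lb_P_congr h1 fun w _ => by rw [Finset.sum_insert ha]

theorem Lb_exp (c : ℂ) (r : ℝ) (μ : ℂ) (b : ℕ) : Lb_P μ b (fun w => (c + r * (w + μ * w⁻¹)) ^ b) := by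
  induction b with
  | zero => exact ⟨fun _ => 1 / 2, fun w _ => by simp; ring⟩
  | succ b ih =>
    obtain ⟨u, hu⟩ := ih
    have h1 : Lb_P μ (b + 1) (fun w => ∑ k ∈ Finset.range (b + 1), u k * ((c + r * (w + μ * w⁻¹)) * (w ^ k + (μ * w⁻¹) ^ k))) := by
      refine Lb_P_sum _ _ fun k hk => Lb_P.smul ?_ (u k)
      rw [Finset.mem_range] at hk
      rcases Nat.eq_zero_or_pos k with h0 | h0
      · subst h0
        have h2 := ((Lb_P_base μ (b := b + 1) (k := 0) (by omega)).smul c).add ((Lb_P_base μ (b := b + 1) (k := 1) (by omega)).smul (2 * r))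
        exact Lb_P_congr h2 fun w hw => by ring
      · obtain ⟨m, rfl⟩ : ∃ m, k = m + 1 := ⟨k - 1, by omega⟩
        have h2 := (((Lb_P_base μ (b := b + 1) (k := m + 1) (by omega)).smul c).add
          ((Lb_P_base μ (b := b + 1) (k := m + 2) (by omega)).smul r)).add ((Lb_P_base μ (b := b + 1) (k := m) (by omega)).smul (r * μ))
        refine Lb_P_congr h2 fun w hw => ?_
        have e : w * w⁻¹ = 1 := mul_inv_cancel₀ hw
        linear_combination (r * μ * w ^ m + r * μ * (μ * w⁻¹) ^ m) * e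
    refine Lb_P_congr h1 fun w hw => ?_
    have h3 := hu w hw
    simp only at h3
    rw [pow_succ, h3, Finset.sum_mul]
    exact Finset.sum_congr rfl fun k _ => by ring

/-- the derivative of the expansion -/
theorem Lb_dexp {c : ℂ} {r : ℝ} {μ : ℂ} {b : ℕ} {u : ℕ → ℂ}
    (hu : ∀ w : ℂ, w ≠ 0 → (c + r * (w + μ * w⁻¹)) ^ (b + 1) = ∑ k ∈ Finset.range (b + 1 + 1), u k * (w ^ k + (μ * w⁻¹) ^ k))
    {w : ℂ} (hw : w ≠ 0) : ((b : ℂ) + 1) * ((c + r * (w + μ * w⁻¹)) ^ b * (r * (w - μ * w⁻¹))) =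
      ∑ k ∈ Finset.range (b + 1 + 1), (k : ℂ) * u k * (w ^ k - (μ * w⁻¹) ^ k) := by
  have hi : HasDerivAt (fun w : ℂ => μ * w⁻¹) (μ * (-(w ^ 2)⁻¹)) w := (hasDerivAt_inv hw).const_mul μ
  have h1 : HasDerivAt (fun w : ℂ => (c + r * (w + μ * w⁻¹)) ^ (b + 1))
      (((b + 1 : ℕ) : ℂ) * (c + r * (w + μ * w⁻¹)) ^ b * (r * (1 + μ * (-(w ^ 2)⁻¹)))) w := by
    have h2 := ((((hasDerivAt_id w).add hi).const_mul (r : ℂ)).const_add c).pow (b + 1)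
    exact h2
  have h2 : HasDerivAt (fun w : ℂ => ∑ k ∈ Finset.range (b + 1 + 1), u k * (w ^ k + (μ * w⁻¹) ^ k))
      (∑ k ∈ Finset.range (b + 1 + 1), u k * ((k : ℂ) * w ^ (k - 1) + (k : ℂ) * (μ * w⁻¹) ^ (k - 1) * (μ * (-(w ^ 2)⁻¹)))) w :=
    HasDerivAt.fun_sum fun k _ => ((hasDerivAt_pow k w).add (hi.pow k)).const_mul (u k)
  have h3 : HasDerivAt (fun w : ℂ => (c + r * (w + μ * w⁻¹)) ^ (b + 1))
      (∑ k ∈ Finset.range (b + 1 + 1), u k * ((k : ℂ) * w ^ (k - 1) + (k : ℂ) * (μ * w⁻¹) ^ (k - 1) * (μ * (-(w ^ 2)⁻¹)))) w := by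
    refine h2.congr_of_eventuallyEq ?_
    filter_upwards [isOpen_ne.mem_nhds hw] with v hv
    exact hu v hv
  have h4 := h1.unique h3
  have e1 : w * w⁻¹ = 1 := mul_inv_cancel₀ hw
  have e2 : w * (w ^ 2)⁻¹ = w⁻¹ := by
    field_simp
  have h5 : w * (((b + 1 : ℕ) : ℂ) * (c + r * (w + μ * w⁻¹)) ^ b * (r * (1 + μ * (-(w ^ 2)⁻¹)))) =
      w * ∑ k ∈ Finset.range (b + 1 + 1), u k * ((k : ℂ) * w ^ (k - 1) + (k : ℂ) * (μ * w⁻¹) ^ (k - 1) * (μ * (-(w ^ 2)⁻¹))) := by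
    rw [h4]
  rw [Finset.mul_sum] at h5
  have h6 : ((b : ℂ) + 1) * ((c + r * (w + μ * w⁻¹)) ^ b * (r * (w - μ * w⁻¹))) =
      w * (((b + 1 : ℕ) : ℂ) * (c + r * (w + μ * w⁻¹)) ^ b * (r * (1 + μ * (-(w ^ 2)⁻¹)))) := by
    push_cast
    linear_combination (((b : ℂ) + 1) * (c + r * (w + μ * w⁻¹)) ^ b * r * μ) * e2
  rw [h6, h5]
  refine Finset.sum_congr rfl fun k _ => ?_
  rcases Nat.eq_zero_or_pos k with h0 | h0
  · subst h0
    simp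
  · obtain ⟨m, rfl⟩ : ∃ m, k = m + 1 := ⟨k - 1, by omega⟩
    rw [Nat.add_sub_cancel]
    push_cast
    linear_combination (-((m : ℂ) + 1) * u (m + 1) * (μ * w⁻¹) ^ m * μ) * e2

/-- the `*` of the expansion -/
theorem Lb_sexp {c : ℂ} {r : ℝ} {μ : ℂ} {b : ℕ} {u : ℕ → ℂ}
    (hu : ∀ w : ℂ, w ≠ 0 → (c + r * (w + μ * w⁻¹)) ^ (b + 1) = ∑ k ∈ Finset.range (b + 1 + 1), u k * (w ^ k + (μ * w⁻¹) ^ k))
    {w : ℂ} (hw : w ≠ 0) : (conj c + r * (w⁻¹ + conj μ * w)) ^ (b + 1) =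
      ∑ k ∈ Finset.range (b + 1 + 1), conj (u k) * (w⁻¹ ^ k + (conj μ * w) ^ k) := by
  have hw' : (conj w)⁻¹ ≠ 0 := inv_ne_zero ((map_ne_zero _).2 hw)
  have h1 := congrArg conj (hu (conj w)⁻¹ hw')
  rw [map_sum] at h1
  simp only [map_pow, map_add, map_mul, map_inv₀, Complex.conj_conj, Complex.conj_ofReal, inv_inv] at h1
  exact h1

/-- the coefficients of `z^b` -/
theorem Lb_fc {c : ℂ} {r : ℝ} {μ : ℂ} {ρ : ℝ} (hρ0 : 0 < ρ) {b : ℕ} {u : ℕ → ℂ}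
    (hu : ∀ w : ℂ, w ≠ 0 → (c + r * (w + μ * w⁻¹)) ^ (b + 1) = ∑ k ∈ Finset.range (b + 1 + 1), u k * (w ^ k + (μ * w⁻¹) ^ k))
    {n : ℕ} (hn : n < b + 1) : fc c r μ (fun z => z ^ b) ρ (n + 1) = ((n : ℂ) + 1) * u (n + 1) / ((b : ℂ) + 1) := by
  have hb1 : ((b : ℂ) + 1) ≠ 0 := by exact_mod_cast Nat.succ_ne_zero b
  have hpi : (2 * π : ℂ) ≠ 0 := by
    have h2 : (π : ℂ) ≠ 0 := Complex.ofReal_ne_zero.2 Real.pi_pos.ne'
    exact mul_ne_zero two_ne_zero h2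
  have h1 : ∀ t : ℝ, (c + r * (pr ρ t + μ * (pr ρ t)⁻¹)) ^ b * (r * (pr ρ t - μ * (pr ρ t)⁻¹)) * (pr ρ t)⁻¹ ^ (n + 1) =
      ∑ k ∈ Finset.range (b + 1 + 1), (((k : ℂ) * u k / ((b : ℂ) + 1)) * pr ρ t ^ ((k : ℤ) - (n + 1)) -
        ((k : ℂ) * u k * μ ^ k / ((b : ℂ) + 1)) * pr ρ t ^ (-((k : ℤ) + (n + 1)))) := by
    intro t
    have hw := Lb_pr_ne hρ0 t
    have h2 := Lb_dexp hu hw
    have h3 : (c + r * (pr ρ t + μ * (pr ρ t)⁻¹)) ^ b * (r * (pr ρ t - μ * (pr ρ t)⁻¹)) =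
        (∑ k ∈ Finset.range (b + 1 + 1), (k : ℂ) * u k * (pr ρ t ^ k - (μ * (pr ρ t)⁻¹) ^ k)) / ((b : ℂ) + 1) := by
      rw [← h2, mul_div_cancel_left₀ _ hb1]
    rw [h3, div_mul_eq_mul_div, Finset.sum_mul, Finset.sum_div]
    refine Finset.sum_congr rfl fun k _ => ?_
    have e1 : pr ρ t ^ ((k : ℤ) - (n + 1)) = pr ρ t ^ k * (pr ρ t)⁻¹ ^ (n + 1) := by
      rw [zpow_sub₀ hw, zpow_natCast, inv_pow, div_eq_mul_inv]
      norm_cast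
    have e2 : pr ρ t ^ (-((k : ℤ) + (n + 1))) = (pr ρ t)⁻¹ ^ k * (pr ρ t)⁻¹ ^ (n + 1) := by
      rw [← pow_add, inv_pow, zpow_neg]
      norm_cast
    rw [e1, e2, mul_pow]
    ring
  have hzc : ∀ m : ℤ, Continuous fun t => pr ρ t ^ m := fun m => (Lb_pr_cont ρ).zpow₀ m fun t => Or.inl (Lb_pr_ne hρ0 t)
  have h4 : fc c r μ (fun z => z ^ b) ρ (n + 1) = (∫ t in (0 : ℝ)..(2 * π),
      (c + r * (pr ρ t + μ * (pr ρ t)⁻¹)) ^ b * (r * (pr ρ t - μ * (pr ρ t)⁻¹)) * (pr ρ t)⁻¹ ^ (n + 1)) / (2 * π) := rfl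
  rw [h4]
  simp only [h1]
  rw [intervalIntegral.integral_finsetSum]
  · rw [Finset.sum_eq_single_of_mem (n + 1) (Finset.mem_range.2 (by omega))]
    · rw [intervalIntegral.integral_sub (((hzc _).intervalIntegrable _ _).const_mul _)
        (((hzc _).intervalIntegrable _ _).const_mul _), intervalIntegral.integral_const_mul,
        intervalIntegral.integral_const_mul, Lb_zpow hρ0, Lb_zpow hρ0, if_pos (by push_cast; ring), if_neg (by omega)]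
      push_cast
      field_simp
      ring
    · intro k _ hk
      rw [intervalIntegral.integral_sub (((hzc _).intervalIntegrable _ _).const_mul _)
        (((hzc _).intervalIntegrable _ _).const_mul _), intervalIntegral.integral_const_mul,
        intervalIntegral.integral_const_mul, Lb_zpow hρ0, Lb_zpow hρ0, if_neg (by omega), if_neg (by omega)]
      ring
  · intro k _
    exact ((continuous_const.mul (hzc _)).sub (continuous_const.mul (hzc _))).intervalIntegrable _ _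

/-- **Contour formula for the moments.** -/
theorem Lb_CF {c : ℂ} {r : ℝ} (hr : 0 < r) {μ : ℂ} {ρ : ℝ} (hρ0 : 0 < ρ) (hρ : ‖μ‖ < ρ ^ 2) (hρ1 : ρ < 1) {N : Set ℂ}
    (hN : IsOpen N) (hK : Kp c r μ ⊆ N) {F : ℂ → ℂ} (hF : DifferentiableOn ℂ F N) (b : ℕ) :
    ∫ z in Dp c r μ 1, F z * conj z ^ b = 1 / (2 * ((b : ℂ) + 1)) * ∫ t in (0 : ℝ)..(2 * π),
      F (c + r * (pr ρ t + μ * (pr ρ t)⁻¹)) * (r * (pr ρ t - μ * (pr ρ t)⁻¹)) *
        (conj c + r * ((pr ρ t)⁻¹ + conj μ * pr ρ t)) ^ (b + 1) := by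
  obtain ⟨u, hu⟩ := Lb_exp c r μ (b + 1)
  have hμρ : ‖μ‖ < ρ := hρ.trans (by nlinarith)
  have hDK : Dp c r μ 1 ⊆ N := fun z hz => hK (show ‖vv c r μ z‖ ≤ 1 from (show ‖vv c r μ z‖ < 1 from hz).le)
  have hFD := hF.mono hDK
  have hFc : Continuous fun t => F (c + r * (pr ρ t + μ * (pr ρ t)⁻¹)) := by
    refine hFD.continuousOn.comp_continuous ?_ fun t => ?_
    · exact continuous_const.add (continuous_const.mul ((Lb_pr_cont ρ).add (continuous_const.mul (Lb_pr_icont hρ0))))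
    · exact Lb_mem hr (by rw [Lb_pr_norm hρ0]; exact hμρ) (by rw [Lb_pr_norm hρ0]; exact hρ1)
  have hpc : Continuous fun t => (r : ℂ) * (pr ρ t - μ * (pr ρ t)⁻¹) :=
    continuous_const.mul ((Lb_pr_cont ρ).sub (continuous_const.mul (Lb_pr_icont hρ0)))
  obtain ⟨H, hH⟩ : ∃ H : ℝ → ℂ, H = fun t => F (c + r * (pr ρ t + μ * (pr ρ t)⁻¹)) * (r * (pr ρ t - μ * (pr ρ t)⁻¹)) := ⟨_, rfl⟩
  have hHc : Continuous H := by
    rw [hH]
    exact hFc.mul hpc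
  have h1 : ∀ t : ℝ, F (c + r * (pr ρ t + μ * (pr ρ t)⁻¹)) * (r * (pr ρ t - μ * (pr ρ t)⁻¹)) *
        (conj c + r * ((pr ρ t)⁻¹ + conj μ * pr ρ t)) ^ (b + 1) =
      ∑ k ∈ Finset.range (b + 1 + 1), (conj (u k) * ((1 - ‖μ‖ ^ (2 * k) : ℝ) : ℂ) * (H t * (pr ρ t)⁻¹ ^ k) +
        conj (u k) * conj μ ^ k * (H t * (pr ρ t ^ k + (μ * (pr ρ t)⁻¹) ^ k))) := by
    intro t
    rw [Lb_sexp hu (Lb_pr_ne hρ0 t), Finset.mul_sum, hH]
    refine Finset.sum_congr rfl fun k _ => ?_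
    have e1 : ((‖μ‖ ^ (2 * k) : ℝ) : ℂ) = conj μ ^ k * μ ^ k := by
      rw [← mul_pow, mul_comm (conj μ), Complex.mul_conj, Complex.normSq_eq_norm_sq, pow_mul]
      push_cast
      rfl
    simp only
    rw [Complex.ofReal_sub, e1, mul_pow, mul_pow]
    push_cast
    ring
  simp only [h1]
  have hI1 : ∀ k : ℕ, Continuous fun t => H t * (pr ρ t)⁻¹ ^ k := fun k => hHc.mul ((Lb_pr_icont hρ0).pow k)
  have hI2 : ∀ k : ℕ, Continuous fun t => H t * (pr ρ t ^ k + (μ * (pr ρ t)⁻¹) ^ k) := fun k =>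
    hHc.mul (((Lb_pr_cont ρ).pow k).add ((continuous_const.mul (Lb_pr_icont hρ0)).pow k))
  rw [intervalIntegral.integral_finsetSum]
  swap
  · intro k _
    exact ((continuous_const.mul (hI1 k)).add (continuous_const.mul (hI2 k))).intervalIntegrable _ _
  have h2 : ∀ k : ℕ, (∫ t in (0 : ℝ)..(2 * π), (conj (u k) * ((1 - ‖μ‖ ^ (2 * k) : ℝ) : ℂ) * (H t * (pr ρ t)⁻¹ ^ k) +
        conj (u k) * conj μ ^ k * (H t * (pr ρ t ^ k + (μ * (pr ρ t)⁻¹) ^ k)))) =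
      conj (u k) * ((1 - ‖μ‖ ^ (2 * k) : ℝ) : ℂ) * ∫ t in (0 : ℝ)..(2 * π), H t * (pr ρ t)⁻¹ ^ k := by
    intro k
    rw [intervalIntegral.integral_add (((hI1 k).intervalIntegrable _ _).const_mul _)
      (((hI2 k).intervalIntegrable _ _).const_mul _), intervalIntegral.integral_const_mul,
      intervalIntegral.integral_const_mul]
    have h3 := Lb_sym (c := c) hr hρ0 hρ hρ1 hFD k
    rw [hH]
    simp only
    rw [h3, mul_zero, add_zero]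
  simp only [h2]
  rw [Finset.sum_range_succ', mul_zero, pow_zero, sub_self, Complex.ofReal_zero, mul_zero, zero_mul, add_zero,
    PM hr hρ0 hρ hρ1 hN hK hF b, Finset.mul_sum, Finset.mul_sum]
  refine Finset.sum_congr rfl fun n hn => ?_
  rw [Finset.mem_range] at hn
  rw [Lb_fc hρ0 hu hn]
  have h5 : ∫ t in (0 : ℝ)..(2 * π), H t * (pr ρ t)⁻¹ ^ (n + 1) = fc c r μ F ρ (n + 1) * (2 * π) := by
    have hpi : (2 * π : ℂ) ≠ 0 := by
      have h2 : (π : ℂ) ≠ 0 := Complex.ofReal_ne_zero.2 Real.pi_pos.ne'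
      exact mul_ne_zero two_ne_zero h2
    rw [fb_fc, div_mul_cancel₀ _ hpi, hH]
    rfl
  rw [h5]
  have hb1 : ((b : ℂ) + 1) ≠ 0 := by exact_mod_cast Nat.succ_ne_zero b
  have hn1 : ((n : ℂ) + 1) ≠ 0 := by exact_mod_cast Nat.succ_ne_zero n
  simp only [map_div₀, map_mul, map_add, map_one, map_natCast]
  field_simp


noncomputable def Lbz (c : ℂ) (r : ℝ) (μ w : ℂ) : ℂ := c + r * (w + μ * w⁻¹)

noncomputable def Lbp (r : ℝ) (μ w : ℂ) : ℂ := r * (w - μ * w⁻¹)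

noncomputable def Lbs (c : ℂ) (r : ℝ) (μ w : ℂ) : ℂ := conj c + r * (w⁻¹ + conj μ * w)

noncomputable def Lbq (r : ℝ) (μ w : ℂ) : ℂ := r * (w⁻¹ - conj μ * w)

theorem Lbz_cont (c : ℂ) (r : ℝ) (μ : ℂ) {ρ : ℝ} (hρ : 0 < ρ) : Continuous fun t => Lbz c r μ (pr ρ t) :=
  continuous_const.add (continuous_const.mul ((Lb_pr_cont ρ).add (continuous_const.mul (Lb_pr_icont hρ))))

theorem Lbp_cont (r : ℝ) (μ : ℂ) {ρ : ℝ} (hρ : 0 < ρ) : Continuous fun t => Lbp r μ (pr ρ t) :=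
  continuous_const.mul ((Lb_pr_cont ρ).sub (continuous_const.mul (Lb_pr_icont hρ)))

theorem Lbs_cont (c : ℂ) (r : ℝ) (μ : ℂ) {ρ : ℝ} (hρ : 0 < ρ) : Continuous fun t => Lbs c r μ (pr ρ t) :=
  continuous_const.add (continuous_const.mul ((Lb_pr_icont hρ).add (continuous_const.mul (Lb_pr_cont ρ))))

theorem Lbq_cont (r : ℝ) (μ : ℂ) {ρ : ℝ} (hρ : 0 < ρ) : Continuous fun t => Lbq r μ (pr ρ t) :=
  continuous_const.mul ((Lb_pr_icont hρ).sub (continuous_const.mul (Lb_pr_cont ρ)))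

/-- integration by parts -/
theorem Lb_parts {ρ : ℝ} (hρ0 : 0 < ρ) {c : ℂ} {r : ℝ} {μ c' : ℂ} {r' : ℝ} {μ' : ℂ} {U : Set ℂ} {F Φ : ℂ → ℂ}
    (hFc : ContinuousOn F U) (hΦ : ∀ z ∈ U, HasDerivAt Φ (F z) z) (hz : ∀ t, Lbz c r μ (pr ρ t) ∈ U) (b : ℕ) :
    ∫ t in (0 : ℝ)..(2 * π), F (Lbz c r μ (pr ρ t)) * Lbp r μ (pr ρ t) * Lbs c' r' μ' (pr ρ t) ^ (b + 1) =
      ((b : ℂ) + 1) * ∫ t in (0 : ℝ)..(2 * π), Φ (Lbz c r μ (pr ρ t)) *
        (Lbs c' r' μ' (pr ρ t) ^ b * Lbq r' μ' (pr ρ t)) := by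
  have hpd : ∀ t : ℝ, HasDerivAt (pr ρ) (I * pr ρ t) t := by
    intro t
    have h1 : HasDerivAt (fun s : ℝ => ((s : ℂ) * I)) (1 * I) t := (hasDerivAt_id t).ofReal_comp.mul_const I
    have h2 := (h1.cexp).const_mul (ρ : ℂ)
    have e : (ρ : ℂ) * (exp ((t : ℂ) * I) * (1 * I)) = I * pr ρ t := by
      unfold pr
      ring
    rw [e] at h2
    exact h2
  have hpi : ∀ t : ℝ, HasDerivAt (fun t => (pr ρ t)⁻¹) (-(I * (pr ρ t)⁻¹)) t := by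
    intro t
    have h1 := (hpd t).fun_inv (Lb_pr_ne hρ0 t)
    have e : -(I * pr ρ t) / pr ρ t ^ 2 = -(I * (pr ρ t)⁻¹) := by
      have := Lb_pr_ne hρ0 t
      field_simp
    rw [e] at h1
    exact h1
  have hzd : ∀ t : ℝ, HasDerivAt (fun t => Lbz c r μ (pr ρ t)) (I * Lbp r μ (pr ρ t)) t := by
    intro t
    have h1 := (((hpd t).add ((hpi t).const_mul μ)).const_mul (r : ℂ)).const_add c
    have e : (r : ℂ) * (I * pr ρ t + μ * -(I * (pr ρ t)⁻¹)) = I * Lbp r μ (pr ρ t) := by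
      unfold Lbp
      ring
    rw [e] at h1
    exact h1
  have hsd : ∀ t : ℝ, HasDerivAt (fun t => Lbs c' r' μ' (pr ρ t)) (-(I * Lbq r' μ' (pr ρ t))) t := by
    intro t
    have h1 := (((hpi t).add ((hpd t).const_mul (conj μ'))).const_mul (r' : ℂ)).const_add (conj c')
    have e : (r' : ℂ) * (-(I * (pr ρ t)⁻¹) + conj μ' * (I * pr ρ t)) = -(I * Lbq r' μ' (pr ρ t)) := by
      unfold Lbq
      ring
    rw [e] at h1
    exact h1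
  have hFc' : Continuous fun t => F (Lbz c r μ (pr ρ t)) := hFc.comp_continuous (Lbz_cont c r μ hρ0) hz
  have hΦo : ContinuousOn Φ U := fun z hz => (hΦ z hz).continuousAt.continuousWithinAt
  have hΦc : Continuous fun t => Φ (Lbz c r μ (pr ρ t)) := hΦo.comp_continuous (Lbz_cont c r μ hρ0) hz
  have hD : ∀ t : ℝ, HasDerivAt (fun t => Φ (Lbz c r μ (pr ρ t)) * Lbs c' r' μ' (pr ρ t) ^ (b + 1))
      (I * (F (Lbz c r μ (pr ρ t)) * Lbp r μ (pr ρ t) * Lbs c' r' μ' (pr ρ t) ^ (b + 1)) -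
        I * (((b : ℂ) + 1) * (Φ (Lbz c r μ (pr ρ t)) * (Lbs c' r' μ' (pr ρ t) ^ b * Lbq r' μ' (pr ρ t))))) t := by
    intro t
    have h1 := HasDerivAt.comp_of_eq t (hΦ _ (hz t)) (hzd t) rfl
    have h2 := (hsd t).fun_pow (b + 1)
    have h3 := HasDerivAt.mul h1 h2
    have e : F (Lbz c r μ (pr ρ t)) * (I * Lbp r μ (pr ρ t)) * Lbs c' r' μ' (pr ρ t) ^ (b + 1) +
        Φ (Lbz c r μ (pr ρ t)) * (((b + 1 : ℕ) : ℂ) * Lbs c' r' μ' (pr ρ t) ^ b * -(I * Lbq r' μ' (pr ρ t))) =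
        I * (F (Lbz c r μ (pr ρ t)) * Lbp r μ (pr ρ t) * Lbs c' r' μ' (pr ρ t) ^ (b + 1)) -
        I * (((b : ℂ) + 1) * (Φ (Lbz c r μ (pr ρ t)) * (Lbs c' r' μ' (pr ρ t) ^ b * Lbq r' μ' (pr ρ t)))) := by
      push_cast
      ring
    rw [← e]
    exact h3
  have hI1 : IntervalIntegrable (fun t => F (Lbz c r μ (pr ρ t)) * Lbp r μ (pr ρ t) * Lbs c' r' μ' (pr ρ t) ^ (b + 1)) volume 0 (2 * π) :=
    ((hFc'.mul (Lbp_cont r μ hρ0)).mul ((Lbs_cont c' r' μ' hρ0).pow _)).intervalIntegrable _ _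
  have hI2 : IntervalIntegrable (fun t => Φ (Lbz c r μ (pr ρ t)) * (Lbs c' r' μ' (pr ρ t) ^ b * Lbq r' μ' (pr ρ t))) volume 0 (2 * π) :=
    (hΦc.mul (((Lbs_cont c' r' μ' hρ0).pow _).mul (Lbq_cont r' μ' hρ0))).intervalIntegrable _ _
  have h4 := intervalIntegral.integral_eq_sub_of_hasDerivAt (fun t _ => hD t)
    ((hI1.const_mul I).sub ((hI2.const_mul ((b : ℂ) + 1)).const_mul I))
  have hper : pr ρ (2 * π) = pr ρ 0 := by
    unfold pr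
    push_cast
    rw [Complex.exp_two_pi_mul_I, zero_mul, Complex.exp_zero]
  rw [hper, sub_self, intervalIntegral.integral_sub (hI1.const_mul I) ((hI2.const_mul ((b : ℂ) + 1)).const_mul I),
    intervalIntegral.integral_const_mul, intervalIntegral.integral_const_mul, intervalIntegral.integral_const_mul, ← mul_sub] at h4
  have h6 := (mul_eq_zero.1 h4).resolve_left I_ne_zero
  rwa [sub_eq_zero] at h6

theorem Lb_lip {D D' : Set ℂ} {δ C : ℝ} (hD : IsOpen D) (hD' : Convex ℝ D') (hδ : 0 < δ)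
    (hsub : ∀ z ∈ D', Metric.closedBall z δ ⊆ D) {F : ℂ → ℂ} (hd : DifferentiableOn ℂ F D) (hC : ∀ z ∈ D, ‖F z‖ ≤ C)
    {x y : ℂ} (hx : x ∈ D') (hy : y ∈ D') : ‖F y - F x‖ ≤ C / δ * ‖y - x‖ := by
  have hderiv : ∀ z ∈ D', ‖deriv F z‖ ≤ C / δ := by
    intro z hz
    exact Complex.norm_deriv_le_of_forall_mem_sphere_norm_le (c := z) (R := δ) (C := C) (f := F) hδ
      (hd.mono (Metric.closure_ball_subset_closedBall.trans (hsub z hz))).diffContOnCl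
      (fun z' hz' => hC z' (hsub z hz (Metric.sphere_subset_closedBall hz')))
  have hm : ∀ z ∈ D', z ∈ D := fun z hz => hsub z hz (Metric.mem_closedBall_self hδ.le)
  exact hD'.norm_image_sub_le_of_norm_deriv_le
    (fun z hz => (hd z (hm z hz)).differentiableAt (hD.mem_nhds (hm z hz))) hderiv hx hy

theorem Lb_tay {D D' : Set ℂ} {δ C : ℝ} (hD : IsOpen D) (hD' : Convex ℝ D') (hδ : 0 < δ)
    (hsub : ∀ z ∈ D', Metric.closedBall z δ ⊆ D) {F Φ : ℂ → ℂ} (hC0 : 0 ≤ C) (hd : DifferentiableOn ℂ F D)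
    (hC : ∀ z ∈ D, ‖F z‖ ≤ C) (hΦ : ∀ z ∈ D, HasDerivAt Φ (F z) z)
    {x y : ℂ} (hx : x ∈ D') (hy : y ∈ D') : ‖Φ y - Φ x - F x * (y - x)‖ ≤ C / δ * ‖y - x‖ * ‖y - x‖ := by
  have hm : ∀ z ∈ D', z ∈ D := fun z hz => hsub z hz (Metric.mem_closedBall_self hδ.le)
  have hconv : Convex ℝ (Metric.closedBall x ‖y - x‖ ∩ D') := (convex_closedBall _ _).inter hD'
  have h := hconv.norm_image_sub_le_of_norm_hasDerivWithin_le (f := fun z => Φ z - F x * z) (f' := fun z => F z - F x * 1)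
    (C := C / δ * ‖y - x‖) (x := x) (y := y)
    (fun z hz => ((hΦ z (hm z hz.2)).sub ((hasDerivAt_id z).const_mul (F x))).hasDerivWithinAt)
    (fun z hz => by
      rw [mul_one]
      refine (Lb_lip hD hD' hδ hsub hd hC hx hz.2).trans ?_
      have h1 : ‖z - x‖ ≤ ‖y - x‖ := mem_closedBall_iff_norm.1 hz.1
      have h2 : 0 ≤ C / δ := div_nonneg hC0 hδ.le
      gcongr)
    ⟨Metric.mem_closedBall_self (norm_nonneg _), hx⟩ ⟨mem_closedBall_iff_norm.2 le_rfl, hy⟩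
  have e : Φ y - Φ x - F x * (y - x) = (Φ y - F x * y) - (Φ x - F x * x) := by ring
  rw [e]
  exact h

theorem Lb_mu {μ₀ : ℝ} {S : Sq} {μ : ℂ} {a : ℝ} {γ β : ℂ} (hS : LimG S μ₀ μ a γ β) : ‖μ‖ ≤ μ₀ :=
  le_of_tendsto hS.lm1.norm (Eventually.of_forall hS.m1)

theorem Lb_c {μ₀ : ℝ} {S : Sq} {μ : ℂ} {a : ℝ} {γ β : ℂ} (hS : LimG S μ₀ μ a γ β) : Tendsto S.c₂ atTop (𝓝 0) := by
  refine squeeze_zero_norm (fun j => ?_) hS.ld
  have h := nb_dd S j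
  have n2 := abs_nonneg (S.r₂ j - 1)
  have n3 := norm_nonneg (S.μ₁ j - S.μ₂ j)
  linarith

theorem Lb_r {μ₀ : ℝ} {S : Sq} {μ : ℂ} {a : ℝ} {γ β : ℂ} (hS : LimG S μ₀ μ a γ β) : Tendsto S.r₂ atTop (𝓝 1) := by
  have h1 : Tendsto (fun j => S.r₂ j - 1) atTop (𝓝 0) := by
    refine squeeze_zero_norm (fun j => ?_) hS.ld
    have h := nb_dd S j
    have n1 := norm_nonneg (S.c₂ j)
    have n3 := norm_nonneg (S.μ₁ j - S.μ₂ j)
    rw [Real.norm_eq_abs]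
    linarith
  have h2 := h1.add_const 1
  rw [zero_add] at h2
  refine h2.congr fun j => ?_
  ring

/-- distance of the points of the curves -/
theorem Lb_dist {ρ : ℝ} (hρ0 : 0 < ρ) (c : ℂ) (r : ℝ) (μ μ' : ℂ) (t : ℝ) :
    ‖Lbz c r μ' (pr ρ t) - Lbz 0 1 μ (pr ρ t)‖ ≤ ‖c‖ + |r - 1| * (ρ + ‖μ'‖ * ρ⁻¹) + ‖μ' - μ‖ * ρ⁻¹ := by
  have e : Lbz c r μ' (pr ρ t) - Lbz 0 1 μ (pr ρ t) =
      c + ((r - 1 : ℝ) : ℂ) * (pr ρ t + μ' * (pr ρ t)⁻¹) + (μ' - μ) * (pr ρ t)⁻¹ := by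
    unfold Lbz
    push_cast
    ring
  rw [e]
  have hn := Lb_pr_norm hρ0 t
  have e1 : ‖((r - 1 : ℝ) : ℂ) * (pr ρ t + μ' * (pr ρ t)⁻¹)‖ ≤ |r - 1| * (ρ + ‖μ'‖ * ρ⁻¹) := by
    rw [norm_mul, Complex.norm_real, Real.norm_eq_abs]
    refine mul_le_mul_of_nonneg_left ?_ (abs_nonneg _)
    refine (norm_add_le _ _).trans ?_
    rw [norm_mul, norm_inv, hn]
  have e2 : ‖(μ' - μ) * (pr ρ t)⁻¹‖ = ‖μ' - μ‖ * ρ⁻¹ := by
    rw [norm_mul, norm_inv, hn]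
  have e3 := norm_add₃_le (a := c) (b := ((r - 1 : ℝ) : ℂ) * (pr ρ t + μ' * (pr ρ t)⁻¹)) (c := (μ' - μ) * (pr ρ t)⁻¹)
  linarith

/-- the domains -/
structure Lb_G (S : Sq) (ρ : ℝ) (μ : ℂ) (D D' : Set ℂ) (δ σ : ℝ) : Prop where
  opn : IsOpen D
  cvx : Convex ℝ D
  cvx' : Convex ℝ D'
  pos : 0 < δ
  sub : ∀ z ∈ D', Metric.closedBall z δ ⊆ D
  sub1 : D ⊆ Dp 0 1 μ 1
  z0 : ∀ t, Lbz 0 1 μ (pr ρ t) ∈ D'
  z1 : ∀ᶠ j in atTop, ∀ t, Lbz 0 1 (S.μ₁ j) (pr ρ t) ∈ D'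
  z2 : ∀ᶠ j in atTop, ∀ t, Lbz (S.c₂ j) (S.r₂ j) (S.μ₂ j) (pr ρ t) ∈ D'
  hσ : 0 < σ
  hσ1 : σ < 1
  E1 : ∀ᶠ j in atTop, D ⊆ S.E₁ σ j

theorem Lb_geo {μ₀ ρ : ℝ} (h0 : 0 ≤ μ₀) (h1 : μ₀ < ρ ^ 2) (hρ : 0 < ρ) (hρ1 : ρ < 1) {S : Sq} {μ : ℂ} {a : ℝ} {γ β : ℂ}
    (hS : LimG S μ₀ μ a γ β) : ∃ (D D' : Set ℂ) (δ σ : ℝ), Lb_G S ρ μ D D' δ σ := by
  have hμ := Lb_mu hS
  have hμ01 : μ₀ < 1 := by nlinarith
  obtain ⟨s₀, hs₀⟩ : ∃ s₀, s₀ = (ρ ^ 2 + μ₀) / (ρ * (1 + μ₀)) := ⟨_, rfl⟩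
  have hs0 : 0 < s₀ := by rw [hs₀]; positivity
  have hs1 : s₀ < 1 := by
    rw [hs₀, div_lt_one (by positivity)]
    have h2 : μ₀ < ρ := h1.trans (by nlinarith)
    nlinarith [mul_pos (sub_pos.2 hρ1) (sub_pos.2 h2)]
  obtain ⟨e, he⟩ : ∃ e, e = (1 - s₀) / 4 := ⟨_, rfl⟩
  have he0 : 0 < e := by rw [he]; linarith
  obtain ⟨K, hK0, hK⟩ := vv_lip (r₀ := 1) (R := 1) one_pos h0 hμ01
  have hPS : ∀ ν : ℂ, ‖ν‖ ≤ μ₀ → PS 1 1 μ₀ 0 1 ν := fun ν hν => ⟨by simp, le_rfl, le_rfl, hν⟩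
  have hPμ := hPS μ hμ
  -- the curves
  have hz0 : ∀ t, ‖vv 0 1 μ (Lbz 0 1 μ (pr ρ t))‖ ≤ s₀ := by
    intro t
    rw [hs₀]
    exact crv h0 h1 hρ hρ1 one_pos hμ (Lb_pr_norm hρ t)
  have hcurve : ∀ (x : ℕ → ℝ → ℂ) (g : ℕ → ℝ), Tendsto g atTop (𝓝 0) →
      (∀ j t, ‖x j t - Lbz 0 1 μ (pr ρ t)‖ ≤ g j) → ∀ᶠ j in atTop, ∀ t, x j t ∈ Dp 0 1 μ (s₀ + e) := by
    intro x g hg hx
    have h2 : ∀ᶠ j in atTop, K * g j < e := by
      have h3 : Tendsto (fun j => K * g j) atTop (𝓝 (K * 0)) := hg.const_mul K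
      rw [mul_zero] at h3
      exact h3.eventually (gt_mem_nhds he0)
    filter_upwards [h2] with j hj t
    show ‖vv 0 1 μ (x j t)‖ < s₀ + e
    have h4 := hK 0 1 μ hPμ (x j t) (Lbz 0 1 μ (pr ρ t))
    have h5 := hz0 t
    have h6 : ‖vv 0 1 μ (x j t)‖ ≤ ‖vv 0 1 μ (x j t) - vv 0 1 μ (Lbz 0 1 μ (pr ρ t))‖ + ‖vv 0 1 μ (Lbz 0 1 μ (pr ρ t))‖ := by
      have := norm_add_le (vv 0 1 μ (x j t) - vv 0 1 μ (Lbz 0 1 μ (pr ρ t))) (vv 0 1 μ (Lbz 0 1 μ (pr ρ t)))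
      rwa [sub_add_cancel] at this
    have h7 := hx j t
    have h8 : K * ‖x j t - Lbz 0 1 μ (pr ρ t)‖ ≤ K * g j := mul_le_mul_of_nonneg_left h7 hK0.le
    linarith
  have hn1 : Tendsto (fun j => ‖S.μ₁ j - μ‖) atTop (𝓝 0) := by
    have := (hS.lm1.sub_const μ).norm
    rwa [sub_self, norm_zero] at this
  have hn2 : Tendsto (fun j => ‖S.μ₂ j - μ‖) atTop (𝓝 0) := by
    have := (hS.lm2.sub_const μ).norm
    rwa [sub_self, norm_zero] at this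
  have hnc : Tendsto (fun j => ‖S.c₂ j‖) atTop (𝓝 0) := by
    have := (Lb_c hS).norm
    rwa [norm_zero] at this
  have hnr : Tendsto (fun j => |S.r₂ j - 1|) atTop (𝓝 0) := by
    have := ((Lb_r hS).sub_const 1).abs
    rwa [sub_self, abs_zero] at this
  refine ⟨Dp 0 1 μ (s₀ + 2 * e), Dp 0 1 μ (s₀ + e), e / (2 * K), s₀ + 3 * e, ?_⟩
  refine ⟨Dp_open _ _ _ _, Dp_convex _ _ _ _, Dp_convex _ _ _ _, by positivity, ?_, ?_, ?_, ?_, ?_, by linarith,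
    by rw [he]; linarith, ?_⟩
  · intro z hz z' hz'
    rw [mem_closedBall_iff_norm] at hz'
    show ‖vv 0 1 μ z'‖ < s₀ + 2 * e
    have h2 : ‖vv 0 1 μ z‖ < s₀ + e := hz
    have h3 := hK 0 1 μ hPμ z' z
    have h4 : ‖vv 0 1 μ z'‖ ≤ ‖vv 0 1 μ z' - vv 0 1 μ z‖ + ‖vv 0 1 μ z‖ := by
      have := norm_add_le (vv 0 1 μ z' - vv 0 1 μ z) (vv 0 1 μ z)
      rwa [sub_add_cancel] at this
    have h5 : K * ‖z' - z‖ ≤ K * (e / (2 * K)) := mul_le_mul_of_nonneg_left hz' hK0.le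
    have h6 : K * (e / (2 * K)) = e / 2 := by field_simp
    linarith
  · exact Dp_mono _ _ _ (by rw [he]; linarith)
  · intro t
    show ‖vv 0 1 μ (Lbz 0 1 μ (pr ρ t))‖ < s₀ + e
    have := hz0 t
    linarith
  · refine hcurve (fun j t => Lbz 0 1 (S.μ₁ j) (pr ρ t)) (fun j => ‖S.μ₁ j - μ‖ * ρ⁻¹) ?_ fun j t => ?_
    · have := hn1.mul_const ρ⁻¹
      rwa [zero_mul] at this
    · have := Lb_dist hρ 0 1 μ (S.μ₁ j) t
      rwa [norm_zero, sub_self, abs_zero, zero_mul, add_zero, zero_add] at this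
  · refine hcurve (fun j t => Lbz (S.c₂ j) (S.r₂ j) (S.μ₂ j) (pr ρ t))
      (fun j => ‖S.c₂ j‖ + |S.r₂ j - 1| * (ρ + ‖S.μ₂ j‖ * ρ⁻¹) + ‖S.μ₂ j - μ‖ * ρ⁻¹) ?_ fun j t =>
        Lb_dist hρ _ _ μ _ t
    have h2 := (hnc.add (hnr.mul ((hS.lm2.norm.mul_const ρ⁻¹).const_add ρ))).add (hn2.mul_const ρ⁻¹)
    rwa [zero_mul, zero_mul, add_zero, add_zero] at h2
  · have h2 : ∀ᶠ j in atTop, K * ‖S.μ₁ j - μ‖ < e := by
      have h3 := hn1.const_mul K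
      rw [mul_zero] at h3
      exact h3.eventually (gt_mem_nhds he0)
    filter_upwards [h2] with j hj z hz
    have hz' : ‖vv 0 1 μ z‖ < s₀ + 2 * e := hz
    have hs : s₀ + 2 * e < 1 := by rw [he]; linarith
    show ‖vv 0 1 (S.μ₁ j) z‖ < s₀ + 3 * e
    obtain ⟨v, hv⟩ : ∃ v, v = vv 0 1 μ z := ⟨_, rfl⟩
    rw [← hv] at hz'
    have h3 : zz 0 1 μ v = z := by rw [hv]; exact zz_vv one_pos (hμ.trans_lt hμ01) z
    have h4 : vv 0 1 (S.μ₁ j) (zz 0 1 (S.μ₁ j) v) = v := vv_zz one_pos ((hS.m1 j).trans_lt hμ01) v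
    have h5 := hK 0 1 (S.μ₁ j) (hPS _ (hS.m1 j)) z (zz 0 1 (S.μ₁ j) v)
    rw [h4] at h5
    have h6 : z - zz 0 1 (S.μ₁ j) v = (μ - S.μ₁ j) * conj v := by
      rw [← h3]
      unfold zz
      push_cast
      ring
    rw [h6, norm_mul, RCLike.norm_conj, norm_sub_rev μ] at h5
    have h7 : ‖vv 0 1 (S.μ₁ j) z‖ ≤ ‖vv 0 1 (S.μ₁ j) z - v‖ + ‖v‖ := by
      have := norm_add_le (vv 0 1 (S.μ₁ j) z - v) v
      rwa [sub_add_cancel] at this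
    have h8 : K * (‖S.μ₁ j - μ‖ * ‖v‖) ≤ K * (‖S.μ₁ j - μ‖ * 1) := by
      have := norm_nonneg (S.μ₁ j - μ)
      have h9 : ‖v‖ ≤ 1 := by linarith
      gcongr
    rw [mul_one] at h8
    linarith


theorem Lbz_zw (μ w : ℂ) : Lbz 0 1 μ w = zw μ w := by
  unfold Lbz zw
  push_cast
  ring

theorem Lbs_zs (μ w : ℂ) : Lbs 0 1 μ w = zs μ w := by
  unfold Lbs zs
  rw [map_zero]
  push_cast
  ring

theorem Lbp_pw (μ w : ℂ) : Lbp 1 μ w = pw μ w := by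
  unfold Lbp pw
  push_cast
  ring

theorem Lbq_ps (μ w : ℂ) : Lbq 1 μ w = ps μ w := by
  unfold Lbq ps
  push_cast
  ring

theorem Lb_F {ρ : ℝ} {S : Sq} {μ : ℂ} {D D' : Set ℂ} {δ σ : ℝ} (hG : Lb_G S ρ μ D D' δ σ) {F : ℕ → ℂ → ℂ} {F₀ : ℂ → ℂ}
    (hF : LBG S μ F F₀) : ∃ C : ℝ, 0 ≤ C ∧ ∀ᶠ j in atTop, DifferentiableOn ℂ (F j) D ∧ ∀ z ∈ D, ‖F j z‖ ≤ C := by
  obtain ⟨C, hC⟩ := hF.bd σ hG.hσ hG.hσ1
  refine ⟨|C|, abs_nonneg _, ?_⟩
  filter_upwards [hG.E1] with j hj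
  obtain ⟨N, hN, h1, h2, h3⟩ := hF.hol j
  refine ⟨h3.mono fun z hz => h1 ?_, fun z hz => (hC j z (Or.inl (hj hz))).trans (le_abs_self C)⟩
  show ‖vv 0 1 (S.μ₁ j) z‖ ≤ 1
  have h4 : ‖vv 0 1 (S.μ₁ j) z‖ < σ := hj hz
  linarith [hG.hσ1]

theorem Lb_val {ρ : ℝ} {S : Sq} {μ : ℂ} {D D' : Set ℂ} {δ σ : ℝ} (hG : Lb_G S ρ μ D D' δ σ) {F : ℕ → ℂ → ℂ} {F₀ : ℂ → ℂ}
    (hF : LBG S μ F F₀) {C : ℝ} (hC : ∀ᶠ j in atTop, DifferentiableOn ℂ (F j) D ∧ ∀ z ∈ D, ‖F j z‖ ≤ C)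
    {x : ℕ → ℂ} {y : ℂ} (hx : ∀ᶠ j in atTop, x j ∈ D') (hy : y ∈ D') (h : Tendsto x atTop (𝓝 y)) :
    Tendsto (fun j => F j (x j)) atTop (𝓝 (F₀ y)) := by
  have h1 : Tendsto (fun j => F j (x j) - F j y) atTop (𝓝 0) := by
    have h2 : Tendsto (fun j => C / δ * ‖x j - y‖) atTop (𝓝 (C / δ * ‖y - y‖)) :=
      ((h.sub_const y).norm).const_mul _
    rw [sub_self, norm_zero, mul_zero] at h2
    refine squeeze_zero_norm' ?_ h2
    filter_upwards [hC, hx] with j hj hxj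
    exact Lb_lip hG.opn hG.cvx' hG.pos hG.sub hj.1 hj.2 hy hxj
  have hyD : y ∈ D := hG.sub y hy (Metric.mem_closedBall_self hG.pos.le)
  have h3 := h1.add (hF.lim y (hG.sub1 hyD))
  rw [zero_add] at h3
  refine h3.congr fun j => ?_
  ring

theorem Lb_Uw (μ : ℂ) (a : ℝ) (γ β : ℂ) {w : ℂ} (hw : w ≠ 0) :
    Uw μ a γ β w = (zt μ a γ β w * ps μ w + pw μ w * (conj γ + a * (w⁻¹ + conj μ * w) + conj β * w)) / 2 := by
  have e1 : ((‖μ‖ : ℂ)) ^ 2 = μ * conj μ := by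
    rw [Complex.mul_conj, Complex.normSq_eq_norm_sq]
    push_cast
    rfl
  have e2 : (((conj μ * β).re : ℝ) : ℂ) = (conj μ * β + μ * conj β) / 2 := by
    rw [Complex.re_eq_add_conj, map_mul, Complex.conj_conj]
  have e3 : w * w⁻¹ = 1 := mul_inv_cancel₀ hw
  unfold Uw zt ps pw
  rw [Complex.ofReal_sub, e2]
  push_cast
  rw [e1]
  linear_combination ((2 * (a : ℂ) - 2 * a * μ * conj μ - conj μ * β - μ * conj β) / 2) * (-e3) +
    (0 : ℂ) * e3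

/-- the two limits together -/
theorem Lb_last {ρ : ℝ} (hρ : 0 < ρ) {μ : ℂ} {a : ℝ} {γ β : ℂ} {F₀ : ℂ → ℂ} (hF0c : Continuous fun t => F₀ (zw μ (pr ρ t))) (b : ℕ) :
    (1 / 2 : ℂ) * (∫ t in (0 : ℝ)..(2 * π), F₀ (zw μ (pr ρ t)) * zt μ a γ β (pr ρ t) * (zs μ (pr ρ t) ^ b * ps μ (pr ρ t))) +
      1 / (2 * ((b : ℂ) + 1)) * (∫ t in (0 : ℝ)..(2 * π), F₀ (zw μ (pr ρ t)) * pw μ (pr ρ t) * ((((b : ℂ) + 1) * zs μ (pr ρ t) ^ b) *
        (conj γ + a * ((pr ρ t)⁻¹ + conj μ * pr ρ t) + conj β * pr ρ t))) =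
      ∫ t in (0 : ℝ)..(2 * π), Uw μ a γ β (pr ρ t) * F₀ (zw μ (pr ρ t)) * zs μ (pr ρ t) ^ b := by
  have hb1 : ((b : ℂ) + 1) ≠ 0 := by exact_mod_cast Nat.succ_ne_zero b
  have hic := Lb_pr_icont hρ
  have hpc := Lb_pr_cont ρ
  have hpwc : Continuous fun t => pw μ (pr ρ t) := hpc.sub (continuous_const.mul hic)
  have hpsc : Continuous fun t => ps μ (pr ρ t) := hic.sub (continuous_const.mul hpc)
  have hzsc : Continuous fun t => zs μ (pr ρ t) := hic.add (continuous_const.mul hpc)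
  have hztc : Continuous fun t => zt μ a γ β (pr ρ t) :=
    (continuous_const.add (continuous_const.mul (hpc.add (continuous_const.mul hic)))).add (continuous_const.mul hic)
  have hxc : Continuous fun t => conj γ + a * ((pr ρ t)⁻¹ + conj μ * pr ρ t) + conj β * pr ρ t :=
    (continuous_const.add (continuous_const.mul (hic.add (continuous_const.mul hpc)))).add (continuous_const.mul hpc)
  have h1 : Continuous fun t => F₀ (zw μ (pr ρ t)) * zt μ a γ β (pr ρ t) * (zs μ (pr ρ t) ^ b * ps μ (pr ρ t)) :=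
    (hF0c.mul hztc).mul ((hzsc.pow b).mul hpsc)
  have h2 : Continuous fun t => F₀ (zw μ (pr ρ t)) * pw μ (pr ρ t) * ((((b : ℂ) + 1) * zs μ (pr ρ t) ^ b) *
        (conj γ + a * ((pr ρ t)⁻¹ + conj μ * pr ρ t) + conj β * pr ρ t)) :=
    (hF0c.mul hpwc).mul ((continuous_const.mul (hzsc.pow b)).mul hxc)
  rw [← intervalIntegral.integral_const_mul, ← intervalIntegral.integral_const_mul,
    ← intervalIntegral.integral_add ((h1.intervalIntegrable _ _).const_mul _) ((h2.intervalIntegrable _ _).const_mul _)]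
  refine intervalIntegral.integral_congr fun t _ => ?_
  show 1 / 2 * (F₀ (zw μ (pr ρ t)) * zt μ a γ β (pr ρ t) * (zs μ (pr ρ t) ^ b * ps μ (pr ρ t))) +
      1 / (2 * ((b : ℂ) + 1)) * (F₀ (zw μ (pr ρ t)) * pw μ (pr ρ t) * ((((b : ℂ) + 1) * zs μ (pr ρ t) ^ b) *
        (conj γ + a * ((pr ρ t)⁻¹ + conj μ * pr ρ t) + conj β * pr ρ t))) = _
  rw [Lb_Uw μ a γ β (Lb_pr_ne hρ t)]
  obtain ⟨X, hX⟩ : ∃ X, X = conj γ + a * ((pr ρ t)⁻¹ + conj μ * pr ρ t) + conj β * pr ρ t := ⟨_, rfl⟩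
  rw [← hX]
  have h3 : 1 / (2 * ((b : ℂ) + 1)) * (F₀ (zw μ (pr ρ t)) * pw μ (pr ρ t) * ((((b : ℂ) + 1) * zs μ (pr ρ t) ^ b) * X)) =
      1 / 2 * (F₀ (zw μ (pr ρ t)) * pw μ (pr ρ t) * (zs μ (pr ρ t) ^ b * X)) := by
    rw [one_div, mul_inv]
    linear_combination (2⁻¹ * (F₀ (zw μ (pr ρ t)) * pw μ (pr ρ t) * (zs μ (pr ρ t) ^ b * X))) * inv_mul_cancel₀ hb1
  rw [h3]
  ring

theorem Lb_E1G {μ₀ ρ : ℝ} (h0 : 0 ≤ μ₀) (h1 : μ₀ < ρ ^ 2) (hρ : 0 < ρ) (hρ1 : ρ < 1) {S : Sq} {μ : ℂ} {a : ℝ} {γ β : ℂ}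
    (hS : LimG S μ₀ μ a γ β) {F : ℕ → ℂ → ℂ} {F₀ : ℂ → ℂ} (hF : LBG S μ F F₀) (b : ℕ) :
    Tendsto (fun j => ((∫ z in S.E₂ 1 j, F j z * conj z ^ b) - ∫ z in S.E₁ 1 j, F j z * conj z ^ b) / (S.d j : ℂ)) atTop
      (𝓝 (∫ t in (0 : ℝ)..(2 * π), Uw μ a γ β (pr ρ t) * F₀ (zw μ (pr ρ t)) * zs μ (pr ρ t) ^ b)) := by
  obtain ⟨D, D', δ, σ, hG⟩ := Lb_geo h0 h1 hρ hρ1 hS
  obtain ⟨C, hC0, hC⟩ := Lb_F hG hF
  have hμ01 : μ₀ < 1 := by nlinarith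
  have hex : ∀ j, ∃ Φ : ℂ → ℂ, DifferentiableOn ℂ (F j) D → ∀ z ∈ D, HasDerivAt Φ (F j z) z := by
    intro j
    by_cases hd : DifferentiableOn ℂ (F j) D
    · obtain ⟨Φ, hΦ⟩ := hG.cvx.exists_forall_hasDerivWithinAt hd
      exact ⟨Φ, fun _ z hz => (hΦ z hz).hasDerivAt (hG.opn.mem_nhds hz)⟩
    · exact ⟨0, fun h => absurd h hd⟩
  choose Φ hΦ using hex
  have hDD : ∀ z ∈ D', z ∈ D := fun z hz => hG.sub z hz (Metric.mem_closedBall_self hG.pos.le)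
  have hdC : ∀ j, (S.d j : ℂ) ≠ 0 := fun j => by exact_mod_cast (hS.pos j).ne'
  obtain ⟨z₁, hz₁⟩ : ∃ z₁ : ℕ → ℝ → ℂ, z₁ = fun j t => Lbz 0 1 (S.μ₁ j) (pr ρ t) := ⟨_, rfl⟩
  obtain ⟨z₂, hz₂⟩ : ∃ z₂ : ℕ → ℝ → ℂ, z₂ = fun j t => Lbz (S.c₂ j) (S.r₂ j) (S.μ₂ j) (pr ρ t) := ⟨_, rfl⟩
  obtain ⟨s₁, hs₁⟩ : ∃ s₁ : ℕ → ℝ → ℂ, s₁ = fun j t => Lbs 0 1 (S.μ₁ j) (pr ρ t) := ⟨_, rfl⟩
  obtain ⟨s₂, hs₂⟩ : ∃ s₂ : ℕ → ℝ → ℂ, s₂ = fun j t => Lbs (S.c₂ j) (S.r₂ j) (S.μ₂ j) (pr ρ t) := ⟨_, rfl⟩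
  obtain ⟨p₁, hp₁⟩ : ∃ p₁ : ℕ → ℝ → ℂ, p₁ = fun j t => Lbp 1 (S.μ₁ j) (pr ρ t) := ⟨_, rfl⟩
  obtain ⟨q₂, hq₂⟩ : ∃ q₂ : ℕ → ℝ → ℂ, q₂ = fun j t => Lbq (S.r₂ j) (S.μ₂ j) (pr ρ t) := ⟨_, rfl⟩
  have hz₁c : ∀ j, Continuous (z₁ j) := fun j => by rw [hz₁]; exact Lbz_cont _ _ _ hρ
  have hz₂c : ∀ j, Continuous (z₂ j) := fun j => by rw [hz₂]; exact Lbz_cont _ _ _ hρ
  have hs₁c : ∀ j, Continuous (s₁ j) := fun j => by rw [hs₁]; exact Lbs_cont _ _ _ hρ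
  have hs₂c : ∀ j, Continuous (s₂ j) := fun j => by rw [hs₂]; exact Lbs_cont _ _ _ hρ
  have hp₁c : ∀ j, Continuous (p₁ j) := fun j => by rw [hp₁]; exact Lbp_cont _ _ hρ
  have hq₂c : ∀ j, Continuous (q₂ j) := fun j => by rw [hq₂]; exact Lbq_cont _ _ hρ
  have hn := Lb_pr_norm hρ
  have hni : ∀ t, ‖(pr ρ t)⁻¹‖ = ρ⁻¹ := fun t => by rw [norm_inv, hn]
  have hρi : 0 < ρ⁻¹ := inv_pos.2 hρ
  -- limits of the points
  have lr : Tendsto (fun j => ((S.r₂ j : ℝ) : ℂ)) atTop (𝓝 ((1 : ℝ) : ℂ)) := (Complex.continuous_ofReal.tendsto 1).comp (Lb_r hS)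
  have lc : Tendsto S.c₂ atTop (𝓝 0) := Lb_c hS
  have lm1 := hS.lm1
  have lm2 := hS.lm2
  have lcj : Tendsto (fun j => conj (S.c₂ j)) atTop (𝓝 (conj (0 : ℂ))) := (Complex.continuous_conj.tendsto 0).comp lc
  have lm2j : Tendsto (fun j => conj (S.μ₂ j)) atTop (𝓝 (conj μ)) := (Complex.continuous_conj.tendsto μ).comp lm2
  have lm1j : Tendsto (fun j => conj (S.μ₁ j)) atTop (𝓝 (conj μ)) := (Complex.continuous_conj.tendsto μ).comp lm1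
  have lz₁ : ∀ t, Tendsto (fun j => z₁ j t) atTop (𝓝 (zw μ (pr ρ t))) := by
    intro t
    rw [hz₁, ← Lbz_zw]
    exact ((lm1.mul_const _).const_add _).const_mul _ |>.const_add _
  have lz₂ : ∀ t, Tendsto (fun j => z₂ j t) atTop (𝓝 (zw μ (pr ρ t))) := by
    intro t
    rw [hz₂, ← Lbz_zw]
    exact lc.add (lr.mul ((lm2.mul_const _).const_add _))
  have ls₁ : ∀ t, Tendsto (fun j => s₁ j t) atTop (𝓝 (zs μ (pr ρ t))) := by
    intro t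
    rw [hs₁, ← Lbs_zs]
    exact ((lm1j.mul_const _).const_add _).const_mul _ |>.const_add _
  have ls₂ : ∀ t, Tendsto (fun j => s₂ j t) atTop (𝓝 (zs μ (pr ρ t))) := by
    intro t
    rw [hs₂, ← Lbs_zs]
    exact lcj.add (lr.mul ((lm2j.mul_const _).const_add _))
  have lp₁ : ∀ t, Tendsto (fun j => p₁ j t) atTop (𝓝 (pw μ (pr ρ t))) := by
    intro t
    rw [hp₁, ← Lbp_pw]
    exact ((lm1.mul_const _).const_sub _).const_mul _
  have lq₂ : ∀ t, Tendsto (fun j => q₂ j t) atTop (𝓝 (ps μ (pr ρ t))) := by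
    intro t
    rw [hq₂, ← Lbq_ps]
    exact lr.mul ((lm2j.mul_const _).const_sub _)
  -- differences
  obtain ⟨M, hM⟩ : ∃ M : ℝ, M = 1 + ρ + ρ⁻¹ := ⟨_, rfl⟩
  have hM0 : 0 < M := by rw [hM]; positivity
  have hdz : ∀ j t, z₂ j t - z₁ j t = S.c₂ j + ((S.r₂ j - 1 : ℝ) : ℂ) * (pr ρ t + S.μ₂ j * (pr ρ t)⁻¹) +
      (S.μ₂ j - S.μ₁ j) * (pr ρ t)⁻¹ := by
    intro j t
    rw [hz₁, hz₂]
    simp only [Lbz]
    push_cast
    ring
  have hds : ∀ j t, s₂ j t - s₁ j t = conj (S.c₂ j) + ((S.r₂ j - 1 : ℝ) : ℂ) * ((pr ρ t)⁻¹ + conj (S.μ₂ j) * pr ρ t) +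
      conj (S.μ₂ j - S.μ₁ j) * pr ρ t := by
    intro j t
    rw [hs₁, hs₂]
    simp only [Lbs, map_zero, map_sub]
    push_cast
    ring
  have hm2' : ∀ j, ‖S.μ₂ j‖ ≤ 1 := fun j => (hS.m2 j).trans hμ01.le
  have hbase : ∀ j (x y z : ℝ), x ≤ M → y ≤ M → z ≤ M → ‖S.c₂ j‖ * x + |S.r₂ j - 1| * y + ‖S.μ₁ j - S.μ₂ j‖ * z ≤ M * S.d j := by
    intro j x y z hx hy hz
    have h3 := nb_dd S j
    have n1 := norm_nonneg (S.c₂ j)
    have n2 := abs_nonneg (S.r₂ j - 1)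
    have n3 := norm_nonneg (S.μ₁ j - S.μ₂ j)
    rw [← h3]
    nlinarith [mul_le_mul_of_nonneg_left hx n1, mul_le_mul_of_nonneg_left hy n2, mul_le_mul_of_nonneg_left hz n3]
  have hdzn : ∀ j t, ‖z₂ j t - z₁ j t‖ ≤ M * S.d j := by
    intro j t
    rw [hdz]
    have e3 := norm_add₃_le (a := S.c₂ j) (b := ((S.r₂ j - 1 : ℝ) : ℂ) * (pr ρ t + S.μ₂ j * (pr ρ t)⁻¹)) (c := (S.μ₂ j - S.μ₁ j) * (pr ρ t)⁻¹)
    have e1 : ‖((S.r₂ j - 1 : ℝ) : ℂ) * (pr ρ t + S.μ₂ j * (pr ρ t)⁻¹)‖ ≤ |S.r₂ j - 1| * (ρ + 1 * ρ⁻¹) := by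
      rw [norm_mul, Complex.norm_real, Real.norm_eq_abs]
      refine mul_le_mul_of_nonneg_left ?_ (abs_nonneg _)
      refine (norm_add_le _ _).trans ?_
      rw [norm_mul, hni, hn]
      have := hm2' j
      gcongr
    have e2 : ‖(S.μ₂ j - S.μ₁ j) * (pr ρ t)⁻¹‖ = ‖S.μ₁ j - S.μ₂ j‖ * ρ⁻¹ := by
      rw [norm_mul, hni, norm_sub_rev]
    have e4 := hbase j 1 (ρ + 1 * ρ⁻¹) ρ⁻¹ (by rw [hM]; linarith) (by rw [hM]; linarith) (by rw [hM]; linarith)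
    linarith
  have hdsn : ∀ j t, ‖s₂ j t - s₁ j t‖ ≤ M * S.d j := by
    intro j t
    rw [hds]
    have e3 := norm_add₃_le (a := conj (S.c₂ j)) (b := ((S.r₂ j - 1 : ℝ) : ℂ) * ((pr ρ t)⁻¹ + conj (S.μ₂ j) * pr ρ t))
      (c := conj (S.μ₂ j - S.μ₁ j) * pr ρ t)
    have e1 : ‖((S.r₂ j - 1 : ℝ) : ℂ) * ((pr ρ t)⁻¹ + conj (S.μ₂ j) * pr ρ t)‖ ≤ |S.r₂ j - 1| * (ρ⁻¹ + 1 * ρ) := by
      rw [norm_mul, Complex.norm_real, Real.norm_eq_abs]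
      refine mul_le_mul_of_nonneg_left ?_ (abs_nonneg _)
      refine (norm_add_le _ _).trans ?_
      rw [norm_mul, hni, hn, RCLike.norm_conj]
      have := hm2' j
      gcongr
    have e2 : ‖conj (S.μ₂ j - S.μ₁ j) * pr ρ t‖ = ‖S.μ₁ j - S.μ₂ j‖ * ρ := by
      rw [norm_mul, hn, RCLike.norm_conj, norm_sub_rev]
    have e5 : ‖conj (S.c₂ j)‖ = ‖S.c₂ j‖ := RCLike.norm_conj _
    have e4 := hbase j 1 (ρ⁻¹ + 1 * ρ) ρ (by rw [hM]; linarith) (by rw [hM]; linarith) (by rw [hM]; linarith)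
    linarith
  have lar : Tendsto (fun j => (((S.r₂ j - 1) / S.d j : ℝ) : ℂ)) atTop (𝓝 (a : ℂ)) := (Complex.continuous_ofReal.tendsto a).comp hS.lr
  have ldz : ∀ t, Tendsto (fun j => (z₂ j t - z₁ j t) / (S.d j : ℂ)) atTop (𝓝 (zt μ a γ β (pr ρ t))) := by
    intro t
    have h2 := (hS.lc.add (lar.mul ((lm2.mul_const (pr ρ t)⁻¹).const_add (pr ρ t)))).add (hS.lb.mul_const (pr ρ t)⁻¹)
    refine h2.congr fun j => ?_
    rw [hdz]
    push_cast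
    ring
  have ldcj : Tendsto (fun j => conj (S.c₂ j / (S.d j : ℂ))) atTop (𝓝 (conj γ)) := (Complex.continuous_conj.tendsto γ).comp hS.lc
  have ldbj : Tendsto (fun j => conj ((S.μ₂ j - S.μ₁ j) / (S.d j : ℂ))) atTop (𝓝 (conj β)) := (Complex.continuous_conj.tendsto β).comp hS.lb
  have lds : ∀ t, Tendsto (fun j => (s₂ j t - s₁ j t) / (S.d j : ℂ)) atTop
      (𝓝 (conj γ + a * ((pr ρ t)⁻¹ + conj μ * pr ρ t) + conj β * pr ρ t)) := by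
    intro t
    have h2 := (ldcj.add (lar.mul ((lm2j.mul_const (pr ρ t)).const_add (pr ρ t)⁻¹))).add (ldbj.mul_const (pr ρ t))
    refine h2.congr fun j => ?_
    rw [hds, map_div₀, map_div₀, Complex.conj_ofReal]
    push_cast
    ring
  -- bounds
  have hr2 : ∀ j, |S.r₂ j - 1| ≤ 1 ∧ ‖S.c₂ j‖ ≤ 1 := by
    intro j
    have h3 := nb_dd S j
    have n1 := norm_nonneg (S.c₂ j)
    have n2 := abs_nonneg (S.r₂ j - 1)
    have n3 := norm_nonneg (S.μ₁ j - S.μ₂ j)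
    have := hS.small j
    constructor <;> linarith
  have hr2n : ∀ j, ‖((S.r₂ j : ℝ) : ℂ)‖ ≤ 2 := by
    intro j
    rw [Complex.norm_real, Real.norm_eq_abs]
    have h3 := abs_le.1 (hr2 j).1
    rw [abs_le]
    constructor <;> linarith
  obtain ⟨B, hB⟩ : ∃ B : ℝ, B = 2 * M := ⟨_, rfl⟩
  have hB0 : 0 < B := by rw [hB]; positivity
  have hs₂b : ∀ j t, ‖s₂ j t‖ ≤ B := by
    intro j t
    rw [hs₂]
    show ‖conj (S.c₂ j) + (S.r₂ j : ℂ) * ((pr ρ t)⁻¹ + conj (S.μ₂ j) * pr ρ t)‖ ≤ B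
    refine (norm_add_le _ _).trans ?_
    rw [norm_mul, RCLike.norm_conj]
    have e1 : ‖(pr ρ t)⁻¹ + conj (S.μ₂ j) * pr ρ t‖ ≤ ρ⁻¹ + 1 * ρ := by
      refine (norm_add_le _ _).trans ?_
      rw [norm_mul, hni, hn, RCLike.norm_conj]
      have := hm2' j
      gcongr
    have e2 : ‖(S.r₂ j : ℂ)‖ * ‖(pr ρ t)⁻¹ + conj (S.μ₂ j) * pr ρ t‖ ≤ 2 * (ρ⁻¹ + 1 * ρ) := by
      have := hr2n j
      gcongr
    have e3 := (hr2 j).2
    rw [hB, hM]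
    linarith
  have hq₂b : ∀ j t, ‖q₂ j t‖ ≤ B := by
    intro j t
    rw [hq₂]
    show ‖(S.r₂ j : ℂ) * ((pr ρ t)⁻¹ - conj (S.μ₂ j) * pr ρ t)‖ ≤ B
    rw [norm_mul]
    have e1 : ‖(pr ρ t)⁻¹ - conj (S.μ₂ j) * pr ρ t‖ ≤ ρ⁻¹ + 1 * ρ := by
      refine (norm_sub_le _ _).trans ?_
      rw [norm_mul, hni, hn, RCLike.norm_conj]
      have := hm2' j
      gcongr
    have e2 : ‖(S.r₂ j : ℂ)‖ * ‖(pr ρ t)⁻¹ - conj (S.μ₂ j) * pr ρ t‖ ≤ 2 * (ρ⁻¹ + 1 * ρ) := by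
      have := hr2n j
      gcongr
    rw [hB, hM]
    linarith
  have hm1' : ∀ j, ‖S.μ₁ j‖ ≤ 1 := fun j => (hS.m1 j).trans hμ01.le
  have hs₁b : ∀ j t, ‖s₁ j t‖ ≤ B := by
    intro j t
    rw [hs₁]
    show ‖conj (0 : ℂ) + ((1 : ℝ) : ℂ) * ((pr ρ t)⁻¹ + conj (S.μ₁ j) * pr ρ t)‖ ≤ B
    rw [map_zero, zero_add, Complex.ofReal_one, one_mul]
    have e1 : ‖(pr ρ t)⁻¹ + conj (S.μ₁ j) * pr ρ t‖ ≤ ρ⁻¹ + 1 * ρ := by
      refine (norm_add_le _ _).trans ?_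
      rw [norm_mul, hni, hn, RCLike.norm_conj]
      have := hm1' j
      gcongr
    rw [hB, hM]
    linarith
  have hp₁b : ∀ j t, ‖p₁ j t‖ ≤ B := by
    intro j t
    rw [hp₁]
    show ‖((1 : ℝ) : ℂ) * (pr ρ t - S.μ₁ j * (pr ρ t)⁻¹)‖ ≤ B
    rw [Complex.ofReal_one, one_mul]
    have e1 : ‖pr ρ t - S.μ₁ j * (pr ρ t)⁻¹‖ ≤ ρ + 1 * ρ⁻¹ := by
      refine (norm_sub_le _ _).trans ?_
      rw [norm_mul, hni, hn]
      have := hm1' j
      gcongr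
    rw [hB, hM]
    linarith
  have hzD₁ : ∀ᶠ j in atTop, ∀ t, z₁ j t ∈ D' := by rw [hz₁]; exact hG.z1
  have hzD₂ : ∀ᶠ j in atTop, ∀ t, z₂ j t ∈ D' := by rw [hz₂]; exact hG.z2
  have hy : ∀ t, zw μ (pr ρ t) ∈ D' := fun t => by rw [← Lbz_zw]; exact hG.z0 t
  have hΦc : ∀ᶠ j in atTop, ContinuousOn (Φ j) D := by
    filter_upwards [hC] with j hj z hz
    exact (hΦ j hj.1 z hz).continuousAt.continuousWithinAt
  -- the first integrand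
  have hlimP : ∀ t, Tendsto (fun j => (Φ j (z₂ j t) - Φ j (z₁ j t)) / (S.d j : ℂ)) atTop
      (𝓝 (F₀ (zw μ (pr ρ t)) * zt μ a γ β (pr ρ t))) := by
    intro t
    have hx₁ : ∀ᶠ j in atTop, z₁ j t ∈ D' := hzD₁.mono fun j hj => hj t
    have h2 := (Lb_val hG hF hC hx₁ (hy t) (lz₁ t)).mul (ldz t)
    have h3 : Tendsto (fun j => (Φ j (z₂ j t) - Φ j (z₁ j t) - F j (z₁ j t) * (z₂ j t - z₁ j t)) / (S.d j : ℂ)) atTop (𝓝 0) := by
      have h4 : Tendsto (fun j => C / δ * M * M * S.d j) atTop (𝓝 (C / δ * M * M * 0)) := hS.ld.const_mul _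
      rw [mul_zero] at h4
      refine squeeze_zero_norm' ?_ h4
      filter_upwards [hC, hzD₁, hzD₂] with j hj h5 h6
      have hp := hS.pos j
      rw [norm_div, Complex.norm_real, Real.norm_eq_abs, abs_of_pos hp, div_le_iff₀ hp]
      refine (Lb_tay hG.opn hG.cvx' hG.pos hG.sub hC0 hj.1 hj.2 (hΦ j hj.1) (h5 t) (h6 t)).trans ?_
      have h7 := hdzn j t
      have h8 := norm_nonneg (z₂ j t - z₁ j t)
      have h9 : 0 ≤ C / δ := div_nonneg hC0 hG.pos.le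
      calc C / δ * ‖z₂ j t - z₁ j t‖ * ‖z₂ j t - z₁ j t‖ ≤ C / δ * (M * S.d j) * (M * S.d j) := by gcongr
        _ = C / δ * M * M * S.d j * S.d j := by ring
    have h4 := h3.add h2
    rw [zero_add] at h4
    refine h4.congr fun j => ?_
    have := hdC j
    field_simp
    ring
  have hT1 : Tendsto (fun j => ∫ t in (0 : ℝ)..(2 * π), (Φ j (z₂ j t) - Φ j (z₁ j t)) / (S.d j : ℂ) * (s₂ j t ^ b * q₂ j t)) atTop
      (𝓝 (∫ t in (0 : ℝ)..(2 * π), F₀ (zw μ (pr ρ t)) * zt μ a γ β (pr ρ t) * (zs μ (pr ρ t) ^ b * ps μ (pr ρ t)))) := by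
    refine intervalIntegral.tendsto_integral_filter_of_dominated_convergence (fun _ => C * M * (B ^ b * B)) ?_ ?_ ?_ ?_
    · filter_upwards [hΦc, hzD₁, hzD₂] with j hj h5 h6
      have c1 : Continuous fun t => Φ j (z₁ j t) := hj.comp_continuous (hz₁c j) fun t => hDD _ (h5 t)
      have c2 : Continuous fun t => Φ j (z₂ j t) := hj.comp_continuous (hz₂c j) fun t => hDD _ (h6 t)
      exact (((c2.sub c1).div_const _).mul (((hs₂c j).pow b).mul (hq₂c j))).aestronglyMeasurable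
    · filter_upwards [hC, hzD₁, hzD₂] with j hj h5 h6
      refine Eventually.of_forall fun t _ => ?_
      have hp := hS.pos j
      have h7 : ‖Φ j (z₂ j t) - Φ j (z₁ j t)‖ ≤ C * ‖z₂ j t - z₁ j t‖ :=
        hG.cvx.norm_image_sub_le_of_norm_hasDerivWithin_le
          (fun z hz => (hΦ j hj.1 z hz).hasDerivWithinAt) hj.2 (hDD _ (h5 t)) (hDD _ (h6 t))
      rw [norm_mul, norm_div, norm_mul, norm_pow, Complex.norm_real, Real.norm_eq_abs, abs_of_pos hp]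
      have h8 : ‖Φ j (z₂ j t) - Φ j (z₁ j t)‖ / S.d j ≤ C * M := by
        rw [div_le_iff₀ hp]
        calc _ ≤ _ := h7
          _ ≤ C * (M * S.d j) := mul_le_mul_of_nonneg_left (hdzn j t) hC0
          _ = _ := by ring
      have h9 := hs₂b j t
      have h10 := hq₂b j t
      gcongr
    · exact intervalIntegrable_const
    · exact Eventually.of_forall fun t _ => (hlimP t).mul (((ls₂ t).pow b).mul (lq₂ t))
  -- the second integrand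
  have hgeo : ∀ j t, (s₂ j t ^ (b + 1) - s₁ j t ^ (b + 1)) / (S.d j : ℂ) =
      (∑ i ∈ Finset.range (b + 1), s₂ j t ^ i * s₁ j t ^ (b + 1 - 1 - i)) * ((s₂ j t - s₁ j t) / (S.d j : ℂ)) := by
    intro j t
    rw [← mul_div_assoc, geom_sum₂_mul]
  have hT2 : Tendsto (fun j => ∫ t in (0 : ℝ)..(2 * π), F j (z₁ j t) * p₁ j t * ((s₂ j t ^ (b + 1) - s₁ j t ^ (b + 1)) / (S.d j : ℂ))) atTop
      (𝓝 (∫ t in (0 : ℝ)..(2 * π), F₀ (zw μ (pr ρ t)) * pw μ (pr ρ t) * ((((b : ℂ) + 1) * zs μ (pr ρ t) ^ b) *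
        (conj γ + a * ((pr ρ t)⁻¹ + conj μ * pr ρ t) + conj β * pr ρ t)))) := by
    refine intervalIntegral.tendsto_integral_filter_of_dominated_convergence (fun _ => C * B * ((((b : ℝ) + 1) * B ^ b) * M)) ?_ ?_ ?_ ?_
    · filter_upwards [hC, hzD₁] with j hj h5
      have c1 : Continuous fun t => F j (z₁ j t) := hj.1.continuousOn.comp_continuous (hz₁c j) fun t => hDD _ (h5 t)
      exact ((c1.mul (hp₁c j)).mul ((((hs₂c j).pow _).sub ((hs₁c j).pow _)).div_const _)).aestronglyMeasurable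
    · filter_upwards [hC, hzD₁] with j hj h5
      refine Eventually.of_forall fun t _ => ?_
      have hp := hS.pos j
      rw [hgeo, norm_mul, norm_mul, norm_mul]
      have h6 : ‖(s₂ j t - s₁ j t) / (S.d j : ℂ)‖ ≤ M := by
        rw [norm_div, Complex.norm_real, Real.norm_eq_abs, abs_of_pos hp, div_le_iff₀ hp]
        exact hdsn j t
      have h7 : ‖∑ i ∈ Finset.range (b + 1), s₂ j t ^ i * s₁ j t ^ (b + 1 - 1 - i)‖ ≤ ((b : ℝ) + 1) * B ^ b := by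
        refine (norm_sum_le_of_le (f := fun i => s₂ j t ^ i * s₁ j t ^ (b + 1 - 1 - i)) (n := fun _ => B ^ b) _ fun i hi => ?_).trans ?_
        · rw [Finset.mem_range] at hi
          rw [norm_mul, norm_pow, norm_pow]
          have h8 := hs₂b j t
          have h9 := hs₁b j t
          calc ‖s₂ j t‖ ^ i * ‖s₁ j t‖ ^ (b + 1 - 1 - i) ≤ B ^ i * B ^ (b + 1 - 1 - i) := by gcongr
            _ = B ^ b := by rw [← pow_add]; congr 1; omega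
        · rw [Finset.sum_const, Finset.card_range, nsmul_eq_mul]
          push_cast
          exact le_rfl
      have h8 := hj.2 _ (hDD _ (h5 t))
      have h9 := hp₁b j t
      gcongr
    · exact intervalIntegrable_const
    · refine Eventually.of_forall fun t _ => ?_
      simp only [hgeo]
      have hx₁ : ∀ᶠ j in atTop, z₁ j t ∈ D' := hzD₁.mono fun j hj => hj t
      have h6 : Tendsto (fun j => ∑ i ∈ Finset.range (b + 1), s₂ j t ^ i * s₁ j t ^ (b + 1 - 1 - i)) atTop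
          (𝓝 (((b : ℂ) + 1) * zs μ (pr ρ t) ^ b)) := by
        have h7 : Tendsto (fun j => ∑ i ∈ Finset.range (b + 1), s₂ j t ^ i * s₁ j t ^ (b + 1 - 1 - i)) atTop
            (𝓝 (∑ i ∈ Finset.range (b + 1), zs μ (pr ρ t) ^ i * zs μ (pr ρ t) ^ (b + 1 - 1 - i))) :=
          tendsto_finsetSum _ fun i _ => ((ls₂ t).pow i).mul ((ls₁ t).pow _)
        have h8 : ∑ i ∈ Finset.range (b + 1), zs μ (pr ρ t) ^ i * zs μ (pr ρ t) ^ (b + 1 - 1 - i) = ((b : ℂ) + 1) * zs μ (pr ρ t) ^ b := by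
          have h9 : ∀ i ∈ Finset.range (b + 1), zs μ (pr ρ t) ^ i * zs μ (pr ρ t) ^ (b + 1 - 1 - i) = zs μ (pr ρ t) ^ b := by
            intro i hi
            rw [Finset.mem_range] at hi
            rw [← pow_add]
            congr 1
            omega
          rw [Finset.sum_congr rfl h9, Finset.sum_const, Finset.card_range, nsmul_eq_mul]
          push_cast
          ring
        rwa [h8] at h7
      exact ((Lb_val hG hF hC hx₁ (hy t) (lz₁ t)).mul (lp₁ t)).mul (h6.mul (lds t))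
  have hfin := (hT1.const_mul (1 / 2 : ℂ)).add (hT2.const_mul (1 / (2 * ((b : ℂ) + 1))))
  have hb1 : ((b : ℂ) + 1) ≠ 0 := by exact_mod_cast Nat.succ_ne_zero b
  -- the limit
  have hF0c : Continuous fun t => F₀ (zw μ (pr ρ t)) := by
    refine hF.hol0.continuousOn.comp_continuous ?_ fun t => hG.sub1 (hDD _ (hy t))
    exact (Lb_pr_cont ρ).add (continuous_const.mul (Lb_pr_icont hρ))
  have hlast := Lb_last (a := a) (γ := γ) (β := β) hρ hF0c b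
  rw [hlast] at hfin
  refine hfin.congr' ?_
  filter_upwards [hC, hzD₁, hzD₂, hΦc] with j hj h5 h6 h7
  obtain ⟨N, hN, hN1, hN2, hN3⟩ := hF.hol j
  have hr2p : 0 < S.r₂ j := by
    have h3 := nb_dd S j
    have n1 := norm_nonneg (S.c₂ j)
    have n3 := norm_nonneg (S.μ₁ j - S.μ₂ j)
    have h4 := hS.small j
    have h8 : |S.r₂ j - 1| ≤ 1 / 100 := by linarith
    have := (abs_le.1 h8).1
    linarith
  have hM1 := Lb_CF (c := 0) (r := 1) one_pos hρ ((hS.m1 j).trans_lt h1) hρ1 hN hN1 hN3 b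
  have hM2 := Lb_CF (c := S.c₂ j) hr2p hρ ((hS.m2 j).trans_lt h1) hρ1 hN hN2 hN3 b
  have c1 : Continuous fun t => Φ j (z₁ j t) := h7.comp_continuous (hz₁c j) fun t => hDD _ (h5 t)
  have c2 : Continuous fun t => Φ j (z₂ j t) := h7.comp_continuous (hz₂c j) fun t => hDD _ (h6 t)
  have c3 : Continuous fun t => F j (z₁ j t) := hj.1.continuousOn.comp_continuous (hz₁c j) fun t => hDD _ (h5 t)
  have hP2 := Lb_parts (c := S.c₂ j) (r := S.r₂ j) (μ := S.μ₂ j) (c' := S.c₂ j) (r' := S.r₂ j) (μ' := S.μ₂ j) hρ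
    hj.1.continuousOn (hΦ j hj.1) (fun t => hDD _ (by have := h6 t; rw [hz₂] at this; exact this)) b
  have hP1 := Lb_parts (c := 0) (r := 1) (μ := S.μ₁ j) (c' := S.c₂ j) (r' := S.r₂ j) (μ' := S.μ₂ j) hρ
    hj.1.continuousOn (hΦ j hj.1) (fun t => hDD _ (by have := h5 t; rw [hz₁] at this; exact this)) b
  have hM2' : ∫ z in S.E₂ 1 j, F j z * conj z ^ b = 1 / (2 * ((b : ℂ) + 1)) *
      (((b : ℂ) + 1) * ∫ t in (0 : ℝ)..(2 * π), Φ j (z₂ j t) * (s₂ j t ^ b * q₂ j t)) := by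
    rw [hz₂, hs₂, hq₂]
    rw [← hP2]
    exact hM2
  have hP1' : ∫ t in (0 : ℝ)..(2 * π), F j (z₁ j t) * p₁ j t * s₂ j t ^ (b + 1) =
      ((b : ℂ) + 1) * ∫ t in (0 : ℝ)..(2 * π), Φ j (z₁ j t) * (s₂ j t ^ b * q₂ j t) := by
    rw [hz₁, hs₂, hq₂, hp₁]
    exact hP1
  have hM1' : ∫ z in S.E₁ 1 j, F j z * conj z ^ b = 1 / (2 * ((b : ℂ) + 1)) *
      ∫ t in (0 : ℝ)..(2 * π), F j (z₁ j t) * p₁ j t * s₁ j t ^ (b + 1) := by
    rw [hz₁, hs₁, hp₁]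
    exact hM1
  rw [hM2', hM1']
  have hI1 : IntervalIntegrable (fun t => Φ j (z₂ j t) * (s₂ j t ^ b * q₂ j t)) volume 0 (2 * π) :=
    (c2.mul (((hs₂c j).pow b).mul (hq₂c j))).intervalIntegrable _ _
  have hI2 : IntervalIntegrable (fun t => Φ j (z₁ j t) * (s₂ j t ^ b * q₂ j t)) volume 0 (2 * π) :=
    (c1.mul (((hs₂c j).pow b).mul (hq₂c j))).intervalIntegrable _ _
  have hI3 : IntervalIntegrable (fun t => F j (z₁ j t) * p₁ j t * s₂ j t ^ (b + 1)) volume 0 (2 * π) :=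
    ((c3.mul (hp₁c j)).mul ((hs₂c j).pow _)).intervalIntegrable _ _
  have hI4 : IntervalIntegrable (fun t => F j (z₁ j t) * p₁ j t * s₁ j t ^ (b + 1)) volume 0 (2 * π) :=
    ((c3.mul (hp₁c j)).mul ((hs₁c j).pow _)).intervalIntegrable _ _
  have hA : (∫ t in (0 : ℝ)..(2 * π), (Φ j (z₂ j t) - Φ j (z₁ j t)) / (S.d j : ℂ) * (s₂ j t ^ b * q₂ j t)) =
      ((∫ t in (0 : ℝ)..(2 * π), Φ j (z₂ j t) * (s₂ j t ^ b * q₂ j t)) -
        ∫ t in (0 : ℝ)..(2 * π), Φ j (z₁ j t) * (s₂ j t ^ b * q₂ j t)) / (S.d j : ℂ) := by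
    rw [← intervalIntegral.integral_sub hI1 hI2, ← intervalIntegral.integral_div]
    refine intervalIntegral.integral_congr fun t _ => ?_
    ring
  have hB' : (∫ t in (0 : ℝ)..(2 * π), F j (z₁ j t) * p₁ j t * ((s₂ j t ^ (b + 1) - s₁ j t ^ (b + 1)) / (S.d j : ℂ))) =
      ((∫ t in (0 : ℝ)..(2 * π), F j (z₁ j t) * p₁ j t * s₂ j t ^ (b + 1)) -
        ∫ t in (0 : ℝ)..(2 * π), F j (z₁ j t) * p₁ j t * s₁ j t ^ (b + 1)) / (S.d j : ℂ) := by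
    rw [← intervalIntegral.integral_sub hI3 hI4, ← intervalIntegral.integral_div]
    refine intervalIntegral.integral_congr fun t _ => ?_
    ring
  rw [hA, hB', hP1']
  have := hdC j
  field_simp
  ring


theorem LBG.mul {S : Sq} {μ : ℂ} {F G : ℕ → ℂ → ℂ} {F₀ G₀ : ℂ → ℂ} (hF : LBG S μ F F₀) (hG : LBG S μ G G₀) :
    LBG S μ (fun j z => F j z * G j z) (fun z => F₀ z * G₀ z) := by
  refine ⟨fun j => ?_, fun σ hσ hσ1 => ?_, hF.hol0.mul hG.hol0, fun z hz => (hF.lim z hz).mul (hG.lim z hz)⟩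
  · obtain ⟨N, hN, h1, h2, h3⟩ := hF.hol j
    obtain ⟨N', hN', h1', h2', h3'⟩ := hG.hol j
    exact ⟨N ∩ N', hN.inter hN', subset_inter h1 h1', subset_inter h2 h2',
      (h3.mono inter_subset_left).mul (h3'.mono inter_subset_right)⟩
  · obtain ⟨C, hC⟩ := hF.bd σ hσ hσ1
    obtain ⟨C', hC'⟩ := hG.bd σ hσ hσ1
    refine ⟨|C| * |C'|, fun j z hz => ?_⟩
    rw [norm_mul]
    exact mul_le_mul ((hC j z hz).trans (le_abs_self C)) ((hC' j z hz).trans (le_abs_self C')) (norm_nonneg _)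
      (abs_nonneg _)

theorem LBG.const {μ₀ : ℝ} (h1 : μ₀ < 1) {S : Sq} {μ : ℂ} {a : ℝ} {γ β : ℂ} (hS : LimG S μ₀ μ a γ β) {f : ℂ → ℂ}
    (hf : Differentiable ℂ f) : LBG S μ (fun _ => f) f := by
  refine ⟨fun j => ⟨univ, isOpen_univ, subset_univ _, subset_univ _, hf.differentiableOn⟩, fun σ hσ hσ1 => ?_,
    hf.differentiableOn, fun z _ => tendsto_const_nhds⟩
  obtain ⟨C, hC⟩ := (isCompact_closedBall (0 : ℂ) 3).exists_bound_of_continuousOn hf.continuous.continuousOn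
  refine ⟨C, fun j z hz => hC z ?_⟩
  have h3 := nb_dd S j
  have n1 := norm_nonneg (S.c₂ j)
  have n2 := abs_nonneg (S.r₂ j - 1)
  have n3 := norm_nonneg (S.μ₁ j - S.μ₂ j)
  have h4 := hS.small j
  have h5 : |S.r₂ j - 1| ≤ 1 / 100 := by linarith
  have h6 : ‖S.c₂ j‖ ≤ 1 / 100 := by linarith
  rw [abs_le] at h5
  rcases hz with hz | hz
  · have h7 := Dp_ball (c := 0) (r := 1) one_pos (μ := S.μ₁ j) ((hS.m1 j).trans_lt h1) (σ := σ) hz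
    rw [Metric.mem_ball, dist_zero_right] at h7
    rw [Metric.mem_closedBall, dist_zero_right]
    linarith
  · have h7 := Dp_ball (c := S.c₂ j) (r := S.r₂ j) (by linarith) (μ := S.μ₂ j) ((hS.m2 j).trans_lt h1) (σ := σ) hz
    rw [Metric.mem_ball, dist_eq_norm] at h7
    rw [Metric.mem_closedBall, dist_zero_right]
    have h8 : ‖z‖ ≤ ‖z - S.c₂ j‖ + ‖S.c₂ j‖ := by
      have := norm_add_le (z - S.c₂ j) (S.c₂ j)
      rwa [sub_add_cancel] at this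
    nlinarith

theorem E1G {μ₀ ρ : ℝ} (h0 : 0 ≤ μ₀) (h1 : μ₀ < ρ ^ 2) (hρ : 0 < ρ) (hρ1 : ρ < 1) {S : Sq} {μ : ℂ} {a : ℝ} {γ β : ℂ}
    (hS : LimG S μ₀ μ a γ β) {F : ℕ → ℂ → ℂ} {F₀ : ℂ → ℂ} (hF : LBG S μ F F₀) (b : ℕ) :
    Tendsto (fun j => ((∫ z in S.E₂ 1 j, F j z * conj z ^ b) - ∫ z in S.E₁ 1 j, F j z * conj z ^ b) / (S.d j : ℂ)) atTop
      (𝓝 (∫ t in (0 : ℝ)..(2 * π), Uw μ a γ β (pr ρ t) * F₀ (zw μ (pr ρ t)) * zs μ (pr ρ t) ^ b)) :=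
  Lb_E1G h0 h1 hρ hρ1 hS hF b

end LD1
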