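import Pool.Agent.H1.LD.D
import Pool.Agent.H1.ND.Na

/-!
ROW LD/Lc. The identity `Idn` for `A = z^b`, in terms of the coefficients: `PM` (`ND/Na.lean`, conjugated) for `∫ conj m z^b`, and `RR = π ∑ rt`, a finite sum since `fc (z^b) (n+1) = 0` for `n > b` (`Na_high` in `ND/Na.lean`, private there: copy it); `(1-x^(n+1)) A_n/(n+1) [conj M + (l μ^(n+1) M + l² x^(n+1) conj M)/(1 - l² x^(n+1))] =
(1-x^(n+1)) A_n/(n+1) conj (fh l μ M n)`, `x = ‖μ‖²` (`1 - l² x^(n+1) ≠ 0`).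
-/

set_option autoImplicit false

namespace LD1

open Complex Set Filter Topology MeasureTheory EW1 EX1 ND1
open scoped ComplexConjugate ContDiff Real

private theorem Lc_zpow {R : ℂ} (hR : R ≠ 0) (m : ℤ) :
    ∫ t in (0 : ℝ)..(2 * π), (R * exp (t * I)) ^ m = if m = 0 then (2 * π : ℂ) else 0 := by
  have h1 : ∀ t : ℝ, (R * exp (t * I)) ^ m = R ^ m * exp ((m * I) * t) := by
    intro t
    rw [mul_zpow, ← Complex.exp_int_mul]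
    congr 2
    ring
  simp only [h1]
  rw [intervalIntegral.integral_const_mul]
  split_ifs with h
  · subst h
    simp
  · have hm : (m : ℂ) * I ≠ 0 := mul_ne_zero (by exact_mod_cast h) I_ne_zero
    rw [integral_exp_mul_complex hm]
    have h2 : (m : ℂ) * I * ((2 * π : ℝ) : ℂ) = m * (2 * π * I) := by push_cast; ring
    rw [h2, Complex.exp_int_mul_two_pi_mul_I]
    simp

private theorem Lc_ne {ρ : ℝ} (hρ : 0 < ρ) : (ρ : ℂ) ≠ 0 := by exact_mod_cast hρ.ne'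

private theorem Lc_cont (R : ℂ) : Continuous fun t : ℝ => R * exp (t * I) := by fun_prop

/-- high coefficients of a polynomial vanish -/
private theorem Lc_high {c : ℂ} {r : ℝ} {μ : ℂ} {ρ : ℝ} (hρ : 0 < ρ) {b n : ℕ} (hn : b + 2 ≤ n) :
    fc c r μ (fun z => z ^ b) ρ n = 0 := by
  obtain ⟨j, rfl⟩ : ∃ j, n = b + 1 + (j + 1) := ⟨n - (b + 2), by omega⟩
  set P : Polynomial ℂ := (Polynomial.C c * Polynomial.X + Polynomial.C (r : ℂ) * (1 + Polynomial.C μ * Polynomial.X ^ 2)) ^ b *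
    (Polynomial.C (r : ℂ) * (1 - Polynomial.C μ * Polynomial.X ^ 2)) with hP
  have hw0 : ∀ t : ℝ, (ρ : ℂ) * exp (t * I) ≠ 0 := fun t => mul_ne_zero (Lc_ne hρ) (Complex.exp_ne_zero _)
  have h1 : ∀ t : ℝ, (c + r * (ρ * exp (t * I) + μ * (ρ * exp (t * I))⁻¹)) ^ b *
      (r * (ρ * exp (t * I) - μ * (ρ * exp (t * I))⁻¹)) * (ρ * exp (t * I))⁻¹ ^ (b + 1 + (j + 1)) =
      ∑ i ∈ Finset.range (P.natDegree + 1), P.coeff i * ((ρ : ℂ) * exp (t * I)) ^ (-((j + 1 + i : ℕ) : ℤ)) := by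
    intro t
    have hw := hw0 t
    set w := (ρ : ℂ) * exp (t * I) with hwd
    have e1 : ∑ i ∈ Finset.range (P.natDegree + 1), P.coeff i * w ^ (-((j + 1 + i : ℕ) : ℤ)) =
        w⁻¹ ^ (j + 1) * P.eval w⁻¹ := by
      rw [Polynomial.eval_eq_sum_range, Finset.mul_sum]
      refine Finset.sum_congr rfl fun i _ => ?_
      rw [zpow_neg, zpow_natCast, ← inv_pow, pow_add]
      ring
    rw [e1, hP]
    simp only [Polynomial.eval_mul, Polynomial.eval_pow, Polynomial.eval_add, Polynomial.eval_sub, Polynomial.eval_C,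
      Polynomial.eval_X, Polynomial.eval_one]
    have e2 : c + r * (w + μ * w⁻¹) = w * (c * w⁻¹ + r * (1 + μ * w⁻¹ ^ 2)) := by
      field_simp
    have e3 : r * (w - μ * w⁻¹) = w * (r * (1 - μ * w⁻¹ ^ 2)) := by
      field_simp
    rw [e2, e3, mul_pow]
    have e4 : w ^ b * w * w⁻¹ ^ (b + 1) = 1 := by
      rw [← pow_succ, inv_pow, mul_inv_cancel₀ (pow_ne_zero _ hw)]
    rw [pow_add w⁻¹ (b + 1) (j + 1)]
    linear_combination (((c * w⁻¹ + r * (1 + μ * w⁻¹ ^ 2)) ^ b) * (r * (1 - μ * w⁻¹ ^ 2)) * w⁻¹ ^ (j + 1)) * e4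
  unfold fc
  simp only [h1]
  rw [intervalIntegral.integral_finsetSum]
  · rw [Finset.sum_eq_zero, zero_div]
    intro i _
    rw [intervalIntegral.integral_const_mul, Lc_zpow (Lc_ne hρ), if_neg (by omega), mul_zero]
  · intro i _
    refine Continuous.intervalIntegrable ?_ _ _
    exact continuous_const.mul ((Lc_cont _).zpow₀ _ fun t => Or.inl (hw0 t))


private theorem Lc_den {μ : ℂ} (hμ : ‖μ‖ < 1) {l : ℝ} (hl : |l| ≤ 1) (n : ℕ) :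
    ((1 - l ^ 2 * ‖μ‖ ^ (2 * (n + 1)) : ℝ) : ℂ) ≠ 0 := by
  have h1 : l ^ 2 ≤ 1 := by
    rw [← sq_abs]
    exact pow_le_one₀ (abs_nonneg l) hl
  have h2 : ‖μ‖ ^ (2 * (n + 1)) < 1 := pow_lt_one₀ (norm_nonneg μ) hμ (by omega)
  have h3 : 0 ≤ ‖μ‖ ^ (2 * (n + 1)) := by positivity
  have h4 : l ^ 2 * ‖μ‖ ^ (2 * (n + 1)) < 1 :=
    lt_of_le_of_lt (mul_le_of_le_one_left h3 h1) h2
  exact_mod_cast (by linarith : (0 : ℝ) < 1 - l ^ 2 * ‖μ‖ ^ (2 * (n + 1))).ne'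

private theorem Lc_term {μ : ℂ} (hμ : ‖μ‖ < 1) {l : ℝ} (hl : |l| ≤ 1) (A M : ℂ) (n : ℕ) :
    ((1 - ‖μ‖ ^ (2 * (n + 1)) : ℝ) : ℂ) / (n + 1) * conj M * A + rt l μ A M (n + 1) =
      ((1 - ‖μ‖ ^ (2 * (n + 1)) : ℝ) : ℂ) / (n + 1) * conj (fh l μ M n) * A := by
  have hd := Lc_den hμ hl n
  have hn1 : ((n : ℂ) + 1) ≠ 0 := by exact_mod_cast Nat.succ_ne_zero n
  unfold rt fh
  rw [map_div₀, map_add, map_mul, map_mul, map_pow, Complex.conj_conj, Complex.conj_conj, Complex.conj_ofReal,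
    Complex.conj_ofReal]
  obtain ⟨q, hq⟩ : ∃ q : ℂ, q = (‖μ‖ : ℂ) ^ (2 * (n + 1)) := ⟨_, rfl⟩
  have e1 : ((1 - l ^ 2 * ‖μ‖ ^ (2 * (n + 1)) : ℝ) : ℂ) = 1 - (l : ℂ) ^ 2 * q := by
    rw [hq]; push_cast; rfl
  have e2 : ((1 - ‖μ‖ ^ (2 * (n + 1)) : ℝ) : ℂ) = 1 - q := by
    rw [hq]; push_cast; rfl
  obtain ⟨D, hD⟩ : ∃ D : ℂ, D = 1 - (l : ℂ) ^ 2 * q := ⟨_, rfl⟩
  have e3 : (l : ℂ) ^ 2 * q = 1 - D := by rw [hD]; ring
  rw [e1, ← hD] at hd ⊢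
  rw [e2]
  push_cast
  rw [← hq, e3]
  field_simp
  ring

private theorem Lc_one {μ₀ ρ : ℝ} (h1 : μ₀ < ρ ^ 2) (hρ : 0 < ρ) (hρ1 : ρ < 1) {c : ℂ} {r : ℝ} {μ : ℂ}
    (hr : 0 < r) (hμ : ‖μ‖ ≤ μ₀) {l : ℝ} (hl : |l| ≤ 1) {N : Set ℂ} (hN : IsOpen N)
    (hK : Kp c r μ ⊆ N) {m : ℂ → ℂ} (hm : DifferentiableOn ℂ m N) (b : ℕ) :
    (∫ z in Dp c r μ 1, conj (m z) * z ^ b) + RR c r μ l (fun z => z ^ b) m ρ =
      π * ∑ n ∈ Finset.range (b + 1), ((1 - ‖μ‖ ^ (2 * (n + 1)) : ℝ) : ℂ) / (n + 1) *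
        conj (fh l μ (fc c r μ m ρ (n + 1)) n) * fc c r μ (fun z => z ^ b) ρ (n + 1) := by
  have hμ1 : ‖μ‖ < 1 := lt_of_le_of_lt hμ (h1.trans (by nlinarith))
  have e1 : ∫ z in Dp c r μ 1, conj (m z) * z ^ b = conj (∫ z in Dp c r μ 1, m z * conj z ^ b) := by
    rw [← integral_conj]
    refine integral_congr_ae (Eventually.of_forall fun z => ?_)
    simp only [map_mul, map_pow, Complex.conj_conj]
  have e2 : RR c r μ l (fun z => z ^ b) m ρ = π * ∑ n ∈ Finset.range (b + 1),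
      rt l μ (fc c r μ (fun z => z ^ b) ρ (n + 1)) (fc c r μ m ρ (n + 1)) (n + 1) := by
    unfold RR
    rw [tsum_eq_sum]
    intro n hn
    rw [Finset.mem_range, not_lt] at hn
    rw [Lc_high hρ (by omega)]
    unfold rt
    rw [mul_zero, zero_mul, zero_div]
  rw [e1, PM hr hρ (lt_of_le_of_lt hμ h1) hρ1 hN hK hm b, e2, map_mul, Complex.conj_ofReal, map_sum, ← mul_add,
    ← Finset.sum_add_distrib]
  congr 1
  refine Finset.sum_congr rfl fun n _ => ?_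
  rw [← Lc_term hμ1 hl]
  congr 1
  rw [map_mul, map_mul, map_div₀, Complex.conj_ofReal, Complex.conj_conj, map_add, map_one, map_natCast]

theorem mom {μ₀ ρ : ℝ} (h0 : 0 ≤ μ₀) (h1 : μ₀ < ρ ^ 2) (hρ : 0 < ρ) (hρ1 : ρ < 1) {c₁ : ℂ} {r₁ : ℝ} {μ₁ c₂ : ℂ} {r₂ : ℝ} {μ₂ : ℂ}
    (hr₁ : 0 < r₁) (hr₂ : 0 < r₂) (hμ₁ : ‖μ₁‖ ≤ μ₀) (hμ₂ : ‖μ₂‖ ≤ μ₀) {l : ℝ} (hl : |l| ≤ 1) {N : Set ℂ} (hN : IsOpen N)
    (hN₁ : Kp c₁ r₁ μ₁ ⊆ N) (hN₂ : Kp c₂ r₂ μ₂ ⊆ N) {m : ℂ → ℂ} (hm : DifferentiableOn ℂ m N) (b : ℕ)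
    (h : Idn c₁ r₁ μ₁ c₂ r₂ μ₂ l ρ (fun z => z ^ b) m) :
    ∑ n ∈ Finset.range (b + 1), ((1 - ‖μ₁‖ ^ (2 * (n + 1)) : ℝ) : ℂ) / (n + 1) * conj (fh l μ₁ (fc c₁ r₁ μ₁ m ρ (n + 1)) n) *
        fc c₁ r₁ μ₁ (fun z => z ^ b) ρ (n + 1) =
      ∑ n ∈ Finset.range (b + 1), ((1 - ‖μ₂‖ ^ (2 * (n + 1)) : ℝ) : ℂ) / (n + 1) * conj (fh l μ₂ (fc c₂ r₂ μ₂ m ρ (n + 1)) n) *
        fc c₂ r₂ μ₂ (fun z => z ^ b) ρ (n + 1) := by
  have _ := h0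
  unfold Idn at h
  rw [Lc_one h1 hρ hρ1 hr₁ hμ₁ hl hN hN₁ hm b, Lc_one h1 hρ hρ1 hr₂ hμ₂ hl hN hN₂ hm b] at h
  exact mul_left_cancel₀ (by exact_mod_cast Real.pi_ne_zero) h

end LD1
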