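import Pool.Agent.H1.LD.D
import Pool.Agent.H1.EW.Fe

/-!
ROW LD/Ld. `RR_lip` (`EW/Fe.lean`, `rt_lip` in `EW/Fd.lean`) with `|l| ≤ 1` instead of `l² ≤ 1/4`, and without the factor `|l|`. Only the lower bound of the denominators `1 - l² ‖μ‖^(2n) ≥ 1 - μ₀²` changes (`n ≥ 1`), the constant depends on `μ₀`. Compare also `rt_lip` in `ND/Nd.lean` (`|l| ≤ 1`, `μ₀ ≤ 1/100`).
-/

set_option autoImplicit false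

namespace LD1

open Complex Set Filter Topology MeasureTheory EW1 EX1 ND1
open scoped ComplexConjugate ContDiff Real

private theorem Ld_pow_lip {F : Type} [NormedField F] (x y : F) (r : ℝ) (hx : ‖x‖ ≤ r) (hy : ‖y‖ ≤ r) (n : ℕ) :
    ‖x ^ n - y ^ n‖ ≤ n * r ^ (n - 1) * ‖x - y‖ := by
  have hr : 0 ≤ r := (norm_nonneg x).trans hx
  rw [← geom_sum₂_mul, norm_mul]
  refine mul_le_mul_of_nonneg_right ?_ (norm_nonneg _)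
  refine (norm_sum_le _ _).trans ?_
  have h : ∀ i ∈ Finset.range n, ‖x ^ i * y ^ (n - 1 - i)‖ ≤ r ^ (n - 1) := by
    intro i hi
    have hi' : i ≤ n - 1 := by have := Finset.mem_range.1 hi; omega
    rw [norm_mul, norm_pow, norm_pow]
    calc ‖x‖ ^ i * ‖y‖ ^ (n - 1 - i) ≤ r ^ i * r ^ (n - 1 - i) :=
          mul_le_mul (pow_le_pow_left₀ (norm_nonneg _) hx _) (pow_le_pow_left₀ (norm_nonneg _) hy _)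
            (by positivity) (by positivity)
      _ = r ^ (n - 1) := by rw [← pow_add]; congr 1; omega
  refine (Finset.sum_le_sum h).trans ?_
  simp

private theorem Ld_lsq {l : ℝ} (hl : |l| ≤ 1) : l ^ 2 ≤ 1 := by
  rw [← sq_abs]
  nlinarith [abs_nonneg l]

/-- the real factor -/
private noncomputable def Ld_al (l w : ℝ) : ℝ := (1 - w) / (1 - l ^ 2 * w)

private theorem Ld_den {l w μ₀ : ℝ} (hl : l ^ 2 ≤ 1) (h0 : 0 ≤ w) (hw : w ≤ μ₀ ^ 2) :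
    1 - μ₀ ^ 2 ≤ 1 - l ^ 2 * w := by
  have h1 : l ^ 2 * w ≤ 1 * w := mul_le_mul_of_nonneg_right hl h0
  linarith

private theorem Ld_al_bd {l w : ℝ} (hl : l ^ 2 ≤ 1) (h0 : 0 ≤ w) (h1 : w < 1) : 0 ≤ Ld_al l w ∧ Ld_al l w ≤ 1 := by
  have hq : 0 < 1 - l ^ 2 * w := by nlinarith [sq_nonneg l]
  constructor
  · unfold Ld_al; exact div_nonneg (by linarith) hq.le
  · unfold Ld_al; rw [div_le_one hq]; nlinarith [sq_nonneg l]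

private theorem Ld_al_lip {l w₁ w₂ μ₀ : ℝ} (hl : l ^ 2 ≤ 1) (hμ : μ₀ ^ 2 < 1) (h0 : 0 ≤ w₁) (h1 : w₁ ≤ μ₀ ^ 2)
    (h0' : 0 ≤ w₂) (h1' : w₂ ≤ μ₀ ^ 2) :
    |Ld_al l w₁ - Ld_al l w₂| ≤ ((1 - μ₀ ^ 2) ^ 2)⁻¹ * |w₁ - w₂| := by
  have hκ : 0 < 1 - μ₀ ^ 2 := by linarith
  have hq₁ : 1 - μ₀ ^ 2 ≤ 1 - l ^ 2 * w₁ := Ld_den hl h0 h1
  have hq₂ : 1 - μ₀ ^ 2 ≤ 1 - l ^ 2 * w₂ := Ld_den hl h0' h1'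
  have hne₁ : 1 - l ^ 2 * w₁ ≠ 0 := by linarith
  have hne₂ : 1 - l ^ 2 * w₂ ≠ 0 := by linarith
  have e : Ld_al l w₁ - Ld_al l w₂ = ((1 - l ^ 2) / ((1 - l ^ 2 * w₁) * (1 - l ^ 2 * w₂))) * (w₂ - w₁) := by
    unfold Ld_al
    rw [div_sub_div _ _ hne₁ hne₂, div_mul_eq_mul_div]
    congr 1
    ring
  rw [e, abs_mul, abs_sub_comm w₂ w₁]
  refine mul_le_mul_of_nonneg_right ?_ (abs_nonneg _)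
  have hp : (1 - μ₀ ^ 2) ^ 2 ≤ (1 - l ^ 2 * w₁) * (1 - l ^ 2 * w₂) := by
    rw [sq]
    exact mul_le_mul hq₁ hq₂ hκ.le (hκ.le.trans hq₁)
  have hp0 : 0 < (1 - μ₀ ^ 2) ^ 2 := by positivity
  rw [abs_of_nonneg (div_nonneg (by linarith) (by linarith)), ← one_div]
  exact div_le_div₀ (by norm_num) (by nlinarith [sq_nonneg l]) hp0 hp

private noncomputable def Ld_BB (l w : ℝ) (u M : ℂ) : ℂ := l * u * M + l ^ 2 * w * conj M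

private theorem Ld_rt_eq (l : ℝ) (μ A M : ℂ) (n : ℕ) (hn : 1 ≤ n) (hl : l ^ 2 ≤ 1) (hμ : ‖μ‖ < 1) :
    rt l μ A M n = ((Ld_al l (‖μ‖ ^ (2 * n)) : ℝ) : ℂ) * A * Ld_BB l (‖μ‖ ^ (2 * n)) (μ ^ n) M / n := by
  have hw : ‖μ‖ ^ (2 * n) < 1 := pow_lt_one₀ (norm_nonneg _) hμ (by omega)
  have hw0 : 0 ≤ ‖μ‖ ^ (2 * n) := by positivity
  have hq : (1 - l ^ 2 * ‖μ‖ ^ (2 * n) : ℝ) ≠ 0 := by nlinarith [sq_nonneg l]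
  have hqc : ((1 - l ^ 2 * ‖μ‖ ^ (2 * n) : ℝ) : ℂ) ≠ 0 := by exact_mod_cast hq
  have hnc : (n : ℂ) ≠ 0 := by exact_mod_cast (by omega : n ≠ 0)
  unfold rt Ld_al Ld_BB
  rw [Complex.ofReal_div]
  have e : ((‖μ‖ ^ (2 * n) : ℝ) : ℂ) = (‖μ‖ : ℂ) ^ (2 * n) := by push_cast; rfl
  rw [e]
  field_simp

private theorem Ld_BB_le {l w r m : ℝ} {u M : ℂ} (hl : |l| ≤ 1) (hw0 : 0 ≤ w) (hw : w ≤ r) (hu : ‖u‖ ≤ r)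
    (hM : ‖M‖ ≤ m) : ‖Ld_BB l w u M‖ ≤ 2 * r * m := by
  have hr : 0 ≤ r := (norm_nonneg u).trans hu
  have hm : 0 ≤ m := (norm_nonneg M).trans hM
  have h1 : ‖(l : ℂ) * u * M‖ ≤ 1 * r * m := by
    rw [norm_mul, norm_mul, Complex.norm_real, Real.norm_eq_abs]
    gcongr
  have h2 : ‖(l : ℂ) ^ 2 * w * conj M‖ ≤ 1 * 1 * r * m := by
    rw [norm_mul, norm_mul, norm_pow, Complex.norm_real, Complex.norm_real, Real.norm_eq_abs, Real.norm_eq_abs,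
      Complex.norm_conj, abs_of_nonneg hw0, sq]
    gcongr
  unfold Ld_BB
  refine (norm_add_le _ _).trans ?_
  linarith

private theorem Ld_rt_le {l : ℝ} (hl : |l| ≤ 1) {μ : ℂ} (hμ : ‖μ‖ < 1) (A M : ℂ) {n : ℕ} (hn : 1 ≤ n) :
    ‖rt l μ A M n‖ ≤ 2 * ‖μ‖ ^ n * ‖A‖ * ‖M‖ := by
  have hl2 := Ld_lsq hl
  rw [Ld_rt_eq l μ A M n hn hl2 hμ]
  have hw0 : 0 ≤ ‖μ‖ ^ (2 * n) := by positivity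
  have hw1 : ‖μ‖ ^ (2 * n) < 1 := pow_lt_one₀ (norm_nonneg _) hμ (by omega)
  have hwr : ‖μ‖ ^ (2 * n) ≤ ‖μ‖ ^ n := pow_le_pow_of_le_one (norm_nonneg _) hμ.le (by omega)
  have hu : ‖μ ^ n‖ ≤ ‖μ‖ ^ n := by rw [norm_pow]
  have hB := Ld_BB_le (M := M) hl hw0 hwr hu le_rfl
  have ha := Ld_al_bd hl2 hw0 hw1
  have hn' : (1 : ℝ) ≤ n := by exact_mod_cast hn
  rw [norm_div, norm_mul, norm_mul, Complex.norm_real, Real.norm_eq_abs, abs_of_nonneg ha.1, Complex.norm_natCast]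
  rw [div_le_iff₀ (by linarith)]
  have h1 : Ld_al l (‖μ‖ ^ (2 * n)) * ‖A‖ * ‖Ld_BB l (‖μ‖ ^ (2 * n)) (μ ^ n) M‖ ≤ 1 * ‖A‖ * (2 * ‖μ‖ ^ n * ‖M‖) := by
    gcongr
    exact ha.2
  refine h1.trans ?_
  have h2 : 0 ≤ ‖μ‖ ^ n * ‖A‖ * ‖M‖ := by positivity
  nlinarith

private theorem Ld_rt_lip {μ₀ : ℝ} (hμ0 : 0 ≤ μ₀) (hμ1 : μ₀ < 1) : ∃ C : ℝ, 0 < C ∧ ∀ (l : ℝ), |l| ≤ 1 →
    ∀ μ₁ μ₂ : ℂ, ‖μ₁‖ ≤ μ₀ → ‖μ₂‖ ≤ μ₀ →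
    ∀ (a m d : ℝ) (A₁ A₂ M₁ M₂ : ℂ), ‖μ₁ - μ₂‖ ≤ d → ‖A₁‖ ≤ a → ‖A₂‖ ≤ a → ‖M₁‖ ≤ m → ‖M₂‖ ≤ m →
      ‖A₁ - A₂‖ ≤ a * d → ‖M₁ - M₂‖ ≤ m * d → ∀ n : ℕ, 1 ≤ n →
        ‖rt l μ₁ A₁ M₁ n - rt l μ₂ A₂ M₂ n‖ ≤ C * μ₀ ^ (n - 1) * a * m * d := by
  have hμs : μ₀ ^ 2 < 1 := by nlinarith
  obtain ⟨κ, hκ⟩ : ∃ κ : ℝ, κ = ((1 - μ₀ ^ 2) ^ 2)⁻¹ := ⟨_, rfl⟩
  have hκ0 : 0 ≤ κ := by rw [hκ]; positivity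
  refine ⟨4 * κ + 7, by positivity, ?_⟩
  intro l hl μ₁ μ₂ h₁ h₂ a m d A₁ A₂ M₁ M₂ hd hA₁ hA₂ hM₁ hM₂ hA hM n hn
  have hl2 := Ld_lsq hl
  have hd0 : 0 ≤ d := (norm_nonneg _).trans hd
  have ha0 : 0 ≤ a := (norm_nonneg _).trans hA₁
  have hm0 : 0 ≤ m := (norm_nonneg _).trans hM₁
  have hn' : (1 : ℝ) ≤ n := by exact_mod_cast hn
  rw [Ld_rt_eq l μ₁ A₁ M₁ n hn hl2 (h₁.trans_lt hμ1), Ld_rt_eq l μ₂ A₂ M₂ n hn hl2 (h₂.trans_lt hμ1)]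
  have hws₁ : ‖μ₁‖ ^ (2 * n) ≤ μ₀ ^ 2 :=
    (pow_le_pow_left₀ (norm_nonneg _) h₁ _).trans (pow_le_pow_of_le_one hμ0 hμ1.le (by omega))
  have hws₂ : ‖μ₂‖ ^ (2 * n) ≤ μ₀ ^ 2 :=
    (pow_le_pow_left₀ (norm_nonneg _) h₂ _).trans (pow_le_pow_of_le_one hμ0 hμ1.le (by omega))
  set w₁ := ‖μ₁‖ ^ (2 * n) with hw₁
  set w₂ := ‖μ₂‖ ^ (2 * n) with hw₂
  set q := μ₀ ^ (n - 1) with hq
  have hq0 : 0 ≤ q := by positivity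
  have hq1 : q ≤ 1 := pow_le_one₀ hμ0 hμ1.le
  have hpq : μ₀ ^ n ≤ q := pow_le_pow_of_le_one hμ0 hμ1.le (by omega)
  have hw₁0 : 0 ≤ w₁ := by positivity
  have hw₂0 : 0 ≤ w₂ := by positivity
  have hw₁q : w₁ ≤ q := (pow_le_pow_left₀ (norm_nonneg _) h₁ _).trans (pow_le_pow_of_le_one hμ0 hμ1.le (by omega))
  have hw₂q : w₂ ≤ q := (pow_le_pow_left₀ (norm_nonneg _) h₂ _).trans (pow_le_pow_of_le_one hμ0 hμ1.le (by omega))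
  have hu₁ : ‖μ₁ ^ n‖ ≤ q := by rw [norm_pow]; exact (pow_le_pow_left₀ (norm_nonneg _) h₁ _).trans hpq
  have hu₂ : ‖μ₂ ^ n‖ ≤ q := by rw [norm_pow]; exact (pow_le_pow_left₀ (norm_nonneg _) h₂ _).trans hpq
  have hu : ‖μ₁ ^ n - μ₂ ^ n‖ ≤ n * q * d :=
    (Ld_pow_lip μ₁ μ₂ μ₀ h₁ h₂ n).trans (mul_le_mul_of_nonneg_left hd (by positivity))
  have hw : |w₁ - w₂| ≤ 2 * n * q * d := by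
    have h := Ld_pow_lip (‖μ₁‖ : ℝ) ‖μ₂‖ μ₀ (by simpa using h₁) (by simpa using h₂) (2 * n)
    rw [Real.norm_eq_abs, Real.norm_eq_abs] at h
    have h3 : |‖μ₁‖ - ‖μ₂‖| ≤ d := (abs_norm_sub_norm_le _ _).trans hd
    have h4 : μ₀ ^ (2 * n - 1) ≤ q := pow_le_pow_of_le_one hμ0 hμ1.le (by omega)
    refine h.trans ?_
    push_cast
    gcongr
  have hal := Ld_al_lip hl2 hμs hw₁0 hws₁ hw₂0 hws₂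
  rw [← hκ] at hal
  have ha₂ := Ld_al_bd hl2 hw₂0 (hws₂.trans_lt hμs)
  have hB₁ := Ld_BB_le hl hw₁0 hw₁q hu₁ hM₁
  have hBB : ‖Ld_BB l w₁ (μ₁ ^ n) M₁ - Ld_BB l w₂ (μ₂ ^ n) M₂‖ ≤ 5 * n * q * m * d := by
    have e : Ld_BB l w₁ (μ₁ ^ n) M₁ - Ld_BB l w₂ (μ₂ ^ n) M₂ = l * (μ₁ ^ n - μ₂ ^ n) * M₁ + l * μ₂ ^ n * (M₁ - M₂) +
        l ^ 2 * ((w₁ - w₂ : ℝ) : ℂ) * conj M₁ + l ^ 2 * w₂ * conj (M₁ - M₂) := by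
      unfold Ld_BB
      push_cast
      rw [map_sub]
      ring
    rw [e]
    have t1 : ‖(l : ℂ) * (μ₁ ^ n - μ₂ ^ n) * M₁‖ ≤ 1 * (n * q * d) * m := by
      rw [norm_mul, norm_mul, Complex.norm_real, Real.norm_eq_abs]
      gcongr
    have t2 : ‖(l : ℂ) * μ₂ ^ n * (M₁ - M₂)‖ ≤ 1 * q * (m * d) := by
      rw [norm_mul, norm_mul, Complex.norm_real, Real.norm_eq_abs]
      gcongr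
    have t3 : ‖(l : ℂ) ^ 2 * ((w₁ - w₂ : ℝ) : ℂ) * conj M₁‖ ≤ 1 * 1 * (2 * n * q * d) * m := by
      rw [norm_mul, norm_mul, norm_pow, Complex.norm_real, Complex.norm_real, Real.norm_eq_abs, Real.norm_eq_abs,
        Complex.norm_conj, sq]
      gcongr
    have t4 : ‖(l : ℂ) ^ 2 * w₂ * conj (M₁ - M₂)‖ ≤ 1 * 1 * q * (m * d) := by
      rw [norm_mul, norm_mul, norm_pow, Complex.norm_real, Complex.norm_real, Real.norm_eq_abs, Real.norm_eq_abs,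
        Complex.norm_conj, sq, abs_of_nonneg hw₂0]
      gcongr
    refine (norm_add_le _ _).trans ((add_le_add ((norm_add_le _ _).trans (add_le_add ((norm_add_le _ _).trans (add_le_add t1 t2)) t3)) t4).trans ?_)
    have h0 : 0 ≤ q * m * d := by positivity
    have h7 : q * m * d ≤ n * (q * m * d) := le_mul_of_one_le_left h0 hn'
    calc 1 * (n * q * d) * m + 1 * q * (m * d) + 1 * 1 * (2 * n * q * d) * m + 1 * 1 * q * (m * d)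
        = 3 * (n * (q * m * d)) + 2 * (q * m * d) := by ring
      _ ≤ 3 * (n * (q * m * d)) + 2 * (n * (q * m * d)) := by linarith
      _ = 5 * n * q * m * d := by ring
  have hnc : (n : ℂ) ≠ 0 := by exact_mod_cast (by omega : n ≠ 0)
  rw [← sub_div, norm_div, Complex.norm_natCast, div_le_iff₀ (by linarith)]
  have e : ((Ld_al l w₁ : ℝ) : ℂ) * A₁ * Ld_BB l w₁ (μ₁ ^ n) M₁ - ((Ld_al l w₂ : ℝ) : ℂ) * A₂ * Ld_BB l w₂ (μ₂ ^ n) M₂ =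
      ((Ld_al l w₁ - Ld_al l w₂ : ℝ) : ℂ) * A₁ * Ld_BB l w₁ (μ₁ ^ n) M₁ + ((Ld_al l w₂ : ℝ) : ℂ) * (A₁ - A₂) * Ld_BB l w₁ (μ₁ ^ n) M₁ +
        ((Ld_al l w₂ : ℝ) : ℂ) * A₂ * (Ld_BB l w₁ (μ₁ ^ n) M₁ - Ld_BB l w₂ (μ₂ ^ n) M₂) := by
    push_cast
    ring
  rw [e]
  have s1 : ‖((Ld_al l w₁ - Ld_al l w₂ : ℝ) : ℂ) * A₁ * Ld_BB l w₁ (μ₁ ^ n) M₁‖ ≤ (κ * (2 * n * q * d)) * a * (2 * 1 * m) := by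
    rw [norm_mul, norm_mul, Complex.norm_real, Real.norm_eq_abs]
    have h5 : ‖Ld_BB l w₁ (μ₁ ^ n) M₁‖ ≤ 2 * 1 * m := hB₁.trans (by gcongr)
    have h6 : |Ld_al l w₁ - Ld_al l w₂| ≤ κ * (2 * n * q * d) := hal.trans (by gcongr)
    gcongr
  have s2 : ‖((Ld_al l w₂ : ℝ) : ℂ) * (A₁ - A₂) * Ld_BB l w₁ (μ₁ ^ n) M₁‖ ≤ 1 * (a * d) * (2 * q * m) := by
    rw [norm_mul, norm_mul, Complex.norm_real, Real.norm_eq_abs, abs_of_nonneg ha₂.1]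
    have := ha₂.2
    gcongr
  have s3 : ‖((Ld_al l w₂ : ℝ) : ℂ) * A₂ * (Ld_BB l w₁ (μ₁ ^ n) M₁ - Ld_BB l w₂ (μ₂ ^ n) M₂)‖ ≤ 1 * a * (5 * n * q * m * d) := by
    rw [norm_mul, norm_mul, Complex.norm_real, Real.norm_eq_abs, abs_of_nonneg ha₂.1]
    have := ha₂.2
    gcongr
  refine (norm_add_le _ _).trans ((add_le_add ((norm_add_le _ _).trans (add_le_add s1 s2)) s3).trans ?_)
  have h0 : 0 ≤ q * a * m * d := by positivity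
  have h7 : q * a * m * d ≤ n * (q * a * m * d) := le_mul_of_one_le_left h0 hn'
  calc (κ * (2 * n * q * d)) * a * (2 * 1 * m) + 1 * (a * d) * (2 * q * m) + 1 * a * (5 * n * q * m * d)
      = (4 * κ + 5) * (n * (q * a * m * d)) + 2 * (q * a * m * d) := by ring
    _ ≤ (4 * κ + 5) * (n * (q * a * m * d)) + 2 * (n * (q * a * m * d)) := by linarith
    _ = (4 * κ + 7) * q * a * m * d * n := by ring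

private theorem Ld_q_lt {μ₀ ρ : ℝ} (h0 : 0 ≤ μ₀) (h1 : μ₀ < ρ ^ 2) (hρ : 0 < ρ) :
    0 ≤ μ₀ * ρ⁻¹ ^ 2 ∧ μ₀ * ρ⁻¹ ^ 2 < 1 := by
  refine ⟨by positivity, ?_⟩
  rw [inv_pow, ← div_eq_mul_inv, div_lt_one (by positivity)]
  exact h1

private theorem Ld_rt_geo {μ₀ ρ : ℝ} (h1 : μ₀ < ρ ^ 2) (hρ : 0 < ρ) (hρ1 : ρ < 1) {l : ℝ}
    (hl : |l| ≤ 1) {μ : ℂ} (hμ : ‖μ‖ ≤ μ₀) {a m : ℝ} (A M : ℕ → ℂ)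
    (hA : ∀ n : ℕ, ‖A n‖ ≤ a * ρ⁻¹ ^ n) (hM : ∀ n : ℕ, ‖M n‖ ≤ m * ρ⁻¹ ^ n) (n : ℕ) :
    ‖rt l μ (A (n + 1)) (M (n + 1)) (n + 1)‖ ≤
      (2 * a * m * (μ₀ * ρ⁻¹ ^ 2)) * (μ₀ * ρ⁻¹ ^ 2) ^ n := by
  have h0 : 0 ≤ μ₀ := (norm_nonneg _).trans hμ
  have hμ1 : ‖μ‖ < 1 := by
    have : ρ ^ 2 < 1 := by nlinarith
    linarith
  have e1 := Ld_rt_le hl hμ1 (A (n + 1)) (M (n + 1)) (n := n + 1) (by omega)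
  have hA' := hA (n + 1)
  have hM' := hM (n + 1)
  have hμn : ‖μ‖ ^ (n + 1) ≤ μ₀ ^ (n + 1) := pow_le_pow_left₀ (norm_nonneg _) hμ _
  calc ‖rt l μ (A (n + 1)) (M (n + 1)) (n + 1)‖
      ≤ 2 * ‖μ‖ ^ (n + 1) * ‖A (n + 1)‖ * ‖M (n + 1)‖ := e1
    _ ≤ 2 * μ₀ ^ (n + 1) * (a * ρ⁻¹ ^ (n + 1)) * (m * ρ⁻¹ ^ (n + 1)) := by
        gcongr
        exact mul_nonneg (by positivity) (le_trans (norm_nonneg _) hA')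
    _ = (2 * a * m * (μ₀ * ρ⁻¹ ^ 2)) * (μ₀ * ρ⁻¹ ^ 2) ^ n := by
        rw [mul_pow, ← pow_mul, mul_comm 2 n, pow_mul]
        ring

private theorem Ld_rt_sum {μ₀ ρ : ℝ} (h1 : μ₀ < ρ ^ 2) (hρ : 0 < ρ) (hρ1 : ρ < 1) {l : ℝ}
    (hl : |l| ≤ 1) {μ : ℂ} (hμ : ‖μ‖ ≤ μ₀) {a m : ℝ} (A M : ℕ → ℂ)
    (hA : ∀ n : ℕ, ‖A n‖ ≤ a * ρ⁻¹ ^ n) (hM : ∀ n : ℕ, ‖M n‖ ≤ m * ρ⁻¹ ^ n) :
    Summable (fun n : ℕ => rt l μ (A (n + 1)) (M (n + 1)) (n + 1)) := by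
  obtain ⟨hq0, hq1⟩ := Ld_q_lt ((norm_nonneg _).trans hμ) h1 hρ
  have hs : HasSum (fun n : ℕ => (2 * a * m * (μ₀ * ρ⁻¹ ^ 2)) * (μ₀ * ρ⁻¹ ^ 2) ^ n)
      ((2 * a * m * (μ₀ * ρ⁻¹ ^ 2)) * (1 - μ₀ * ρ⁻¹ ^ 2)⁻¹) :=
    (hasSum_geometric_of_lt_one hq0 hq1).mul_left _
  exact Summable.of_norm_bounded hs.summable (Ld_rt_geo h1 hρ hρ1 hl hμ A M hA hM)

theorem RRd {r₀ R μ₀ ρ σ : ℝ} (hr₀ : 0 < r₀) (hR : r₀ ≤ R) (h0 : 0 ≤ μ₀) (h1 : μ₀ < ρ ^ 2) (hρ : 0 < ρ) (hρ1 : ρ < 1)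
    (hσ : (ρ ^ 2 + μ₀) / (ρ * (1 + μ₀)) < σ) : ∃ C δ₁ : ℝ, 0 < C ∧ 0 < δ₁ ∧
    ∀ (c₁ : ℂ) (r₁ : ℝ) (μ₁ c₂ : ℂ) (r₂ : ℝ) (μ₂ : ℂ), PS r₀ R μ₀ c₁ r₁ μ₁ → PS r₀ R μ₀ c₂ r₂ μ₂ →
      dd c₁ r₁ μ₁ c₂ r₂ μ₂ ≤ δ₁ → ∀ l : ℝ, |l| ≤ 1 → ∀ (A M : ℂ → ℂ) (SA SM : ℝ),
      DifferentiableOn ℂ A (Dp c₁ r₁ μ₁ σ) → DifferentiableOn ℂ M (Dp c₁ r₁ μ₁ σ) →
      (∀ z ∈ Dp c₁ r₁ μ₁ σ, ‖A z‖ ≤ SA) → (∀ z ∈ Dp c₁ r₁ μ₁ σ, ‖M z‖ ≤ SM) →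
      ‖RR c₁ r₁ μ₁ l A M ρ - RR c₂ r₂ μ₂ l A M ρ‖ ≤ C * SA * SM * dd c₁ r₁ μ₁ c₂ r₂ μ₂ := by
  have hμ01 : μ₀ < 1 := by
    have : ρ ^ 2 < 1 := by nlinarith
    linarith
  obtain ⟨Cg, δ₁, hCg, hδ₁, hfc⟩ := fc_lip (r₀ := r₀) (R := R) hr₀ hR h0 h1 hρ hρ1 hσ
  obtain ⟨Cr, hCr, hrt⟩ := Ld_rt_lip h0 hμ01
  obtain ⟨hq0, hq1⟩ := Ld_q_lt h0 h1 hρ
  have hqi : 0 < (1 - μ₀ * ρ⁻¹ ^ 2)⁻¹ := inv_pos.2 (by linarith)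
  refine ⟨π * (Cr * Cg ^ 2 * ρ⁻¹ ^ 2) * (1 - μ₀ * ρ⁻¹ ^ 2)⁻¹, δ₁, by positivity, hδ₁, ?_⟩
  intro c₁ r₁ μ₁ c₂ r₂ μ₂ hP1 hP2 hdd l hl A M SA SM hdA hdM hA hM
  have hfA := hfc c₁ r₁ μ₁ c₂ r₂ μ₂ hP1 hP2 hdd A SA hdA hA
  have hfM := hfc c₁ r₁ μ₁ c₂ r₂ μ₂ hP1 hP2 hdd M SM hdM hM
  have hs1 := Ld_rt_sum h1 hρ hρ1 hl hP1.2.2.2 (fc c₁ r₁ μ₁ A ρ) (fc c₁ r₁ μ₁ M ρ)
    (fun n => (hfA n).1) (fun n => (hfM n).1)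
  have hs2 := Ld_rt_sum h1 hρ hρ1 hl hP2.2.2.2 (fc c₂ r₂ μ₂ A ρ) (fc c₂ r₂ μ₂ M ρ)
    (fun n => (hfA n).2.1) (fun n => (hfM n).2.1)
  have hμd : ‖μ₁ - μ₂‖ ≤ dd c₁ r₁ μ₁ c₂ r₂ μ₂ := by
    unfold dd
    have h2 := norm_nonneg (c₁ - c₂)
    have h3 := abs_nonneg (r₁ - r₂)
    linarith
  obtain ⟨d, hd⟩ : ∃ d : ℝ, d = dd c₁ r₁ μ₁ c₂ r₂ μ₂ := ⟨_, rfl⟩
  rw [← hd] at hμd hfA hfM ⊢
  have hb : ∀ n : ℕ, ‖rt l μ₁ (fc c₁ r₁ μ₁ A ρ (n + 1)) (fc c₁ r₁ μ₁ M ρ (n + 1)) (n + 1) -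
      rt l μ₂ (fc c₂ r₂ μ₂ A ρ (n + 1)) (fc c₂ r₂ μ₂ M ρ (n + 1)) (n + 1)‖ ≤
      (Cr * (Cg * SA) * (Cg * SM) * d * ρ⁻¹ ^ 2) * (μ₀ * ρ⁻¹ ^ 2) ^ n := by
    intro n
    have hA1 := hfA (n + 1)
    have hM1 := hfM (n + 1)
    have key := hrt l hl μ₁ μ₂ hP1.2.2.2 hP2.2.2.2 (Cg * SA * ρ⁻¹ ^ (n + 1))
      (Cg * SM * ρ⁻¹ ^ (n + 1)) d (fc c₁ r₁ μ₁ A ρ (n + 1)) (fc c₂ r₂ μ₂ A ρ (n + 1))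
      (fc c₁ r₁ μ₁ M ρ (n + 1)) (fc c₂ r₂ μ₂ M ρ (n + 1)) hμd hA1.1 hA1.2.1 hM1.1 hM1.2.1
      (hA1.2.2.trans (le_of_eq (by ring))) (hM1.2.2.trans (le_of_eq (by ring))) (n + 1) (by omega)
    refine key.trans (le_of_eq ?_)
    rw [Nat.add_sub_cancel, mul_pow, ← pow_mul, mul_comm 2 n, pow_mul]
    ring
  have hs : HasSum (fun n : ℕ => (Cr * (Cg * SA) * (Cg * SM) * d * ρ⁻¹ ^ 2) *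
      (μ₀ * ρ⁻¹ ^ 2) ^ n)
      ((Cr * (Cg * SA) * (Cg * SM) * d * ρ⁻¹ ^ 2) * (1 - μ₀ * ρ⁻¹ ^ 2)⁻¹) :=
    (hasSum_geometric_of_lt_one hq0 hq1).mul_left _
  have hT := tsum_of_norm_bounded hs hb
  rw [hs1.tsum_sub hs2] at hT
  unfold RR
  rw [← mul_sub, norm_mul, Complex.norm_real, Real.norm_of_nonneg Real.pi_pos.le]
  calc π * ‖(∑' n : ℕ, rt l μ₁ (fc c₁ r₁ μ₁ A ρ (n + 1)) (fc c₁ r₁ μ₁ M ρ (n + 1)) (n + 1)) -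
        ∑' n : ℕ, rt l μ₂ (fc c₂ r₂ μ₂ A ρ (n + 1)) (fc c₂ r₂ μ₂ M ρ (n + 1)) (n + 1)‖
      ≤ π * ((Cr * (Cg * SA) * (Cg * SM) * d * ρ⁻¹ ^ 2) * (1 - μ₀ * ρ⁻¹ ^ 2)⁻¹) :=
        mul_le_mul_of_nonneg_left hT Real.pi_pos.le
    _ = (π * (Cr * Cg ^ 2 * ρ⁻¹ ^ 2) * (1 - μ₀ * ρ⁻¹ ^ 2)⁻¹) * SA * SM * d := by ring

end LD1
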