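import Pool.Agent.H1.LD.D
import Pool.Agent.H1.ND.Ne

/-!
ROW LD/Le. As `ND/Ne.lean`, now near `(0,1,μ)`. `x = ‖μ‖²`, `s = 2 Re (conj μ β)` (derivative of `x`), `n₀ = β/(1+x) - μ s/(1+x)²`, `g₀ = conj γ - 2 conj (nu μ) γ`, `h₀ = -2a (1-x)²/(1+x) + s (1-x)(3+x)/(1+x)²`. For `‖v‖ = 1`, `z = v + μ conj v`:
`-2 Re (conj n₀ z²) - 2 Re (g₀ z) + h₀ = -2 (1-x)/(1+x) Re (Uw v)`, `Re (Uw v) = Re (conj β v²) + Re ((conj γ - conj μ γ) v) + a (1-x) - Re (conj μ β)` (checked by hand: coefficients of `v²`, `v`, `1`). `UU = -2 Re (conj (nu μ₂ - nu μ₁) z²) - 2 Re ((gg c₂ μ₂ - gg 0 μ₁) z) + (hh c₂ r₂ μ₂ - hh 0 1 μ₁)`.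
-/

set_option autoImplicit false

namespace LD1

open Complex Set Filter Topology MeasureTheory EW1 EX1 ND1
open scoped ComplexConjugate ContDiff Real

theorem Le_bounds {μ₀ : ℝ} {S : Sq} {μ : ℂ} {a : ℝ} {γ β : ℂ} (hS : LimG S μ₀ μ a γ β) (j : ℕ) :
    ‖S.c₂ j‖ ≤ 1 / 100 ∧ |1 - S.r₂ j| ≤ 1 / 100 := by
  have h1 := hS.small j
  unfold Sq.d dd at h1
  rw [zero_sub, norm_neg] at h1
  have h2 := norm_nonneg (S.c₂ j)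
  have h3 := abs_nonneg (1 - S.r₂ j)
  have h4 := norm_nonneg (S.μ₁ j - S.μ₂ j)
  constructor <;> linarith

theorem Le_rpos {μ₀ : ℝ} {S : Sq} {μ : ℂ} {a : ℝ} {γ β : ℂ} (hS : LimG S μ₀ μ a γ β) (j : ℕ) : 0 < S.r₂ j := by
  have h := (abs_le.1 (Le_bounds hS j).2).2
  linarith

theorem Le_ps₁ {μ₀ : ℝ} {S : Sq} {μ : ℂ} {a : ℝ} {γ β : ℂ} (hS : LimG S μ₀ μ a γ β) (j : ℕ) :
    PS (1 / 2) 2 μ₀ 0 1 (S.μ₁ j) := by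
  refine ⟨by simp, by norm_num, by norm_num, hS.m1 j⟩

theorem Le_ps₂ {μ₀ : ℝ} {S : Sq} {μ : ℂ} {a : ℝ} {γ β : ℂ} (hS : LimG S μ₀ μ a γ β) (j : ℕ) :
    PS (1 / 2) 2 μ₀ (S.c₂ j) (S.r₂ j) (S.μ₂ j) := by
  obtain ⟨h1, h2⟩ := Le_bounds hS j
  rw [abs_le] at h2
  refine ⟨by linarith, by linarith [h2.2], by linarith [h2.1], hS.m2 j⟩

/-- `Uw` is real on the unit circle -/
theorem Uw_im {μ : ℂ} {a : ℝ} {γ β v : ℂ} (hv : ‖v‖ = 1) : (Uw μ a γ β v).im = 0 := by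
  unfold Uw
  rw [Complex.inv_eq_conj hv]
  simp only [pow_two, Complex.mul_re, Complex.mul_im, Complex.sub_re, Complex.sub_im, Complex.add_re,
    Complex.add_im, Complex.conj_re, Complex.conj_im, Complex.ofReal_im, Complex.div_ofNat_re,
    Complex.div_ofNat_im, Complex.ofReal_re]
  ring

theorem Le_alg (μ γ β v : ℂ) (a k : ℝ) (hk : k * (1 + ‖μ‖ ^ 2) = 1) (hv : ‖v‖ = 1) :
    -2 * (conj (((k ^ 2 : ℝ) : ℂ) * (β - μ * μ * conj β)) * zz 0 1 μ v ^ 2).re -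
      2 * ((conj γ - 2 * conj ((k : ℂ) * μ) * γ) * zz 0 1 μ v).re +
      -(a * 2 * ((1 - ‖μ‖ ^ 2) ^ 2 * k) +
        (β * conj (μ + μ)).re * ((-3 + ‖μ‖ ^ 2 + ‖μ‖ ^ 2 + ‖μ‖ ^ 2 * ‖μ‖ ^ 2) * k ^ 2)) =
      -2 * ((1 - ‖μ‖ ^ 2) * k) * (Uw μ a γ β v).re := by
  have hx : ‖μ‖ ^ 2 = μ.re ^ 2 + μ.im ^ 2 := by
    rw [← Complex.normSq_eq_norm_sq, Complex.normSq_apply]
    ring
  have hV : v.re ^ 2 + v.im ^ 2 = 1 := by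
    have : ‖v‖ ^ 2 = v.re ^ 2 + v.im ^ 2 := by
      rw [← Complex.normSq_eq_norm_sq, Complex.normSq_apply]
      ring
    rw [← this, hv]
    norm_num
  unfold Uw zz
  rw [Complex.inv_eq_conj hv]
  rw [hx] at hk ⊢
  simp only [pow_two, Complex.mul_re, Complex.mul_im, Complex.sub_re, Complex.sub_im, Complex.add_re,
    Complex.add_im, Complex.conj_re, Complex.conj_im, Complex.ofReal_im, Complex.div_ofNat_re,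
    Complex.div_ofNat_im, Complex.ofReal_re, Complex.zero_re, Complex.zero_im, Complex.one_re,
    Complex.one_im, Complex.re_ofNat, Complex.im_ofNat]
  obtain ⟨m1, m2⟩ := μ
  obtain ⟨p, q⟩ := v
  obtain ⟨g1, g2⟩ := γ
  obtain ⟨b1, b2⟩ := β
  simp only at hk hV ⊢
  linear_combination (-2 * k * (1 - (m1 ^ 2 + m2 ^ 2)) * (b1 * (p ^ 2 - q ^ 2) + b2 * (2 * p * q)) +
    2 * (g1 * p + g2 * q) + 2 * ((m1 * g1 + m2 * g2) * p - (m1 * g2 - m2 * g1) * q) +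
    2 * (1 - (m1 ^ 2 + m2 ^ 2)) * k * (m1 * b1 + m2 * b2)) * hk -
    4 * (1 - (m1 ^ 2 + m2 ^ 2)) * k ^ 2 * (m1 * b1 + m2 * b2) * hV

theorem colimG {μ₀ : ℝ} (h0 : 0 ≤ μ₀) (h1 : μ₀ < 1) {S : Sq} {μ : ℂ} {a : ℝ} {γ β : ℂ} (hS : LimG S μ₀ μ a γ β) :
    ∃ (n₀ g₀ : ℂ) (h₀ : ℝ), Tendsto (fun j => (nu (S.μ₂ j) - nu (S.μ₁ j)) / (S.d j : ℂ)) atTop (𝓝 n₀) ∧
    Tendsto (fun j => (gg (S.c₂ j) (S.μ₂ j) - gg 0 (S.μ₁ j)) / (S.d j : ℂ)) atTop (𝓝 g₀) ∧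
    Tendsto (fun j => (hh (S.c₂ j) (S.r₂ j) (S.μ₂ j) - hh 0 1 (S.μ₁ j)) / S.d j) atTop (𝓝 h₀) ∧
    ∀ v : ℂ, ‖v‖ = 1 → -2 * (conj n₀ * zz 0 1 μ v ^ 2).re - 2 * (g₀ * zz 0 1 μ v).re + h₀ =
      -2 * ((1 - ‖μ‖ ^ 2) / (1 + ‖μ‖ ^ 2)) * (Uw μ a γ β v).re := by
  have hd : ∀ j, S.d j ≠ 0 := fun j => (hS.pos j).ne'
  have hdc : ∀ j, (S.d j : ℂ) ≠ 0 := fun j => by exact_mod_cast hd j
  have hconj : ∀ {f : ℕ → ℂ} {l : ℂ}, Tendsto f atTop (𝓝 l) →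
      Tendsto (fun j => conj (f j)) atTop (𝓝 (conj l)) := fun h =>
    (Complex.continuous_conj.tendsto _).comp h
  have hpos : (0 : ℝ) < 1 + ‖μ‖ ^ 2 := by positivity
  have hposc : (((1 + ‖μ‖ ^ 2 : ℝ)) : ℂ) ≠ 0 := by exact_mod_cast hpos.ne'
  obtain ⟨k, hk⟩ : ∃ k : ℝ, k = 1 / (1 + ‖μ‖ ^ 2) := ⟨_, rfl⟩
  have hk1 : k * (1 + ‖μ‖ ^ 2) = 1 := by
    rw [hk, one_div, inv_mul_cancel₀ hpos.ne']
  have hkc : (k : ℂ) = 1 / (((1 + ‖μ‖ ^ 2 : ℝ)) : ℂ) := by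
    rw [hk]
    push_cast
    rfl
  have hs1 : Tendsto (fun j => ‖S.μ₁ j‖ ^ 2) atTop (𝓝 (‖μ‖ ^ 2)) := (hS.lm1.norm).pow 2
  have hs2 : Tendsto (fun j => ‖S.μ₂ j‖ ^ 2) atTop (𝓝 (‖μ‖ ^ 2)) := (hS.lm2.norm).pow 2
  have hn1 : Tendsto (fun j => (((1 + ‖S.μ₁ j‖ ^ 2 : ℝ)) : ℂ)) atTop (𝓝 (((1 + ‖μ‖ ^ 2 : ℝ)) : ℂ)) :=
    (Complex.continuous_ofReal.tendsto _).comp ((tendsto_const_nhds (x := (1 : ℝ))).add hs1)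
  have hn2 : Tendsto (fun j => (((1 + ‖S.μ₂ j‖ ^ 2 : ℝ)) : ℂ)) atTop (𝓝 (((1 + ‖μ‖ ^ 2 : ℝ)) : ℂ)) :=
    (Complex.continuous_ofReal.tendsto _).comp ((tendsto_const_nhds (x := (1 : ℝ))).add hs2)
  have hnz1 : ∀ j, (((1 + ‖S.μ₁ j‖ ^ 2 : ℝ)) : ℂ) ≠ 0 := fun j => by
    have : (0 : ℝ) < 1 + ‖S.μ₁ j‖ ^ 2 := by positivity
    exact_mod_cast this.ne'
  have hnz2 : ∀ j, (((1 + ‖S.μ₂ j‖ ^ 2 : ℝ)) : ℂ) ≠ 0 := fun j => by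
    have : (0 : ℝ) < 1 + ‖S.μ₂ j‖ ^ 2 := by positivity
    exact_mod_cast this.ne'
  have hnu2 : Tendsto (fun j => nu (S.μ₂ j)) atTop (𝓝 ((k : ℂ) * μ)) := by
    have h := hS.lm2.div hn2 hposc
    have e : μ / (((1 + ‖μ‖ ^ 2 : ℝ)) : ℂ) = (k : ℂ) * μ := by
      rw [hkc]
      ring
    rw [e] at h
    exact h
  refine ⟨((k ^ 2 : ℝ) : ℂ) * (β - μ * μ * conj β), conj γ - 2 * conj ((k : ℂ) * μ) * γ,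
    -(a * 2 * ((1 - ‖μ‖ ^ 2) ^ 2 * k) +
        (β * conj (μ + μ)).re * ((-3 + ‖μ‖ ^ 2 + ‖μ‖ ^ 2 + ‖μ‖ ^ 2 * ‖μ‖ ^ 2) * k ^ 2)), ?_, ?_, ?_, ?_⟩
  · have h := (hS.lb.sub ((hS.lm2.mul hS.lm1).mul (hconj hS.lb))).div (hn2.mul hn1)
      (mul_ne_zero hposc hposc)
    have e : (β - μ * μ * conj β) / ((((1 + ‖μ‖ ^ 2 : ℝ)) : ℂ) * (((1 + ‖μ‖ ^ 2 : ℝ)) : ℂ)) =
        ((k ^ 2 : ℝ) : ℂ) * (β - μ * μ * conj β) := by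
      rw [Complex.ofReal_pow, hkc]
      ring
    rw [e] at h
    refine h.congr fun j => ?_
    have h2 := gc_id (S.μ₂ j) (S.μ₁ j)
    have h3 : conj ((S.μ₂ j - S.μ₁ j) / (S.d j : ℂ)) = conj (S.μ₂ j - S.μ₁ j) / (S.d j : ℂ) := by
      rw [map_div₀, Complex.conj_ofReal]
    show ((S.μ₂ j - S.μ₁ j) / (S.d j : ℂ) - S.μ₂ j * S.μ₁ j * conj ((S.μ₂ j - S.μ₁ j) / (S.d j : ℂ))) /
      ((((1 + ‖S.μ₂ j‖ ^ 2 : ℝ)) : ℂ) * (((1 + ‖S.μ₁ j‖ ^ 2 : ℝ)) : ℂ)) = _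
    rw [h3, div_eq_div_iff (mul_ne_zero (hnz2 j) (hnz1 j)) (hdc j), mul_comm (nu _ - nu _), h2]
    have h4 : (S.d j : ℂ) ≠ 0 := hdc j
    field_simp
  · have h := (hconj hS.lc).sub (((tendsto_const_nhds (x := (2 : ℂ))).mul (hconj hnu2)).mul hS.lc)
    refine h.congr fun j => ?_
    show conj (S.c₂ j / (S.d j : ℂ)) - 2 * conj (nu (S.μ₂ j)) * (S.c₂ j / (S.d j : ℂ)) = _
    unfold gg
    rw [map_div₀, Complex.conj_ofReal, map_zero, mul_zero, sub_zero, sub_zero]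
    field_simp
  · -- the real part
    have hc2 : Tendsto (fun j => ‖S.c₂ j / (S.d j : ℂ)‖ ^ 2 * S.d j) atTop (𝓝 0) := by
      have h := (hS.lc.norm.pow 2).mul hS.ld
      rw [mul_zero] at h
      exact h
    have hc3 : Tendsto (fun j => (conj (nu (S.μ₂ j)) * (S.c₂ j / (S.d j : ℂ)) ^ 2).re * S.d j) atTop
        (𝓝 0) := by
      have h := ((Complex.continuous_re.tendsto _).comp ((hconj hnu2).mul (hS.lc.pow 2))).mul hS.ld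
      rw [mul_zero] at h
      exact h
    have hr : Tendsto (fun j => S.r₂ j + 1) atTop (𝓝 2) := by
      have h := (hS.lr.mul hS.ld).add (tendsto_const_nhds (x := (2 : ℝ)))
      rw [mul_zero, zero_add] at h
      refine h.congr fun j => ?_
      rw [div_mul_cancel₀ _ (hd j)]
      ring
    have hg2 : Tendsto (fun j => (1 - ‖S.μ₂ j‖ ^ 2) ^ 2 / (1 + ‖S.μ₂ j‖ ^ 2)) atTop
        (𝓝 ((1 - ‖μ‖ ^ 2) ^ 2 * k)) := by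
      have h := (((tendsto_const_nhds (x := (1 : ℝ))).sub hs2).pow 2).div
        ((tendsto_const_nhds (x := (1 : ℝ))).add hs2) hpos.ne'
      have e : (1 - ‖μ‖ ^ 2) ^ 2 / (1 + ‖μ‖ ^ 2) = (1 - ‖μ‖ ^ 2) ^ 2 * k := by
        rw [hk]
        ring
      rw [e] at h
      exact h
    have hq : Tendsto (fun j => (-3 + ‖S.μ₁ j‖ ^ 2 + ‖S.μ₂ j‖ ^ 2 + ‖S.μ₁ j‖ ^ 2 * ‖S.μ₂ j‖ ^ 2) /
        ((1 + ‖S.μ₁ j‖ ^ 2) * (1 + ‖S.μ₂ j‖ ^ 2))) atTop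
        (𝓝 ((-3 + ‖μ‖ ^ 2 + ‖μ‖ ^ 2 + ‖μ‖ ^ 2 * ‖μ‖ ^ 2) * k ^ 2)) := by
      have h := ((((tendsto_const_nhds (x := (-3 : ℝ))).add hs1).add hs2).add (hs1.mul hs2)).div
        (((tendsto_const_nhds (x := (1 : ℝ))).add hs1).mul
          ((tendsto_const_nhds (x := (1 : ℝ))).add hs2)) (mul_ne_zero hpos.ne' hpos.ne')
      have e : (-3 + ‖μ‖ ^ 2 + ‖μ‖ ^ 2 + ‖μ‖ ^ 2 * ‖μ‖ ^ 2) / ((1 + ‖μ‖ ^ 2) * (1 + ‖μ‖ ^ 2)) =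
          (-3 + ‖μ‖ ^ 2 + ‖μ‖ ^ 2 + ‖μ‖ ^ 2 * ‖μ‖ ^ 2) * k ^ 2 := by
        rw [hk, div_eq_mul_inv, mul_inv, one_div, pow_two (1 + ‖μ‖ ^ 2)⁻¹]
      rw [e] at h
      exact h
    have hsd : Tendsto (fun j => (((S.μ₂ j - S.μ₁ j) / (S.d j : ℂ)) * conj (S.μ₂ j + S.μ₁ j)).re)
        atTop (𝓝 (β * conj (μ + μ)).re) :=
      (Complex.continuous_re.tendsto _).comp (hS.lb.mul (hconj (hS.lm2.add hS.lm1)))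
    have h := (hc2.sub ((tendsto_const_nhds (x := (2 : ℝ))).mul hc3)).sub
      (((hS.lr.mul hr).mul hg2).add (hsd.mul hq))
    have e : (0 : ℝ) - 2 * 0 - (a * 2 * ((1 - ‖μ‖ ^ 2) ^ 2 * k) +
        (β * conj (μ + μ)).re * ((-3 + ‖μ‖ ^ 2 + ‖μ‖ ^ 2 + ‖μ‖ ^ 2 * ‖μ‖ ^ 2) * k ^ 2)) =
        -(a * 2 * ((1 - ‖μ‖ ^ 2) ^ 2 * k) +
        (β * conj (μ + μ)).re * ((-3 + ‖μ‖ ^ 2 + ‖μ‖ ^ 2 + ‖μ‖ ^ 2 * ‖μ‖ ^ 2) * k ^ 2)) := by ring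
    rw [e] at h
    refine h.congr fun j => ?_
    have hdj := hd j
    have h1 : ‖S.c₂ j / (S.d j : ℂ)‖ ^ 2 * S.d j = ‖S.c₂ j‖ ^ 2 / S.d j := by
      rw [norm_div, Complex.norm_real, Real.norm_of_nonneg (hS.pos j).le]
      field_simp
    have h2 : (conj (nu (S.μ₂ j)) * (S.c₂ j / (S.d j : ℂ)) ^ 2).re * S.d j =
        (conj (nu (S.μ₂ j)) * S.c₂ j ^ 2).re / S.d j := by
      have h3 : conj (nu (S.μ₂ j)) * (S.c₂ j / (S.d j : ℂ)) ^ 2 =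
          conj (nu (S.μ₂ j)) * S.c₂ j ^ 2 / ((S.d j ^ 2 : ℝ) : ℂ) := by
        push_cast
        rw [div_pow]
        ring
      rw [h3, Complex.div_ofReal_re]
      field_simp
    have h3 : (((S.μ₂ j - S.μ₁ j) / (S.d j : ℂ)) * conj (S.μ₂ j + S.μ₁ j)).re =
        (‖S.μ₂ j‖ ^ 2 - ‖S.μ₁ j‖ ^ 2) / S.d j := by
      rw [sq_diff, div_mul_eq_mul_div, Complex.div_ofReal_re]
    have h4 := kap_diff (S.r₂ j) (‖S.μ₁ j‖ ^ 2) (‖S.μ₂ j‖ ^ 2) (sq_nonneg _) (sq_nonneg _)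
    show ‖S.c₂ j / (S.d j : ℂ)‖ ^ 2 * S.d j -
      2 * ((conj (nu (S.μ₂ j)) * (S.c₂ j / (S.d j : ℂ)) ^ 2).re * S.d j) -
      ((S.r₂ j - 1) / S.d j * (S.r₂ j + 1) * ((1 - ‖S.μ₂ j‖ ^ 2) ^ 2 / (1 + ‖S.μ₂ j‖ ^ 2)) +
        (((S.μ₂ j - S.μ₁ j) / (S.d j : ℂ)) * conj (S.μ₂ j + S.μ₁ j)).re *
        ((-3 + ‖S.μ₁ j‖ ^ 2 + ‖S.μ₂ j‖ ^ 2 + ‖S.μ₁ j‖ ^ 2 * ‖S.μ₂ j‖ ^ 2) /
        ((1 + ‖S.μ₁ j‖ ^ 2) * (1 + ‖S.μ₂ j‖ ^ 2)))) = _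
    rw [h1, h2, h3]
    have h5 : hh (S.c₂ j) (S.r₂ j) (S.μ₂ j) - hh 0 1 (S.μ₁ j) =
        ‖S.c₂ j‖ ^ 2 - 2 * (conj (nu (S.μ₂ j)) * S.c₂ j ^ 2).re -
          (S.r₂ j ^ 2 * (1 - ‖S.μ₂ j‖ ^ 2) ^ 2 / (1 + ‖S.μ₂ j‖ ^ 2) -
            1 ^ 2 * (1 - ‖S.μ₁ j‖ ^ 2) ^ 2 / (1 + ‖S.μ₁ j‖ ^ 2)) := by
      unfold hh kap
      simp
      ring
    rw [h5, h4]
    ring
  · intro v hv
    have h := Le_alg μ γ β v a k hk1 hv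
    rw [h, hk]
    ring

theorem Le_UU_eq {μ₀ : ℝ} (h1 : μ₀ < 1) {S : Sq} {μ : ℂ} {a : ℝ} {γ β : ℂ} (hS : LimG S μ₀ μ a γ β) (j : ℕ) (z : ℂ) :
    S.UU j z = (aa 0 1 (S.μ₁ j) (S.c₂ j) (S.r₂ j) (S.μ₂ j) z).re := by
  have h1' := hS.m1 j
  have h2' := hS.m2 j
  rw [aa_re one_pos (Le_rpos hS j) (by linarith) (by linarith)]
  rfl

theorem UlimG {μ₀ : ℝ} (h0 : 0 ≤ μ₀) (h1 : μ₀ < 1) {S : Sq} {μ : ℂ} {a : ℝ} {γ β : ℂ} (hS : LimG S μ₀ μ a γ β) {v : ℂ} (hv : ‖v‖ = 1) :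
    Tendsto (fun j => S.UU j (zz 0 1 (S.μ₁ j) v) / S.d j) atTop (𝓝 (-2 * ((1 - ‖μ‖ ^ 2) / (1 + ‖μ‖ ^ 2)) * (Uw μ a γ β v).re)) := by
  obtain ⟨n₀, g₀, h₀, l1, l2, l3, l4⟩ := colimG h0 h1 hS
  rw [← l4 v hv]
  have hconj : Tendsto (fun j => conj ((nu (S.μ₂ j) - nu (S.μ₁ j)) / (S.d j : ℂ))) atTop
      (𝓝 (conj n₀)) := (Complex.continuous_conj.tendsto _).comp l1
  have hz : Tendsto (fun j => zz 0 1 (S.μ₁ j) v) atTop (𝓝 (zz 0 1 μ v)) := by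
    have hcont : Continuous fun m : ℂ => zz 0 1 m v := by
      unfold zz
      fun_prop
    exact (hcont.tendsto _).comp hS.lm1
  have h4 := ((Complex.continuous_re.tendsto _).comp
    ((((tendsto_const_nhds (x := (2 : ℂ))).mul hconj).mul (hz.pow 2)).neg.sub
      (((tendsto_const_nhds (x := (2 : ℂ))).mul l2).mul hz))).add l3
  have e : (-(2 * conj n₀ * zz 0 1 μ v ^ 2) - 2 * g₀ * zz 0 1 μ v).re + h₀ =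
      -2 * (conj n₀ * zz 0 1 μ v ^ 2).re - 2 * (g₀ * zz 0 1 μ v).re + h₀ := by
    have e1 : -(2 * conj n₀ * zz 0 1 μ v ^ 2) - 2 * g₀ * zz 0 1 μ v =
        ((-2 : ℝ) : ℂ) * (conj n₀ * zz 0 1 μ v ^ 2) + ((-2 : ℝ) : ℂ) * (g₀ * zz 0 1 μ v) := by
      push_cast
      ring
    rw [e1, Complex.add_re, Complex.re_ofReal_mul, Complex.re_ofReal_mul]
    ring
  rw [e] at h4
  refine h4.congr fun j => ?_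
  have hd : (S.d j) ≠ 0 := (hS.pos j).ne'
  rw [Le_UU_eq h1 hS]
  obtain ⟨z, hzj⟩ : ∃ z, z = zz 0 1 (S.μ₁ j) v := ⟨_, rfl⟩
  have h5 : aa 0 1 (S.μ₁ j) (S.c₂ j) (S.r₂ j) (S.μ₂ j) z =
      (-(2 * conj (nu (S.μ₂ j) - nu (S.μ₁ j)) * z ^ 2) -
        2 * (gg (S.c₂ j) (S.μ₂ j) - gg 0 (S.μ₁ j)) * z) +
        ((hh (S.c₂ j) (S.r₂ j) (S.μ₂ j) - hh 0 1 (S.μ₁ j) : ℝ) : ℂ) := rfl
  rw [← hzj, h5, Complex.add_re, Complex.ofReal_re, add_div, ← Complex.div_ofReal_re]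
  show (-(2 * conj ((nu (S.μ₂ j) - nu (S.μ₁ j)) / (S.d j : ℂ)) * (zz 0 1 (S.μ₁ j) v) ^ 2) -
    2 * ((gg (S.c₂ j) (S.μ₂ j) - gg 0 (S.μ₁ j)) / (S.d j : ℂ)) * (zz 0 1 (S.μ₁ j) v)).re + _ = _
  rw [← hzj]
  congr 2
  rw [map_div₀, Complex.conj_ofReal]
  ring

theorem UbdG {μ₀ : ℝ} (h0 : 0 ≤ μ₀) (h1 : μ₀ < 1) : ∃ C : ℝ, 0 < C ∧ ∀ {S : Sq} {μ : ℂ} {a : ℝ} {γ β : ℂ}, LimG S μ₀ μ a γ β →
    ∀ j (z w : ℂ), ‖z‖ ≤ 3 → ‖w‖ ≤ 3 → |S.UU j z| ≤ C * S.d j ∧ |S.UU j z - S.UU j w| ≤ C * S.d j * ‖z - w‖ := by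
  obtain ⟨C₁, hC₁, h₁⟩ := coef_le (r₀ := 1 / 2) (R := 2) (μ₀ := μ₀) (by norm_num) (by norm_num) h0 h1
  obtain ⟨C₂, hC₂, h₂⟩ := aa_le (r₀ := 1 / 2) (R := 2) (μ₀ := μ₀) (by norm_num) (by norm_num) h0 h1
  refine ⟨12 * C₁ + C₂, by positivity, ?_⟩
  intro S μ a γ β hS j z w hz hw
  have hd : 0 < S.d j := hS.pos j
  have e1 := h₁ 0 1 (S.μ₁ j) (S.c₂ j) (S.r₂ j) (S.μ₂ j) (Le_ps₁ hS j) (Le_ps₂ hS j)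
  have e2 := h₂ 0 1 (S.μ₁ j) (S.c₂ j) (S.r₂ j) (S.μ₂ j) (Le_ps₁ hS j) (Le_ps₂ hS j) z (by linarith)
  rw [Le_UU_eq h1 hS, Le_UU_eq h1 hS, ← Complex.sub_re]
  constructor
  · refine (Complex.abs_re_le_norm _).trans (e2.trans ?_)
    show C₂ * S.d j ≤ (12 * C₁ + C₂) * S.d j
    nlinarith [mul_pos hC₁ hd]
  · refine (Complex.abs_re_le_norm _).trans ?_
    have h3 : aa 0 1 (S.μ₁ j) (S.c₂ j) (S.r₂ j) (S.μ₂ j) z -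
        aa 0 1 (S.μ₁ j) (S.c₂ j) (S.r₂ j) (S.μ₂ j) w =
        -(2 * conj (nu (S.μ₂ j) - nu (S.μ₁ j)) * (z + w) +
          2 * (gg (S.c₂ j) (S.μ₂ j) - gg 0 (S.μ₁ j))) * (z - w) := by
      unfold aa
      ring
    rw [h3, norm_mul, norm_neg]
    refine mul_le_mul_of_nonneg_right ?_ (norm_nonneg _)
    have h4 : ‖2 * conj (nu (S.μ₂ j) - nu (S.μ₁ j)) * (z + w) +
        2 * (gg (S.c₂ j) (S.μ₂ j) - gg 0 (S.μ₁ j))‖ ≤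
        12 * ‖nu (S.μ₂ j) - nu (S.μ₁ j)‖ + 2 * ‖gg (S.c₂ j) (S.μ₂ j) - gg 0 (S.μ₁ j)‖ := by
      refine (norm_add_le _ _).trans ?_
      rw [norm_mul, norm_mul, norm_mul, RCLike.norm_conj, Complex.norm_two]
      have h5 : ‖z + w‖ ≤ 6 := (norm_add_le z w).trans (by linarith)
      have h6 := norm_nonneg (nu (S.μ₂ j) - nu (S.μ₁ j))
      nlinarith
    refine h4.trans ?_
    have h5 := norm_nonneg (nu (S.μ₂ j) - nu (S.μ₁ j))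
    have h6 := norm_nonneg (gg (S.c₂ j) (S.μ₂ j) - gg 0 (S.μ₁ j))
    have h7 := abs_nonneg (hh (S.c₂ j) (S.r₂ j) (S.μ₂ j) - hh 0 1 (S.μ₁ j))
    have h8 : dd 0 1 (S.μ₁ j) (S.c₂ j) (S.r₂ j) (S.μ₂ j) = S.d j := rfl
    rw [h8] at e1
    nlinarith [mul_pos hC₂ hd]

end LD1
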