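import Pool.Agent.H1.ND.Nf

/-!
ROW LD/Lf. As `ND/Nf.lean` (`ndFp`, `ndFp_zz`, ...), for `‖μ‖ ≤ μ₀ < 1`, with a bound on the smaller ellipse which does not depend on `K`. `W = t_0 + ∑_{n=1}^K s_n F_n`, `s_n = (t_n - conj t_n conj μⁿ)/(1 - ‖μ‖^(2n))`, `‖s_n‖ ≤ B/(1-μ₀)`. For `z ∈ Dp 0 1 μ σ` let `w` be the root of `w² - z w + μ = 0` with `‖w‖² ≥ ‖μ‖`;
then `F_n z = wⁿ + (μ/w)ⁿ` (also if `w = 0 = μ = z`), `‖F_n z‖ ≤ 2 ‖w‖ⁿ`, and `‖w‖ ≤ τ < 1`, `τ` depending on `σ, μ₀` only: if `‖w‖ = τ'`, `v = vv 0 1 μ z = (w (1 - ‖μ‖²/τ'²) + μ conj w (1/τ'² - 1))/(1-‖μ‖²)`, so `‖v‖ ≥ (τ'² - ‖μ‖)/(τ' (1-‖μ‖))`, so `τ'² - σ (1-‖μ‖) τ' - ‖μ‖ ≤ 0`, while this polynomial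
is `(1-σ)(1-‖μ‖) ≥ (1-σ)(1-μ₀)` at `τ' = 1` with derivative at most `2`: `τ' ≤ 1 - (1-σ)(1-μ₀)/2`. So `‖W z‖ ≤ B + ∑ 2 B/(1-μ₀) τⁿ ≤ C B`.
-/

set_option autoImplicit false

namespace LD1

open Complex Set Filter Topology MeasureTheory EW1 ND1
open scoped ComplexConjugate ContDiff Real

theorem Lf_bd (n : ℕ) : ∃ C : ℝ, 0 ≤ C ∧ ∀ μ : ℂ, ‖μ‖ ≤ 1 →
    (∀ z : ℂ, ‖z‖ ≤ 3 → ‖ndFp μ n z‖ ≤ C) ∧
      ∀ z w : ℂ, ‖z‖ ≤ 3 → ‖w‖ ≤ 3 → ‖ndFp μ n z - ndFp μ n w‖ ≤ C * ‖z - w‖ := by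
  induction n using Nat.twoStepInduction with
  | zero =>
    refine ⟨2, by norm_num, fun μ hμ => ⟨fun z hz => ?_, fun z w hz hw => ?_⟩⟩
    · rw [ndFp_zero]
      norm_num
    · rw [ndFp_zero, ndFp_zero, sub_self, norm_zero]
      positivity
  | one =>
    refine ⟨3, by norm_num, fun μ hμ => ⟨fun z hz => ?_, fun z w hz hw => ?_⟩⟩
    · rw [ndFp_one]
      exact hz
    · rw [ndFp_one, ndFp_one]
      have := norm_nonneg (z - w)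
      linarith
  | more n h0 h1 =>
    obtain ⟨C₀, hC₀, h0⟩ := h0
    obtain ⟨C₁, hC₁, h1⟩ := h1
    refine ⟨4 * (C₁ + C₀), by positivity, fun μ hμ => ?_⟩
    obtain ⟨b0, l0⟩ := h0 μ hμ
    obtain ⟨b1, l1⟩ := h1 μ hμ
    have hμ0 := norm_nonneg μ
    refine ⟨fun z hz => ?_, fun z w hz hw => ?_⟩
    · rw [ndFp_add_two]
      refine (norm_sub_le _ _).trans ?_
      rw [norm_mul, norm_mul]
      have e1 : ‖z‖ * ‖ndFp μ (n + 1) z‖ ≤ 3 * C₁ := mul_le_mul hz (b1 z hz) (norm_nonneg _) (by norm_num)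
      have e2 : ‖μ‖ * ‖ndFp μ n z‖ ≤ 1 * C₀ := mul_le_mul hμ (b0 z hz) (norm_nonneg _) (by norm_num)
      linarith
    · rw [ndFp_add_two, ndFp_add_two]
      have e : z * ndFp μ (n + 1) z - μ * ndFp μ n z - (w * ndFp μ (n + 1) w - μ * ndFp μ n w) =
          (z - w) * ndFp μ (n + 1) z + w * (ndFp μ (n + 1) z - ndFp μ (n + 1) w) -
            μ * (ndFp μ n z - ndFp μ n w) := by ring
      rw [e]
      refine (norm_sub_le _ _).trans ?_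
      refine (add_le_add_left (norm_add_le _ _) _).trans ?_
      rw [norm_mul, norm_mul, norm_mul]
      have hd := norm_nonneg (z - w)
      have e1 : ‖z - w‖ * ‖ndFp μ (n + 1) z‖ ≤ ‖z - w‖ * C₁ := mul_le_mul_of_nonneg_left (b1 z hz) hd
      have e2 : ‖w‖ * ‖ndFp μ (n + 1) z - ndFp μ (n + 1) w‖ ≤ 3 * (C₁ * ‖z - w‖) :=
        mul_le_mul hw (l1 z w hz hw) (norm_nonneg _) (by norm_num)
      have e3 : ‖μ‖ * ‖ndFp μ n z - ndFp μ n w‖ ≤ 1 * (C₀ * ‖z - w‖) :=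
        mul_le_mul hμ (l0 z w hz hw) (norm_nonneg _) (by norm_num)
      have e4 : 0 ≤ C₀ * ‖z - w‖ := mul_nonneg hC₀ hd
      nlinarith

theorem Lf_roots (μ z : ℂ) : ∃ w w' : ℂ, w + w' = z ∧ w * w' = μ ∧ ‖w'‖ ≤ ‖w‖ := by
  obtain ⟨d, hd⟩ := IsAlgClosed.exists_pow_nat_eq (z ^ 2 - 4 * μ) (n := 2) two_pos
  have h1 : (z + d) / 2 + (z - d) / 2 = z := by ring
  have h2 : (z + d) / 2 * ((z - d) / 2) = μ := by
    have e : (z + d) / 2 * ((z - d) / 2) = (z ^ 2 - d ^ 2) / 4 := by ring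
    rw [e, hd]
    ring
  rcases le_total ‖(z - d) / 2‖ ‖(z + d) / 2‖ with h | h
  · exact ⟨_, _, h1, h2, h⟩
  · refine ⟨(z - d) / 2, (z + d) / 2, ?_, ?_, h⟩
    · rw [add_comm]
      exact h1
    · rw [mul_comm]
      exact h2

theorem Lf_F {μ z w w' : ℂ} (h1 : w + w' = z) (h2 : w * w' = μ) (n : ℕ) :
    ndFp μ n z = w ^ n + w' ^ n := by
  induction n using Nat.twoStepInduction with
  | zero =>
    rw [ndFp_zero]
    norm_num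
  | one =>
    rw [ndFp_one, pow_one, pow_one, h1]
  | more n h0 h1' =>
    rw [ndFp_add_two, h0, h1', ← h1, ← h2]
    ring

theorem Lf_root_bound {μ₀ σ : ℝ} (h1 : μ₀ < 1) (hσ : 0 < σ) (hσ1 : σ < 1) {μ z w w' : ℂ}
    (hμ : ‖μ‖ ≤ μ₀) (hz : z ∈ Dp 0 1 μ σ) (hs : w + w' = z) (hp : w * w' = μ) (hw : ‖w'‖ ≤ ‖w‖) :
    ‖w‖ ≤ 1 - (1 - σ) * (1 - μ₀) / 2 := by
  obtain ⟨T, hT⟩ : ∃ T : ℝ, T = ‖w‖ := ⟨_, rfl⟩
  obtain ⟨T', hT'⟩ : ∃ T' : ℝ, T' = ‖w'‖ := ⟨_, rfl⟩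
  obtain ⟨m, hm⟩ : ∃ m : ℝ, m = ‖μ‖ := ⟨_, rfl⟩
  have hm0 : 0 ≤ m := by rw [hm]; exact norm_nonneg μ
  have hT0 : 0 ≤ T := by rw [hT]; exact norm_nonneg w
  have hT'0 : 0 ≤ T' := by rw [hT']; exact norm_nonneg w'
  have hmT : m = T * T' := by rw [hm, hT, hT', ← hp, norm_mul]
  rw [← hT, ← hT'] at hw
  rw [← hm] at hμ
  have hm1 : m < 1 := hμ.trans_lt h1
  have hT'1 : T' < 1 := by
    by_contra h
    have h2 : 1 ≤ T' := not_lt.1 h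
    have h3 : 1 ≤ T * T' := by nlinarith
    linarith
  have hq : 0 < 1 - m ^ 2 := by nlinarith
  -- the equation
  have hz' : ‖vv 0 1 μ z‖ < σ := hz
  have hnum : ‖z - μ * conj z‖ < σ * (1 - m ^ 2) := by
    have e : vv 0 1 μ z = (z - μ * conj z) / ((1 - m ^ 2 : ℝ) : ℂ) := by
      unfold vv
      rw [sub_zero, one_mul, hm]
    rw [e, norm_div, Complex.norm_real, Real.norm_of_nonneg hq.le, div_lt_iff₀ hq] at hz'
    exact hz'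
  have hww : w * conj w = ((T ^ 2 : ℝ) : ℂ) := by
    rw [Complex.mul_conj, Complex.normSq_eq_norm_sq, hT]
  have hww' : w' * conj w' = ((T' ^ 2 : ℝ) : ℂ) := by
    rw [Complex.mul_conj, Complex.normSq_eq_norm_sq, hT']
  have heq : z - μ * conj z = w * ((1 - T' ^ 2 : ℝ) : ℂ) + w' * ((1 - T ^ 2 : ℝ) : ℂ) := by
    have e1 : z - μ * conj z = w + w' - (w * conj w) * w' - (w' * conj w') * w := by
      rw [← hs, ← hp, map_add]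
      ring
    rw [e1, hww, hww']
    push_cast
    ring
  have hlow : T * (1 - T' ^ 2) - T' * |1 - T ^ 2| < σ * (1 - m ^ 2) := by
    refine lt_of_le_of_lt ?_ hnum
    rw [heq]
    have e2 := norm_sub_le_norm_add (w * ((1 - T' ^ 2 : ℝ) : ℂ)) (w' * ((1 - T ^ 2 : ℝ) : ℂ))
    rw [norm_mul, norm_mul, Complex.norm_real, Complex.norm_real, ← hT, ← hT',
      Real.norm_of_nonneg (by nlinarith : (0:ℝ) ≤ 1 - T' ^ 2), Real.norm_eq_abs] at e2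
    exact e2
  rw [← hT]
  rcases le_or_gt T 1 with hT1 | hT1
  · rw [abs_of_nonneg (by nlinarith : (0:ℝ) ≤ 1 - T ^ 2)] at hlow
    have e3 : T * (1 - T' ^ 2) - T' * (1 - T ^ 2) = (T - T') * (1 + m) := by
      rw [hmT]
      ring
    have e4 : σ * (1 - m ^ 2) = σ * (1 - m) * (1 + m) := by ring
    rw [e3, e4] at hlow
    have e5 : T - T' < σ * (1 - m) := lt_of_mul_lt_mul_right hlow (by linarith)
    have e6 : T ^ 2 - m ≤ σ * (1 - m) * T := by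
      have e7 : T ^ 2 - m = (T - T') * T := by
        rw [hmT]
        ring
      rw [e7]
      exact mul_le_mul_of_nonneg_right e5.le hT0
    have e8 : (1 - σ) * (1 - μ₀) ≤ (1 - σ) * (1 - m) :=
      mul_le_mul_of_nonneg_left (by linarith) (by linarith)
    have e9 : 0 ≤ σ * (1 - m) := mul_nonneg hσ.le (by linarith)
    nlinarith [mul_nonneg (sub_nonneg.2 hT1) e9, mul_nonneg (sub_nonneg.2 hT1) (sub_nonneg.2 hT1)]
  · exfalso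
    rw [abs_of_nonpos (by nlinarith : 1 - T ^ 2 ≤ (0:ℝ))] at hlow
    have e3 : T * (1 - T' ^ 2) - T' * -(1 - T ^ 2) = (T + T') * (1 - m) := by
      rw [hmT]
      ring
    have e4 : σ * (1 - m ^ 2) = σ * (1 + m) * (1 - m) := by ring
    rw [e3, e4] at hlow
    have e5 : T + T' < σ * (1 + m) := lt_of_mul_lt_mul_right hlow (by linarith)
    have e6 : σ * (1 + m) ≤ 1 + m := by nlinarith
    have e7 : 0 < (T - 1) * (1 - T') := mul_pos (by linarith) (by linarith)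
    nlinarith

theorem Lf_s {μ₀ : ℝ} (h1 : μ₀ < 1) (t m : ℂ) {B : ℝ} (hm : ‖m‖ ≤ μ₀) (ht : ‖t‖ ≤ B) :
    ∃ s : ℂ, s + conj s * m = t ∧ ‖s‖ ≤ B / (1 - μ₀) := by
  have hm0 := norm_nonneg m
  have hB : 0 ≤ B := (norm_nonneg t).trans ht
  have hm1 : ‖m‖ < 1 := hm.trans_lt h1
  have hq0 : (0 : ℝ) < 1 - ‖m‖ ^ 2 := by nlinarith
  have hne : ((1 - ‖m‖ ^ 2 : ℝ) : ℂ) ≠ 0 := by
    exact_mod_cast hq0.ne'
  have hmm : m * conj m = ((‖m‖ ^ 2 : ℝ) : ℂ) := by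
    rw [Complex.mul_conj, Complex.normSq_eq_norm_sq]
  obtain ⟨s, hs⟩ : ∃ s : ℂ, s = (t - m * conj t) / ((1 - ‖m‖ ^ 2 : ℝ) : ℂ) := ⟨_, rfl⟩
  have hsm : s * ((1 - ‖m‖ ^ 2 : ℝ) : ℂ) = t - m * conj t := by
    rw [hs]
    field_simp
  have hcs : conj s * ((1 - ‖m‖ ^ 2 : ℝ) : ℂ) = conj t - conj m * t := by
    have h := congrArg (starRingEnd ℂ) hsm
    rw [map_mul, Complex.conj_ofReal, map_sub, map_mul, Complex.conj_conj] at h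
    exact h
  refine ⟨s, ?_, ?_⟩
  · apply mul_right_cancel₀ hne
    have e : (s + conj s * m) * ((1 - ‖m‖ ^ 2 : ℝ) : ℂ) =
        s * ((1 - ‖m‖ ^ 2 : ℝ) : ℂ) + conj s * ((1 - ‖m‖ ^ 2 : ℝ) : ℂ) * m := by ring
    rw [e, hsm, hcs]
    have e2 : t - m * conj t + (conj t - conj m * t) * m = t - t * (m * conj m) := by ring
    rw [e2, hmm]
    push_cast
    ring
  · have e0 : ‖s‖ * (1 - ‖m‖ ^ 2) ≤ (1 + ‖m‖) * B := by
      calc ‖s‖ * (1 - ‖m‖ ^ 2) = ‖s * ((1 - ‖m‖ ^ 2 : ℝ) : ℂ)‖ := by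
            rw [norm_mul, Complex.norm_real, Real.norm_of_nonneg hq0.le]
        _ = ‖t - m * conj t‖ := by rw [hsm]
        _ ≤ ‖t‖ + ‖m * conj t‖ := norm_sub_le _ _
        _ = (1 + ‖m‖) * ‖t‖ := by
            rw [norm_mul, Complex.norm_conj]
            ring
        _ ≤ (1 + ‖m‖) * B := mul_le_mul_of_nonneg_left ht (by linarith)
    have e1 : ‖s‖ * (1 - ‖m‖) * (1 + ‖m‖) ≤ B * (1 + ‖m‖) := by nlinarith
    have e2 : ‖s‖ * (1 - ‖m‖) ≤ B := le_of_mul_le_mul_right e1 (by linarith)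
    rw [le_div_iff₀ (by linarith)]
    have e3 : ‖s‖ * (1 - μ₀) ≤ ‖s‖ * (1 - ‖m‖) := mul_le_mul_of_nonneg_left (by linarith) (norm_nonneg s)
    linarith

theorem WlemG {μ₀ σ : ℝ} (h0 : 0 ≤ μ₀) (h1 : μ₀ < 1) (hσ : 0 < σ) (hσ1 : σ < 1) : ∃ C : ℝ, 0 < C ∧ ∀ K : ℕ, ∃ CK : ℝ, 0 < CK ∧
    ∀ μ : ℂ, ‖μ‖ ≤ μ₀ → ∀ (t : ℕ → ℂ) (B : ℝ), (∀ n, n ≤ K → ‖t n‖ ≤ B) →
    ∃ W : ℂ → ℂ, Differentiable ℂ W ∧
      (∀ v : ℂ, ‖v‖ = 1 → (W (zz 0 1 μ v)).re = (∑ n ∈ Finset.range (K + 1), t n * v ^ n).re) ∧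
      (∀ z ∈ Dp 0 1 μ σ, ‖W z‖ ≤ C * B) ∧ (∀ z : ℂ, ‖z‖ ≤ 3 → ‖W z‖ ≤ CK * B) ∧
      ∀ z w : ℂ, ‖z‖ ≤ 3 → ‖w‖ ≤ 3 → ‖W z - W w‖ ≤ CK * B * ‖z - w‖ := by
  obtain ⟨τ, hτ⟩ : ∃ τ : ℝ, τ = 1 - (1 - σ) * (1 - μ₀) / 2 := ⟨_, rfl⟩
  have hμ1 : 0 < 1 - μ₀ := by linarith
  have hpos : 0 < (1 - σ) * (1 - μ₀) := mul_pos (by linarith) hμ1
  have hle1 : (1 - σ) * (1 - μ₀) ≤ 1 := by nlinarith
  have hτ1 : τ < 1 := by rw [hτ]; linarith
  have hτ0 : 0 ≤ τ := by rw [hτ]; linarith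
  have hτ2 : 0 < 1 - τ := by linarith
  choose Cn hCn hCb using Lf_bd
  refine ⟨1 + 2 / (1 - μ₀) * (1 - τ)⁻¹, by positivity, fun K => ?_⟩
  have hS0 : 0 ≤ ∑ n ∈ Finset.range K, Cn (n + 1) / (1 - μ₀) :=
    Finset.sum_nonneg fun n _ => div_nonneg (hCn _) hμ1.le
  refine ⟨1 + ∑ n ∈ Finset.range K, Cn (n + 1) / (1 - μ₀), by linarith, fun μ hμ t B ht => ?_⟩
  have hB : 0 ≤ B := (norm_nonneg _).trans (ht 0 (Nat.zero_le K))
  have hμ0 := norm_nonneg μ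
  have hμle : ‖μ‖ ≤ 1 := hμ.trans h1.le
  have hmn : ∀ n : ℕ, ‖conj μ ^ (n + 1)‖ ≤ μ₀ := by
    intro n
    rw [norm_pow, Complex.norm_conj]
    calc ‖μ‖ ^ (n + 1) ≤ ‖μ‖ ^ 1 := pow_le_pow_of_le_one hμ0 hμle (by omega)
      _ = ‖μ‖ := pow_one _
      _ ≤ μ₀ := hμ
  have hs : ∀ n : ℕ, ∃ s : ℂ, n < K → s + conj s * conj μ ^ (n + 1) = t (n + 1) ∧ ‖s‖ ≤ B / (1 - μ₀) := by
    intro n
    by_cases hn : n < K
    · obtain ⟨s, h⟩ := Lf_s h1 (t (n + 1)) (conj μ ^ (n + 1)) (hmn n) (ht (n + 1) (by omega))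
      exact ⟨s, fun _ => h⟩
    · exact ⟨0, fun h => absurd h hn⟩
  choose s hs using hs
  have hBs : 0 ≤ B / (1 - μ₀) := div_nonneg hB hμ1.le
  refine ⟨fun z => t 0 + ∑ n ∈ Finset.range K, s n * ndFp μ (n + 1) z, ?_, ?_, ?_, ?_, ?_⟩
  · refine (differentiable_const _).add ?_
    exact Differentiable.fun_sum fun n _ => (ndFp_diff μ (n + 1)).const_mul (s n)
  · intro v hv
    show (t 0 + ∑ n ∈ Finset.range K, s n * ndFp μ (n + 1) (zz 0 1 μ v)).re = _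
    rw [Finset.sum_range_succ', Complex.add_re, Complex.add_re, pow_zero, mul_one, add_comm,
      Complex.re_sum, Complex.re_sum]
    congr 1
    refine Finset.sum_congr rfl fun n hn => ?_
    obtain ⟨hs1, -⟩ := hs n (Finset.mem_range.1 hn)
    rw [ndFp_zz μ hv (n + 1), ← hs1]
    have e1 : (s n * (μ ^ (n + 1) * conj v ^ (n + 1))).re =
        (conj (s n) * conj μ ^ (n + 1) * v ^ (n + 1)).re := by
      rw [← Complex.conj_re (s n * (μ ^ (n + 1) * conj v ^ (n + 1)))]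
      rw [map_mul, map_mul, map_pow, map_pow, Complex.conj_conj]
      ring_nf
    rw [mul_add, Complex.add_re, e1, add_mul, Complex.add_re]
  · intro z hz
    show ‖t 0 + ∑ n ∈ Finset.range K, s n * ndFp μ (n + 1) z‖ ≤ _
    obtain ⟨w, w', hsum, hprod, hww⟩ := Lf_roots μ z
    have hwτ : ‖w‖ ≤ τ := by
      rw [hτ]
      exact Lf_root_bound h1 hσ hσ1 hμ hz hsum hprod hww
    have hterm : ∀ n ∈ Finset.range K, ‖s n * ndFp μ (n + 1) z‖ ≤ 2 * (B / (1 - μ₀)) * τ ^ n := by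
      intro n hn
      obtain ⟨-, hs2⟩ := hs n (Finset.mem_range.1 hn)
      rw [norm_mul, Lf_F hsum hprod]
      have e1 : ‖w ^ (n + 1) + w' ^ (n + 1)‖ ≤ 2 * τ ^ n := by
        refine (norm_add_le _ _).trans ?_
        rw [norm_pow, norm_pow]
        have e2 : ‖w‖ ^ (n + 1) ≤ τ ^ n := by
          calc ‖w‖ ^ (n + 1) ≤ τ ^ (n + 1) := pow_le_pow_left₀ (norm_nonneg w) hwτ _
            _ ≤ τ ^ n := pow_le_pow_of_le_one hτ0 hτ1.le (Nat.le_succ n)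
        have e3 : ‖w'‖ ^ (n + 1) ≤ ‖w‖ ^ (n + 1) := pow_le_pow_left₀ (norm_nonneg w') hww _
        linarith
      calc ‖s n‖ * ‖w ^ (n + 1) + w' ^ (n + 1)‖ ≤ B / (1 - μ₀) * (2 * τ ^ n) :=
            mul_le_mul hs2 e1 (norm_nonneg _) hBs
        _ = 2 * (B / (1 - μ₀)) * τ ^ n := by ring
    have hgeo : ∑ n ∈ Finset.range K, τ ^ n ≤ (1 - τ)⁻¹ := by
      rw [← tsum_geometric_of_lt_one hτ0 hτ1]
      exact (summable_geometric_of_lt_one hτ0 hτ1).sum_le_tsum _ fun n _ => pow_nonneg hτ0 n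
    calc ‖t 0 + ∑ n ∈ Finset.range K, s n * ndFp μ (n + 1) z‖
        ≤ ‖t 0‖ + ∑ n ∈ Finset.range K, ‖s n * ndFp μ (n + 1) z‖ :=
          (norm_add_le _ _).trans (by
            have := norm_sum_le (Finset.range K) fun n => s n * ndFp μ (n + 1) z
            linarith)
      _ ≤ B + ∑ n ∈ Finset.range K, 2 * (B / (1 - μ₀)) * τ ^ n :=
          add_le_add (ht 0 (Nat.zero_le K)) (Finset.sum_le_sum hterm)
      _ = B + 2 * (B / (1 - μ₀)) * ∑ n ∈ Finset.range K, τ ^ n := by rw [Finset.mul_sum]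
      _ ≤ B + 2 * (B / (1 - μ₀)) * (1 - τ)⁻¹ := by
          have := mul_le_mul_of_nonneg_left hgeo (by positivity : 0 ≤ 2 * (B / (1 - μ₀)))
          linarith
      _ = (1 + 2 / (1 - μ₀) * (1 - τ)⁻¹) * B := by ring
  · intro z hz
    show ‖t 0 + ∑ n ∈ Finset.range K, s n * ndFp μ (n + 1) z‖ ≤ _
    have hterm : ∀ n ∈ Finset.range K, ‖s n * ndFp μ (n + 1) z‖ ≤ Cn (n + 1) / (1 - μ₀) * B := by
      intro n hn
      obtain ⟨-, hs2⟩ := hs n (Finset.mem_range.1 hn)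
      rw [norm_mul]
      calc ‖s n‖ * ‖ndFp μ (n + 1) z‖ ≤ B / (1 - μ₀) * Cn (n + 1) :=
            mul_le_mul hs2 ((hCb (n + 1) μ hμle).1 z hz) (norm_nonneg _) hBs
        _ = Cn (n + 1) / (1 - μ₀) * B := by ring
    calc ‖t 0 + ∑ n ∈ Finset.range K, s n * ndFp μ (n + 1) z‖
        ≤ ‖t 0‖ + ∑ n ∈ Finset.range K, ‖s n * ndFp μ (n + 1) z‖ :=
          (norm_add_le _ _).trans (by
            have := norm_sum_le (Finset.range K) fun n => s n * ndFp μ (n + 1) z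
            linarith)
      _ ≤ B + ∑ n ∈ Finset.range K, Cn (n + 1) / (1 - μ₀) * B :=
          add_le_add (ht 0 (Nat.zero_le K)) (Finset.sum_le_sum hterm)
      _ = (1 + ∑ n ∈ Finset.range K, Cn (n + 1) / (1 - μ₀)) * B := by
          rw [← Finset.sum_mul]
          ring
  · intro z w hz hw
    show ‖t 0 + ∑ n ∈ Finset.range K, s n * ndFp μ (n + 1) z -
      (t 0 + ∑ n ∈ Finset.range K, s n * ndFp μ (n + 1) w)‖ ≤ _
    rw [add_sub_add_left_eq_sub, ← Finset.sum_sub_distrib]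
    have hterm : ∀ n ∈ Finset.range K, ‖s n * ndFp μ (n + 1) z - s n * ndFp μ (n + 1) w‖ ≤
        Cn (n + 1) / (1 - μ₀) * (B * ‖z - w‖) := by
      intro n hn
      obtain ⟨-, hs2⟩ := hs n (Finset.mem_range.1 hn)
      rw [← mul_sub, norm_mul]
      calc ‖s n‖ * ‖ndFp μ (n + 1) z - ndFp μ (n + 1) w‖ ≤ B / (1 - μ₀) * (Cn (n + 1) * ‖z - w‖) :=
            mul_le_mul hs2 ((hCb (n + 1) μ hμle).2 z w hz hw) (norm_nonneg _) hBs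
        _ = Cn (n + 1) / (1 - μ₀) * (B * ‖z - w‖) := by ring
    refine (norm_sum_le _ _).trans ((Finset.sum_le_sum hterm).trans ?_)
    rw [← Finset.sum_mul]
    have hBz : 0 ≤ B * ‖z - w‖ := mul_nonneg hB (norm_nonneg _)
    nlinarith

end LD1
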