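import Pool.Agent.H1.LD.Le
import Pool.Agent.H1.LD.Lf
import Pool.Agent.H1.ND.Ng

/-!
ROW LD/Lg. The multipliers, as `Wseq` in `ND/Ng.lean` (`TPx_*` there, `UU_zz`, `ngPol`, `ngNear`: adapt). `T v = UU j (zz 0 1 μ₁ v) ‖g v‖²/d` is a real trigonometric polynomial on `‖v‖ = 1` of degree at most `K = 2 + natDegree g`: `T v = Re (∑_{n ≤ K} t_n vⁿ)`, `t_0 = (1/2π) ∫ T`, `t_n = (1/π) ∫ T e^(-ins)`, so
`‖t_n‖ ≤ B = (1/π) ∫ |T| ds`. `WlemG` (`LD/Lf.lean`). Second bound: `Re (W z) - UU z ‖g (v)‖²/d` is zero for `‖v‖ = 1` and Lipschitz (`UbdG`; `B ≤ C_g`), so it is at most `C_g |‖v‖ - 1| ≤ C_g' |QQ 0 1 μ₁ z|` (`QQ = kap (‖v‖² - 1)`, `kap 1 μ₁ ≥ (1-μ₀²)²/2`); the points of both ellipses have `‖z‖ ≤ 3` and `‖v‖ ≤ 3/(1-μ₀)`.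
-/

set_option autoImplicit false

namespace LD1

open Complex Set Filter Topology MeasureTheory EW1 EX1 ND1
open scoped ComplexConjugate ContDiff Real

theorem Lg_int (m : ℤ) : ∫ s in (0 : ℝ)..(2 * π), exp ((m : ℂ) * I * (s : ℂ))
    = if m = 0 then (2 * π : ℂ) else 0 := by
  split_ifs with h
  · subst h
    simp
  · have hm : (m : ℂ) * I ≠ 0 := mul_ne_zero (Int.cast_ne_zero.2 h) I_ne_zero
    rw [integral_exp_mul_complex hm]
    have h2 : (m : ℂ) * I * ((2 * π : ℝ) : ℂ) = m * (2 * π * I) := by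
      push_cast
      ring
    rw [h2, Complex.exp_int_mul_two_pi_mul_I]
    simp

/-- the Fourier coefficients of a trigonometric polynomial -/
theorem Lg_fou {K : ℕ} {t : ℕ → ℂ} {φ : ℂ → ℝ} (h : TPx K t φ) {n : ℕ} (hn : n ≤ K) (h0 : n ≠ 0) :
    ∫ s in (0 : ℝ)..(2 * π), ((φ (exp (s * I)) : ℝ) : ℂ) * exp (((-(n : ℤ) : ℤ) : ℂ) * I * (s : ℂ))
      = π * t n := by
  have h1 : ∀ s : ℝ, ((φ (exp (s * I)) : ℝ) : ℂ) * exp (((-(n : ℤ) : ℤ) : ℂ) * I * (s : ℂ))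
      = ∑ k ∈ Finset.range (K + 1), (t k / 2 * exp ((((k : ℤ) - (n : ℤ) : ℤ) : ℂ) * I * (s : ℂ))
        + conj (t k) / 2 * exp (((-(k : ℤ) - (n : ℤ) : ℤ) : ℂ) * I * (s : ℂ))) := by
    intro s
    rw [h.2 _ (Complex.norm_exp_ofReal_mul_I s), Complex.re_eq_add_conj, map_sum, add_div,
      Finset.sum_div, Finset.sum_div, ← Finset.sum_add_distrib, Finset.sum_mul]
    refine Finset.sum_congr rfl fun k _ => ?_
    have e1 : exp ((((k : ℤ) - (n : ℤ) : ℤ) : ℂ) * I * (s : ℂ))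
        = exp (s * I) ^ k * exp (((-(n : ℤ) : ℤ) : ℂ) * I * (s : ℂ)) := by
      rw [← Complex.exp_nat_mul, ← Complex.exp_add]
      congr 1
      push_cast
      ring
    have e2 : exp (((-(k : ℤ) - (n : ℤ) : ℤ) : ℂ) * I * (s : ℂ))
        = conj (exp (s * I) ^ k) * exp (((-(n : ℤ) : ℤ) : ℂ) * I * (s : ℂ)) := by
      rw [map_pow, ← Complex.exp_conj, ← Complex.exp_nat_mul, ← Complex.exp_add]
      congr 1
      rw [map_mul, Complex.conj_ofReal, Complex.conj_I]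
      push_cast
      ring
    rw [e1, e2, map_mul]
    ring
  simp_rw [h1]
  have hI : ∀ (c : ℂ) (m : ℤ), IntervalIntegrable (fun s : ℝ => c * exp ((m : ℂ) * I * (s : ℂ)))
      volume 0 (2 * π) := fun c m => Continuous.intervalIntegrable (by fun_prop) _ _
  rw [intervalIntegral.integral_finsetSum]
  · have h2 : ∀ k ∈ Finset.range (K + 1), ∫ s in (0 : ℝ)..(2 * π),
        (t k / 2 * exp ((((k : ℤ) - (n : ℤ) : ℤ) : ℂ) * I * (s : ℂ))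
          + conj (t k) / 2 * exp (((-(k : ℤ) - (n : ℤ) : ℤ) : ℂ) * I * (s : ℂ)))
        = if k = n then π * t n else 0 := by
      intro k _
      rw [intervalIntegral.integral_add (hI _ _) (hI _ _), intervalIntegral.integral_const_mul,
        intervalIntegral.integral_const_mul, Lg_int, Lg_int]
      have e3 : ¬ (-(k : ℤ) - (n : ℤ) = 0) := by omega
      rw [if_neg e3, mul_zero, add_zero]
      by_cases hkn : k = n
      · subst hkn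
        rw [if_pos (sub_self _), if_pos rfl]
        ring
      · have e4 : ¬ ((k : ℤ) - (n : ℤ) = 0) := by omega
        rw [if_neg e4, if_neg hkn, mul_zero]
    rw [Finset.sum_congr rfl h2, Finset.sum_ite_eq', if_pos (Finset.mem_range.2 (by omega))]
  · intro k _
    exact (hI _ _).add (hI _ _)

theorem Lg_coef {K : ℕ} {t : ℕ → ℂ} {φ : ℂ → ℝ} (h : TPx K t φ) {n : ℕ} (hn : n ≤ K) :
    ‖t n‖ ≤ 1 / π * ∫ s in (0 : ℝ)..(2 * π), |φ (exp (s * I))| := by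
  have hpi := Real.pi_pos
  have h2pi : (0 : ℝ) ≤ 2 * π := by positivity
  have hnn : 0 ≤ ∫ s in (0 : ℝ)..(2 * π), |φ (exp (s * I))| :=
    intervalIntegral.integral_nonneg h2pi fun _ _ => abs_nonneg _
  rw [one_div, ← div_eq_inv_mul, le_div_iff₀ hpi]
  by_cases h0 : n = 0
  · subst h0
    have h1 := TPx_int h
    have h2 : |∫ s in (0 : ℝ)..(2 * π), φ (exp (s * I))|
        ≤ ∫ s in (0 : ℝ)..(2 * π), |φ (exp (s * I))| :=
      intervalIntegral.abs_integral_le_integral_abs h2pi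
    have h3 : ‖t 0‖ = |(t 0).re| := by
      have : t 0 = (((t 0).re : ℝ) : ℂ) := by
        apply Complex.ext
        · rw [Complex.ofReal_re]
        · rw [Complex.ofReal_im, h.1]
      rw [this, Complex.norm_real, Real.norm_eq_abs, Complex.ofReal_re]
    rw [h1, abs_mul, abs_of_nonneg h2pi] at h2
    rw [h3]
    have := mul_nonneg hpi.le (abs_nonneg (t 0).re)
    linarith
  · have h1 := Lg_fou h hn h0
    have h2 : ‖∫ s in (0 : ℝ)..(2 * π), ((φ (exp (s * I)) : ℝ) : ℂ)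
        * exp (((-(n : ℤ) : ℤ) : ℂ) * I * (s : ℂ))‖
        ≤ ∫ s in (0 : ℝ)..(2 * π), |φ (exp (s * I))| := by
      refine (intervalIntegral.norm_integral_le_integral_norm h2pi).trans (le_of_eq ?_)
      refine intervalIntegral.integral_congr fun s _ => ?_
      show ‖((φ (exp (s * I)) : ℝ) : ℂ) * exp (((-(n : ℤ) : ℤ) : ℂ) * I * (s : ℂ))‖ = _
      have e1 : ((-(n : ℤ) : ℤ) : ℂ) * I * (s : ℂ) = ((-(n : ℝ) * s : ℝ) : ℂ) * I := by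
        push_cast
        ring
      rw [norm_mul, e1, Complex.norm_exp_ofReal_mul_I, mul_one, Complex.norm_real,
        Real.norm_eq_abs]
    rw [h1, norm_mul, Complex.norm_real, Real.norm_eq_abs, abs_of_pos hpi] at h2
    linarith

theorem Lg_r₂ {S : Sq} {μ₀ : ℝ} {μ : ℂ} {a : ℝ} {γ β : ℂ} (hS : LimG S μ₀ μ a γ β) (j : ℕ) :
    0 < S.r₂ j ∧ S.r₂ j ≤ 101 / 100 ∧ ‖S.c₂ j‖ ≤ 1 / 100 := by
  have hd : S.d j ≤ 1 / 100 := hS.small j
  unfold Sq.d dd at hd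
  rw [zero_sub, norm_neg] at hd
  have h1 := norm_nonneg (S.c₂ j)
  have h2 := norm_nonneg (S.μ₁ j - S.μ₂ j)
  have h3 := abs_nonneg (1 - S.r₂ j)
  have h4 := abs_le.1 (show |1 - S.r₂ j| ≤ 1 / 100 by linarith)
  refine ⟨by linarith [h4.2], by linarith [h4.1], by linarith⟩

/-- `UU` on the first ellipse -/
theorem Lg_UU {S : Sq} {μ₀ : ℝ} (h1' : μ₀ < 1) {μ : ℂ} {a : ℝ} {γ β : ℂ} (hS : LimG S μ₀ μ a γ β)
    (j : ℕ) (v : ℂ) (hv : ‖v‖ = 1) :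
    S.UU j (zz 0 1 (S.μ₁ j) v) = (-(2 * conj (nu (S.μ₂ j) - nu (S.μ₁ j))
        + 2 * (nu (S.μ₂ j) - nu (S.μ₁ j)) * conj (S.μ₁ j) ^ 2) * v ^ 2).re
      + (-(2 * (gg (S.c₂ j) (S.μ₂ j) - gg 0 (S.μ₁ j))
        + 2 * conj (gg (S.c₂ j) (S.μ₂ j) - gg 0 (S.μ₁ j)) * conj (S.μ₁ j)) * v).re
      + (hh (S.c₂ j) (S.r₂ j) (S.μ₂ j) - hh 0 1 (S.μ₁ j)
        - 4 * (conj (nu (S.μ₂ j) - nu (S.μ₁ j)) * S.μ₁ j).re) := by
  have hr : 0 < S.r₂ j := (Lg_r₂ hS j).1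
  have h1 : ‖S.μ₁ j‖ < 1 := (hS.m1 j).trans_lt h1'
  have h2 : ‖S.μ₂ j‖ < 1 := (hS.m2 j).trans_lt h1'
  have e := aa_re (c₁ := 0) (c₂ := S.c₂ j) one_pos hr h1 h2 (zz 0 1 (S.μ₁ j) v)
  unfold Sq.UU
  rw [← e]
  unfold aa
  generalize nu (S.μ₂ j) - nu (S.μ₁ j) = ν
  generalize gg (S.c₂ j) (S.μ₂ j) - gg 0 (S.μ₁ j) = G
  generalize hh (S.c₂ j) (S.r₂ j) (S.μ₂ j) - hh 0 1 (S.μ₁ j) = H
  generalize S.μ₁ j = μ
  have hvv : v * conj v = 1 := by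
    rw [Complex.mul_conj, Complex.normSq_eq_norm_sq, hv]
    simp
  have hz : zz 0 1 μ v = v + μ * conj v := by
    unfold zz
    push_cast
    ring
  rw [hz]
  have h3 : -(2 * conj ν * (v + μ * conj v) ^ 2) - 2 * G * (v + μ * conj v) + (H : ℂ)
      = -(2 * conj ν) * v ^ 2 + -(2 * conj ν * μ ^ 2) * conj v ^ 2 + -(2 * G) * v
        + -(2 * G * μ) * conj v + ((H : ℂ) - 4 * (conj ν * μ)) := by
    linear_combination (-(4 * conj ν * μ)) * hvv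
  have h4 : (-(2 * conj ν * μ ^ 2) * conj v ^ 2).re = (-(2 * ν * conj μ ^ 2) * v ^ 2).re := by
    rw [← Complex.conj_re (-(2 * conj ν * μ ^ 2) * conj v ^ 2)]
    congr 1
    simp only [map_mul, map_neg, map_pow, Complex.conj_conj, map_ofNat]
  have h5 : (-(2 * G * μ) * conj v).re = (-(2 * conj G * conj μ) * v).re := by
    rw [← Complex.conj_re (-(2 * G * μ) * conj v)]
    congr 1
    simp only [map_mul, map_neg, Complex.conj_conj, map_ofNat]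
  have h6 : ((H : ℂ) - 4 * (conj ν * μ)).re = H - 4 * (conj ν * μ).re := by
    rw [Complex.sub_re, Complex.ofReal_re]
    congr 1
    have : (4 : ℂ) = ((4 : ℝ) : ℂ) := by norm_num
    rw [this, Complex.re_ofReal_mul]
  rw [h3, Complex.add_re, Complex.add_re, Complex.add_re, Complex.add_re, h4, h5, h6]
  have h7 : (-(2 * conj ν + 2 * ν * conj μ ^ 2) * v ^ 2).re
      = (-(2 * conj ν) * v ^ 2).re + (-(2 * ν * conj μ ^ 2) * v ^ 2).re := by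
    rw [← Complex.add_re]
    congr 1
    ring
  have h8 : (-(2 * G + 2 * conj G * conj μ) * v).re
      = (-(2 * G) * v).re + (-(2 * conj G * conj μ) * v).re := by
    rw [← Complex.add_re]
    congr 1
    ring
  rw [h7, h8]
  ring

/-- polynomials are bounded and Lipschitz on bounded sets -/
theorem Lg_Pol (R : ℝ) (g : Polynomial ℂ) : ∃ G L : ℝ, 0 < G ∧ 0 < L ∧
    (∀ v : ℂ, ‖v‖ ≤ R → ‖g.eval v‖ ≤ G) ∧
    ∀ v w : ℂ, ‖v‖ ≤ R → ‖w‖ ≤ R → ‖g.eval v - g.eval w‖ ≤ L * ‖v - w‖ := by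
  have hb : ∀ f : Polynomial ℂ, ∃ G : ℝ, 0 < G ∧ ∀ v : ℂ, ‖v‖ ≤ R → ‖f.eval v‖ ≤ G := by
    intro f
    obtain ⟨C, hC⟩ := (isCompact_closedBall (0 : ℂ) R).exists_bound_of_continuousOn
      (f := fun v => f.eval v) f.continuous.continuousOn
    refine ⟨|C| + 1, by positivity, fun v hv => ?_⟩
    have := hC v (mem_closedBall_zero_iff.2 hv)
    have := le_abs_self C
    linarith
  obtain ⟨G, hG, h1⟩ := hb g
  obtain ⟨L, hL, h2⟩ := hb (Polynomial.derivative g)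
  refine ⟨G, L, hG, hL, h1, fun v w hv hw => ?_⟩
  have := (convex_closedBall (0 : ℂ) R).norm_image_sub_le_of_norm_deriv_le
    (f := fun v => g.eval v) (C := L) (x := w) (y := v)
    (fun x _ => g.differentiable.differentiableAt)
    (fun x hx => by
      rw [Polynomial.deriv]
      exact h2 x (mem_closedBall_zero_iff.1 hx))
    (mem_closedBall_zero_iff.2 hw) (mem_closedBall_zero_iff.2 hv)
  exact this

/-- `T` is a trigonometric polynomial -/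
theorem Lg_T {S : Sq} {μ₀ : ℝ} (h1 : μ₀ < 1) {μ : ℂ} {a : ℝ} {γ β : ℂ} (hS : LimG S μ₀ μ a γ β)
    (g : Polynomial ℂ) (j : ℕ) : ∃ t : ℕ → ℂ, TPx (g.natDegree + 2) t
      (fun v => S.UU j (zz 0 1 (S.μ₁ j) v) * ‖g.eval v‖ ^ 2 / S.d j) := by
  obtain ⟨e2, he2⟩ : ∃ e2, e2 = -(2 * conj (nu (S.μ₂ j) - nu (S.μ₁ j))
        + 2 * (nu (S.μ₂ j) - nu (S.μ₁ j)) * conj (S.μ₁ j) ^ 2) := ⟨_, rfl⟩
  obtain ⟨e1, he1⟩ : ∃ e1, e1 = -(2 * (gg (S.c₂ j) (S.μ₂ j) - gg 0 (S.μ₁ j))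
        + 2 * conj (gg (S.c₂ j) (S.μ₂ j) - gg 0 (S.μ₁ j)) * conj (S.μ₁ j)) := ⟨_, rfl⟩
  obtain ⟨e0, he0⟩ : ∃ e0, e0 = hh (S.c₂ j) (S.r₂ j) (S.μ₂ j) - hh 0 1 (S.μ₁ j)
        - 4 * (conj (nu (S.μ₂ j) - nu (S.μ₁ j)) * S.μ₁ j).re := ⟨_, rfl⟩
  obtain ⟨t, ht⟩ := TPx_prod (K := g.natDegree + 2)
    ((Polynomial.C (e2 / S.d j) * Polynomial.X ^ 2 + Polynomial.C (e1 / S.d j) * Polynomial.X
      + Polynomial.C ((e0 : ℂ) / S.d j)) * g) g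
    (by
      refine Polynomial.natDegree_mul_le.trans ?_
      have := Polynomial.natDegree_quadratic_le (a := e2 / (S.d j : ℂ)) (b := e1 / (S.d j : ℂ))
        (c := (e0 : ℂ) / (S.d j : ℂ))
      omega) (by omega)
  refine ⟨t, TPx_congr ht fun v hv => ?_⟩
  simp only [Polynomial.eval_mul, Polynomial.eval_add, Polynomial.eval_C, Polynomial.eval_pow,
    Polynomial.eval_X]
  rw [mul_assoc, Complex.mul_conj, Complex.normSq_eq_norm_sq, Complex.re_mul_ofReal,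
    Lg_UU h1 hS j v hv, ← he2, ← he1, ← he0]
  have e : e2 / (S.d j : ℂ) * v ^ 2 + e1 / (S.d j : ℂ) * v + (e0 : ℂ) / (S.d j : ℂ)
      = (e2 * v ^ 2 + e1 * v + (e0 : ℂ)) / (S.d j : ℂ) := by ring
  rw [e, Complex.div_ofReal_re, Complex.add_re, Complex.add_re, Complex.ofReal_re]
  ring

theorem WseqG {μ₀ σ : ℝ} (h0 : 0 ≤ μ₀) (h1 : μ₀ < 1) (hσ : 0 < σ) (hσ1 : σ < 1) : ∃ C : ℝ, 0 < C ∧
    ∀ {S : Sq} {μ : ℂ} {a : ℝ} {γ β : ℂ}, LimG S μ₀ μ a γ β → ∀ g : Polynomial ℂ, ∃ Cg : ℝ, 0 < Cg ∧ ∀ j, ∃ W : ℂ → ℂ, Differentiable ℂ W ∧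
      (∀ z ∈ S.E₁ σ j, ‖W z‖ ≤ C * ∫ t in (0 : ℝ)..(2 * π), |S.UU j (zz 0 1 (S.μ₁ j) (exp (t * I)))| * ‖g.eval (exp (t * I))‖ ^ 2 / S.d j) ∧
      ∀ z, z ∈ S.E₁ 1 j ∨ z ∈ S.E₂ 1 j →
        |(W z).re - S.UU j z * ‖g.eval (vv 0 1 (S.μ₁ j) z)‖ ^ 2 / S.d j| ≤ Cg * |QQ 0 1 (S.μ₁ j) z| := by
  obtain ⟨CW, hCW, hW⟩ := WlemG h0 h1 hσ hσ1
  obtain ⟨CU, hCU, hU⟩ := UbdG h0 h1
  have hpi := Real.pi_pos
  refine ⟨CW / π, by positivity, ?_⟩
  intro S μ a γ β hS g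
  obtain ⟨CK, hCK, hWK⟩ := hW (g.natDegree + 2)
  have hm0 : 0 < 1 - μ₀ := by linarith
  obtain ⟨R, hR⟩ : ∃ R, R = 3 / (1 - μ₀) := ⟨_, rfl⟩
  have hR1 : 1 ≤ R := by
    rw [hR, le_div_iff₀ hm0]
    linarith
  obtain ⟨G, L, hG, hL, hg1, hg2⟩ := Lg_Pol R g
  obtain ⟨κ, hκ⟩ : ∃ κ, κ = (1 - μ₀ ^ 2) ^ 2 / 2 := ⟨_, rfl⟩
  have hm2 : 0 < 1 - μ₀ ^ 2 := by nlinarith
  have hκ0 : 0 < κ := by
    rw [hκ]
    positivity
  obtain ⟨D, hD⟩ : ∃ D, D = 4 * CK * CU * G ^ 2 + 2 * CU * G ^ 2 + 2 * CU * G * L := ⟨_, rfl⟩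
  have hD0 : 0 < D := by
    rw [hD]
    positivity
  refine ⟨D / κ, by positivity, fun j => ?_⟩
  have hμ := hS.m1 j
  have hμ1 : ‖S.μ₁ j‖ < 1 := hμ.trans_lt h1
  have hμ0 := norm_nonneg (S.μ₁ j)
  have hd := hS.pos j
  obtain ⟨t, ht⟩ := Lg_T h1 hS g j
  obtain ⟨B, hB⟩ : ∃ B, B = 1 / π * ∫ s in (0 : ℝ)..(2 * π),
      |S.UU j (zz 0 1 (S.μ₁ j) (exp (s * I))) * ‖g.eval (exp (s * I))‖ ^ 2 / S.d j| := ⟨_, rfl⟩
  have hzz3 : ∀ v : ℂ, ‖v‖ = 1 → ‖zz 0 1 (S.μ₁ j) v‖ ≤ 3 := by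
    intro v hv
    have e1 : zz 0 1 (S.μ₁ j) v = v + S.μ₁ j * conj v := by
      unfold zz
      push_cast
      ring
    rw [e1]
    refine (norm_add_le _ _).trans ?_
    rw [norm_mul, Complex.norm_conj, hv]
    linarith
  have hB2 : B ≤ 2 * CU * G ^ 2 := by
    have h2 : ‖∫ s in (0 : ℝ)..(2 * π),
        |S.UU j (zz 0 1 (S.μ₁ j) (exp (s * I))) * ‖g.eval (exp (s * I))‖ ^ 2 / S.d j|‖
        ≤ CU * G ^ 2 * |2 * π - 0| := by
      refine intervalIntegral.norm_integral_le_of_norm_le_const fun s _ => ?_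
      have hs : ‖exp (s * I)‖ = 1 := Complex.norm_exp_ofReal_mul_I s
      obtain ⟨u1, -⟩ := hU hS j (zz 0 1 (S.μ₁ j) (exp (s * I))) (zz 0 1 (S.μ₁ j) (exp (s * I)))
        (hzz3 _ hs) (hzz3 _ hs)
      have g1 := hg1 (exp (s * I)) (by rw [hs]; exact hR1)
      rw [Real.norm_eq_abs, abs_abs, abs_div, abs_of_pos hd, div_le_iff₀ hd, abs_mul,
        abs_of_nonneg (show 0 ≤ ‖g.eval (exp (s * I))‖ ^ 2 by positivity)]
      calc |S.UU j (zz 0 1 (S.μ₁ j) (exp (s * I)))| * ‖g.eval (exp (s * I))‖ ^ 2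
          ≤ (CU * S.d j) * G ^ 2 :=
            mul_le_mul u1 (pow_le_pow_left₀ (norm_nonneg _) g1 2) (by positivity) (by positivity)
        _ = CU * G ^ 2 * S.d j := by ring
    rw [sub_zero, abs_of_pos (show 0 < 2 * π by positivity)] at h2
    have h3 := (Real.le_norm_self _).trans h2
    rw [hB, one_div, ← div_eq_inv_mul, div_le_iff₀ hpi]
    linarith
  obtain ⟨W, hWd, hW1, hW2, hW3, hW4⟩ := hWK (S.μ₁ j) hμ t B (fun n hn => by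
    rw [hB]
    exact Lg_coef ht hn)
  refine ⟨W, hWd, fun z hz => ?_, fun z hz => ?_⟩
  · refine (hW2 z hz).trans (le_of_eq ?_)
    rw [hB]
    have e1 : ∫ s in (0 : ℝ)..(2 * π),
        |S.UU j (zz 0 1 (S.μ₁ j) (exp (s * I))) * ‖g.eval (exp (s * I))‖ ^ 2 / S.d j|
        = ∫ s in (0 : ℝ)..(2 * π),
          |S.UU j (zz 0 1 (S.μ₁ j) (exp (s * I)))| * ‖g.eval (exp (s * I))‖ ^ 2 / S.d j := by
      refine intervalIntegral.integral_congr fun s _ => ?_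
      show |S.UU j (zz 0 1 (S.μ₁ j) (exp (s * I))) * ‖g.eval (exp (s * I))‖ ^ 2 / S.d j| = _
      rw [abs_div, abs_of_pos hd, abs_mul,
        abs_of_nonneg (show 0 ≤ ‖g.eval (exp (s * I))‖ ^ 2 by positivity)]
    rw [e1]
    ring
  · have hz3 : ‖z‖ ≤ 3 := by
      rcases hz with hz | hz
      · have hv1 : ‖vv 0 1 (S.μ₁ j) z‖ < 1 := hz
        have hzv : zz 0 1 (S.μ₁ j) (vv 0 1 (S.μ₁ j) z) = z := zz_vv one_pos hμ1 z
        rw [← hzv]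
        have e1 : zz 0 1 (S.μ₁ j) (vv 0 1 (S.μ₁ j) z)
            = vv 0 1 (S.μ₁ j) z + S.μ₁ j * conj (vv 0 1 (S.μ₁ j) z) := by
          unfold zz
          push_cast
          ring
        rw [e1]
        refine (norm_add_le _ _).trans ?_
        rw [norm_mul, Complex.norm_conj]
        have := norm_nonneg (vv 0 1 (S.μ₁ j) z)
        nlinarith
      · obtain ⟨r1, r2, r3⟩ := Lg_r₂ hS j
        have hμ2 : ‖S.μ₂ j‖ < 1 := (hS.m2 j).trans_lt h1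
        have hv1 : ‖vv (S.c₂ j) (S.r₂ j) (S.μ₂ j) z‖ < 1 := hz
        have hzv : zz (S.c₂ j) (S.r₂ j) (S.μ₂ j) (vv (S.c₂ j) (S.r₂ j) (S.μ₂ j) z) = z :=
          zz_vv r1 hμ2 z
        rw [← hzv]
        unfold zz
        have f1 := norm_add_le (S.c₂ j) ((S.r₂ j : ℂ) * (vv (S.c₂ j) (S.r₂ j) (S.μ₂ j) z
          + S.μ₂ j * conj (vv (S.c₂ j) (S.r₂ j) (S.μ₂ j) z)))
        have f2 := norm_add_le (vv (S.c₂ j) (S.r₂ j) (S.μ₂ j) z)
          (S.μ₂ j * conj (vv (S.c₂ j) (S.r₂ j) (S.μ₂ j) z))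
        rw [norm_mul (S.μ₂ j), Complex.norm_conj] at f2
        rw [norm_mul (S.r₂ j : ℂ), Complex.norm_real, Real.norm_eq_abs, abs_of_pos r1] at f1
        have f3 := norm_nonneg (vv (S.c₂ j) (S.r₂ j) (S.μ₂ j) z)
        have f4 := norm_nonneg (S.μ₂ j)
        have f5 : ‖vv (S.c₂ j) (S.r₂ j) (S.μ₂ j) z
            + S.μ₂ j * conj (vv (S.c₂ j) (S.r₂ j) (S.μ₂ j) z)‖ ≤ 2 := by nlinarith
        have f6 : S.r₂ j * ‖vv (S.c₂ j) (S.r₂ j) (S.μ₂ j) z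
            + S.μ₂ j * conj (vv (S.c₂ j) (S.r₂ j) (S.μ₂ j) z)‖ ≤ 101 / 100 * 2 :=
          mul_le_mul r2 f5 (norm_nonneg _) (by norm_num)
        linarith
    set v := vv 0 1 (S.μ₁ j) z with hv
    have hzv : zz 0 1 (S.μ₁ j) v = z := zz_vv one_pos hμ1 z
    have hvR : ‖v‖ ≤ R := by
      rw [hv, hR]
      unfold vv
      rw [norm_div, Complex.norm_real, Real.norm_eq_abs, sub_zero]
      have h4 : ‖z - S.μ₁ j * conj z‖ ≤ ‖z‖ + ‖S.μ₁ j‖ * ‖z‖ := by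
        refine (norm_sub_le _ _).trans ?_
        rw [norm_mul, Complex.norm_conj]
      have h5 : 0 < 1 * (1 - ‖S.μ₁ j‖ ^ 2) := by nlinarith
      rw [abs_of_pos h5, div_le_iff₀ h5, div_mul_eq_mul_div, le_div_iff₀ hm0]
      have h6 : ‖z - S.μ₁ j * conj z‖ ≤ 3 * (1 + ‖S.μ₁ j‖) := by nlinarith
      have h7 : ‖z - S.μ₁ j * conj z‖ * (1 - μ₀) ≤ 3 * (1 + ‖S.μ₁ j‖) * (1 - μ₀) :=
        mul_le_mul_of_nonneg_right h6 hm0.le
      have h8 : 3 * (1 + ‖S.μ₁ j‖) * (1 - μ₀) ≤ 3 * (1 + ‖S.μ₁ j‖) * (1 - ‖S.μ₁ j‖) :=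
        mul_le_mul_of_nonneg_left (by linarith) (by positivity)
      nlinarith
    obtain ⟨v', hv'1, hv'2⟩ := ngNear v
    have hv'R : ‖v'‖ ≤ R := by rw [hv'1]; exact hR1
    set z' := zz 0 1 (S.μ₁ j) v' with hz'
    set δ := ‖v - v'‖ with hδ
    have hδ0 : 0 ≤ δ := norm_nonneg _
    have hzz : ‖z - z'‖ ≤ 2 * δ := by
      have h4 : z - z' = (v - v') + S.μ₁ j * conj (v - v') := by
        rw [← hzv, hz']
        unfold zz
        rw [map_sub]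
        push_cast
        ring
      rw [h4]
      refine (norm_add_le _ _).trans ?_
      rw [norm_mul, Complex.norm_conj]
      nlinarith
    have hz'3 : ‖z'‖ ≤ 3 := hzz3 v' hv'1
    have F0 : (W z').re - S.UU j z' * ‖g.eval v'‖ ^ 2 / S.d j = 0 := by
      rw [hz', hW1 v' hv'1, ← ht.2 v' hv'1, sub_self]
    have k1 : |(W z).re - (W z').re| ≤ 4 * CK * CU * G ^ 2 * δ := by
      rw [← Complex.sub_re]
      refine (Complex.abs_re_le_norm _).trans ((hW4 z z' hz3 hz'3).trans ?_)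
      have a1 : CK * B * ‖z - z'‖ ≤ CK * (2 * CU * G ^ 2) * ‖z - z'‖ :=
        mul_le_mul_of_nonneg_right (mul_le_mul_of_nonneg_left hB2 hCK.le) (norm_nonneg _)
      have a2 : CK * (2 * CU * G ^ 2) * ‖z - z'‖ ≤ CK * (2 * CU * G ^ 2) * (2 * δ) :=
        mul_le_mul_of_nonneg_left hzz (by positivity)
      linarith
    obtain ⟨-, u2⟩ := hU hS j z z' hz3 hz'3
    obtain ⟨u1, -⟩ := hU hS j z' z hz'3 hz3
    have k2 : |S.UU j z - S.UU j z'| ≤ CU * S.d j * (2 * δ) :=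
      u2.trans (mul_le_mul_of_nonneg_left hzz (by positivity))
    have k3 := hg1 v hvR
    have k3' := hg1 v' hv'R
    have k4 : |‖g.eval v‖ ^ 2 - ‖g.eval v'‖ ^ 2| ≤ 2 * G * L * δ := by
      have h4 : ‖g.eval v‖ ^ 2 - ‖g.eval v'‖ ^ 2
          = (‖g.eval v‖ - ‖g.eval v'‖) * (‖g.eval v‖ + ‖g.eval v'‖) := by ring
      have h5 : |‖g.eval v‖ - ‖g.eval v'‖| ≤ L * δ :=
        (abs_norm_sub_norm_le _ _).trans (hg2 v v' hvR hv'R)
      have h6 : |‖g.eval v‖ + ‖g.eval v'‖| ≤ 2 * G := by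
        rw [abs_of_nonneg (by positivity)]
        linarith
      rw [h4, abs_mul]
      calc |‖g.eval v‖ - ‖g.eval v'‖| * |‖g.eval v‖ + ‖g.eval v'‖| ≤ (L * δ) * (2 * G) :=
            mul_le_mul h5 h6 (abs_nonneg _) (by positivity)
        _ = 2 * G * L * δ := by ring
    have k5 : |S.UU j z * ‖g.eval v‖ ^ 2 / S.d j - S.UU j z' * ‖g.eval v'‖ ^ 2 / S.d j|
        ≤ (2 * CU * G ^ 2 + 2 * CU * G * L) * δ := by
      have h4 : S.UU j z * ‖g.eval v‖ ^ 2 / S.d j - S.UU j z' * ‖g.eval v'‖ ^ 2 / S.d j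
          = ((S.UU j z - S.UU j z') * ‖g.eval v‖ ^ 2
            + S.UU j z' * (‖g.eval v‖ ^ 2 - ‖g.eval v'‖ ^ 2)) / S.d j := by ring
      rw [h4, abs_div, abs_of_pos hd, div_le_iff₀ hd]
      refine (abs_add_le _ _).trans ?_
      rw [abs_mul, abs_mul]
      have h5 : |S.UU j z - S.UU j z'| * |‖g.eval v‖ ^ 2| ≤ CU * S.d j * (2 * δ) * G ^ 2 := by
        refine mul_le_mul k2 ?_ (abs_nonneg _) (by positivity)
        rw [abs_of_nonneg (by positivity)]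
        exact pow_le_pow_left₀ (norm_nonneg _) k3 2
      have h6 : |S.UU j z'| * |‖g.eval v‖ ^ 2 - ‖g.eval v'‖ ^ 2|
          ≤ CU * S.d j * (2 * G * L * δ) :=
        mul_le_mul u1 k4 (abs_nonneg _) (by positivity)
      linarith
    have k6 : |(W z).re - S.UU j z * ‖g.eval v‖ ^ 2 / S.d j| ≤ D * δ := by
      have h4 : (W z).re - S.UU j z * ‖g.eval v‖ ^ 2 / S.d j
          = ((W z).re - (W z').re)
            - (S.UU j z * ‖g.eval v‖ ^ 2 / S.d j - S.UU j z' * ‖g.eval v'‖ ^ 2 / S.d j)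
            + ((W z').re - S.UU j z' * ‖g.eval v'‖ ^ 2 / S.d j) := by ring
      rw [h4, F0, add_zero, hD]
      have h5 := abs_sub ((W z).re - (W z').re)
        (S.UU j z * ‖g.eval v‖ ^ 2 / S.d j - S.UU j z' * ‖g.eval v'‖ ^ 2 / S.d j)
      linarith
    have k7 : κ * δ ≤ |QQ 0 1 (S.μ₁ j) z| := by
      have h4 : QQ 0 1 (S.μ₁ j) z = kap 1 (S.μ₁ j) * (‖v‖ ^ 2 - 1) := rfl
      have h5 : κ ≤ kap 1 (S.μ₁ j) := by
        unfold kap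
        rw [hκ, le_div_iff₀ (by positivity), one_pow, one_mul]
        have a1 : ‖S.μ₁ j‖ ^ 2 ≤ μ₀ ^ 2 := pow_le_pow_left₀ hμ0 hμ 2
        have a2 : (1 - μ₀ ^ 2) ^ 2 ≤ (1 - ‖S.μ₁ j‖ ^ 2) ^ 2 :=
          pow_le_pow_left₀ hm2.le (by linarith) 2
        have a3 : 1 + ‖S.μ₁ j‖ ^ 2 ≤ 2 := by nlinarith
        have a4 : (1 - μ₀ ^ 2) ^ 2 / 2 * (1 + ‖S.μ₁ j‖ ^ 2) ≤ (1 - μ₀ ^ 2) ^ 2 / 2 * 2 :=
          mul_le_mul_of_nonneg_left a3 (by positivity)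
        linarith
      have h6 : |QQ 0 1 (S.μ₁ j) z| = kap 1 (S.μ₁ j) * (|‖v‖ - 1| * (‖v‖ + 1)) := by
        have e1 : ‖v‖ ^ 2 - 1 = (‖v‖ - 1) * (‖v‖ + 1) := by ring
        rw [h4, e1, abs_mul, abs_mul, abs_of_nonneg (show 0 ≤ ‖v‖ + 1 by positivity),
          abs_of_nonneg (show 0 ≤ kap 1 (S.μ₁ j) by linarith)]
      rw [h6]
      have h7 : δ ≤ |‖v‖ - 1| * (‖v‖ + 1) := by
        have := norm_nonneg v
        nlinarith [abs_nonneg (‖v‖ - 1)]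
      exact mul_le_mul h5 h7 hδ0 (by linarith)
    calc |(W z).re - S.UU j z * ‖g.eval v‖ ^ 2 / S.d j| ≤ D * δ := k6
      _ = D / κ * (κ * δ) := by
          field_simp
      _ ≤ D / κ * |QQ 0 1 (S.μ₁ j) z| := mul_le_mul_of_nonneg_left k7 (by positivity)

end LD1
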