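import Pool.Agent.H1.LD.Ld
import Pool.Agent.H1.LD.Lg
import Pool.Agent.H1.ND.Nh

/-!
ROW LD/Lh. The first test, as an inequality for each `j` (compare `T1lim` in `ND/Nh.lean`). `A = m_j W`, `W` from `WseqG`. Real part of `SolG.idn`: `∫_{E₁}|m|² Re W - ∫_{E₂}|m|² Re W = -Re (RR₁ - RR₂)`; the left side is `(1/d) ∫_EE |UU| |m|² ‖g v‖²` up to `Cg ∫_EE |UU| |m|² = Cg d²` (`UU > 0` on `E₁ \ E₂`, `< 0` on `E₂ \ E₁`,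
`|QQ 0 1 μ₁| ≤ |UU|` on both; `SolG.nn`); the right side is at most `C SA SM d` (`RRd` with `r₀ = 1/2`, `R = 2`; `d j ≤ δ₁` for large `j`), `SA = SM C ∫...`. Divide by `d`.
-/

set_option autoImplicit false

namespace LD1

open Complex Set Filter Topology MeasureTheory EW1 EX1 ND1
open scoped ComplexConjugate ContDiff Real

private theorem Lh_r2 {S : Sq} {μ₀ : ℝ} {μ : ℂ} {a : ℝ} {γ β : ℂ} (hS : LimG S μ₀ μ a γ β) (j : ℕ) :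
    99 / 100 ≤ S.r₂ j ∧ S.r₂ j ≤ 101 / 100 ∧ ‖S.c₂ j‖ ≤ 1 / 100 := by
  have h := hS.small j
  unfold Sq.d dd at h
  rw [zero_sub, norm_neg] at h
  have h1 := norm_nonneg (S.c₂ j)
  have h2 := abs_nonneg (1 - S.r₂ j)
  have h3 := norm_nonneg (S.μ₁ j - S.μ₂ j)
  have h4 : |1 - S.r₂ j| ≤ 1 / 100 := by linarith
  obtain ⟨h5, h6⟩ := abs_le.1 h4
  exact ⟨by linarith, by linarith, by linarith⟩

private theorem Lh_EE {S : Sq} {μ₀ : ℝ} (hμ₀ : μ₀ < 1) {μ : ℂ} {a : ℝ} {γ β : ℂ} (hS : LimG S μ₀ μ a γ β) (j : ℕ) :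
    (∀ z ∈ S.E₁ 1 j \ S.E₂ 1 j, 0 ≤ S.UU j z ∧ |QQ 0 1 (S.μ₁ j) z| ≤ S.UU j z) ∧
    (∀ z ∈ S.E₂ 1 j \ S.E₁ 1 j, S.UU j z ≤ 0 ∧ |QQ 0 1 (S.μ₁ j) z| ≤ -S.UU j z) := by
  obtain ⟨hr0, -, -⟩ := Lh_r2 hS j
  have hr : 0 < S.r₂ j := by linarith
  have h1 : ‖S.μ₁ j‖ < 1 := (hS.m1 j).trans_lt hμ₀
  have h2 : ‖S.μ₂ j‖ < 1 := (hS.m2 j).trans_lt hμ₀
  refine ⟨fun z hz => ?_, fun z hz => ?_⟩
  · have e1 : QQ 0 1 (S.μ₁ j) z < 0 := (QQ_neg_iff one_pos h1 z).2 hz.1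
    have e2 : 0 ≤ QQ (S.c₂ j) (S.r₂ j) (S.μ₂ j) z := by
      by_contra hcon
      exact hz.2 ((QQ_neg_iff hr h2 z).1 (not_le.1 hcon))
    unfold Sq.UU
    rw [abs_of_neg e1]
    exact ⟨by linarith, by linarith⟩
  · have e1 : QQ (S.c₂ j) (S.r₂ j) (S.μ₂ j) z < 0 := (QQ_neg_iff hr h2 z).2 hz.1
    have e2 : 0 ≤ QQ 0 1 (S.μ₁ j) z := by
      by_contra hcon
      exact hz.2 ((QQ_neg_iff one_pos h1 z).1 (not_le.1 hcon))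
    unfold Sq.UU
    rw [abs_of_nonneg e2]
    exact ⟨by linarith, by linarith⟩

private theorem Lh_int {S : Sq} {μ₀ : ℝ} (hμ₀ : μ₀ < 1) {μ : ℂ} {a : ℝ} {γ β : ℂ} (hS : LimG S μ₀ μ a γ β) (j : ℕ) {N : Set ℂ} (h1 : S.K₁ j ⊆ N) (h2 : S.K₂ j ⊆ N)
    {E : Type*} [NormedAddCommGroup E] {f : ℂ → E} (hf : ContinuousOn f N) :
    IntegrableOn f (S.E₁ 1 j) ∧ IntegrableOn f (S.E₂ 1 j) := by
  obtain ⟨hr0, -, -⟩ := Lh_r2 hS j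
  have hr : 0 < S.r₂ j := by linarith
  have g1 : ‖S.μ₁ j‖ < 1 := (hS.m1 j).trans_lt hμ₀
  have g2 : ‖S.μ₂ j‖ < 1 := (hS.m2 j).trans_lt hμ₀
  refine ⟨?_, ?_⟩
  · have e1 : IntegrableOn f (S.K₁ j) := (hf.mono h1).integrableOn_compact (cDp_compact one_pos g1 1)
    refine e1.mono_set (fun z hz => ?_)
    have h3 : ‖vv 0 1 (S.μ₁ j) z‖ < 1 := hz
    exact h3.le
  · have e1 : IntegrableOn f (S.K₂ j) := (hf.mono h2).integrableOn_compact (cDp_compact hr g2 1)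
    refine e1.mono_set (fun z hz => ?_)
    have h3 : ‖vv (S.c₂ j) (S.r₂ j) (S.μ₂ j) z‖ < 1 := hz
    exact h3.le

private theorem Lh_diff {D₁ D₂ : Set ℂ} (hM1 : MeasurableSet D₁) (hM2 : MeasurableSet D₂) {f : ℂ → ℝ}
    (h1 : IntegrableOn f D₁) (h2 : IntegrableOn f D₂) :
    (∫ z in D₁, f z) - ∫ z in D₂, f z = (∫ z in D₁ \ D₂, f z) - ∫ z in D₂ \ D₁, f z := by
  have e1 := integral_inter_add_sdiff hM2 h1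
  have e2 := integral_inter_add_sdiff hM1 h2
  rw [Set.inter_comm] at e2
  linarith

private theorem Lh_un {D₁ D₂ : Set ℂ} (hM1 : MeasurableSet D₁) (hM2 : MeasurableSet D₂) {f : ℂ → ℝ}
    (h1 : IntegrableOn f D₁) (h2 : IntegrableOn f D₂) :
    ∫ z in (D₁ \ D₂) ∪ (D₂ \ D₁), f z = (∫ z in D₁ \ D₂, f z) + ∫ z in D₂ \ D₁, f z := by
  refine setIntegral_union ?_ (hM2.diff hM1) (h1.mono_set Set.sdiff_subset) (h2.mono_set Set.sdiff_subset)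
  exact Set.disjoint_left.2 fun z hz hz' => hz.2 hz'.1

private theorem Lh_UUc (S : Sq) (j : ℕ) : Continuous (fun z => S.UU j z) := by
  unfold Sq.UU
  exact (QQ_contDiff _ _ _).continuous.sub (QQ_contDiff _ _ _).continuous

private theorem Lh_main {S : Sq} {μ₀ ρ : ℝ} (hμ₀ : μ₀ < 1) {μ : ℂ} {a : ℝ} {γ β : ℂ} (hS : LimG S μ₀ μ a γ β) {l : ℕ → ℝ} {N : ℕ → Set ℂ} {m : ℕ → ℂ → ℂ}
    (hs : SolG S ρ l N m) {C : ℝ} (hC : 0 < C) (j : ℕ) {W : ℂ → ℂ} (hW : Differentiable ℂ W) {g : Polynomial ℂ}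
    (hb : ∀ z, z ∈ S.E₁ 1 j ∨ z ∈ S.E₂ 1 j → |(W z).re - S.UU j z * ‖g.eval (vv 0 1 (S.μ₁ j) z)‖ ^ 2 / S.d j| ≤ C * |QQ 0 1 (S.μ₁ j) z|) :
    |((∫ z in S.E₁ 1 j, ‖m j z‖ ^ 2 * (W z).re) - ∫ z in S.E₂ 1 j, ‖m j z‖ ^ 2 * (W z).re) -
      (∫ z in S.EE j, |S.UU j z| * ‖m j z‖ ^ 2 * ‖g.eval (vv 0 1 (S.μ₁ j) z)‖ ^ 2) / S.d j| ≤ C * S.d j ^ 2 := by
  have hd := hS.pos j
  have hmc : ContinuousOn (m j) (N j) := (hs.hol j).continuousOn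
  have hM1 : MeasurableSet (S.E₁ 1 j) := (Dp_open _ _ _ 1).measurableSet
  have hM2 : MeasurableSet (S.E₂ 1 j) := (Dp_open _ _ _ 1).measurableSet
  have hUc := Lh_UUc S j
  have hvc : Continuous (fun z => ‖g.eval (vv 0 1 (S.μ₁ j) z)‖ ^ 2) :=
    ((g.continuous.comp (vv_cont 0 1 (S.μ₁ j))).norm).pow 2
  have hm2 : ContinuousOn (fun z => ‖m j z‖ ^ 2) (N j) := hmc.norm.pow 2
  have hf1 : ContinuousOn (fun z => ‖m j z‖ ^ 2 * (W z).re) (N j) :=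
    hm2.mul (Complex.continuous_re.comp hW.continuous).continuousOn
  have hf2 : ContinuousOn (fun z => |S.UU j z| * ‖m j z‖ ^ 2 * ‖g.eval (vv 0 1 (S.μ₁ j) z)‖ ^ 2) (N j) :=
    (hUc.abs.continuousOn.mul hm2).mul hvc.continuousOn
  have hf3 : ContinuousOn (fun z => |S.UU j z| * ‖m j z‖ ^ 2) (N j) := hUc.abs.continuousOn.mul hm2
  obtain ⟨i1, i2⟩ := Lh_int hμ₀ hS j (hs.sub₁ j) (hs.sub₂ j) hf1
  obtain ⟨k1, k2⟩ := Lh_int hμ₀ hS j (hs.sub₁ j) (hs.sub₂ j) hf2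
  obtain ⟨n1, n2⟩ := Lh_int hμ₀ hS j (hs.sub₁ j) (hs.sub₂ j) hf3
  have i1' := i1.mono_set (Set.sdiff_subset (t := S.E₂ 1 j))
  have i2' := i2.mono_set (Set.sdiff_subset (t := S.E₁ 1 j))
  have k1' := k1.mono_set (Set.sdiff_subset (t := S.E₂ 1 j))
  have k2' := k2.mono_set (Set.sdiff_subset (t := S.E₁ 1 j))
  have n1' := n1.mono_set (Set.sdiff_subset (t := S.E₂ 1 j))
  have n2' := n2.mono_set (Set.sdiff_subset (t := S.E₁ 1 j))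
  have hNN : (∫ z in S.E₁ 1 j \ S.E₂ 1 j, |S.UU j z| * ‖m j z‖ ^ 2) +
      (∫ z in S.E₂ 1 j \ S.E₁ 1 j, |S.UU j z| * ‖m j z‖ ^ 2) = S.d j ^ 2 := by
    rw [← hs.nn j, ← Lh_un hM1 hM2 n1 n2]
    rfl
  have hEE : ∫ z in S.EE j, |S.UU j z| * ‖m j z‖ ^ 2 * ‖g.eval (vv 0 1 (S.μ₁ j) z)‖ ^ 2 =
      (∫ z in S.E₁ 1 j \ S.E₂ 1 j, |S.UU j z| * ‖m j z‖ ^ 2 * ‖g.eval (vv 0 1 (S.μ₁ j) z)‖ ^ 2) +
      ∫ z in S.E₂ 1 j \ S.E₁ 1 j, |S.UU j z| * ‖m j z‖ ^ 2 * ‖g.eval (vv 0 1 (S.μ₁ j) z)‖ ^ 2 :=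
    Lh_un hM1 hM2 k1 k2
  obtain ⟨s1, s2⟩ := Lh_EE hμ₀ hS j
  have key : ∀ z : ℂ, (z ∈ S.E₁ 1 j ∨ z ∈ S.E₂ 1 j) → |QQ 0 1 (S.μ₁ j) z| ≤ |S.UU j z| →
      |‖m j z‖ ^ 2 * ((W z).re - S.UU j z * ‖g.eval (vv 0 1 (S.μ₁ j) z)‖ ^ 2 / S.d j)| ≤
        C * (|S.UU j z| * ‖m j z‖ ^ 2) := by
    intro z hz2 hq
    rw [abs_mul, abs_of_nonneg (by positivity : (0 : ℝ) ≤ ‖m j z‖ ^ 2)]
    have e1 := (hb z hz2).trans (mul_le_mul_of_nonneg_left hq hC.le)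
    calc ‖m j z‖ ^ 2 * |(W z).re - S.UU j z * ‖g.eval (vv 0 1 (S.μ₁ j) z)‖ ^ 2 / S.d j| ≤
        ‖m j z‖ ^ 2 * (C * |S.UU j z|) := mul_le_mul_of_nonneg_left e1 (by positivity)
      _ = C * (|S.UU j z| * ‖m j z‖ ^ 2) := by ring
  have b1 : |(∫ z in S.E₁ 1 j \ S.E₂ 1 j, ‖m j z‖ ^ 2 * (W z).re) -
      (∫ z in S.E₁ 1 j \ S.E₂ 1 j, |S.UU j z| * ‖m j z‖ ^ 2 * ‖g.eval (vv 0 1 (S.μ₁ j) z)‖ ^ 2) / S.d j| ≤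
      C * ∫ z in S.E₁ 1 j \ S.E₂ 1 j, |S.UU j z| * ‖m j z‖ ^ 2 := by
    rw [← integral_div, ← integral_sub i1' (k1'.div_const _), ← integral_const_mul, ← Real.norm_eq_abs]
    refine norm_integral_le_of_norm_le (n1'.const_mul C) ?_
    refine (ae_restrict_iff' (hM1.diff hM2)).2 (Filter.Eventually.of_forall fun z hz => ?_)
    obtain ⟨t1, t2⟩ := s1 z hz
    have hz2 : z ∈ S.E₁ 1 j ∨ z ∈ S.E₂ 1 j := Or.inl hz.1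
    have t3 := key z hz2 (by rw [abs_of_nonneg t1]; exact t2)
    rw [Real.norm_eq_abs]
    refine le_of_eq_of_le ?_ t3
    congr 1
    rw [abs_of_nonneg t1]
    ring
  have b2 : |(∫ z in S.E₂ 1 j \ S.E₁ 1 j, ‖m j z‖ ^ 2 * (W z).re) +
      (∫ z in S.E₂ 1 j \ S.E₁ 1 j, |S.UU j z| * ‖m j z‖ ^ 2 * ‖g.eval (vv 0 1 (S.μ₁ j) z)‖ ^ 2) / S.d j| ≤
      C * ∫ z in S.E₂ 1 j \ S.E₁ 1 j, |S.UU j z| * ‖m j z‖ ^ 2 := by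
    rw [← integral_div, ← integral_add i2' (k2'.div_const _), ← integral_const_mul, ← Real.norm_eq_abs]
    refine norm_integral_le_of_norm_le (n2'.const_mul C) ?_
    refine (ae_restrict_iff' (hM2.diff hM1)).2 (Filter.Eventually.of_forall fun z hz => ?_)
    obtain ⟨t1, t2⟩ := s2 z hz
    have hz2 : z ∈ S.E₁ 1 j ∨ z ∈ S.E₂ 1 j := Or.inr hz.1
    have t3 := key z hz2 (by rw [abs_of_nonpos t1]; exact t2)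
    rw [Real.norm_eq_abs]
    refine le_of_eq_of_le ?_ t3
    congr 1
    rw [abs_of_nonpos t1]
    ring
  rw [Lh_diff hM1 hM2 i1 i2, hEE]
  generalize (∫ z in S.E₁ 1 j \ S.E₂ 1 j, ‖m j z‖ ^ 2 * (W z).re) = X₁ at b1 ⊢
  generalize (∫ z in S.E₂ 1 j \ S.E₁ 1 j, ‖m j z‖ ^ 2 * (W z).re) = X₂ at b2 ⊢
  generalize (∫ z in S.E₁ 1 j \ S.E₂ 1 j, |S.UU j z| * ‖m j z‖ ^ 2 * ‖g.eval (vv 0 1 (S.μ₁ j) z)‖ ^ 2) = Y₁ at b1 ⊢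
  generalize (∫ z in S.E₂ 1 j \ S.E₁ 1 j, |S.UU j z| * ‖m j z‖ ^ 2 * ‖g.eval (vv 0 1 (S.μ₁ j) z)‖ ^ 2) = Y₂ at b2 ⊢
  have e : X₁ - X₂ - (Y₁ + Y₂) / S.d j = (X₁ - Y₁ / S.d j) - (X₂ + Y₂ / S.d j) := by ring
  rw [e, ← hNN, mul_add]
  exact (abs_sub _ _).trans (add_le_add b1 b2)

private theorem Lh_re {S : Sq} {μ₀ ρ : ℝ} (hμ₀ : μ₀ < 1) {μ : ℂ} {a : ℝ} {γ β : ℂ} (hS : LimG S μ₀ μ a γ β) {l : ℕ → ℝ}
    {N : ℕ → Set ℂ} {m : ℕ → ℂ → ℂ} (hs : SolG S ρ l N m) (j : ℕ) {W : ℂ → ℂ} (hW : Differentiable ℂ W) :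
    (∫ z in S.E₁ 1 j, ‖m j z‖ ^ 2 * (W z).re) - ∫ z in S.E₂ 1 j, ‖m j z‖ ^ 2 * (W z).re =
      -(RR 0 1 (S.μ₁ j) (l j) (fun z => m j z * W z) (m j) ρ -
        RR (S.c₂ j) (S.r₂ j) (S.μ₂ j) (l j) (fun z => m j z * W z) (m j) ρ).re := by
  have hA : DifferentiableOn ℂ (fun z => m j z * W z) (N j) := (hs.hol j).mul hW.differentiableOn
  have hid := hs.idn j _ hA
  unfold Idn at hid
  have hmc : ContinuousOn (m j) (N j) := (hs.hol j).continuousOn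
  have hf : ContinuousOn (fun z => conj (m j z) * (m j z * W z)) (N j) :=
    (Complex.continuous_conj.comp_continuousOn hmc).mul hA.continuousOn
  obtain ⟨i1, i2⟩ := Lh_int hμ₀ hS j (hs.sub₁ j) (hs.sub₂ j) hf
  have hpt : ∀ z, (conj (m j z) * (m j z * W z)).re = ‖m j z‖ ^ 2 * (W z).re := by
    intro z
    have e : conj (m j z) * (m j z * W z) = ((‖m j z‖ ^ 2 : ℝ) : ℂ) * W z := by
      rw [← Complex.normSq_eq_norm_sq, ← Complex.mul_conj]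
      ring
    rw [e, Complex.re_ofReal_mul]
  have hr1 : ∫ z in S.E₁ 1 j, ‖m j z‖ ^ 2 * (W z).re = (∫ z in S.E₁ 1 j, conj (m j z) * (m j z * W z)).re := by
    have h3 := Complex.reCLM.integral_comp_comm i1
    rw [Complex.reCLM_apply] at h3
    rw [← h3]
    refine integral_congr_ae (Filter.Eventually.of_forall fun z => ?_)
    exact (hpt z).symm
  have hr2 : ∫ z in S.E₂ 1 j, ‖m j z‖ ^ 2 * (W z).re = (∫ z in S.E₂ 1 j, conj (m j z) * (m j z * W z)).re := by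
    have h3 := Complex.reCLM.integral_comp_comm i2
    rw [Complex.reCLM_apply] at h3
    rw [← h3]
    refine integral_congr_ae (Filter.Eventually.of_forall fun z => ?_)
    exact (hpt z).symm
  have hre := congrArg Complex.re hid
  rw [Complex.add_re, Complex.add_re] at hre
  rw [hr1, hr2, Complex.sub_re]
  unfold Sq.E₁ Sq.E₂
  linarith

theorem T1b {μ₀ ρ σ : ℝ} (h0 : 0 ≤ μ₀) (h1 : μ₀ < ρ ^ 2) (hρ : 0 < ρ) (hρ1 : ρ < 1) (hσ : (ρ ^ 2 + μ₀) / (ρ * (1 + μ₀)) < σ) (hσ1 : σ < 1) :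
    ∃ C : ℝ, 0 < C ∧ ∀ {S : Sq} {μ : ℂ} {a : ℝ} {γ β : ℂ}, LimG S μ₀ μ a γ β → ∀ {l : ℕ → ℝ} {N : ℕ → Set ℂ} {m : ℕ → ℂ → ℂ},
    (∀ j, |l j| ≤ 1) → SolG S ρ l N m → ∀ g : Polynomial ℂ, ∃ Cg : ℝ, ∀ᶠ j in atTop, ∀ SM : ℝ, (∀ z ∈ S.E₁ σ j, ‖m j z‖ ≤ SM) →
      (∫ z in S.EE j, |S.UU j z| * ‖m j z‖ ^ 2 * ‖g.eval (vv 0 1 (S.μ₁ j) z)‖ ^ 2) / S.d j ^ 2 ≤
        C * SM ^ 2 * (∫ t in (0 : ℝ)..(2 * π), |S.UU j (zz 0 1 (S.μ₁ j) (exp (t * I)))| * ‖g.eval (exp (t * I))‖ ^ 2 / S.d j) +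
          Cg * S.d j := by
  have hμ₀ : μ₀ < 1 := by nlinarith
  have hσ0 : 0 < σ := by
    refine lt_trans ?_ hσ
    positivity
  obtain ⟨C₁, hC₁, hW⟩ := WseqG (μ₀ := μ₀) (σ := σ) h0 hμ₀ hσ0 hσ1
  obtain ⟨C₀, δ₁, hC₀, hδ₁, hR⟩ := RRd (r₀ := 1 / 2) (R := 2) (by norm_num) (by norm_num) h0 h1 hρ hρ1 hσ
  refine ⟨C₀ * C₁, mul_pos hC₀ hC₁, ?_⟩
  intro S μ a γ β hS l N m hl hs g
  obtain ⟨Cg, hCg, hWj⟩ := hW hS g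
  refine ⟨Cg, ?_⟩
  have hev : ∀ᶠ j in atTop, S.d j ≤ δ₁ := by
    filter_upwards [hS.ld.eventually (gt_mem_nhds hδ₁)] with j hj
    exact hj.le
  filter_upwards [hev] with j hj SM hSM
  obtain ⟨W, hWd, hWb, hWq⟩ := hWj j
  have hd := hS.pos j
  obtain ⟨r1, r2, r3⟩ := Lh_r2 hS j
  have h3 := Lh_main hμ₀ hS hs hCg j hWd hWq
  have h4 := Lh_re hμ₀ hS hs j hWd
  obtain ⟨J, hJ⟩ : ∃ J : ℝ, J = ∫ t in (0 : ℝ)..(2 * π), |S.UU j (zz 0 1 (S.μ₁ j) (exp (t * I)))| *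
    ‖g.eval (exp (t * I))‖ ^ 2 / S.d j := ⟨_, rfl⟩
  rw [← hJ] at hWb ⊢
  have hsub : Dp 0 1 (S.μ₁ j) σ ⊆ N j := by
    intro z hz
    apply hs.sub₁ j
    have hz1 : ‖vv 0 1 (S.μ₁ j) z‖ < σ := hz
    exact (hz1.trans hσ1).le
  have h5 := hR 0 1 (S.μ₁ j) (S.c₂ j) (S.r₂ j) (S.μ₂ j)
    ⟨by rw [norm_zero]; norm_num, by norm_num, by norm_num, hS.m1 j⟩
    ⟨by linarith, by linarith, by linarith, hS.m2 j⟩ hj (l j) (hl j) (fun z => m j z * W z) (m j)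
    (SM * (C₁ * J)) SM (((hs.hol j).mul hWd.differentiableOn).mono hsub) ((hs.hol j).mono hsub)
    (by
      intro z hz
      rw [norm_mul]
      exact mul_le_mul (hSM z hz) (hWb z hz) (norm_nonneg _) ((norm_nonneg _).trans (hSM z hz)))
    hSM
  have h6 := Complex.abs_re_le_norm (RR 0 1 (S.μ₁ j) (l j) (fun z => m j z * W z) (m j) ρ -
        RR (S.c₂ j) (S.r₂ j) (S.μ₂ j) (l j) (fun z => m j z * W z) (m j) ρ)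
  have h7 := (neg_le_abs _).trans (h6.trans h5)
  rw [← h4] at h7
  have hdd : dd 0 1 (S.μ₁ j) (S.c₂ j) (S.r₂ j) (S.μ₂ j) = S.d j := rfl
  rw [hdd] at h7
  obtain ⟨X, hX⟩ : ∃ X : ℝ, X = (∫ z in S.E₁ 1 j, ‖m j z‖ ^ 2 * (W z).re) -
    ∫ z in S.E₂ 1 j, ‖m j z‖ ^ 2 * (W z).re := ⟨_, rfl⟩
  obtain ⟨Y, hY⟩ : ∃ Y : ℝ, Y = ∫ z in S.EE j, |S.UU j z| * ‖m j z‖ ^ 2 *
    ‖g.eval (vv 0 1 (S.μ₁ j) z)‖ ^ 2 := ⟨_, rfl⟩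
  rw [← hX] at h3 h7
  rw [← hY] at h3 ⊢
  have h8 : Y / S.d j ≤ X + Cg * S.d j ^ 2 := by
    have := (abs_le.1 h3).1
    linarith
  have h9 : Y / S.d j ^ 2 = (Y / S.d j) / S.d j := by
    field_simp
  rw [h9, div_le_iff₀ hd]
  calc Y / S.d j ≤ C₀ * (SM * (C₁ * J)) * SM * S.d j + Cg * S.d j ^ 2 := by linarith
    _ = (C₀ * C₁ * SM ^ 2 * J + Cg * S.d j) * S.d j := by ring

end LD1
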