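import Pool.Agent.H1.LD.Lb
import Pool.Agent.H1.LD.Le
import Pool.Agent.H1.ND.Nj

/-!
ROW LD/Li. The second moment (compare the proof of `Pineq` in `ND/Nj.lean`). `∫_EE |UU| m² ‖g v‖² = ∫_{E₁} m² UU ‖g v‖² - ∫_{E₂} m² UU ‖g v‖²` (`UU > 0` on `E₁ \ E₂`, `< 0` on `E₂ \ E₁`). `v = vv 0 1 μ₁ z = (z - μ₁ conj z)/(1-‖μ₁‖²)`, so `UU ‖g v‖²/d` is a polynomial in `z`, `conj z` with convergent coefficients (`colimG`);
`E1G` for `m_j² z^k` (`LBG.mul`, `LBG.const`), finite sums: the limit is `-∫ Uw m₀(z)² ψ`, `ψ` = the limit polynomial with `z = zw μ w`, `conj z` replaced by `zs μ w`: `vv` becomes `(zw - μ zs)/(1-x) = w`, its conjugate `1/w`, so `ψ = q(w) g(w) gs g w`, where `q` is the limit of `UU/d`, a Laurent polynomial equal to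
`-2 (1-x)/(1+x) Uw` on the unit circle (`colimG`, last claim), so everywhere.
-/

set_option autoImplicit false

namespace LD1

open Complex Set Filter Topology MeasureTheory EW1 EX1 ND1
open scoped ComplexConjugate ContDiff Real

theorem Li_lt {μ₀ ρ : ℝ} (h1 : μ₀ < ρ ^ 2) (hρ : 0 < ρ) (hρ1 : ρ < 1) : μ₀ < 1 := by nlinarith

theorem Li_mu {μ₀ : ℝ} {S : Sq} {μ : ℂ} {a : ℝ} {γ β : ℂ} (hS : LimG S μ₀ μ a γ β) : ‖μ‖ ≤ μ₀ :=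
  le_of_tendsto hS.lm1.norm (Eventually.of_forall hS.m1)

theorem Li_r2 {μ₀ : ℝ} {S : Sq} {μ : ℂ} {a : ℝ} {γ β : ℂ} (hS : LimG S μ₀ μ a γ β) (j : ℕ) : 0 < S.r₂ j := by
  have h1 := hS.small j
  unfold Sq.d dd at h1
  have h2 : |1 - S.r₂ j| ≤ 1 / 100 := by
    have := norm_nonneg (0 - S.c₂ j)
    have := norm_nonneg (S.μ₁ j - S.μ₂ j)
    linarith
  have := (abs_le.1 h2).2
  linarith

theorem Li_int1 {μ₀ : ℝ} (hμ₀ : μ₀ < 1) {S : Sq} {μ : ℂ} {a : ℝ} {γ β : ℂ} (hS : LimG S μ₀ μ a γ β) {F : ℕ → ℂ → ℂ} {F₀ : ℂ → ℂ}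
    (hF : LBG S μ F F₀) {g : ℂ → ℂ} (hg : Continuous g) (j : ℕ) : IntegrableOn (fun z => F j z * g z) (S.E₁ 1 j) := by
  obtain ⟨N, hN, h1, h2, h3⟩ := hF.hol j
  exact Nj_int one_pos ((hS.m1 j).trans_lt hμ₀) h1 (h3.continuousOn.mul hg.continuousOn)

theorem Li_int2 {μ₀ : ℝ} (hμ₀ : μ₀ < 1) {S : Sq} {μ : ℂ} {a : ℝ} {γ β : ℂ} (hS : LimG S μ₀ μ a γ β) {F : ℕ → ℂ → ℂ} {F₀ : ℂ → ℂ}
    (hF : LBG S μ F F₀) {g : ℂ → ℂ} (hg : Continuous g) (j : ℕ) : IntegrableOn (fun z => F j z * g z) (S.E₂ 1 j) := by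
  obtain ⟨N, hN, h1, h2, h3⟩ := hF.hol j
  exact Nj_int (Li_r2 hS j) ((hS.m2 j).trans_lt hμ₀) h2 (h3.continuousOn.mul hg.continuousOn)

theorem Li_pr_ne {ρ : ℝ} (hρ : 0 < ρ) (t : ℝ) : pr ρ t ≠ 0 := by
  unfold pr
  exact mul_ne_zero (by exact_mod_cast hρ.ne') (Complex.exp_ne_zero _)

theorem Li_pr_norm {ρ : ℝ} (hρ : 0 < ρ) (t : ℝ) : ‖pr ρ t‖ = ρ := by
  unfold pr
  rw [norm_mul, Complex.norm_exp_ofReal_mul_I, mul_one, Complex.norm_real, Real.norm_of_nonneg hρ.le]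

theorem Li_pr_cont (ρ : ℝ) : Continuous (pr ρ) := by
  unfold pr
  fun_prop

theorem Li_zw_cont {ρ : ℝ} (hρ : 0 < ρ) (μ : ℂ) : Continuous fun t => zw μ (pr ρ t) := by
  unfold zw
  exact (Li_pr_cont ρ).add (continuous_const.mul ((Li_pr_cont ρ).inv₀ (Li_pr_ne hρ)))

theorem Li_zs_cont {ρ : ℝ} (hρ : 0 < ρ) (μ : ℂ) : Continuous fun t => zs μ (pr ρ t) := by
  unfold zs
  exact ((Li_pr_cont ρ).inv₀ (Li_pr_ne hρ)).add (continuous_const.mul (Li_pr_cont ρ))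

theorem Li_Uw_cont {ρ : ℝ} (hρ : 0 < ρ) (μ : ℂ) (a : ℝ) (γ β : ℂ) : Continuous fun t => Uw μ a γ β (pr ρ t) := by
  unfold Uw
  have h1 := Li_pr_cont ρ
  have h2 := (Li_pr_cont ρ).inv₀ (Li_pr_ne hρ)
  exact ((((continuous_const.mul (h1.pow 2)).add (continuous_const.mul h1)).add continuous_const).add
    (continuous_const.mul h2)).add (continuous_const.mul (h2.pow 2))

theorem Li_zw_mem {μ₀ ρ : ℝ} (h0 : 0 ≤ μ₀) (h1 : μ₀ < ρ ^ 2) (hρ : 0 < ρ) (hρ1 : ρ < 1) {μ : ℂ} (hμ : ‖μ‖ ≤ μ₀) (t : ℝ) :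
    zw μ (pr ρ t) ∈ Dp 0 1 μ 1 := by
  have h2 := crv h0 h1 hρ hρ1 (c := 0) (r := 1) one_pos hμ (Li_pr_norm hρ t)
  have h3 : (ρ ^ 2 + μ₀) / (ρ * (1 + μ₀)) < 1 := by
    have h5 : μ₀ < ρ := by nlinarith
    rw [div_lt_one (by positivity)]
    nlinarith [mul_pos (sub_pos.2 hρ1) (sub_pos.2 h5)]
  have h4 : (0 : ℂ) + ((1 : ℝ) : ℂ) * (pr ρ t + μ * (pr ρ t)⁻¹) = zw μ (pr ρ t) := by
    unfold zw
    push_cast
    ring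
  rw [h4] at h2
  exact h2.trans_lt h3

theorem Li_cont {μ₀ ρ : ℝ} (h0 : 0 ≤ μ₀) (h1 : μ₀ < ρ ^ 2) (hρ : 0 < ρ) (hρ1 : ρ < 1) {μ : ℂ} (hμ : ‖μ‖ ≤ μ₀) {F₀ : ℂ → ℂ}
    (h : DifferentiableOn ℂ F₀ (Dp 0 1 μ 1)) : Continuous fun t => F₀ (zw μ (pr ρ t)) :=
  h.continuousOn.comp_continuous (Li_zw_cont hρ μ) (Li_zw_mem h0 h1 hρ hρ1 hμ)

theorem Li_E1k {μ₀ ρ : ℝ} (h0 : 0 ≤ μ₀) (h1 : μ₀ < ρ ^ 2) (hρ : 0 < ρ) (hρ1 : ρ < 1) {S : Sq} {μ : ℂ} {a : ℝ} {γ β : ℂ}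
    (hS : LimG S μ₀ μ a γ β) {F : ℕ → ℂ → ℂ} {F₀ : ℂ → ℂ} (hF : LBG S μ F F₀) (k b : ℕ) :
    Tendsto (fun j => ((∫ z in S.E₂ 1 j, F j z * (z ^ k * conj z ^ b)) - ∫ z in S.E₁ 1 j, F j z * (z ^ k * conj z ^ b)) /
      (S.d j : ℂ)) atTop
      (𝓝 (∫ t in (0 : ℝ)..(2 * π), Uw μ a γ β (pr ρ t) * F₀ (zw μ (pr ρ t)) * (zw μ (pr ρ t) ^ k * zs μ (pr ρ t) ^ b))) := by
  have h2 := E1G h0 h1 hρ hρ1 hS (hF.mul (LBG.const (Li_lt h1 hρ hρ1) hS (f := fun z => z ^ k) (differentiable_id.pow k))) b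
  simp only [mul_assoc] at h2 ⊢
  exact h2

theorem Li_Plim {μ₀ ρ : ℝ} (h0 : 0 ≤ μ₀) (h1 : μ₀ < ρ ^ 2) (hρ : 0 < ρ) (hρ1 : ρ < 1) {S : Sq} {μ : ℂ} {a : ℝ} {γ β : ℂ}
    (hS : LimG S μ₀ μ a γ β) {F : ℕ → ℂ → ℂ} {F₀ : ℂ → ℂ} (hF : LBG S μ F F₀)
    {G : ℕ → ℂ → ℂ} {G₀ : ℂ → ℂ → ℂ} (hG : Nj_PC G G₀) :
    Tendsto (fun j => ((∫ z in S.E₂ 1 j, F j z * G j z) - ∫ z in S.E₁ 1 j, F j z * G j z) / (S.d j : ℂ)) atTop
      (𝓝 (∫ t in (0 : ℝ)..(2 * π), Uw μ a γ β (pr ρ t) * F₀ (zw μ (pr ρ t)) * G₀ (zw μ (pr ρ t)) (zs μ (pr ρ t)))) := by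
  obtain ⟨ι, _, c, c₀, k, b, g1, g2, g3⟩ := hG
  have hμ₀ := Li_lt h1 hρ hρ1
  have hcg : ∀ i : ι, Continuous fun z : ℂ => z ^ k i * conj z ^ b i := fun i =>
    (continuous_id.pow _).mul (Complex.continuous_conj.pow _)
  have e1 : ∀ j, (∫ z in S.E₁ 1 j, F j z * G j z) = ∑ i, c j i * ∫ z in S.E₁ 1 j, F j z * (z ^ k i * conj z ^ b i) := by
    intro j
    have : ∀ z, F j z * G j z = ∑ i, c j i * (F j z * (z ^ k i * conj z ^ b i)) := fun z => by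
      rw [g2, Finset.mul_sum]
      exact Finset.sum_congr rfl fun i _ => by ring
    simp only [this]
    rw [integral_finsetSum _ fun i _ => (Li_int1 hμ₀ hS hF (hcg i) j).const_mul (c j i)]
    exact Finset.sum_congr rfl fun i _ => integral_const_mul _ _
  have e2 : ∀ j, (∫ z in S.E₂ 1 j, F j z * G j z) = ∑ i, c j i * ∫ z in S.E₂ 1 j, F j z * (z ^ k i * conj z ^ b i) := by
    intro j
    have : ∀ z, F j z * G j z = ∑ i, c j i * (F j z * (z ^ k i * conj z ^ b i)) := fun z => by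
      rw [g2, Finset.mul_sum]
      exact Finset.sum_congr rfl fun i _ => by ring
    simp only [this]
    rw [integral_finsetSum _ fun i _ => (Li_int2 hμ₀ hS hF (hcg i) j).const_mul (c j i)]
    exact Finset.sum_congr rfl fun i _ => integral_const_mul _ _
  have e3 : (∫ t in (0 : ℝ)..(2 * π), Uw μ a γ β (pr ρ t) * F₀ (zw μ (pr ρ t)) * G₀ (zw μ (pr ρ t)) (zs μ (pr ρ t))) =
      ∑ i, c₀ i * ∫ t in (0 : ℝ)..(2 * π), Uw μ a γ β (pr ρ t) * F₀ (zw μ (pr ρ t)) *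
        (zw μ (pr ρ t) ^ k i * zs μ (pr ρ t) ^ b i) := by
    have hci : ∀ i, Continuous fun t => c₀ i * (Uw μ a γ β (pr ρ t) * F₀ (zw μ (pr ρ t)) *
        (zw μ (pr ρ t) ^ k i * zs μ (pr ρ t) ^ b i)) :=
      fun i => (((Li_Uw_cont hρ μ a γ β).mul (Li_cont h0 h1 hρ hρ1 (Li_mu hS) hF.hol0)).mul
        (((Li_zw_cont hρ μ).pow _).mul ((Li_zs_cont hρ μ).pow _))).const_mul _
    have : ∀ t, Uw μ a γ β (pr ρ t) * F₀ (zw μ (pr ρ t)) * G₀ (zw μ (pr ρ t)) (zs μ (pr ρ t)) =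
        ∑ i, c₀ i * (Uw μ a γ β (pr ρ t) * F₀ (zw μ (pr ρ t)) * (zw μ (pr ρ t) ^ k i * zs μ (pr ρ t) ^ b i)) := fun t => by
      rw [g3, Finset.mul_sum]
      exact Finset.sum_congr rfl fun i _ => by ring
    simp only [this]
    rw [intervalIntegral.integral_finsetSum fun i _ => (hci i).intervalIntegrable _ _]
    exact Finset.sum_congr rfl fun i _ => intervalIntegral.integral_const_mul _ _
  rw [e3]
  refine (tendsto_finsetSum _ fun i _ => (g1 i).mul (Li_E1k h0 h1 hρ hρ1 hS hF (k i) (b i))).congr fun j => ?_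
  rw [e1, e2, ← Finset.sum_sub_distrib, Finset.sum_div]
  refine Finset.sum_congr rfl fun i _ => ?_
  ring

theorem Li_UUd {μ₀ : ℝ} (h0 : 0 ≤ μ₀) (hμ₀ : μ₀ < 1) {S : Sq} {μ : ℂ} {a : ℝ} {γ β : ℂ} (hS : LimG S μ₀ μ a γ β) :
    ∃ (n₀ g₀ : ℂ) (h₀ : ℝ), Nj_PC (fun j z => ((S.UU j z / S.d j : ℝ) : ℂ))
      (fun z w => -(conj n₀ * z ^ 2 + n₀ * w ^ 2) - (g₀ * z + conj g₀ * w) + (h₀ : ℂ)) ∧
    ∀ v : ℂ, ‖v‖ = 1 → -2 * (conj n₀ * zz 0 1 μ v ^ 2).re - 2 * (g₀ * zz 0 1 μ v).re + h₀ =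
      -2 * ((1 - ‖μ‖ ^ 2) / (1 + ‖μ‖ ^ 2)) * (Uw μ a γ β v).re := by
  obtain ⟨n₀, g₀, h₀, h1, h2, h3, h4⟩ := colimG h0 hμ₀ hS
  refine ⟨n₀, g₀, h₀, ?_, h4⟩
  have h1' : Tendsto (fun j => conj ((nu (S.μ₂ j) - nu (S.μ₁ j)) / (S.d j : ℂ))) atTop (𝓝 (conj n₀)) :=
    (Complex.continuous_conj.tendsto n₀).comp h1
  have h2' : Tendsto (fun j => conj ((gg (S.c₂ j) (S.μ₂ j) - gg 0 (S.μ₁ j)) / (S.d j : ℂ))) atTop (𝓝 (conj g₀)) :=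
    (Complex.continuous_conj.tendsto g₀).comp h2
  have h3' : Tendsto (fun j => (((hh (S.c₂ j) (S.r₂ j) (S.μ₂ j) - hh 0 1 (S.μ₁ j)) / S.d j : ℝ) : ℂ)) atTop
      (𝓝 ((h₀ : ℝ) : ℂ)) := (Complex.continuous_ofReal.tendsto _).comp h3
  have k2 : Tendsto (fun _ : ℕ => (-1 : ℂ)) atTop (𝓝 (-1)) := tendsto_const_nhds
  have hm : Nj_PC (fun _ _ => (-1 : ℂ)) (fun _ _ => (-1 : ℂ)) := Nj_PC.const k2
  have hp := ((((hm.mul ((Nj_PC.const h1').mul (Nj_PC.id.pow 2))).add (hm.mul ((Nj_PC.const h1).mul (Nj_PC.cj.pow 2)))).add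
    (hm.mul ((Nj_PC.const h2).mul Nj_PC.id))).add (hm.mul ((Nj_PC.const h2').mul Nj_PC.cj))).add (Nj_PC.const h3')
  obtain ⟨ι, _, c, c₀, k, b, e1, e2, e3⟩ := hp
  refine ⟨ι, inferInstance, c, c₀, k, b, e1, fun j z => ?_, fun z w => ?_⟩
  · rw [← e2]
    have hd : (S.d j : ℂ) ≠ 0 := by exact_mod_cast (hS.pos j).ne'
    have hU : (S.UU j z : ℂ) = (aa 0 1 (S.μ₁ j) (S.c₂ j) (S.r₂ j) (S.μ₂ j) z +
        conj (aa 0 1 (S.μ₁ j) (S.c₂ j) (S.r₂ j) (S.μ₂ j) z)) / 2 := by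
      unfold Sq.UU
      rw [← aa_re one_pos (Li_r2 hS j) ((hS.m1 j).trans_lt hμ₀) ((hS.m2 j).trans_lt hμ₀), Complex.re_eq_add_conj]
    simp only
    rw [Complex.ofReal_div, hU]
    unfold aa
    simp only [map_add, map_sub, map_neg, map_mul, map_pow, map_div₀, Complex.conj_conj, Complex.conj_ofReal,
      Complex.ofReal_div, Complex.ofReal_sub, map_ofNat]
    field_simp
    ring
  · rw [← e3]
    ring

theorem Li_vv {μ₀ : ℝ} (hμ₀ : μ₀ < 1) {S : Sq} {μ : ℂ} {a : ℝ} {γ β : ℂ} (hS : LimG S μ₀ μ a γ β) :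
    Nj_PC (fun j z => vv 0 1 (S.μ₁ j) z) (fun z w => (z - μ * w) * (((1 * (1 - ‖μ‖ ^ 2) : ℝ) : ℂ))⁻¹) ∧
    Nj_PC (fun j z => conj (vv 0 1 (S.μ₁ j) z)) (fun z w => (w - conj μ * z) * (((1 * (1 - ‖μ‖ ^ 2) : ℝ) : ℂ))⁻¹) := by
  have hx : ‖μ‖ < 1 := (Li_mu hS).trans_lt hμ₀
  have hx' : (1 * (1 - ‖μ‖ ^ 2) : ℝ) ≠ 0 := by
    have := norm_nonneg μ
    have : 0 < 1 * (1 - ‖μ‖ ^ 2) := by nlinarith
    exact this.ne'
  have k1 : Tendsto (fun j => (((1 * (1 - ‖S.μ₁ j‖ ^ 2) : ℝ) : ℂ))⁻¹) atTop (𝓝 (((1 * (1 - ‖μ‖ ^ 2) : ℝ) : ℂ))⁻¹) := by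
    have h1 : Tendsto (fun j => ((1 * (1 - ‖S.μ₁ j‖ ^ 2) : ℝ))) atTop (𝓝 (1 * (1 - ‖μ‖ ^ 2))) :=
      ((hS.lm1.norm.pow 2).const_sub 1).const_mul 1
    exact ((Complex.continuous_ofReal.tendsto _).comp h1).inv₀ (by exact_mod_cast hx')
  have k2 : Tendsto (fun j => -S.μ₁ j) atTop (𝓝 (-μ)) := hS.lm1.neg
  have k3 : Tendsto (fun j => -conj (S.μ₁ j)) atTop (𝓝 (-conj μ)) :=
    ((Complex.continuous_conj.tendsto μ).comp hS.lm1).neg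
  refine ⟨?_, ?_⟩
  · have hp := (Nj_PC.id.add ((Nj_PC.const k2).mul Nj_PC.cj)).mul (Nj_PC.const k1)
    obtain ⟨ι, _, c, c₀, k, b, e1, e2, e3⟩ := hp
    refine ⟨ι, inferInstance, c, c₀, k, b, e1, fun j z => ?_, fun z w => ?_⟩
    · rw [← e2]
      unfold vv
      simp only [sub_zero]
      rw [div_eq_mul_inv]
      ring
    · rw [← e3]
      ring
  · have hp := (Nj_PC.cj.add ((Nj_PC.const k3).mul Nj_PC.id)).mul (Nj_PC.const k1)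
    obtain ⟨ι, _, c, c₀, k, b, e1, e2, e3⟩ := hp
    refine ⟨ι, inferInstance, c, c₀, k, b, e1, fun j z => ?_, fun z w => ?_⟩
    · rw [← e2]
      unfold vv
      simp only [sub_zero]
      rw [map_div₀, Complex.conj_ofReal, map_sub, map_mul, Complex.conj_conj, div_eq_mul_inv]
      ring
    · rw [← e3]
      ring

theorem Li_inf : Set.Infinite {v : ℂ | ‖v‖ = 1} := by
  have h1 : IsPreconnected (Metric.sphere (0 : ℂ) 1) :=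
    isPreconnected_sphere (by rw [Complex.rank_real_complex]; norm_num) 0 1
  have h2 : (Metric.sphere (0 : ℂ) 1).Nontrivial :=
    ⟨1, by simp, -1, by simp, by norm_num⟩
  have h3 := h1.infinite_of_nontrivial h2
  refine h3.mono fun v hv => ?_
  simpa using hv

/-- the limit of `UU/d` on the continued curve -/
theorem Li_laurent {μ n₀ g₀ : ℂ} {h₀ : ℝ} {a : ℝ} {γ β : ℂ}
    (h : ∀ v : ℂ, ‖v‖ = 1 → -2 * (conj n₀ * zz 0 1 μ v ^ 2).re - 2 * (g₀ * zz 0 1 μ v).re + h₀ =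
      -2 * ((1 - ‖μ‖ ^ 2) / (1 + ‖μ‖ ^ 2)) * (Uw μ a γ β v).re) {w : ℂ} (hw : w ≠ 0) :
    -(conj n₀ * zw μ w ^ 2 + n₀ * zs μ w ^ 2) - (g₀ * zw μ w + conj g₀ * zs μ w) + (h₀ : ℂ) =
      -((2 * ((1 - ‖μ‖ ^ 2) / (1 + ‖μ‖ ^ 2)) : ℝ) : ℂ) * Uw μ a γ β w := by
  obtain ⟨K, hK⟩ : ∃ K : ℝ, K = 2 * ((1 - ‖μ‖ ^ 2) / (1 + ‖μ‖ ^ 2)) := ⟨_, rfl⟩
  obtain ⟨c, hc⟩ : ∃ c : ℝ, c = a * (1 - ‖μ‖ ^ 2) - (conj μ * β).re := ⟨_, rfl⟩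
  rw [← hK]
  have hcirc : ∀ v : ℂ, ‖v‖ = 1 → -(conj n₀ * zw μ v ^ 2 + n₀ * zs μ v ^ 2) - (g₀ * zw μ v + conj g₀ * zs μ v) + (h₀ : ℂ) =
      -(K : ℂ) * Uw μ a γ β v := by
    intro v hv
    have hv' : conj v = v⁻¹ := by
      rw [Complex.inv_def, Complex.normSq_eq_norm_sq, hv]
      simp
    have hz : zz 0 1 μ v = zw μ v := by
      unfold zz zw
      rw [hv']
      push_cast
      ring
    have hzc : conj (zw μ v) = zs μ v := by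
      rw [← hz]
      unfold zz zs
      simp only [map_add, map_mul, map_zero, Complex.conj_ofReal, Complex.conj_conj, hv', map_inv₀, inv_inv]
      push_cast
      ring
    have h1 := h v hv
    rw [hz] at h1
    have h2 : ((-2 * (conj n₀ * zw μ v ^ 2).re - 2 * (g₀ * zw μ v).re + h₀ : ℝ) : ℂ) =
        ((-2 * ((1 - ‖μ‖ ^ 2) / (1 + ‖μ‖ ^ 2)) * (Uw μ a γ β v).re : ℝ) : ℂ) := by rw [h1]
    have h3 : ((Uw μ a γ β v).re : ℂ) = Uw μ a γ β v := by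
      apply Complex.ext
      · simp
      · simp [Uw_im hv]
    have h4 : ((-2 * ((1 - ‖μ‖ ^ 2) / (1 + ‖μ‖ ^ 2)) * (Uw μ a γ β v).re : ℝ) : ℂ) = -(K : ℂ) * Uw μ a γ β v := by
      rw [show (-2 * ((1 - ‖μ‖ ^ 2) / (1 + ‖μ‖ ^ 2)) * (Uw μ a γ β v).re : ℝ) = -K * (Uw μ a γ β v).re by rw [hK]; ring,
        Complex.ofReal_mul, h3]
      push_cast
      ring
    rw [← h4, ← h2]
    push_cast
    rw [Complex.re_eq_add_conj, Complex.re_eq_add_conj]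
    simp only [map_mul, map_pow, Complex.conj_conj, hzc]
    ring
  obtain ⟨P, hP⟩ : ∃ P : Polynomial ℂ, P =
      -(Polynomial.C (conj n₀) * (Polynomial.X ^ 2 + Polynomial.C μ) ^ 2 +
        Polynomial.C n₀ * (1 + Polynomial.C (conj μ) * Polynomial.X ^ 2) ^ 2) -
      (Polynomial.C g₀ * Polynomial.X * (Polynomial.X ^ 2 + Polynomial.C μ) +
        Polynomial.C (conj g₀) * Polynomial.X * (1 + Polynomial.C (conj μ) * Polynomial.X ^ 2)) +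
      Polynomial.C (h₀ : ℂ) * Polynomial.X ^ 2 +
      Polynomial.C (K : ℂ) * (Polynomial.C (conj β / 2) * Polynomial.X ^ 4 +
        Polynomial.C ((conj γ - conj μ * γ) / 2) * Polynomial.X ^ 3 + Polynomial.C (c : ℂ) * Polynomial.X ^ 2 +
        Polynomial.C ((γ - μ * conj γ) / 2) * Polynomial.X + Polynomial.C (β / 2)) := ⟨_, rfl⟩
  have hPe : ∀ v : ℂ, v ≠ 0 → P.eval v = v ^ 2 * ((-(conj n₀ * zw μ v ^ 2 + n₀ * zs μ v ^ 2) -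
      (g₀ * zw μ v + conj g₀ * zs μ v) + (h₀ : ℂ)) - -(K : ℂ) * Uw μ a γ β v) := by
    intro v hv
    rw [hP]
    unfold zw zs Uw
    rw [← hc]
    simp only [Polynomial.eval_add, Polynomial.eval_sub, Polynomial.eval_neg, Polynomial.eval_mul, Polynomial.eval_pow,
      Polynomial.eval_C, Polynomial.eval_X, Polynomial.eval_one]
    field_simp
    ring
  have hP0 : P = 0 := by
    refine Polynomial.eq_zero_of_infinite_isRoot P (Li_inf.mono fun v hv => ?_)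
    have hv1 : ‖v‖ = 1 := hv
    have hv0 : v ≠ 0 := by
      intro h0
      rw [h0, norm_zero] at hv1
      exact zero_ne_one hv1
    show P.eval v = 0
    rw [hPe v hv0, hcirc v hv1, sub_self, mul_zero]
  have h5 := hPe w hw
  rw [hP0, Polynomial.eval_zero] at h5
  have h6 := (mul_eq_zero.1 h5.symm).resolve_left (pow_ne_zero 2 hw)
  exact sub_eq_zero.1 h6

theorem Li_EE {μ₀ : ℝ} (hμ₀ : μ₀ < 1) {S : Sq} {μ : ℂ} {a : ℝ} {γ β : ℂ} (hS : LimG S μ₀ μ a γ β) (j : ℕ) {φ : ℂ → ℂ}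
    (i1 : IntegrableOn (fun z => (S.UU j z : ℂ) * φ z) (S.E₁ 1 j)) (i2 : IntegrableOn (fun z => (S.UU j z : ℂ) * φ z) (S.E₂ 1 j)) :
    ∫ z in S.EE j, ((|S.UU j z| : ℝ) : ℂ) * φ z =
      (∫ z in S.E₁ 1 j, (S.UU j z : ℂ) * φ z) - ∫ z in S.E₂ 1 j, (S.UU j z : ℂ) * φ z := by
  have hr := Li_r2 hS j
  have g1 : ‖S.μ₁ j‖ < 1 := (hS.m1 j).trans_lt hμ₀
  have g2 : ‖S.μ₂ j‖ < 1 := (hS.m2 j).trans_lt hμ₀
  have hM1 : MeasurableSet (S.E₁ 1 j) := (Dp_open _ _ _ 1).measurableSet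
  have hM2 : MeasurableSet (S.E₂ 1 j) := (Dp_open _ _ _ 1).measurableSet
  have s1 : ∀ z ∈ S.E₁ 1 j \ S.E₂ 1 j, ((|S.UU j z| : ℝ) : ℂ) * φ z = (S.UU j z : ℂ) * φ z := by
    intro z hz
    have e1 : QQ 0 1 (S.μ₁ j) z < 0 := (QQ_neg_iff one_pos g1 z).2 hz.1
    have e2 : 0 ≤ QQ (S.c₂ j) (S.r₂ j) (S.μ₂ j) z := by
      by_contra hcon
      exact hz.2 ((QQ_neg_iff hr g2 z).1 (not_le.1 hcon))
    have e3 : 0 ≤ S.UU j z := by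
      unfold Sq.UU
      linarith
    rw [abs_of_nonneg e3]
  have s2 : ∀ z ∈ S.E₂ 1 j \ S.E₁ 1 j, ((|S.UU j z| : ℝ) : ℂ) * φ z = -((S.UU j z : ℂ) * φ z) := by
    intro z hz
    have e1 : QQ (S.c₂ j) (S.r₂ j) (S.μ₂ j) z < 0 := (QQ_neg_iff hr g2 z).2 hz.1
    have e2 : 0 ≤ QQ 0 1 (S.μ₁ j) z := by
      by_contra hcon
      exact hz.2 ((QQ_neg_iff one_pos g1 z).1 (not_le.1 hcon))
    have e3 : S.UU j z ≤ 0 := by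
      unfold Sq.UU
      linarith
    rw [abs_of_nonpos e3]
    push_cast
    ring
  have j1 : IntegrableOn (fun z => ((|S.UU j z| : ℝ) : ℂ) * φ z) (S.E₁ 1 j \ S.E₂ 1 j) :=
    (i1.mono_set Set.sdiff_subset).congr_fun (fun z hz => (s1 z hz).symm) (hM1.diff hM2)
  have j2 : IntegrableOn (fun z => ((|S.UU j z| : ℝ) : ℂ) * φ z) (S.E₂ 1 j \ S.E₁ 1 j) :=
    (i2.mono_set Set.sdiff_subset).neg.congr_fun (fun z hz => (s2 z hz).symm) (hM2.diff hM1)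
  unfold Sq.EE
  rw [setIntegral_union (Set.disjoint_left.2 fun z hz hz' => hz.2 hz'.1) (hM2.diff hM1) j1 j2,
    setIntegral_congr_fun (hM1.diff hM2) s1, setIntegral_congr_fun (hM2.diff hM1) s2, integral_neg]
  have e1 := integral_inter_add_sdiff hM2 i1
  have e2 := integral_inter_add_sdiff hM1 i2
  rw [Set.inter_comm] at e2
  rw [← e1, ← e2]
  ring

theorem PlimG {μ₀ ρ : ℝ} (h0 : 0 ≤ μ₀) (h1 : μ₀ < ρ ^ 2) (hρ : 0 < ρ) (hρ1 : ρ < 1) {S : Sq} {μ : ℂ} {a : ℝ} {γ β : ℂ}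
    (hS : LimG S μ₀ μ a γ β) {m : ℕ → ℂ → ℂ} {m₀ : ℂ → ℂ} (hm : LBG S μ m m₀) (g : Polynomial ℂ) :
    Tendsto (fun j => (∫ z in S.EE j, ((|S.UU j z| * ‖g.eval (vv 0 1 (S.μ₁ j) z)‖ ^ 2 : ℝ) : ℂ) * m j z ^ 2) / (S.d j : ℂ) ^ 2) atTop
      (𝓝 (((2 * ((1 - ‖μ‖ ^ 2) / (1 + ‖μ‖ ^ 2)) : ℝ) : ℂ) * ∫ t in (0 : ℝ)..(2 * π), Uw μ a γ β (pr ρ t) ^ 2 * m₀ (zw μ (pr ρ t)) ^ 2 *
        g.eval (pr ρ t) * gs g (pr ρ t))) := by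
  have hμ₀ := Li_lt h1 hρ hρ1
  have hμ := Li_mu hS
  have hx : (1 : ℂ) - ((‖μ‖ ^ 2 : ℝ) : ℂ) ≠ 0 := by
    have := norm_nonneg μ
    have h2 : (1 - ‖μ‖ ^ 2 : ℝ) ≠ 0 := by
      have : 0 < 1 - ‖μ‖ ^ 2 := by nlinarith
      exact this.ne'
    intro h3
    apply h2
    exact_mod_cast h3
  obtain ⟨n₀, g₀, h₀, hU, hL⟩ := Li_UUd h0 hμ₀ hS
  obtain ⟨hv, hvc⟩ := Li_vv hμ₀ hS
  obtain ⟨gc, hgc⟩ : ∃ gc, gc = g.map (starRingEnd ℂ) := ⟨_, rfl⟩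
  have hG := hU.mul ((hv.poly g).mul (hvc.poly gc))
  have hJ := (Li_Plim h0 h1 hρ hρ1 hS (hm.mul hm) hG).neg
  have hlim : -(∫ t in (0 : ℝ)..(2 * π), Uw μ a γ β (pr ρ t) * (m₀ (zw μ (pr ρ t)) * m₀ (zw μ (pr ρ t))) *
      ((-(conj n₀ * zw μ (pr ρ t) ^ 2 + n₀ * zs μ (pr ρ t) ^ 2) - (g₀ * zw μ (pr ρ t) + conj g₀ * zs μ (pr ρ t)) + (h₀ : ℂ)) *
        (g.eval ((zw μ (pr ρ t) - μ * zs μ (pr ρ t)) * (((1 * (1 - ‖μ‖ ^ 2) : ℝ) : ℂ))⁻¹) *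
          gc.eval ((zs μ (pr ρ t) - conj μ * zw μ (pr ρ t)) * (((1 * (1 - ‖μ‖ ^ 2) : ℝ) : ℂ))⁻¹)))) =
      ((2 * ((1 - ‖μ‖ ^ 2) / (1 + ‖μ‖ ^ 2)) : ℝ) : ℂ) * ∫ t in (0 : ℝ)..(2 * π), Uw μ a γ β (pr ρ t) ^ 2 *
        m₀ (zw μ (pr ρ t)) ^ 2 * g.eval (pr ρ t) * gs g (pr ρ t) := by
    rw [← intervalIntegral.integral_neg, ← intervalIntegral.integral_const_mul]
    refine intervalIntegral.integral_congr fun t _ => ?_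
    have hw := Li_pr_ne hρ t
    rw [Li_laurent hL hw]
    generalize pr ρ t = w at hw
    have hxx : ((‖μ‖ ^ 2 : ℝ) : ℂ) = μ * conj μ := by
      rw [Complex.mul_conj, Complex.normSq_eq_norm_sq]
    have e0 : ((1 * (1 - ‖μ‖ ^ 2) : ℝ) : ℂ) = 1 - μ * conj μ := by
      rw [← hxx]
      push_cast
      ring
    rw [hxx] at hx
    have e1 : (zw μ w - μ * zs μ w) * (((1 * (1 - ‖μ‖ ^ 2) : ℝ) : ℂ))⁻¹ = w := by
      rw [e0, ← div_eq_mul_inv, div_eq_iff hx]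
      unfold zw zs
      ring
    have e2 : (zs μ w - conj μ * zw μ w) * (((1 * (1 - ‖μ‖ ^ 2) : ℝ) : ℂ))⁻¹ = w⁻¹ := by
      rw [e0, ← div_eq_mul_inv, div_eq_iff hx]
      unfold zw zs
      ring
    have e3 : gc.eval w⁻¹ = gs g w := by
      unfold gs
      rw [hgc, Nj_ev_conj, map_inv₀, Complex.conj_conj]
    rw [e1, e2, e3]
    ring
  rw [hlim] at hJ
  refine hJ.congr fun j => ?_
  have hd : (S.d j : ℂ) ≠ 0 := by exact_mod_cast (hS.pos j).ne'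
  have hcv : Continuous fun z => vv 0 1 (S.μ₁ j) z := vv_cont 0 1 (S.μ₁ j)
  have hcU : Continuous fun z => S.UU j z := by
    unfold Sq.UU
    exact (QQ_contDiff _ _ _).continuous.sub (QQ_contDiff _ _ _).continuous
  have hcg : Continuous fun z => ((S.UU j z : ℝ) : ℂ) * ((‖g.eval (vv 0 1 (S.μ₁ j) z)‖ ^ 2 : ℝ) : ℂ) :=
    (Complex.continuous_ofReal.comp hcU).mul (Complex.continuous_ofReal.comp (((g.continuous.comp hcv).norm).pow 2))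
  have e4 : ∀ z, (m j z * m j z) * (((S.UU j z : ℝ) : ℂ) * ((‖g.eval (vv 0 1 (S.μ₁ j) z)‖ ^ 2 : ℝ) : ℂ)) =
      (S.UU j z : ℂ) * (((‖g.eval (vv 0 1 (S.μ₁ j) z)‖ ^ 2 : ℝ) : ℂ) * m j z ^ 2) := fun z => by ring
  have i1 := Li_int1 hμ₀ hS (hm.mul hm) hcg j
  have i2 := Li_int2 hμ₀ hS (hm.mul hm) hcg j
  simp only [e4] at i1 i2
  have hE := Li_EE hμ₀ hS j i1 i2
  have e5 : ∀ z, ((|S.UU j z| * ‖g.eval (vv 0 1 (S.μ₁ j) z)‖ ^ 2 : ℝ) : ℂ) * m j z ^ 2 =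
      ((|S.UU j z| : ℝ) : ℂ) * (((‖g.eval (vv 0 1 (S.μ₁ j) z)‖ ^ 2 : ℝ) : ℂ) * m j z ^ 2) := fun z => by
    rw [Complex.ofReal_mul]
    ring
  simp only [e5]
  rw [hE]
  have e6 : ∀ z, (m j z * m j z) * (((S.UU j z / S.d j : ℝ) : ℂ) * (g.eval (vv 0 1 (S.μ₁ j) z) *
      gc.eval (conj (vv 0 1 (S.μ₁ j) z)))) =
      ((S.UU j z : ℂ) * (((‖g.eval (vv 0 1 (S.μ₁ j) z)‖ ^ 2 : ℝ) : ℂ) * m j z ^ 2)) / (S.d j : ℂ) := fun z => by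
    rw [hgc, ← Nj_ev_conj, Complex.mul_conj, Complex.normSq_eq_norm_sq, Complex.ofReal_div]
    field_simp
  simp only [e6]
  rw [integral_div, integral_div]
  field_simp
  ring

end LD1
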