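import Pool.Agent.H1.LD.La
import Pool.Agent.H1.LD.Lb
import Pool.Agent.H1.LD.Lc

/-!
ROW LD/Lj. The linearized equations for the coefficients. `f_j^i = fh (l j) μ_i (fc_i (m_j) (n+1)) n`. `fcLG`, `fcDG` (`LD/La.lean`): `(f_j² - f_j¹)/((n+1) d)` has a limit `w n` (`fh` is a smooth function of `μ`, `M`; `f (1 - l² x^(n+1)) = M + l conj μ^(n+1) conj M`); first equation: derivative of `M = f - l conj μ^(n+1) conj f`,
divided by `n+1`. Second: `mom` (`LD/Lc.lean`) for both ellipses, difference divided by `d`, with `fcDG` for `F = z^b` (`LBG` of a constant sequence; in `LD/Lb.lean`, `LBG.const`, or prove directly): for all `b`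
`∑_{n ≤ b} [-xⁿ s conj f_n A_n + (1-x^(n+1)) conj w_n A_n + (1-x^(n+1)) conj f_n Z_n] = 0`, `s = 2 Re (conj μ β)`, `A_n = fc 0 1 μ (z^b) ρ (n+1)`, `Z_n = cz ρ (zt · zw^b) (n+1) = ∑_{k=n}^b Pc (k-n) A_k` (`zt zw^b = (zt/pw)(pw zw^b)`, `zt/pw = ∑ Pc k w^(-k)`, `pw zw^b = ∑ A_k (w^(k+1) - (μ/w)^(k+1))`, only the positive powers count).
So `∑_n A_n (∑_{k ≤ n} Pc (n-k) (1-x^(k+1)) conj f_k - xⁿ s conj f_n + (1-x^(n+1)) conj w_n) = 0` for all `b`; `A_b = 1` (leading coefficient): induction on `b`.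
-/

set_option autoImplicit false

namespace LD1

open Complex Set Filter Topology MeasureTheory EW1 EX1 ND1
open scoped ComplexConjugate ContDiff Real

private theorem Lj_zpow {R : ℂ} (hR : R ≠ 0) (m : ℤ) :
    ∫ t in (0 : ℝ)..(2 * π), (R * exp (t * I)) ^ m = if m = 0 then (2 * π : ℂ) else 0 := by
  have h1 : ∀ t : ℝ, (R * exp (t * I)) ^ m = R ^ m * exp ((m * I) * t) := by
    intro t
    rw [mul_zpow, ← Complex.exp_int_mul]
    congr 2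
    ring
  simp only [h1]
  rw [intervalIntegral.integral_const_mul]
  split_ifs with h
  · subst h
    simp
  · have hm : (m : ℂ) * I ≠ 0 := mul_ne_zero (by exact_mod_cast h) I_ne_zero
    rw [integral_exp_mul_complex hm]
    have h2 : (m : ℂ) * I * ((2 * π : ℝ) : ℂ) = m * (2 * π * I) := by push_cast; ring
    rw [h2, Complex.exp_int_mul_two_pi_mul_I]
    simp

private theorem Lj_pr_ne {ρ : ℝ} (hρ : 0 < ρ) (t : ℝ) : pr ρ t ≠ 0 := by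
  unfold pr
  exact mul_ne_zero (by exact_mod_cast hρ.ne') (Complex.exp_ne_zero _)

private theorem Lj_pr_cont (ρ : ℝ) : Continuous (pr ρ) := by
  unfold pr
  fun_prop

/-- continuity on the circle -/
private def LjC (ρ : ℝ) (F : ℂ → ℂ) : Prop := Continuous fun t => F (pr ρ t)

private theorem Lj_int {ρ : ℝ} (hρ : 0 < ρ) {F : ℂ → ℂ} (hF : LjC ρ F) (n : ℤ) :
    IntervalIntegrable (fun t => F (pr ρ t) * pr ρ t ^ (-n)) volume 0 (2 * π) := by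
  apply Continuous.intervalIntegrable
  exact hF.mul ((Lj_pr_cont ρ).zpow₀ (-n) fun t => Or.inl (Lj_pr_ne hρ t))

private theorem Lj_add {ρ : ℝ} (hρ : 0 < ρ) {F G : ℂ → ℂ} (hF : LjC ρ F) (hG : LjC ρ G) (n : ℤ) :
    cz ρ (fun w => F w + G w) n = cz ρ F n + cz ρ G n := by
  unfold cz
  rw [← add_div, ← intervalIntegral.integral_add (Lj_int hρ hF n) (Lj_int hρ hG n)]
  congr 1
  apply intervalIntegral.integral_congr
  intro t _
  simp only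
  ring

private theorem Lj_cm (ρ : ℝ) (c : ℂ) (F : ℂ → ℂ) (n : ℤ) :
    cz ρ (fun w => c * F w) n = c * cz ρ F n := by
  unfold cz
  rw [← mul_div_assoc, ← intervalIntegral.integral_const_mul]
  congr 1
  apply intervalIntegral.integral_congr
  intro t _
  simp only
  ring

private theorem Lj_w {ρ : ℝ} (hρ : 0 < ρ) (F : ℂ → ℂ) (n : ℤ) :
    cz ρ (fun w => w * F w) n = cz ρ F (n - 1) := by
  unfold cz
  congr 1
  apply intervalIntegral.integral_congr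
  intro t _
  simp only
  have e : -(n - 1) = -n + 1 := by ring
  rw [e, zpow_add₀ (Lj_pr_ne hρ t), zpow_one]
  ring

private theorem Lj_wi {ρ : ℝ} (hρ : 0 < ρ) (F : ℂ → ℂ) (n : ℤ) :
    cz ρ (fun w => w⁻¹ * F w) n = cz ρ F (n + 1) := by
  unfold cz
  congr 1
  apply intervalIntegral.integral_congr
  intro t _
  simp only
  have e : -(n + 1) = -n + (-1) := by ring
  rw [e, zpow_add₀ (Lj_pr_ne hρ t), zpow_neg_one]
  ring

private theorem Lj_pow_cont {ρ : ℝ} (hρ : 0 < ρ) (μ : ℂ) (b : ℕ) : LjC ρ fun w => zw μ w ^ b := by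
  unfold LjC zw
  refine Continuous.pow ?_ b
  exact (Lj_pr_cont ρ).add (continuous_const.mul ((Lj_pr_cont ρ).inv₀ fun t => Lj_pr_ne hρ t))

private theorem Lj_wF {ρ : ℝ} {F : ℂ → ℂ} (hF : LjC ρ F) : LjC ρ fun w => w * F w :=
  (Lj_pr_cont ρ).mul hF

private theorem Lj_wiF {ρ : ℝ} (hρ : 0 < ρ) {F : ℂ → ℂ} (hF : LjC ρ F) : LjC ρ fun w => w⁻¹ * F w :=
  ((Lj_pr_cont ρ).inv₀ fun t => Lj_pr_ne hρ t).mul hF

private theorem Lj_cF {ρ : ℝ} (c : ℂ) {F : ℂ → ℂ} (hF : LjC ρ F) : LjC ρ fun w => c * F w :=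
  continuous_const.mul hF

private theorem Lj_aF {ρ : ℝ} {F G : ℂ → ℂ} (hF : LjC ρ F) (hG : LjC ρ G) : LjC ρ fun w => F w + G w :=
  Continuous.add hF hG

/-- the coefficients of `zw ^ b` -/
private noncomputable def LjK (ρ : ℝ) (μ : ℂ) (b : ℕ) (n : ℤ) : ℂ := cz ρ (fun w => zw μ w ^ b) n

private theorem LjK_zero {ρ : ℝ} (hρ : 0 < ρ) (μ : ℂ) (n : ℤ) : LjK ρ μ 0 n = if n = 0 then 1 else 0 := by
  unfold LjK cz
  have h1 : ∀ t : ℝ, zw μ (pr ρ t) ^ 0 * pr ρ t ^ (-n) = ((ρ : ℂ) * exp (t * I)) ^ (-n) := by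
    intro t
    rw [pow_zero, one_mul]
    rfl
  simp only [h1]
  rw [Lj_zpow (by exact_mod_cast hρ.ne')]
  have hpi : (2 * π : ℂ) ≠ 0 := by
    have := Real.pi_pos.ne'
    exact mul_ne_zero two_ne_zero (by exact_mod_cast this)
  by_cases hn : n = 0
  · subst hn
    simp only [neg_zero, if_true]
    exact div_self hpi
  · have : -n ≠ 0 := by omega
    rw [if_neg this, if_neg hn, zero_div]

private theorem LjK_succ {ρ : ℝ} (hρ : 0 < ρ) (μ : ℂ) (b : ℕ) (n : ℤ) :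
    LjK ρ μ (b + 1) n = LjK ρ μ b (n - 1) + μ * LjK ρ μ b (n + 1) := by
  have hc := Lj_pow_cont hρ μ b
  have e : (fun w => zw μ w ^ (b + 1)) = fun w => w * zw μ w ^ b + μ * (w⁻¹ * zw μ w ^ b) := by
    ext w
    rw [pow_succ]
    unfold zw
    ring
  unfold LjK
  rw [e, Lj_add hρ (Lj_wF hc) (Lj_cF μ (Lj_wiF hρ hc)), Lj_w hρ, Lj_cm, Lj_wi hρ]

private theorem LjK_high {ρ : ℝ} (hρ : 0 < ρ) (μ : ℂ) (b : ℕ) : ∀ n : ℤ, (b : ℤ) < n → LjK ρ μ b n = 0 := by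
  induction b with
  | zero =>
    intro n hn
    rw [LjK_zero hρ, if_neg (by omega)]
  | succ b ih =>
    intro n hn
    push_cast at hn
    rw [LjK_succ hρ, ih _ (by omega), ih _ (by omega)]
    ring

private theorem LjK_top {ρ : ℝ} (hρ : 0 < ρ) (μ : ℂ) (b : ℕ) : LjK ρ μ b (b : ℤ) = 1 := by
  induction b with
  | zero =>
    rw [LjK_zero hρ]
    simp
  | succ b ih =>
    rw [LjK_succ hρ]
    have e1 : (((b + 1 : ℕ) : ℤ)) - 1 = (b : ℤ) := by push_cast; ring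
    rw [e1, ih, LjK_high hρ μ b _ (by push_cast; omega), mul_zero, add_zero]

/-- the coefficients `fc` of the monomials -/
private theorem Lj_fcA {ρ : ℝ} (hρ : 0 < ρ) (μ : ℂ) (b k : ℕ) :
    fc 0 1 μ (fun z => z ^ b) ρ (k + 1) = LjK ρ μ b (k : ℤ) - μ * LjK ρ μ b ((k : ℤ) + 2) := by
  have hc := Lj_pow_cont hρ μ b
  have e0 : fc 0 1 μ (fun z => z ^ b) ρ (k + 1) =
      cz ρ (fun w => w * zw μ w ^ b + (-μ) * (w⁻¹ * zw μ w ^ b)) ((k : ℤ) + 1) := by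
    unfold fc cz
    congr 1
    apply intervalIntegral.integral_congr
    intro t _
    simp only
    have e1 : (pr ρ t) ^ (-((k : ℤ) + 1)) = (pr ρ t)⁻¹ ^ (k + 1) := by
      rw [zpow_neg, inv_pow]
      norm_cast
    rw [e1]
    unfold zw pr
    simp only [Complex.ofReal_one, zero_add, one_mul]
    ring
  rw [e0, Lj_add hρ (Lj_wF hc) (Lj_cF (-μ) (Lj_wiF hρ hc)), Lj_w hρ, Lj_cm, Lj_wi hρ]
  unfold LjK
  have e2 : (k : ℤ) + 1 - 1 = k := by ring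
  have e3 : (k : ℤ) + 1 + 1 = k + 2 := by ring
  rw [e2, e3]
  ring

private theorem Lj_Z {ρ : ℝ} (hρ : 0 < ρ) (μ : ℂ) (a : ℝ) (γ β : ℂ) (b n : ℕ) :
    cz ρ (fun w => zt μ a γ β w * zw μ w ^ b) ((n : ℤ) + 1) =
      γ * LjK ρ μ b ((n : ℤ) + 1) + a * LjK ρ μ b (n : ℤ) + (a * μ + β) * LjK ρ μ b ((n : ℤ) + 2) := by
  have hc := Lj_pow_cont hρ μ b
  have e : (fun w => zt μ a γ β w * zw μ w ^ b) =
      fun w => (γ * zw μ w ^ b + (a : ℂ) * (w * zw μ w ^ b)) + (a * μ + β) * (w⁻¹ * zw μ w ^ b) := by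
    ext w
    unfold zt
    ring
  rw [e, Lj_add hρ (Lj_aF (Lj_cF γ hc) (Lj_cF (a : ℂ) (Lj_wF hc))) (Lj_cF _ (Lj_wiF hρ hc)),
    Lj_add hρ (Lj_cF γ hc) (Lj_cF (a : ℂ) (Lj_wF hc)), Lj_cm, Lj_cm, Lj_cm, Lj_w hρ, Lj_wi hρ]
  unfold LjK
  have e2 : (n : ℤ) + 1 - 1 = n := by ring
  have e3 : (n : ℤ) + 1 + 1 = n + 2 := by ring
  rw [e2, e3]

/-- partial sums of the product with `Pc` -/
private theorem Lj_part (μ : ℂ) (a : ℝ) (γ β : ℂ) (c : ℕ → ℂ) (n k : ℕ) :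
    ∑ i ∈ Finset.range (k + 3), Pc μ a γ β i * (c (n + i) - μ * c (n + i + 2)) =
      (γ * c (n + 1) + a * c n + (a * μ + β) * c (n + 2)) - Pc μ a γ β (k + 3) * c (n + k + 3) -
        Pc μ a γ β (k + 4) * c (n + k + 4) := by
  induction k with
  | zero =>
    simp only [Finset.sum_range_succ, Finset.sum_range_zero, Pc, zero_add, add_zero]
    ring_nf
  | succ k ih =>
    rw [show k + 1 + 3 = (k + 3) + 1 by ring, Finset.sum_range_succ, ih]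
    have e1 : Pc μ a γ β (k + 3 + 1 + 1) = μ * Pc μ a γ β (k + 3) := rfl
    have e2 : n + (k + 3) = n + k + 3 := by ring
    have e3 : n + (k + 3) + 2 = n + k + 5 := by ring
    have e4 : n + (k + 1) + 3 = n + k + 4 := by ring
    have e5 : n + (k + 1) + 4 = n + k + 5 := by ring
    have e6 : k + 1 + 4 = k + 3 + 1 + 1 := by ring
    rw [e2, show n + k + 3 + 2 = n + k + 5 by ring, e4, e5, e6, e1]
    have e7 : k + 3 + 1 = k + 4 := by ring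
    rw [e7]
    ring

/-- the convolution -/
private theorem Lj_conv (μ : ℂ) (a : ℝ) (γ β : ℂ) (c : ℕ → ℂ) (b n : ℕ) (hc : ∀ k, b < k → c k = 0) :
    γ * c (n + 1) + a * c n + (a * μ + β) * c (n + 2) =
      ∑ k ∈ Finset.range (b + 1), if n ≤ k then Pc μ a γ β (k - n) * (c k - μ * c (k + 2)) else 0 := by
  have h1 := Lj_part μ a γ β c n b
  rw [hc (n + b + 3) (by omega), hc (n + b + 4) (by omega), mul_zero, mul_zero, sub_zero, sub_zero] at h1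
  rw [← h1]
  have h2 : ∑ i ∈ Finset.range (b + 3), Pc μ a γ β i * (c (n + i) - μ * c (n + i + 2)) =
      ∑ k ∈ Finset.Ico n (n + (b + 3)), Pc μ a γ β (k - n) * (c k - μ * c (k + 2)) := by
    rw [Finset.sum_Ico_eq_sum_range]
    have e : n + (b + 3) - n = b + 3 := by omega
    rw [e]
    refine Finset.sum_congr rfl fun i _ => ?_
    rw [show n + i - n = i by omega]
  rw [h2]
  have h3 : ∑ k ∈ Finset.Ico n (n + (b + 3)), Pc μ a γ β (k - n) * (c k - μ * c (k + 2)) =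
      ∑ k ∈ Finset.range (n + (b + 3)), if n ≤ k then Pc μ a γ β (k - n) * (c k - μ * c (k + 2)) else 0 := by
    rw [← Finset.sum_filter]
    refine Finset.sum_congr ?_ fun _ _ => rfl
    ext k
    simp only [Finset.mem_Ico, Finset.mem_filter, Finset.mem_range]
    tauto
  rw [h3]
  symm
  refine Finset.sum_subset ?_ ?_
  · intro k hk
    rw [Finset.mem_range] at hk ⊢
    omega
  · intro k _ hk
    rw [Finset.mem_range] at hk
    split_ifs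
    · rw [hc k (by omega), hc (k + 2) (by omega)]
      ring
    · rfl

/-- elimination -/
private theorem Lj_elim (μ : ℂ) (a : ℝ) (γ β : ℂ) (c : ℕ → ℕ → ℂ) (hc : ∀ b k, b < k → c b k = 0)
    (ht : ∀ b, c b b = 1) (G V : ℕ → ℂ)
    (h : ∀ b, ∑ n ∈ Finset.range (b + 1), (V n * (c b n - μ * c b (n + 2)) +
      G n * (γ * c b (n + 1) + a * c b n + (a * μ + β) * c b (n + 2))) = 0) (n : ℕ) :
    ∑ k ∈ Finset.range (n + 1), Pc μ a γ β (n - k) * G k + V n = 0 := by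
  obtain ⟨A, hA⟩ : ∃ A : ℕ → ℕ → ℂ, A = fun b k => c b k - μ * c b (k + 2) := ⟨_, rfl⟩
  have hAt : ∀ b, A b b = 1 := by
    intro b
    rw [hA]
    simp only
    rw [ht, hc b (b + 2) (by omega), mul_zero, sub_zero]
  obtain ⟨W, hW⟩ : ∃ W : ℕ → ℂ, W = fun k => ∑ i ∈ Finset.range (k + 1), Pc μ a γ β (k - i) * G i + V k :=
    ⟨_, rfl⟩
  have key : ∀ b, ∑ k ∈ Finset.range (b + 1), A b k * W k = 0 := by
    intro b
    rw [← h b, Finset.sum_add_distrib]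
    have h1 : ∑ n ∈ Finset.range (b + 1), G n * (γ * c b (n + 1) + a * c b n + (a * μ + β) * c b (n + 2)) =
        ∑ k ∈ Finset.range (b + 1), A b k * ∑ i ∈ Finset.range (k + 1), Pc μ a γ β (k - i) * G i := by
      have h2 : ∀ n ∈ Finset.range (b + 1),
          G n * (γ * c b (n + 1) + a * c b n + (a * μ + β) * c b (n + 2)) =
          ∑ k ∈ Finset.range (b + 1), if n ≤ k then A b k * (Pc μ a γ β (k - n) * G n) else 0 := by
        intro n _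
        rw [Lj_conv μ a γ β (c b) b n (hc b), Finset.mul_sum]
        refine Finset.sum_congr rfl fun k _ => ?_
        rw [hA]
        split_ifs
        · ring
        · rw [mul_zero]
      rw [Finset.sum_congr rfl h2, Finset.sum_comm]
      refine Finset.sum_congr rfl fun k hk => ?_
      rw [Finset.mem_range] at hk
      rw [Finset.mul_sum, ← Finset.sum_filter]
      refine Finset.sum_congr ?_ fun _ _ => rfl
      ext i
      simp only [Finset.mem_filter, Finset.mem_range]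
      omega
    rw [h1, ← Finset.sum_add_distrib]
    refine Finset.sum_congr rfl fun k _ => ?_
    rw [hW, hA]
    ring
  have hW0 : ∀ k, W k = 0 := by
    intro k
    induction k using Nat.strong_induction_on with
    | _ k ih =>
      have h1 := key k
      rw [Finset.sum_range_succ, hAt, one_mul, Finset.sum_eq_zero, zero_add] at h1
      · exact h1
      · intro i hi
        rw [ih i (Finset.mem_range.mp hi), mul_zero]
  have := hW0 n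
  rw [hW] at this
  exact this

/-- both sequences converge to `a`, the difference quotient to `a'` -/
private def LjD (d : ℕ → ℝ) (x y : ℕ → ℂ) (a a' : ℂ) : Prop :=
  Tendsto x atTop (𝓝 a) ∧ Tendsto y atTop (𝓝 a) ∧ Tendsto (fun j => (y j - x j) / (d j : ℂ)) atTop (𝓝 a')

private theorem LjD_const (d : ℕ → ℝ) (c : ℂ) : LjD d (fun _ => c) (fun _ => c) c 0 := by
  refine ⟨tendsto_const_nhds, tendsto_const_nhds, ?_⟩
  simp only [sub_self, zero_div]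
  exact tendsto_const_nhds

private theorem LjD_add {d : ℕ → ℝ} {x y z w : ℕ → ℂ} {a a' b b' : ℂ} (h : LjD d x y a a') (k : LjD d z w b b') :
    LjD d (fun j => x j + z j) (fun j => y j + w j) (a + b) (a' + b') := by
  refine ⟨h.1.add k.1, h.2.1.add k.2.1, (h.2.2.add k.2.2).congr fun j => ?_⟩
  rw [← add_div]
  congr 1
  ring

private theorem LjD_mul {d : ℕ → ℝ} {x y z w : ℕ → ℂ} {a a' b b' : ℂ} (h : LjD d x y a a') (k : LjD d z w b b') :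
    LjD d (fun j => x j * z j) (fun j => y j * w j) (a * b) (a' * b + a * b') := by
  refine ⟨h.1.mul k.1, h.2.1.mul k.2.1, ((h.2.2.mul k.2.1).add (h.1.mul k.2.2)).congr fun j => ?_⟩
  ring

private theorem LjD_conj {d : ℕ → ℝ} {x y : ℕ → ℂ} {a a' : ℂ} (h : LjD d x y a a') :
    LjD d (fun j => conj (x j)) (fun j => conj (y j)) (conj a) (conj a') := by
  have hc : Continuous (fun z : ℂ => conj z) := Complex.continuous_conj
  refine ⟨(hc.tendsto a).comp h.1, (hc.tendsto a).comp h.2.1, ((hc.tendsto a').comp h.2.2).congr fun j => ?_⟩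
  simp only [Function.comp, map_div₀, map_sub, Complex.conj_ofReal]

private theorem LjD_pow {d : ℕ → ℝ} {x y : ℕ → ℂ} {a a' : ℂ} (h : LjD d x y a a') (n : ℕ) :
    LjD d (fun j => x j ^ (n + 1)) (fun j => y j ^ (n + 1)) (a ^ (n + 1)) (((n : ℂ) + 1) * a ^ n * a') := by
  induction n with
  | zero => simpa using h
  | succ n ih =>
    have h1 := LjD_mul ih h
    have e1 : ((n : ℂ) + 1) * a ^ n * a' * a + a ^ (n + 1) * a' = (((n + 1 : ℕ) : ℂ) + 1) * a ^ (n + 1) * a' := by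
      push_cast
      ring
    rw [e1] at h1
    simpa only [pow_succ] using h1

private theorem LjD_sum {d : ℕ → ℝ} (s : Finset ℕ) {x y : ℕ → ℕ → ℂ} {a a' : ℕ → ℂ}
    (h : ∀ i ∈ s, LjD d (x i) (y i) (a i) (a' i)) :
    LjD d (fun j => ∑ i ∈ s, x i j) (fun j => ∑ i ∈ s, y i j) (∑ i ∈ s, a i) (∑ i ∈ s, a' i) := by
  refine ⟨tendsto_finsetSum s fun i hi => (h i hi).1, tendsto_finsetSum s fun i hi => (h i hi).2.1,
    (tendsto_finsetSum s fun i hi => (h i hi).2.2).congr fun j => ?_⟩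
  rw [← Finset.sum_div, Finset.sum_sub_distrib]

private theorem Lj_nq (μ : ℂ) (n : ℕ) : ‖μ‖ ^ (2 * (n + 1)) = ‖conj μ ^ (n + 1)‖ ^ 2 := by
  rw [norm_pow, RCLike.norm_conj, ← pow_mul, mul_comm]

private theorem Lj_inv {l : ℝ} {q Y : ℂ} (h : 1 - l ^ 2 * ‖q‖ ^ 2 ≠ 0) :
    (Y + l * q * conj Y) / ((1 - l ^ 2 * ‖q‖ ^ 2 : ℝ) : ℂ) -
      l * q * conj ((Y + l * q * conj Y) / ((1 - l ^ 2 * ‖q‖ ^ 2 : ℝ) : ℂ)) = Y := by
  have hD : ((1 - l ^ 2 * ‖q‖ ^ 2 : ℝ) : ℂ) ≠ 0 := by exact_mod_cast h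
  have hq : q * conj q = ((‖q‖ ^ 2 : ℝ) : ℂ) := by rw [Complex.mul_conj, Complex.normSq_eq_norm_sq]
  obtain ⟨D, hDd⟩ : ∃ D : ℝ, D = 1 - l ^ 2 * ‖q‖ ^ 2 := ⟨_, rfl⟩
  rw [← hDd] at hD ⊢
  rw [map_div₀, Complex.conj_ofReal, map_add, map_mul, map_mul, Complex.conj_ofReal, Complex.conj_conj]
  have e : (Y + l * q * conj Y) / (D : ℂ) - l * q * ((conj Y + l * conj q * Y) / (D : ℂ)) =
      (Y - l ^ 2 * (q * conj q) * Y) / (D : ℂ) := by ring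
  rw [e, hq, div_eq_iff hD, hDd]
  push_cast
  ring

private theorem Lj_inv' {l : ℝ} {q X Y : ℂ} (h : 1 - l ^ 2 * ‖q‖ ^ 2 ≠ 0) (hX : X - l * q * conj X = Y) :
    X = (Y + l * q * conj Y) / ((1 - l ^ 2 * ‖q‖ ^ 2 : ℝ) : ℂ) := by
  have hD : ((1 - l ^ 2 * ‖q‖ ^ 2 : ℝ) : ℂ) ≠ 0 := by exact_mod_cast h
  have hq : q * conj q = ((‖q‖ ^ 2 : ℝ) : ℂ) := by rw [Complex.mul_conj, Complex.normSq_eq_norm_sq]
  rw [eq_div_iff hD, ← hX, map_sub, map_mul, map_mul, Complex.conj_ofReal, Complex.conj_conj]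
  have e : X - l * q * conj X + l * q * (conj X - l * conj q * X) = X - l ^ 2 * (q * conj q) * X := by ring
  rw [e, hq]
  push_cast
  ring

private theorem Lj_ne {l : ℝ} (hl : |l| ≤ 1) {q : ℂ} {μ₀ : ℝ} (h0 : 0 ≤ μ₀) (h1 : μ₀ < 1) (hq : ‖q‖ ≤ μ₀) :
    1 - l ^ 2 * ‖q‖ ^ 2 ≠ 0 := by
  have h2 : l ^ 2 ≤ 1 := by
    rw [← sq_abs]
    exact pow_le_one₀ (abs_nonneg l) hl
  have h3 : ‖q‖ ^ 2 ≤ μ₀ ^ 2 := pow_le_pow_left₀ (norm_nonneg q) hq 2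
  have h4 : μ₀ ^ 2 < 1 := by nlinarith
  have h5 : l ^ 2 * ‖q‖ ^ 2 ≤ 1 * ‖q‖ ^ 2 := mul_le_mul_of_nonneg_right h2 (by positivity)
  have h6 : l ^ 2 * ‖q‖ ^ 2 < 1 := by linarith
  linarith

private theorem Lj_qle {μ : ℂ} {μ₀ : ℝ} (h0 : 0 ≤ μ₀) (h1 : μ₀ < 1) (hμ : ‖μ‖ ≤ μ₀) (n : ℕ) : ‖conj μ ^ (n + 1)‖ ≤ μ₀ := by
  rw [norm_pow, RCLike.norm_conj]
  calc ‖μ‖ ^ (n + 1) ≤ μ₀ ^ (n + 1) := pow_le_pow_left₀ (norm_nonneg μ) hμ _
    _ = μ₀ ^ n * μ₀ := pow_succ _ _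
    _ ≤ 1 * μ₀ := mul_le_mul_of_nonneg_right (pow_le_one₀ h0 h1.le) h0
    _ = μ₀ := one_mul _

/-- variation of `fh` -/
private theorem Lj_fh {d : ℕ → ℝ} {l : ℕ → ℝ} {l₀ : ℝ} (hl : ∀ j, |l j| ≤ 1) (hl₀ : Tendsto l atTop (𝓝 l₀))
    {μ₀ : ℝ} (h0 : 0 ≤ μ₀) (h1 : μ₀ < 1) {p q : ℕ → ℂ} {μ β : ℂ} (hp : ∀ j, ‖p j‖ ≤ μ₀) (hq : ∀ j, ‖q j‖ ≤ μ₀)
    (hpq : LjD d p q μ β) {M K : ℕ → ℂ} {M₀ M' : ℂ} (hMK : LjD d M K M₀ M') (n : ℕ) :
    ∃ X : ℂ, LjD d (fun j => fh (l j) (p j) (M j) n) (fun j => fh (l j) (q j) (K j) n) (fh l₀ μ M₀ n) X ∧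
      M' = X - l₀ * (((n : ℂ) + 1) * conj μ ^ n * conj β) * conj (fh l₀ μ M₀ n) - l₀ * conj μ ^ (n + 1) * conj X := by
  have hl₀1 : |l₀| ≤ 1 := le_of_tendsto hl₀.abs (Eventually.of_forall hl)
  have hμ : ‖μ‖ ≤ μ₀ := le_of_tendsto hpq.1.norm (Eventually.of_forall hp)
  have hQ := LjD_pow (LjD_conj hpq) n
  have hlc : Tendsto (fun j => ((l j : ℝ) : ℂ)) atTop (𝓝 (l₀ : ℂ)) := (Complex.continuous_ofReal.tendsto l₀).comp hl₀
  have hcj : Continuous (fun z : ℂ => conj z) := Complex.continuous_conj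
  -- continuity of the inversion
  have hcont : ∀ (Q Y : ℕ → ℂ) (Q₀ Y₀ : ℂ), Tendsto Q atTop (𝓝 Q₀) → Tendsto Y atTop (𝓝 Y₀) → ‖Q₀‖ ≤ μ₀ →
      Tendsto (fun j => (Y j + l j * Q j * conj (Y j)) / ((1 - l j ^ 2 * ‖Q j‖ ^ 2 : ℝ) : ℂ)) atTop
        (𝓝 ((Y₀ + l₀ * Q₀ * conj Y₀) / ((1 - l₀ ^ 2 * ‖Q₀‖ ^ 2 : ℝ) : ℂ))) := by
    intro Q Y Q₀ Y₀ hQ₀ hY₀ hQn
    have hden : Tendsto (fun j => ((1 - l j ^ 2 * ‖Q j‖ ^ 2 : ℝ) : ℂ)) atTop (𝓝 ((1 - l₀ ^ 2 * ‖Q₀‖ ^ 2 : ℝ) : ℂ)) :=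
      (Complex.continuous_ofReal.tendsto _).comp (tendsto_const_nhds.sub ((hl₀.pow 2).mul (hQ₀.norm.pow 2)))
    refine Tendsto.div (hY₀.add ((hlc.mul hQ₀).mul ((hcj.tendsto Y₀).comp hY₀))) hden ?_
    exact_mod_cast Lj_ne hl₀1 h0 h1 hQn
  have hqμ : ‖conj μ ^ (n + 1)‖ ≤ μ₀ := Lj_qle h0 h1 hμ n
  have hfh : ∀ (l' : ℝ) (ν N : ℂ), fh l' ν N n =
      (N + l' * conj ν ^ (n + 1) * conj N) / ((1 - l' ^ 2 * ‖conj ν ^ (n + 1)‖ ^ 2 : ℝ) : ℂ) := by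
    intro l' ν N
    unfold fh
    rw [Lj_nq]
  have hF1 : Tendsto (fun j => fh (l j) (p j) (M j) n) atTop (𝓝 (fh l₀ μ M₀ n)) := by
    simp only [hfh]
    exact hcont _ _ _ _ hQ.1 hMK.1 hqμ
  have hF2 : Tendsto (fun j => fh (l j) (q j) (K j) n) atTop (𝓝 (fh l₀ μ M₀ n)) := by
    simp only [hfh]
    exact hcont _ _ _ _ hQ.2.1 hMK.2.1 hqμ
  have hi1 : ∀ j, M j = fh (l j) (p j) (M j) n - l j * conj (p j) ^ (n + 1) * conj (fh (l j) (p j) (M j) n) := by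
    intro j
    rw [hfh]
    exact (Lj_inv (Lj_ne (hl j) h0 h1 (Lj_qle h0 h1 (hp j) n))).symm
  have hi2 : ∀ j, K j = fh (l j) (q j) (K j) n - l j * conj (q j) ^ (n + 1) * conj (fh (l j) (q j) (K j) n) := by
    intro j
    rw [hfh]
    exact (Lj_inv (Lj_ne (hl j) h0 h1 (Lj_qle h0 h1 (hq j) n))).symm
  obtain ⟨Y₀, hY₀⟩ : ∃ Y₀ : ℂ, Y₀ = M' + l₀ * (((n : ℂ) + 1) * conj μ ^ n * conj β) * conj (fh l₀ μ M₀ n) := ⟨_, rfl⟩
  have hY : Tendsto (fun j => (K j - M j) / (d j : ℂ) + l j * ((conj (q j) ^ (n + 1) - conj (p j) ^ (n + 1)) / (d j : ℂ)) *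
      conj (fh (l j) (p j) (M j) n)) atTop (𝓝 Y₀) := by
    rw [hY₀]
    exact hMK.2.2.add ((hlc.mul hQ.2.2).mul ((hcj.tendsto _).comp hF1))
  obtain ⟨X, hX⟩ : ∃ X : ℂ, X = (Y₀ + l₀ * conj μ ^ (n + 1) * conj Y₀) / ((1 - l₀ ^ 2 * ‖conj μ ^ (n + 1)‖ ^ 2 : ℝ) : ℂ) := ⟨_, rfl⟩
  refine ⟨X, ⟨hF1, hF2, ?_⟩, ?_⟩
  · have h2 := hcont _ _ _ _ hQ.2.1 hY hqμ
    rw [← hX] at h2
    refine h2.congr fun j => ?_
    symm
    refine Lj_inv' (Lj_ne (hl j) h0 h1 (Lj_qle h0 h1 (hq j) n)) ?_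
    have e1 := hi1 j
    have e2 := hi2 j
    beta_reduce
    obtain ⟨u, hu⟩ : ∃ u : ℂ, u = fh (l j) (p j) (M j) n := ⟨_, rfl⟩
    obtain ⟨v, hv⟩ : ∃ v : ℂ, v = fh (l j) (q j) (K j) n := ⟨_, rfl⟩
    rw [← hu] at e1 ⊢
    rw [← hv] at e2 ⊢
    rw [e1, e2, map_div₀, Complex.conj_ofReal, map_sub]
    ring
  · have h3 := Lj_inv (l := l₀) (q := conj μ ^ (n + 1)) (Y := Y₀) (Lj_ne hl₀1 h0 h1 hqμ)
    rw [← hX] at h3
    have e3 : M' = Y₀ - l₀ * (((n : ℂ) + 1) * conj μ ^ n * conj β) * conj (fh l₀ μ M₀ n) := by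
      rw [hY₀]
      ring
    rw [e3]
    nth_rewrite 1 [← h3]
    ring

private theorem Lj_al (ν : ℂ) (n : ℕ) : ((1 - ‖ν‖ ^ (2 * (n + 1)) : ℝ) : ℂ) / ((n : ℂ) + 1) =
    1 / ((n : ℂ) + 1) + (-1 / ((n : ℂ) + 1)) * (ν * conj ν) ^ (n + 1) := by
  have h1 : ν * conj ν = ((‖ν‖ ^ 2 : ℝ) : ℂ) := by rw [Complex.mul_conj, Complex.normSq_eq_norm_sq]
  rw [h1, pow_mul]
  push_cast
  ring

private theorem Lj_alD {d : ℕ → ℝ} {p q : ℕ → ℂ} {μ β : ℂ} (h : LjD d p q μ β) (n : ℕ) :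
    LjD d (fun j => ((1 - ‖p j‖ ^ (2 * (n + 1)) : ℝ) : ℂ) / ((n : ℂ) + 1))
      (fun j => ((1 - ‖q j‖ ^ (2 * (n + 1)) : ℝ) : ℂ) / ((n : ℂ) + 1)) (((1 - ‖μ‖ ^ (2 * (n + 1)) : ℝ) : ℂ) / ((n : ℂ) + 1))
      (-((‖μ‖ ^ (2 * n) * (2 * (conj μ * β).re) : ℝ) : ℂ)) := by
  have h1 := LjD_pow (LjD_mul h (LjD_conj h)) n
  have h2 := LjD_add (LjD_const d (1 / ((n : ℂ) + 1))) (LjD_mul (LjD_const d (-1 / ((n : ℂ) + 1))) h1)
  have hn : ((n : ℂ) + 1) ≠ 0 := by exact_mod_cast Nat.succ_ne_zero n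
  have h3 : μ * conj μ = ((‖μ‖ ^ 2 : ℝ) : ℂ) := by rw [Complex.mul_conj, Complex.normSq_eq_norm_sq]
  have h4 : β * conj μ + μ * conj β = ((2 * (conj μ * β).re : ℝ) : ℂ) := by
    have e : μ * conj β = conj (β * conj μ) := by rw [map_mul, Complex.conj_conj, mul_comm]
    rw [e, Complex.add_conj, mul_comm β (conj μ)]
  have e1 : 0 + (0 * (μ * conj μ) ^ (n + 1) + -1 / ((n : ℂ) + 1) *
      (((n : ℂ) + 1) * (μ * conj μ) ^ n * (β * conj μ + μ * conj β))) =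
      -((‖μ‖ ^ (2 * n) * (2 * (conj μ * β).re) : ℝ) : ℂ) := by
    rw [h4, h3, pow_mul]
    push_cast
    field_simp
    ring
  rw [e1] at h2
  simp only [Lj_al]
  exact h2

theorem T2G {μ₀ ρ : ℝ} (h0 : 0 ≤ μ₀) (h1 : μ₀ < ρ ^ 2) (hρ : 0 < ρ) (hρ1 : ρ < 1) {S : Sq} {μ : ℂ} {a : ℝ} {γ β : ℂ}
    (hS : LimG S μ₀ μ a γ β) {l : ℕ → ℝ} {l₀ : ℝ} (hl : ∀ j, |l j| ≤ 1) (hl₀ : Tendsto l atTop (𝓝 l₀)) {N : ℕ → Set ℂ}
    {m : ℕ → ℂ → ℂ} {m₀ : ℂ → ℂ} (hs : SolG S ρ l N m) (hm : LBG S μ m m₀) {f : ℕ → ℂ}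
    (hf : ∀ n, f n = fh l₀ μ (fc 0 1 μ m₀ ρ (n + 1)) n) :
    ∃ w : ℕ → ℂ, (∀ n : ℕ, cz ρ (fun x => zt μ a γ β x * m₀ (zw μ x)) ((n : ℤ) + 1) =
        w n - l₀ * conj μ ^ n * conj β * conj (f n) - l₀ * conj μ ^ (n + 1) * conj (w n)) ∧
      ∀ n : ℕ, ∑ k ∈ Finset.range (n + 1), Pc μ a γ β (n - k) * ((1 - ‖μ‖ ^ (2 * (k + 1)) : ℝ) : ℂ) * conj (f k) =
        ((‖μ‖ ^ (2 * n) * (2 * (conj μ * β).re) : ℝ) : ℂ) * conj (f n) - ((1 - ‖μ‖ ^ (2 * (n + 1)) : ℝ) : ℂ) * conj (w n) := by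
  have hμ₀1 : μ₀ < 1 := by nlinarith
  have hr₂ : ∀ j, 0 < S.r₂ j := by
    intro j
    have h2 := hS.small j
    have h3 : |1 - S.r₂ j| ≤ S.d j := by
      unfold Sq.d dd
      have := norm_nonneg (0 - S.c₂ j)
      have := norm_nonneg (S.μ₁ j - S.μ₂ j)
      linarith
    have h4 := (abs_le.mp (h3.trans h2)).2
    linarith
  have hD : LjD S.d S.μ₁ S.μ₂ μ β := ⟨hS.lm1, hS.lm2, hS.lb⟩
  have hn0 : ∀ n : ℕ, ((n : ℂ) + 1) ≠ 0 := fun n => by exact_mod_cast Nat.succ_ne_zero n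
  have hfD : ∀ {F : ℕ → ℂ → ℂ} {F₀ : ℂ → ℂ}, LBG S μ F F₀ → ∀ n : ℕ,
      LjD S.d (fun j => fc 0 1 (S.μ₁ j) (F j) ρ (n + 1)) (fun j => fc (S.c₂ j) (S.r₂ j) (S.μ₂ j) (F j) ρ (n + 1))
        (fc 0 1 μ F₀ ρ (n + 1)) (((n : ℂ) + 1) * cz ρ (fun w => zt μ a γ β w * F₀ (zw μ w)) ((n : ℤ) + 1)) :=
    fun hF n => ⟨(fcLG h0 h1 hρ hρ1 hS hF n).1, (fcLG h0 h1 hρ hρ1 hS hF n).2, fcDG h0 h1 hρ hρ1 hS hF n⟩
  have hX : ∀ n : ℕ, ∃ X : ℂ, LjD S.d (fun j => fh (l j) (S.μ₁ j) (fc 0 1 (S.μ₁ j) (m j) ρ (n + 1)) n)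
      (fun j => fh (l j) (S.μ₂ j) (fc (S.c₂ j) (S.r₂ j) (S.μ₂ j) (m j) ρ (n + 1)) n) (f n) X ∧
      ((n : ℂ) + 1) * cz ρ (fun w => zt μ a γ β w * m₀ (zw μ w)) ((n : ℤ) + 1) =
        X - l₀ * (((n : ℂ) + 1) * conj μ ^ n * conj β) * conj (f n) - l₀ * conj μ ^ (n + 1) * conj X := by
    intro n
    rw [hf n]
    exact Lj_fh hl hl₀ h0 hμ₀1 hS.m1 hS.m2 hD (hfD hm n) n
  choose X hX1 hX2 using hX
  refine ⟨fun n => X n / ((n : ℂ) + 1), ?_, ?_⟩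
  · intro n
    have h2 := hX2 n
    have hcn : conj (X n / ((n : ℂ) + 1)) = conj (X n) / ((n : ℂ) + 1) := by
      rw [map_div₀, map_add, map_one, Complex.conj_natCast]
    apply mul_left_cancel₀ (hn0 n)
    rw [h2]
    beta_reduce
    rw [hcn]
    have h3 := hn0 n
    field_simp
  · intro n
    have hcn : ∀ k : ℕ, conj (X k) = ((k : ℂ) + 1) * conj (X k / ((k : ℂ) + 1)) := by
      intro k
      rw [map_div₀, map_add, map_one, Complex.conj_natCast]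
      have h3 := hn0 k
      field_simp
    have key : ∀ b : ℕ, ∑ n ∈ Finset.range (b + 1),
        ((-((‖μ‖ ^ (2 * n) * (2 * (conj μ * β).re) : ℝ) : ℂ) * conj (f n) +
            ((1 - ‖μ‖ ^ (2 * (n + 1)) : ℝ) : ℂ) * conj (X n / ((n : ℂ) + 1))) *
            (LjK ρ μ b (n : ℤ) - μ * LjK ρ μ b ((n + 2 : ℕ) : ℤ)) +
          (((1 - ‖μ‖ ^ (2 * (n + 1)) : ℝ) : ℂ) * conj (f n)) *
            (γ * LjK ρ μ b ((n + 1 : ℕ) : ℤ) + a * LjK ρ μ b (n : ℤ) + (a * μ + β) * LjK ρ μ b ((n + 2 : ℕ) : ℤ))) = 0 := by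
      intro b
      have hAD := hfD (LBG.const hμ₀1 hS (f := fun z => z ^ b) (differentiable_id.pow b))
      have hsum := LjD_sum (Finset.range (b + 1)) (fun n _ => LjD_mul (LjD_mul (Lj_alD hD n) (LjD_conj (hX1 n))) (hAD n))
      have hzero : ∀ j, (∑ n ∈ Finset.range (b + 1), ((1 - ‖S.μ₂ j‖ ^ (2 * (n + 1)) : ℝ) : ℂ) / ((n : ℂ) + 1) *
            conj (fh (l j) (S.μ₂ j) (fc (S.c₂ j) (S.r₂ j) (S.μ₂ j) (m j) ρ (n + 1)) n) *
            fc (S.c₂ j) (S.r₂ j) (S.μ₂ j) (fun z => z ^ b) ρ (n + 1) -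
          ∑ n ∈ Finset.range (b + 1), ((1 - ‖S.μ₁ j‖ ^ (2 * (n + 1)) : ℝ) : ℂ) / ((n : ℂ) + 1) *
            conj (fh (l j) (S.μ₁ j) (fc 0 1 (S.μ₁ j) (m j) ρ (n + 1)) n) *
            fc 0 1 (S.μ₁ j) (fun z => z ^ b) ρ (n + 1)) / (S.d j : ℂ) = 0 := by
        intro j
        have h2 := mom h0 h1 hρ hρ1 one_pos (hr₂ j) (hS.m1 j) (hS.m2 j) (hl j) (hs.opn j) (hs.sub₁ j) (hs.sub₂ j)
          (hs.hol j) b (hs.idn j (fun z => z ^ b) (differentiable_id.pow b).differentiableOn)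
        rw [h2, sub_self, zero_div]
      have hlim := hsum.2.2.congr hzero
      have h3 := tendsto_nhds_unique hlim (tendsto_const_nhds (x := (0 : ℂ)))
      rw [← h3]
      refine Finset.sum_congr rfl fun k _ => ?_
      rw [Lj_fcA hρ, Lj_Z hρ, hcn k]
      have e1 : ((k + 1 : ℕ) : ℤ) = (k : ℤ) + 1 := by push_cast; ring
      have e2 : ((k + 2 : ℕ) : ℤ) = (k : ℤ) + 2 := by push_cast; ring
      rw [e1, e2]
      have h4 := hn0 k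
      field_simp
    have hfin := Lj_elim μ a γ β (fun b k => LjK ρ μ b (k : ℤ)) (fun b k hk => LjK_high hρ μ b _ (by exact_mod_cast hk))
      (fun b => LjK_top hρ μ b) (fun k => ((1 - ‖μ‖ ^ (2 * (k + 1)) : ℝ) : ℂ) * conj (f k)) _ key n
    have h5 : ∑ k ∈ Finset.range (n + 1), Pc μ a γ β (n - k) * ((1 - ‖μ‖ ^ (2 * (k + 1)) : ℝ) : ℂ) * conj (f k) =
        ∑ k ∈ Finset.range (n + 1), Pc μ a γ β (n - k) * (((1 - ‖μ‖ ^ (2 * (k + 1)) : ℝ) : ℂ) * conj (f k)) :=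
      Finset.sum_congr rfl fun k _ => mul_assoc _ _ _
    rw [h5]
    linear_combination hfin

end LD1
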