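import Pool.Agent.H1.LD.D
import Pool.Agent.H86.LK.C
import Pool.Agent.H49.LK.A

/-!
ROW LD/Lk. Series. `anaG`: `E(w) = F (zw μ w) pw μ w` is holomorphic for `‖μ‖ < ‖w‖ < 1` (then `zw μ w ∈ Dp 0 1 μ 1`: `crv` in `EW/Fb.lean`) and `E (μ/w) = -E w`, so its Laurent coefficients satisfy `E_(-n) = -μⁿ E_n`, `E_0 = 0`, `E_n = fc 0 1 μ F ρ n`. Laurent expansion: e.g. from a primitive `Φ` of `F` on the (convex) ellipse, or from
the Cauchy integral formula on the annulus, or: two continuous functions on a circle with the same Fourier coefficients are equal, and the coefficients do not depend on the radius (Cauchy on the annulus); growth: `‖E_n‖ ≤ C_s s^(-n)` for `s < 1`. (For `μ = 0`: Taylor series.) `czP`: multiply by `zt/pw = ∑ Pc k w^(-k)`, absolutely convergent for `‖w‖ = ρ`,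
`‖μ‖ < ρ²` (`‖Pc k‖ ≤ C ‖μ‖^((k-2)/2)`), the negative powers do not contribute. `sE_hol`, `sY_hol`: locally uniform convergence. `sE_inj`: uniqueness of the coefficients.
-/

set_option autoImplicit false

namespace LD1

open Complex Set Filter Topology MeasureTheory EW1 EX1 ND1
open scoped ComplexConjugate ContDiff Real

/-! `sE_hol`, `sY_hol`, `sE_inj` are in `Pool/Agent/H49/LK/A.lean` (helper49). -/

theorem anaG {μ : ℂ} (hμ : ‖μ‖ < 1) {ρ : ℝ} (hρ : 0 < ρ) (h1 : ‖μ‖ < ρ ^ 2) (hρ1 : ρ < 1) {F : ℂ → ℂ}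
    (hF : DifferentiableOn ℂ F (Dp 0 1 μ 1)) : Gr (fun n => fc 0 1 μ F ρ (n + 1)) ∧
    ∀ w : ℂ, ‖μ‖ < ‖w‖ → ‖w‖ < 1 → zw μ w ∈ Dp 0 1 μ 1 ∧ F (zw μ w) * pw μ w = sE μ (fun n => fc 0 1 μ F ρ (n + 1)) w := by
  exact Lk_anaG hμ hρ h1 hρ1 hF

theorem czP {μ : ℂ} (hμ : ‖μ‖ < 1) {ρ : ℝ} (hρ : 0 < ρ) (h1 : ‖μ‖ < ρ ^ 2) (hρ1 : ρ < 1) {F : ℂ → ℂ}
    (hF : DifferentiableOn ℂ F (Dp 0 1 μ 1)) (a : ℝ) (γ β : ℂ) (n : ℕ) :
    cz ρ (fun x => zt μ a γ β x * F (zw μ x)) ((n : ℤ) + 1) = ∑' k : ℕ, Pc μ a γ β k * fc 0 1 μ F ρ (n + k + 1) := by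
  exact Lk_czP hμ hρ h1 hρ1 hF a γ β n

end LD1
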