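import Pool.Agent.H1.LD.D
import Pool.Agent.H1.EW.Fb

/-!
LD/LkC: part of the row LD/Lk: the coefficients of `zt F(zw)` (termwise integration).
-/

set_option autoImplicit false

namespace H66LD

open Complex Set Filter Topology MeasureTheory EW1 EX1 ND1 LD1
open scoped ComplexConjugate ContDiff Real

private theorem LkC_odd (μ : ℂ) (a : ℝ) (γ β : ℂ) (k : ℕ) : Pc μ a γ β (2 * k + 1) = γ * μ ^ k := by
  induction k with
  | zero => simp [Pc]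
  | succ k ih =>
    show Pc μ a γ β (2 * k + 3) = _
    rw [Pc, ih, pow_succ]
    ring

private theorem LkC_even (μ : ℂ) (a : ℝ) (γ β : ℂ) (k : ℕ) : Pc μ a γ β (2 * k + 2) = (2 * a * μ + β) * μ ^ k := by
  induction k with
  | zero => simp [Pc]
  | succ k ih =>
    show Pc μ a γ β (2 * k + 1 + 3) = _
    rw [Pc, show 2 * k + 1 + 1 = 2 * k + 2 from rfl, ih, pow_succ]
    ring

private theorem LkC_alg {μ x u : ℂ} (hu : u = μ * x⁻¹ ^ 2) (hx : x ≠ 0) (hu0 : 1 - u ≠ 0) (a : ℝ) (γ β : ℂ) :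
    zt μ a γ β x / pw μ x = a + (2 * a * μ + β) * x⁻¹ ^ 2 * (1 - u)⁻¹ + γ * x⁻¹ * (1 - u)⁻¹ := by
  have hpw : pw μ x = x * (1 - u) := by
    rw [hu]
    unfold pw
    field_simp
  have hμ : μ = u * x ^ 2 := by
    rw [hu]
    field_simp
  have e2 : a + (2 * a * μ + β) * x⁻¹ ^ 2 * (1 - u)⁻¹ + γ * x⁻¹ * (1 - u)⁻¹ =
      (a * (1 - u) + (2 * a * μ + β) * x⁻¹ ^ 2 + γ * x⁻¹) / (1 - u) := by
    rw [eq_div_iff hu0]
    have h3 : (1 - u)⁻¹ * (1 - u) = 1 := inv_mul_cancel₀ hu0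
    linear_combination ((2 * a * μ + β) * x⁻¹ ^ 2 + γ * x⁻¹) * h3
  have e3 : zt μ a γ β x = x * (a * (1 - u) + (2 * a * μ + β) * x⁻¹ ^ 2 + γ * x⁻¹) := by
    unfold zt
    have h4 : x * x⁻¹ = 1 := mul_inv_cancel₀ hx
    rw [hμ]
    linear_combination (-(γ + β * x⁻¹ + a * u * x * (1 + 2 * (x * x⁻¹)))) * h4
  rw [e2, hpw, e3, mul_div_mul_left _ _ hx]

/-- the expansion of `zt / pw` -/
theorem LkC_zt {μ : ℂ} (a : ℝ) (γ β : ℂ) {x : ℂ} (hx : x ≠ 0) (h : ‖μ‖ < ‖x‖ ^ 2) :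
    pw μ x ≠ 0 ∧ HasSum (fun k : ℕ => Pc μ a γ β k * x⁻¹ ^ k) (zt μ a γ β x / pw μ x) := by
  obtain ⟨u, hu⟩ : ∃ u : ℂ, u = μ * x⁻¹ ^ 2 := ⟨_, rfl⟩
  have hx2 : 0 < ‖x‖ ^ 2 := by
    have := norm_pos_iff.2 hx
    positivity
  have hu1 : ‖u‖ < 1 := by
    rw [hu, norm_mul, norm_pow, norm_inv, inv_pow, ← div_eq_mul_inv, div_lt_one hx2]
    exact h
  have hu0 : 1 - u ≠ 0 := by
    intro h0
    have : u = 1 := (sub_eq_zero.1 h0).symm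
    rw [this, norm_one] at hu1
    exact lt_irrefl _ hu1
  have hpw : pw μ x = x * (1 - u) := by
    rw [hu]
    unfold pw
    field_simp
  have hgeo := hasSum_geometric_of_norm_lt_one hu1
  have hodd : HasSum (fun k : ℕ => Pc μ a γ β (2 * k + 1) * x⁻¹ ^ (2 * k + 1)) (γ * x⁻¹ * (1 - u)⁻¹) := by
    have e : (fun k : ℕ => Pc μ a γ β (2 * k + 1) * x⁻¹ ^ (2 * k + 1)) = fun k : ℕ => γ * x⁻¹ * u ^ k := by
      funext k
      rw [LkC_odd, hu, mul_pow, ← pow_mul, pow_succ]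
      ring
    rw [e]
    exact hgeo.mul_left _
  have h1 : HasSum (fun k : ℕ => Pc μ a γ β (2 * (k + 1)) * x⁻¹ ^ (2 * (k + 1)))
      ((2 * a * μ + β) * x⁻¹ ^ 2 * (1 - u)⁻¹) := by
    have e : (fun k : ℕ => Pc μ a γ β (2 * (k + 1)) * x⁻¹ ^ (2 * (k + 1))) =
        fun k : ℕ => (2 * a * μ + β) * x⁻¹ ^ 2 * u ^ k := by
      funext k
      rw [show 2 * (k + 1) = 2 * k + 2 from rfl, LkC_even, hu, mul_pow, ← pow_mul, pow_add]
      ring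
    rw [e]
    exact hgeo.mul_left _
  have heven : HasSum (fun k : ℕ => Pc μ a γ β (2 * k) * x⁻¹ ^ (2 * k))
      (a + (2 * a * μ + β) * x⁻¹ ^ 2 * (1 - u)⁻¹) := by
    have h2 := h1.zero_add (f := fun k : ℕ => Pc μ a γ β (2 * k) * x⁻¹ ^ (2 * k))
    have e : Pc μ a γ β (2 * 0) * x⁻¹ ^ (2 * 0) = (a : ℂ) := by
      show Pc μ a γ β 0 * x⁻¹ ^ 0 = (a : ℂ)
      rw [pow_zero, mul_one, Pc]
    rw [e] at h2
    exact h2
  refine ⟨by rw [hpw]; exact mul_ne_zero hx hu0, ?_⟩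
  rw [LkC_alg hu hx hu0]
  exact heven.even_add_odd hodd

private theorem LkC_pr {ρ : ℝ} (hρ : 0 < ρ) (t : ℝ) : ‖pr ρ t‖ = ρ := by
  unfold pr
  rw [norm_mul, Complex.norm_exp_ofReal_mul_I, mul_one, Complex.norm_real, Real.norm_eq_abs, abs_of_pos hρ]

private theorem LkC_pr_cont (ρ : ℝ) : Continuous (pr ρ) := by
  unfold pr
  fun_prop

private theorem LkC_mem {μ : ℂ} {ρ : ℝ} (hρ : 0 < ρ) (h1 : ‖μ‖ < ρ ^ 2) (hρ1 : ρ < 1) {w : ℂ} (hw : ‖w‖ = ρ) :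
    zw μ w ∈ Dp 0 1 μ 1 := by
  have h2 := crv (norm_nonneg μ) h1 hρ hρ1 (c := 0) (r := 1) one_pos (μ := μ) le_rfl hw
  have e : (0 : ℂ) + ((1 : ℝ) : ℂ) * (w + μ * w⁻¹) = zw μ w := by
    unfold zw
    push_cast
    ring
  rw [e] at h2
  show ‖vv 0 1 μ (zw μ w)‖ < 1
  refine h2.trans_lt ?_
  have hμ0 := norm_nonneg μ
  rw [div_lt_one (by positivity)]
  have h3 : ‖μ‖ < ρ := by nlinarith
  nlinarith

theorem Lk_czP {μ : ℂ} {ρ : ℝ} (hρ : 0 < ρ) (h1 : ‖μ‖ < ρ ^ 2) (hρ1 : ρ < 1) {F : ℂ → ℂ}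
    (hF : DifferentiableOn ℂ F (Dp 0 1 μ 1)) (a : ℝ) (γ β : ℂ) (n : ℕ) :
    cz ρ (fun x => zt μ a γ β x * F (zw μ x)) ((n : ℤ) + 1) = ∑' k : ℕ, Pc μ a γ β k * fc 0 1 μ F ρ (n + k + 1) := by
  have hne : ∀ t, pr ρ t ≠ 0 := fun t => norm_pos_iff.1 (by rw [LkC_pr hρ t]; exact hρ)
  have hpc := LkC_pr_cont ρ
  have hpi : Continuous fun t => (pr ρ t)⁻¹ := hpc.inv₀ hne
  have hzc : Continuous fun t => zw μ (pr ρ t) := by
    unfold zw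
    exact hpc.add (continuous_const.mul hpi)
  have hwc : Continuous fun t => pw μ (pr ρ t) := by
    unfold pw
    exact hpc.sub (continuous_const.mul hpi)
  have hFc : Continuous fun t => F (zw μ (pr ρ t)) :=
    hF.continuousOn.comp_continuous hzc fun t => LkC_mem hρ h1 hρ1 (LkC_pr hρ t)
  have hGc : Continuous fun t => F (zw μ (pr ρ t)) * pw μ (pr ρ t) := hFc.mul hwc
  obtain ⟨B, hB⟩ : ∃ B : ℝ, ∀ t ∈ Set.uIcc (0 : ℝ) (2 * π), ‖F (zw μ (pr ρ t)) * pw μ (pr ρ t)‖ ≤ B :=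
    isCompact_uIcc.exists_bound_of_continuousOn hGc.continuousOn
  have hfc : ∀ m : ℕ, fc 0 1 μ F ρ m =
      (∫ t in (0 : ℝ)..(2 * π), F (zw μ (pr ρ t)) * pw μ (pr ρ t) * (pr ρ t)⁻¹ ^ m) / (2 * π) := by
    intro m
    unfold fc
    congr 1
    refine intervalIntegral.integral_congr (fun t _ => ?_)
    simp only [zw, pw, pr, zero_add, Complex.ofReal_one, one_mul]
  have hρC : (ρ : ℂ) ≠ 0 := by exact_mod_cast hρ.ne'
  have hsP : Summable (fun k : ℕ => ‖Pc μ a γ β k‖ * ρ⁻¹ ^ k) := by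
    have h2 := (LkC_zt (μ := μ) a γ β hρC (by rw [Complex.norm_real, Real.norm_of_nonneg hρ.le]; exact h1)).2.summable.norm
    refine h2.congr (fun k => ?_)
    rw [norm_mul, norm_pow, norm_inv, Complex.norm_real, Real.norm_of_nonneg hρ.le]
  have hterm : ∀ k : ℕ, Pc μ a γ β k * fc 0 1 μ F ρ (n + k + 1) =
      (∫ t in (0 : ℝ)..(2 * π), Pc μ a γ β k * (F (zw μ (pr ρ t)) * pw μ (pr ρ t) * (pr ρ t)⁻¹ ^ (n + k + 1))) / (2 * π) := by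
    intro k
    rw [hfc, intervalIntegral.integral_const_mul]
    ring
  have hH : HasSum (fun k : ℕ => ∫ t in (0 : ℝ)..(2 * π),
      Pc μ a γ β k * (F (zw μ (pr ρ t)) * pw μ (pr ρ t) * (pr ρ t)⁻¹ ^ (n + k + 1)))
      (∫ t in (0 : ℝ)..(2 * π), zt μ a γ β (pr ρ t) * F (zw μ (pr ρ t)) * pr ρ t ^ (-((n : ℤ) + 1))) := by
    refine intervalIntegral.hasSum_integral_of_dominated_convergence
      (fun (k : ℕ) (_ : ℝ) => (‖Pc μ a γ β k‖ * ρ⁻¹ ^ k) * (B * ρ⁻¹ ^ (n + 1))) ?_ ?_ ?_ ?_ ?_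
    · intro k
      exact (continuous_const.mul (hGc.mul (hpi.pow _))).aestronglyMeasurable
    · intro k
      filter_upwards with t ht
      have hBt := hB t (Set.uIoc_subset_uIcc ht)
      rw [norm_mul, norm_mul, norm_pow, norm_inv, LkC_pr hρ t]
      calc ‖Pc μ a γ β k‖ * (‖F (zw μ (pr ρ t)) * pw μ (pr ρ t)‖ * ρ⁻¹ ^ (n + k + 1))
          ≤ ‖Pc μ a γ β k‖ * (B * ρ⁻¹ ^ (n + k + 1)) := by gcongr
        _ = (‖Pc μ a γ β k‖ * ρ⁻¹ ^ k) * (B * ρ⁻¹ ^ (n + 1)) := by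
            rw [show n + k + 1 = k + (n + 1) by ring, pow_add]
            ring
    · filter_upwards with t _
      exact hsP.mul_right _
    · exact intervalIntegrable_const
    · filter_upwards with t _
      have hx := hne t
      obtain ⟨hp0, hs⟩ := LkC_zt (μ := μ) a γ β hx (by rw [LkC_pr hρ t]; exact h1)
      have h3 := hs.mul_right (F (zw μ (pr ρ t)) * pw μ (pr ρ t) * (pr ρ t)⁻¹ ^ (n + 1))
      have e1 : (fun k : ℕ => Pc μ a γ β k * (F (zw μ (pr ρ t)) * pw μ (pr ρ t) * (pr ρ t)⁻¹ ^ (n + k + 1))) =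
          fun k : ℕ => Pc μ a γ β k * (pr ρ t)⁻¹ ^ k * (F (zw μ (pr ρ t)) * pw μ (pr ρ t) * (pr ρ t)⁻¹ ^ (n + 1)) := by
        funext k
        rw [show n + k + 1 = k + (n + 1) by ring, pow_add]
        ring
      have e2 : zt μ a γ β (pr ρ t) * F (zw μ (pr ρ t)) * pr ρ t ^ (-((n : ℤ) + 1)) =
          zt μ a γ β (pr ρ t) / pw μ (pr ρ t) * (F (zw μ (pr ρ t)) * pw μ (pr ρ t) * (pr ρ t)⁻¹ ^ (n + 1)) := by
        rw [zpow_neg, ← inv_zpow, show ((n : ℤ) + 1) = ((n + 1 : ℕ) : ℤ) by push_cast; rfl, zpow_natCast]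
        field_simp
      rw [e1, e2]
      exact h3
  have hH2 := hH.div_const (2 * π : ℂ)
  unfold cz
  rw [← hH2.tsum_eq]
  exact tsum_congr (fun k => (hterm k).symm)

end H66LD
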