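import Pool.Agent.H1.LD.D

/-!
LD/LkS: part of the row LD/Lk: convergence and uniqueness of the series `sE`, `sY`.
-/

set_option autoImplicit false

namespace H66LD

open Complex Set Filter Topology MeasureTheory EW1 EX1 ND1 LD1
open scoped ComplexConjugate ContDiff Real

/-- the power series `∑ f_n z^(n+1)` -/
private noncomputable def LkS_P (f : ℕ → ℂ) (z : ℂ) : ℂ := ∑' n : ℕ, f n * z ^ (n + 1)

private theorem LkS_loc {f : ℕ → ℂ} {z : ℂ} {s C : ℝ} (hz : ‖z‖ < s) (hC : ∀ n, ‖f n‖ * s ^ n ≤ C) :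
    DifferentiableAt ℂ (LkS_P f) z ∧ Summable (fun n : ℕ => f n * z ^ (n + 1)) := by
  have hs : 0 < s := (norm_nonneg z).trans_lt hz
  obtain ⟨s', h1, h2⟩ := exists_between hz
  have hs' : 0 < s' := (norm_nonneg z).trans_lt h1
  have hC0 : 0 ≤ C := by
    have := hC 0
    rw [pow_zero, mul_one] at this
    exact (norm_nonneg _).trans this
  have hq : s' / s < 1 := (div_lt_one hs).2 h2
  have hsum : Summable (fun n : ℕ => (C * s') * (s' / s) ^ n) :=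
    (summable_geometric_of_lt_one (by positivity) hq).mul_left _
  have hb : ∀ (n : ℕ) (w : ℂ), ‖w‖ ≤ s' → ‖f n * w ^ (n + 1)‖ ≤ (C * s') * (s' / s) ^ n := by
    intro n w hw
    rw [norm_mul, norm_pow]
    have e1 : ‖w‖ ^ (n + 1) ≤ s' ^ (n + 1) := pow_le_pow_left₀ (norm_nonneg _) hw _
    have e2 : ‖f n‖ ≤ C / s ^ n := by
      rw [le_div_iff₀ (by positivity)]
      exact hC n
    calc ‖f n‖ * ‖w‖ ^ (n + 1) ≤ (C / s ^ n) * s' ^ (n + 1) := by gcongr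
      _ = (C * s') * (s' / s) ^ n := by
          rw [div_pow, pow_succ]
          ring
  constructor
  · have h3 : DifferentiableOn ℂ (fun w => ∑' n : ℕ, f n * w ^ (n + 1)) (Metric.ball 0 s') :=
      differentiableOn_tsum_of_summable_norm hsum (fun n => by fun_prop) Metric.isOpen_ball
        (fun n w hw => hb n w (by
          rw [mem_ball_zero_iff] at hw
          exact hw.le))
    exact h3.differentiableAt (Metric.isOpen_ball.mem_nhds (by rw [mem_ball_zero_iff]; exact h1))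
  · exact Summable.of_norm_bounded hsum (fun n => hb n z h1.le)

private theorem LkS_gr {f : ℕ → ℂ} (hf : Gr f) {z : ℂ} (hz : ‖z‖ < 1) :
    DifferentiableAt ℂ (LkS_P f) z ∧ Summable (fun n : ℕ => f n * z ^ (n + 1)) := by
  obtain ⟨s, h1, h2⟩ := exists_between hz
  obtain ⟨C, hC⟩ := hf s ((norm_nonneg z).trans_lt h1) h2
  exact LkS_loc h1 hC

private theorem LkS_dc {μ : ℂ} {g : ℕ → ℂ} (hg : Dc μ g) {z : ℂ} (hz : ‖z‖ * ‖μ‖ < 1) :
    DifferentiableAt ℂ (LkS_P g) z ∧ Summable (fun n : ℕ => g n * z ^ (n + 1)) := by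
  obtain ⟨s, h1, h2⟩ : ∃ s : ℝ, ‖z‖ < s ∧ s * ‖μ‖ < 1 := by
    rcases eq_or_ne μ 0 with h | h
    · subst h
      exact ⟨‖z‖ + 1, by linarith, by simp⟩
    · have hμ : 0 < ‖μ‖ := norm_pos_iff.2 h
      obtain ⟨s, h1, h2⟩ := exists_between ((lt_div_iff₀ hμ).2 hz)
      exact ⟨s, h1, (lt_div_iff₀ hμ).1 h2⟩
  obtain ⟨C, hC⟩ := hg s ((norm_nonneg z).trans_lt h1) h2
  exact LkS_loc h1 hC

private theorem LkS_mul (f : ℕ → ℂ) (μ w : ℂ) (n : ℕ) : f n * (w ^ (n + 1) - (μ * w⁻¹) ^ (n + 1)) =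
    f n * w ^ (n + 1) - f n * (μ * w⁻¹) ^ (n + 1) := by ring

private theorem LkS_ne {r : ℝ} {w : ℂ} (hr : 0 ≤ r) (h : r < ‖w‖) : w ≠ 0 := norm_pos_iff.1 (hr.trans_lt h)

private theorem LkS_inv1 {μ w : ℂ} (h : ‖μ‖ < ‖w‖) : ‖μ * w⁻¹‖ < 1 := by
  have hw : 0 < ‖w‖ := (norm_nonneg μ).trans_lt h
  rw [norm_mul, norm_inv, ← div_eq_mul_inv, div_lt_one hw]
  exact h

private theorem LkS_inv2 {μ w : ℂ} (h : ‖μ‖ ^ 2 < ‖w‖) : ‖μ * w⁻¹‖ * ‖μ‖ < 1 := by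
  have hw : 0 < ‖w‖ := (sq_nonneg _).trans_lt h
  rw [norm_mul, norm_inv, mul_assoc, mul_comm ‖w‖⁻¹, ← mul_assoc, ← div_eq_mul_inv, div_lt_one hw, ← sq]
  exact h

theorem Lk_sE_hol {μ : ℂ} {f : ℕ → ℂ} (hf : Gr f) : DifferentiableOn ℂ (sE μ f) {w | ‖μ‖ < ‖w‖ ∧ ‖w‖ < 1} ∧
    ∀ w : ℂ, ‖μ‖ < ‖w‖ → ‖w‖ < 1 → Summable (fun n : ℕ => f n * (w ^ (n + 1) - (μ * w⁻¹) ^ (n + 1))) := by
  have hsum : ∀ w : ℂ, ‖μ‖ < ‖w‖ → ‖w‖ < 1 → Summable (fun n : ℕ => f n * (w ^ (n + 1) - (μ * w⁻¹) ^ (n + 1))) := by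
    intro w h1 h2
    have := (LkS_gr hf h2).2.sub (LkS_gr hf (LkS_inv1 h1)).2
    exact this.congr (fun n => (LkS_mul f μ w n).symm)
  refine ⟨?_, hsum⟩
  have e : ∀ w ∈ {w : ℂ | ‖μ‖ < ‖w‖ ∧ ‖w‖ < 1}, sE μ f w = LkS_P f w - LkS_P f (μ * w⁻¹) := by
    rintro w ⟨h1, h2⟩
    unfold sE LkS_P
    rw [← (LkS_gr hf h2).2.tsum_sub (LkS_gr hf (LkS_inv1 h1)).2]
    exact tsum_congr (fun n => LkS_mul f μ w n)
  refine DifferentiableOn.congr ?_ e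
  rintro w ⟨h1, h2⟩
  have hw := LkS_ne (norm_nonneg μ) h1
  refine (DifferentiableAt.sub (LkS_gr hf h2).1 ?_).differentiableWithinAt
  exact DifferentiableAt.comp (g := LkS_P f) (f := fun w => μ * w⁻¹) w (LkS_gr hf (LkS_inv1 h1)).1
    ((differentiableAt_inv hw).const_mul μ)

theorem Lk_sY_hol {μ : ℂ} (y : ℂ) {g : ℕ → ℂ} (hg : Dc μ g) :
    DifferentiableOn ℂ (sY μ y g) {w | ‖μ‖ ^ 2 < ‖w‖ ∧ ‖w‖ * ‖μ‖ < 1} ∧ DifferentiableOn ℂ (sE μ g) {w | ‖μ‖ ^ 2 < ‖w‖ ∧ ‖w‖ * ‖μ‖ < 1} ∧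
    ∀ w : ℂ, ‖μ‖ ^ 2 < ‖w‖ → ‖w‖ * ‖μ‖ < 1 → Summable (fun n : ℕ => g n * (w ^ (n + 1) + (μ * w⁻¹) ^ (n + 1))) ∧
      Summable (fun n : ℕ => g n * (w ^ (n + 1) - (μ * w⁻¹) ^ (n + 1))) := by
  have hadd : ∀ (w : ℂ) (n : ℕ), g n * (w ^ (n + 1) + (μ * w⁻¹) ^ (n + 1)) =
      g n * w ^ (n + 1) + g n * (μ * w⁻¹) ^ (n + 1) := fun w n => by ring
  have hsum : ∀ w : ℂ, ‖μ‖ ^ 2 < ‖w‖ → ‖w‖ * ‖μ‖ < 1 → Summable (fun n : ℕ => g n * (w ^ (n + 1) + (μ * w⁻¹) ^ (n + 1))) ∧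
      Summable (fun n : ℕ => g n * (w ^ (n + 1) - (μ * w⁻¹) ^ (n + 1))) := by
    intro w h1 h2
    have h3 := (LkS_dc hg h2).2.add (LkS_dc hg (LkS_inv2 h1)).2
    have h4 := (LkS_dc hg h2).2.sub (LkS_dc hg (LkS_inv2 h1)).2
    exact ⟨h3.congr (fun n => (hadd w n).symm), h4.congr (fun n => (LkS_mul g μ w n).symm)⟩
  have hd : ∀ w : ℂ, ‖μ‖ ^ 2 < ‖w‖ → DifferentiableAt ℂ (fun w => LkS_P g (μ * w⁻¹)) w := by
    intro w h1
    have hw := LkS_ne (sq_nonneg ‖μ‖) h1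
    exact DifferentiableAt.comp (g := LkS_P g) (f := fun w => μ * w⁻¹) w (LkS_dc hg (LkS_inv2 h1)).1
      ((differentiableAt_inv hw).const_mul μ)
  refine ⟨?_, ?_, hsum⟩
  · have e : ∀ w ∈ {w : ℂ | ‖μ‖ ^ 2 < ‖w‖ ∧ ‖w‖ * ‖μ‖ < 1}, sY μ y g w = y + (LkS_P g w + LkS_P g (μ * w⁻¹)) := by
      rintro w ⟨h1, h2⟩
      unfold sY LkS_P
      rw [← (LkS_dc hg h2).2.tsum_add (LkS_dc hg (LkS_inv2 h1)).2]
      congr 1
      exact tsum_congr (fun n => hadd w n)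
    refine DifferentiableOn.congr ?_ e
    rintro w ⟨h1, h2⟩
    exact (((LkS_dc hg h2).1.add (hd w h1)).const_add y).differentiableWithinAt
  · have e : ∀ w ∈ {w : ℂ | ‖μ‖ ^ 2 < ‖w‖ ∧ ‖w‖ * ‖μ‖ < 1}, sE μ g w = LkS_P g w - LkS_P g (μ * w⁻¹) := by
      rintro w ⟨h1, h2⟩
      unfold sE LkS_P
      rw [← (LkS_dc hg h2).2.tsum_sub (LkS_dc hg (LkS_inv2 h1)).2]
      exact tsum_congr (fun n => LkS_mul g μ w n)
    refine DifferentiableOn.congr ?_ e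
    rintro w ⟨h1, h2⟩
    exact ((LkS_dc hg h2).1.sub (hd w h1)).differentiableWithinAt

private theorem LkS_shift {f : ℕ → ℂ} (hf : Gr f) : Gr (fun n => f (n + 1)) := by
  intro s hs hs1
  obtain ⟨C, hC⟩ := hf s hs hs1
  refine ⟨C / s, fun n => ?_⟩
  rw [le_div_iff₀ hs, mul_assoc, ← pow_succ]
  exact hC (n + 1)

private theorem LkS_step {f : ℕ → ℂ} (hf : Gr f) (h : ∀ z : ℂ, ‖z‖ < 1 → LkS_P f z = 0) :
    f 0 = 0 ∧ ∀ z : ℂ, ‖z‖ < 1 → LkS_P (fun n => f (n + 1)) z = 0 := by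
  have hz1 : ∀ z : ℂ, ‖z‖ < 1 → LkS_P f z = z * (f 0 + LkS_P (fun n => f (n + 1)) z) := by
    intro z hz
    have hs := (LkS_gr hf hz).2
    unfold LkS_P
    rw [hs.tsum_eq_zero_add, mul_add, ← tsum_mul_left]
    congr 1
    · ring
    · exact tsum_congr (fun n => by ring)
  have hcont : ContinuousAt (fun z => f 0 + LkS_P (fun n => f (n + 1)) z) 0 :=
    continuousAt_const.add ((LkS_gr (LkS_shift hf) (z := 0) (by simp)).1.continuousAt)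
  have hne : ∀ z : ℂ, z ≠ 0 → ‖z‖ < 1 → f 0 + LkS_P (fun n => f (n + 1)) z = 0 := by
    intro z h0 h1
    have := h z h1
    rw [hz1 z h1] at this
    exact (mul_eq_zero.1 this).resolve_left h0
  have h0v : LkS_P (fun n => f (n + 1)) 0 = 0 := by
    unfold LkS_P
    simp
  have hf0 : f 0 = 0 := by
    have ht : Tendsto (fun z => f 0 + LkS_P (fun n => f (n + 1)) z) (𝓝[≠] (0 : ℂ))
        (𝓝 (f 0 + LkS_P (fun n => f (n + 1)) 0)) := hcont.tendsto.mono_left nhdsWithin_le_nhds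
    have ht0 : Tendsto (fun z => f 0 + LkS_P (fun n => f (n + 1)) z) (𝓝[≠] (0 : ℂ)) (𝓝 0) := by
      refine tendsto_const_nhds.congr' ?_
      have hm : {z : ℂ | ‖z‖ < 1} ∈ 𝓝[≠] (0 : ℂ) :=
        nhdsWithin_le_nhds ((isOpen_lt continuous_norm continuous_const).mem_nhds (by simp))
      filter_upwards [hm, self_mem_nhdsWithin] with z h1 h2
      exact (hne z h2 h1).symm
    have := tendsto_nhds_unique ht ht0
    rwa [h0v, add_zero] at this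
  refine ⟨hf0, fun z hz => ?_⟩
  rcases eq_or_ne z 0 with h0 | h0
  · rw [h0, h0v]
  · have := hne z h0 hz
    rwa [hf0, zero_add] at this

private theorem LkS_coef (n : ℕ) : ∀ {f : ℕ → ℂ}, Gr f → (∀ z : ℂ, ‖z‖ < 1 → LkS_P f z = 0) → f n = 0 := by
  induction n with
  | zero => intro f hf h; exact (LkS_step hf h).1
  | succ n ih => intro f hf h; exact ih (LkS_shift hf) (LkS_step hf h).2

theorem Lk_sE_inj {μ : ℂ} (hμ : ‖μ‖ < 1) {f : ℕ → ℂ} (hf : Gr f)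
    (h : ∀ w : ℂ, ‖μ‖ < ‖w‖ → ‖w‖ < 1 → sE μ f w = 0) (n : ℕ) : f n = 0 := by
  have e : ∀ w : ℂ, ‖μ‖ < ‖w‖ → ‖w‖ < 1 → LkS_P f w = LkS_P f (μ * w⁻¹) := by
    intro w h1 h2
    have h3 : sE μ f w = LkS_P f w - LkS_P f (μ * w⁻¹) := by
      unfold sE LkS_P
      rw [← (LkS_gr hf h2).2.tsum_sub (LkS_gr hf (LkS_inv1 h1)).2]
      exact tsum_congr (fun n => LkS_mul f μ w n)
    rw [h w h1 h2] at h3
    exact (sub_eq_zero.1 h3.symm)
  have hP0 : LkS_P f 0 = 0 := by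
    unfold LkS_P
    simp
  set H : ℂ → ℂ := fun w => if ‖w‖ < 1 then LkS_P f w else LkS_P f (μ * w⁻¹) with hH
  have hH1 : ∀ w : ℂ, ‖w‖ < 1 → H w = LkS_P f w := fun w hw => by simp only [hH]; rw [if_pos hw]
  have hH2 : ∀ w : ℂ, ‖μ‖ < ‖w‖ → H w = LkS_P f (μ * w⁻¹) := by
    intro w hw
    by_cases h1 : ‖w‖ < 1
    · rw [hH1 w h1, e w hw h1]
    · simp only [hH]
      rw [if_neg h1]
  have hd : Differentiable ℂ H := by
    intro w
    by_cases h1 : ‖w‖ < 1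
    · have hev : H =ᶠ[𝓝 w] LkS_P f := by
        filter_upwards [(isOpen_lt continuous_norm continuous_const).mem_nhds h1] with z hz
        exact hH1 z hz
      exact hev.differentiableAt_iff.2 (LkS_gr hf h1).1
    · have h2 : ‖μ‖ < ‖w‖ := hμ.trans_le (not_lt.1 h1)
      have hw := LkS_ne (norm_nonneg μ) h2
      have hev : H =ᶠ[𝓝 w] fun w => LkS_P f (μ * w⁻¹) := by
        filter_upwards [(isOpen_lt continuous_const continuous_norm).mem_nhds h2] with z hz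
        exact hH2 z hz
      refine hev.differentiableAt_iff.2 ?_
      exact DifferentiableAt.comp (g := LkS_P f) (f := fun w => μ * w⁻¹) w (LkS_gr hf (LkS_inv1 h2)).1
        ((differentiableAt_inv hw).const_mul μ)
  have hcP : ∀ r : ℝ, r < 1 → ∃ C : ℝ, ∀ z : ℂ, ‖z‖ ≤ r → ‖LkS_P f z‖ ≤ C := by
    intro r hr
    have hc : ContinuousOn (LkS_P f) (Metric.closedBall 0 r) := by
      intro z hz
      rw [mem_closedBall_zero_iff] at hz
      exact (LkS_gr hf (hz.trans_lt hr)).1.continuousAt.continuousWithinAt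
    obtain ⟨C, hC⟩ := (isCompact_closedBall (0 : ℂ) r).exists_bound_of_continuousOn hc
    exact ⟨C, fun z hz => hC z (by rw [mem_closedBall_zero_iff]; exact hz)⟩
  obtain ⟨r, hr1, hr2⟩ := exists_between hμ
  have hr0 : 0 < r := (norm_nonneg μ).trans_lt hr1
  obtain ⟨C₁, hC₁⟩ := hcP r hr2
  obtain ⟨C₂, hC₂⟩ := hcP (‖μ‖ / r) ((div_lt_one hr0).2 hr1)
  have hb : Bornology.IsBounded (Set.range H) := by
    rw [isBounded_iff_forall_norm_le]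
    refine ⟨max C₁ C₂, ?_⟩
    rintro _ ⟨w, rfl⟩
    rcases le_or_gt ‖w‖ r with h1 | h1
    · rw [hH1 w (h1.trans_lt hr2)]
      exact (hC₁ w h1).trans (le_max_left _ _)
    · rw [hH2 w (hr1.trans h1)]
      refine (hC₂ _ ?_).trans (le_max_right _ _)
      rw [norm_mul, norm_inv, ← div_eq_mul_inv]
      exact div_le_div_of_nonneg_left (norm_nonneg _) hr0 h1.le
  refine LkS_coef n hf (fun z hz => ?_)
  rw [← hH1 z hz, hd.apply_eq_apply_of_bounded hb z 0, hH1 0 (by simp), hP0]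

end H66LD
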