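import Pool.Agent.H1.LD.Lk

/-!
ROW LD/Ll. Algebra: from the equations for the coefficients to an equation for functions.

Two-sided sequences: `E_N` coefficients of `sE μ f`, `A_N` the coefficients of `ζ E / pw`, `B_N` those of `ζ* E / ps`, with
`A_N - μ A_(N+2) = γ E_(N+1) + a E_N + (a μ + β) E_(N+2)` and
`B_(N+2) - conj μ B_N = conj γ E_(N+1) + a E_(N+2) + (a conj μ + conj β) E_N`; `A_N + B_N` are the coefficients of `Y* - l Y`.
Only these relations are used (no convergence of `A`, `B`).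
-/

set_option autoImplicit false

namespace LD1

open Complex Set Filter Topology MeasureTheory EW1 EX1 ND1
open scoped ComplexConjugate ContDiff Real

/-- a two-sided sequence -/
private def Ll_z (p : ℕ → ℂ) (c : ℂ) (m : ℕ → ℂ) : ℤ → ℂ
  | .ofNat 0 => c
  | .ofNat (n + 1) => p n
  | .negSucc n => m n

private theorem Ll_c {ι : Type} {f g : ι → ℂ} {s : ℂ} (h : HasSum f s) (e : ∀ i, g i = f i) : HasSum g s := by
  have : g = f := funext e
  rw [this]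
  exact h

private theorem Ll_sum {p m : ℕ → ℂ} {c s1 s2 v : ℂ} (h1 : HasSum (fun n : ℕ => p n * v ^ (n + 1)) s1)
    (h2 : HasSum (fun n : ℕ => m n * (v⁻¹) ^ (n + 1)) s2) :
    HasSum (fun N : ℤ => Ll_z p c m N * v ^ N) (c + s1 + s2) := by
  refine HasSum.of_nat_of_neg_add_one ?_ ?_
  · rw [← hasSum_nat_add_iff' 1]
    have e : c + s1 - ∑ i ∈ Finset.range 1, Ll_z p c m (i : ℤ) * v ^ (i : ℤ) = s1 := by
      have e1 : Ll_z p c m ((0 : ℕ) : ℤ) = c := rfl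
      rw [Finset.sum_range_one, e1]
      simp
    rw [e]
    refine Ll_c h1 fun n => ?_
    have e1 : Ll_z p c m ((n + 1 : ℕ) : ℤ) = p n := rfl
    rw [e1, zpow_natCast]
  · refine Ll_c h2 fun n => ?_
    rw [← Int.negSucc_eq, zpow_negSucc, inv_pow]
    rfl

private theorem Ll_shift {u : ℤ → ℂ} {v s : ℂ} (hv : v ≠ 0) (h : HasSum (fun N : ℤ => u N * v ^ N) s)
    (j : ℤ) : HasSum (fun N : ℤ => u (N + j) * v ^ N) (s * v ^ (-j)) := by
  have h1 := ((Equiv.addRight j).hasSum_iff.2 h).mul_right (v ^ (-j))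
  refine Ll_c h1 fun N => ?_
  change u (N + j) * v ^ N = u (N + j) * v ^ (N + j) * v ^ (-j)
  rw [mul_assoc, ← zpow_add₀ hv, add_neg_cancel_right]

private theorem Ll_x (μ : ℂ) : ((‖μ‖ ^ 2 : ℝ) : ℂ) = μ * conj μ := by
  rw [← Complex.normSq_eq_norm_sq, Complex.mul_conj]

private theorem Ll_re (μ β : ℂ) : (((conj μ * β).re : ℝ) : ℂ) = (conj μ * β + μ * conj β) / 2 := by
  rw [Complex.re_eq_add_conj]
  simp

private theorem Ll_alg {μ γ β : ℂ} {a : ℝ} {A B E : ℤ → ℂ}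
    (hA : ∀ N, A N - μ * A (N + 2) = γ * E (N + 1) + a * E N + (a * μ + β) * E (N + 2))
    (hB : ∀ N, B (N + 2) - conj μ * B N =
      conj γ * E (N + 1) + a * E (N + 2) + (a * conj μ + conj β) * E N)
    {v s t : ℂ} (hv : v ≠ 0) (hE : HasSum (fun N : ℤ => E N * v ^ N) s)
    (hC : HasSum (fun N : ℤ => (A N + B N) * v ^ N) t) :
    2 * Uw μ a γ β v * s = pw μ v * ps μ v * t := by
  have e1 := Ll_shift hv hE 1
  have e2 := Ll_shift hv hE 2
  have e3 := Ll_shift hv hE 3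
  have e4 := Ll_shift hv hE 4
  have c2 := Ll_shift hv hC 2
  have c4 := Ll_shift hv hC 4
  have L := ((((hE.mul_left (conj β)).add (e1.mul_left (conj γ - conj μ * γ))).add
    (e2.mul_left (2 * a * (1 - μ * conj μ) - (conj μ * β + μ * conj β)))).add
    (e3.mul_left (γ - μ * conj γ))).add (e4.mul_left β)
  have R := ((c2.mul_left (1 + μ * conj μ)).sub (hC.mul_left (conj μ))).sub (c4.mul_left μ)
  have key := L.unique (Ll_c R fun N => by
    have h1 := hA N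
    have h2 := hA (N + 2)
    have h3 := hB N
    have h4 := hB (N + 2)
    rw [show N + 2 + 2 = N + 4 by ring, show N + 2 + 1 = N + 3 by ring] at h2 h4
    linear_combination (-(conj μ) * h1 + h2 + h3 - μ * h4) * (-1) * v ^ N)
  have hU : 2 * Uw μ a γ β v = conj β * v ^ 2 + (conj γ - conj μ * γ) * v +
      (2 * a * (1 - μ * conj μ) - (conj μ * β + μ * conj β)) + (γ - μ * conj γ) * v⁻¹ + β * v⁻¹ ^ 2 := by
    unfold Uw
    push_cast
    rw [Ll_re]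
    have := Ll_x μ
    push_cast at this
    rw [this]
    ring
  have hP : pw μ v * ps μ v = (1 + μ * conj μ) - conj μ * v ^ 2 - μ * v⁻¹ ^ 2 := by
    unfold pw ps
    field_simp
    ring
  rw [hU, hP]
  have z1 : v ^ (-(1 : ℤ)) = v⁻¹ := by simp
  have z2 : v ^ (-(2 : ℤ)) = v⁻¹ ^ 2 := by
    rw [zpow_neg, inv_pow]; norm_cast
  have z3 : v ^ (-(3 : ℤ)) = v⁻¹ ^ 3 := by
    rw [zpow_neg, inv_pow]; norm_cast
  have z4 : v ^ (-(4 : ℤ)) = v⁻¹ ^ 4 := by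
    rw [zpow_neg, inv_pow]; norm_cast
  rw [z1, z2, z3, z4] at key
  have hv1 : v * v⁻¹ = 1 := mul_inv_cancel₀ hv
  field_simp at key ⊢
  linear_combination key

private theorem Ll_rec {μ γ β : ℂ} {a : ℝ} {h : ℕ → ℂ}
    (hs : ∀ n, Summable (fun k => Pc μ a γ β k * h (n + k))) (n : ℕ) :
    (∑' k, Pc μ a γ β k * h (n + k)) - μ * (∑' k, Pc μ a γ β k * h (n + 2 + k)) =
      a * h n + γ * h (n + 1) + (a * μ + β) * h (n + 2) := by
  have h1 := (hs n).sum_add_tsum_nat_add 3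
  have h2 := (hs (n + 2)).sum_add_tsum_nat_add 1
  have h3 : (∑' i, Pc μ a γ β (i + 3) * h (n + (i + 3))) =
      μ * ∑' i, Pc μ a γ β (i + 1) * h (n + 2 + (i + 1)) := by
    rw [← tsum_mul_left]
    congr 1
    ext i
    rw [show n + (i + 3) = n + 2 + (i + 1) by omega, Pc]
    ring
  rw [← h1, ← h2, h3]
  simp only [Finset.sum_range_succ, Finset.sum_range_zero, Pc]
  simp only [add_zero, zero_add]
  ring

private theorem Ll_P {μ : ℂ} (a : ℝ) (γ β : ℂ) {r : ℝ} (hr : 0 < r) (h : ‖μ‖ ≤ r ^ 2) :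
    ∃ C : ℝ, 0 ≤ C ∧ ∀ k, ‖Pc μ a γ β k‖ ≤ C * r ^ k := by
  refine ⟨|a| + ‖γ‖ / r + ‖2 * a * μ + β‖ / r ^ 2, by positivity, ?_⟩
  have hc0 : (0 : ℝ) ≤ |a| + ‖γ‖ / r + ‖2 * a * μ + β‖ / r ^ 2 := by positivity
  have ha : 0 ≤ |a| := abs_nonneg a
  have h1 : 0 ≤ ‖γ‖ / r := by positivity
  have h2 : 0 ≤ ‖2 * a * μ + β‖ / r ^ 2 := by positivity
  intro k
  induction k using Nat.strong_induction_on with
  | _ k ih =>
    match k, ih with
    | 0, _ =>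
      rw [Pc, Complex.norm_real, Real.norm_eq_abs, pow_zero, mul_one]
      linarith
    | 1, _ =>
      rw [Pc, pow_one]
      have : ‖γ‖ = ‖γ‖ / r * r := by field_simp
      calc ‖γ‖ = ‖γ‖ / r * r := this
        _ ≤ _ := by gcongr; linarith
    | 2, _ =>
      rw [Pc]
      have : ‖2 * a * μ + β‖ = ‖2 * a * μ + β‖ / r ^ 2 * r ^ 2 := by field_simp
      calc ‖2 * a * μ + β‖ = ‖2 * a * μ + β‖ / r ^ 2 * r ^ 2 := this
        _ ≤ _ := by gcongr; linarith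
    | n + 3, ih =>
      rw [Pc, norm_mul]
      calc ‖μ‖ * ‖Pc μ a γ β (n + 1)‖
          ≤ r ^ 2 * ((|a| + ‖γ‖ / r + ‖2 * a * μ + β‖ / r ^ 2) * r ^ (n + 1)) := by
            gcongr
            exact ih (n + 1) (by omega)
        _ = _ := by ring

/-- the bound for sums -/
private theorem Ll_b {μ : ℂ} (hμ : ‖μ‖ < 1) (a : ℝ) (γ β : ℂ) {h : ℕ → ℂ} (hh : Gr h) {s : ℝ}
    (hs : 0 < s) (hs1 : s < 1) : ∃ (C q : ℝ), 0 ≤ q ∧ q < 1 ∧ 0 ≤ C ∧
      ∀ n k, ‖Pc μ a γ β k‖ * ‖h (n + k)‖ * s ^ n ≤ C * q ^ k := by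
  obtain ⟨r, hr⟩ : ∃ r : ℝ, r = (1 + ‖μ‖) / 2 := ⟨_, rfl⟩
  have hm := norm_nonneg μ
  have hr0 : 0 < r := by rw [hr]; linarith
  have hr1 : r < 1 := by rw [hr]; linarith
  have hr2 : ‖μ‖ ≤ r ^ 2 := by rw [hr]; nlinarith [sq_nonneg (1 - ‖μ‖)]
  obtain ⟨t, ht⟩ : ∃ t : ℝ, t = max s ((1 + r) / 2) := ⟨_, rfl⟩
  have ht0 : 0 < t := by rw [ht]; exact lt_max_of_lt_left hs
  have ht1 : t < 1 := by rw [ht]; exact max_lt hs1 (by linarith)
  have hst : s ≤ t := by rw [ht]; exact le_max_left _ _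
  have hrt : r < t := by
    rw [ht]
    exact lt_of_lt_of_le (by linarith) (le_max_right _ _)
  obtain ⟨C, hC0, hC⟩ := Ll_P a γ β hr0 hr2
  obtain ⟨D, hD⟩ := hh t ht0 ht1
  have hD0 : 0 ≤ D := le_trans (by positivity) (hD 0)
  refine ⟨C * D, r / t, by positivity, (div_lt_one ht0).2 hrt, by positivity, fun n k => ?_⟩
  have h1 : s ^ n ≤ t ^ n := by gcongr
  have h2 := hD (n + k)
  have h3 : ‖h (n + k)‖ * t ^ n ≤ D / t ^ k := by
    rw [le_div_iff₀ (by positivity), mul_assoc, ← pow_add]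
    exact h2
  calc ‖Pc μ a γ β k‖ * ‖h (n + k)‖ * s ^ n ≤ ‖Pc μ a γ β k‖ * (‖h (n + k)‖ * t ^ n) := by
        rw [mul_assoc]
        gcongr
    _ ≤ (C * r ^ k) * (D / t ^ k) := by
        gcongr
        exact hC k
    _ = _ := by
        rw [div_pow]
        ring

private theorem Ll_s {μ : ℂ} (hμ : ‖μ‖ < 1) (a : ℝ) (γ β : ℂ) {h : ℕ → ℂ} (hh : Gr h) (n : ℕ) :
    Summable (fun k => Pc μ a γ β k * h (n + k)) := by
  obtain ⟨C, q, hq0, hq1, hC0, hC⟩ := Ll_b hμ a γ β hh (s := 1 / 2) (by norm_num) (by norm_num)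
  refine Summable.of_norm_bounded (g := fun k => C * 2 ^ n * q ^ k) ((summable_geometric_of_lt_one hq0 hq1).mul_left _) fun k => ?_
  have h1 := hC n k
  rw [norm_mul]
  have h2 : (1 / 2 : ℝ) ^ n * 2 ^ n = 1 := by
    rw [← mul_pow]; norm_num
  calc ‖Pc μ a γ β k‖ * ‖h (n + k)‖ = ‖Pc μ a γ β k‖ * ‖h (n + k)‖ * (1 / 2) ^ n * 2 ^ n := by
        rw [mul_assoc _ ((1 / 2 : ℝ) ^ n), h2, mul_one]
    _ ≤ C * q ^ k * 2 ^ n := by gcongr
    _ = _ := by ring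

private theorem Ll_t {μ : ℂ} (hμ : ‖μ‖ < 1) (a : ℝ) (γ β : ℂ) {h : ℕ → ℂ} (hh : Gr h) {u : ℕ → ℕ → ℂ}
    (hu : ∀ n k, ‖u n k‖ ≤ ‖Pc μ a γ β k‖ * ‖h (n + k)‖) : Gr (fun n => ∑' k, u n k) := by
  intro s hs hs1
  obtain ⟨C, q, hq0, hq1, hC0, hC⟩ := Ll_b hμ a γ β hh hs hs1
  refine ⟨C * (1 - q)⁻¹, fun n => ?_⟩
  have h1 : HasSum (fun k => C / s ^ n * q ^ k) (C / s ^ n * (1 - q)⁻¹) :=
    (hasSum_geometric_of_lt_one hq0 hq1).mul_left _
  have h2 := tsum_of_norm_bounded h1 (f := fun k => u n k) (fun k => by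
    have h3 := hC n k
    refine (hu n k).trans ?_
    rw [div_mul_eq_mul_div, le_div_iff₀ (by positivity)]
    exact h3)
  calc ‖∑' k, u n k‖ * s ^ n ≤ C / s ^ n * (1 - q)⁻¹ * s ^ n := by gcongr
    _ = _ := by field_simp

private theorem Ll_q {h : ℕ → ℂ} {s C : ℝ} (hs : 0 < s) (hC : ∀ n, ‖h n‖ * s ^ n ≤ C) {u : ℂ}
    (hu : ‖u‖ < s) : Summable (fun n => h n * u ^ (n + 1)) := by
  have hC0 : 0 ≤ C := le_trans (by positivity) (hC 0)
  refine Summable.of_norm_bounded (g := fun n => C * ‖u‖ * (‖u‖ / s) ^ n)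
    ((summable_geometric_of_lt_one (by positivity) ((div_lt_one hs).2 hu)).mul_left _) fun n => ?_
  rw [norm_mul, norm_pow]
  have h1 : ‖h n‖ ≤ C / s ^ n := by
    rw [le_div_iff₀ (by positivity)]
    exact hC n
  calc ‖h n‖ * ‖u‖ ^ (n + 1) ≤ C / s ^ n * ‖u‖ ^ (n + 1) := by gcongr
    _ = _ := by
      rw [div_pow, pow_succ]
      ring

private theorem Ll_gw {μ : ℂ} (hμ : ‖μ‖ < 1) {a : ℝ} {γ β : ℂ} {f w : ℕ → ℂ} (hf : Gr f)
    (h2 : ∀ n : ℕ, ∑ k ∈ Finset.range (n + 1), Pc μ a γ β (n - k) * ((1 - ‖μ‖ ^ (2 * (k + 1)) : ℝ) : ℂ) * conj (f k) =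
      ((‖μ‖ ^ (2 * n) * (2 * (conj μ * β).re) : ℝ) : ℂ) * conj (f n) - ((1 - ‖μ‖ ^ (2 * (n + 1)) : ℝ) : ℂ) * conj (w n)) :
    Gr w := by
  intro s hs hs1
  obtain ⟨C, hC⟩ := hf s hs hs1
  have hC0 : 0 ≤ C := le_trans (by positivity) (hC 0)
  obtain ⟨D, hD0, hD⟩ := Ll_P (μ := μ) a γ β (r := 1) one_pos (by simpa using hμ.le)
  have hm := norm_nonneg μ
  have hx : 0 < 1 - ‖μ‖ ^ 2 := by nlinarith
  refine ⟨(|2 * (conj μ * β).re| * C + D * C * (1 - s)⁻¹) / (1 - ‖μ‖ ^ 2), fun n => ?_⟩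
  rw [le_div_iff₀ hx]
  have e1 : (((1 - ‖μ‖ ^ (2 * (n + 1)) : ℝ)) : ℂ) * conj (w n) =
      ((‖μ‖ ^ (2 * n) * (2 * (conj μ * β).re) : ℝ) : ℂ) * conj (f n) -
      ∑ k ∈ Finset.range (n + 1), Pc μ a γ β (n - k) * ((1 - ‖μ‖ ^ (2 * (k + 1)) : ℝ) : ℂ) * conj (f k) := by
    linear_combination h2 n
  have hp : ∀ k : ℕ, ‖μ‖ ^ (2 * k) ≤ 1 := fun k => pow_le_one₀ hm hμ.le
  have e2 : (1 - ‖μ‖ ^ 2) * ‖w n‖ ≤ ‖(((1 - ‖μ‖ ^ (2 * (n + 1)) : ℝ)) : ℂ) * conj (w n)‖ := by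
    rw [norm_mul, RCLike.norm_conj, Complex.norm_real, Real.norm_eq_abs]
    have h3 : ‖μ‖ ^ (2 * (n + 1)) ≤ ‖μ‖ ^ 2 := pow_le_pow_of_le_one hm hμ.le (by omega)
    have h4 : 1 - ‖μ‖ ^ 2 ≤ |1 - ‖μ‖ ^ (2 * (n + 1))| := le_trans (by linarith) (le_abs_self _)
    gcongr
  have e3 : ‖((‖μ‖ ^ (2 * n) * (2 * (conj μ * β).re) : ℝ) : ℂ) * conj (f n)‖ * s ^ n ≤
      |2 * (conj μ * β).re| * C := by
    rw [norm_mul, RCLike.norm_conj, Complex.norm_real, Real.norm_eq_abs, abs_mul,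
      abs_of_nonneg (by positivity : 0 ≤ ‖μ‖ ^ (2 * n)), mul_assoc]
    calc ‖μ‖ ^ (2 * n) * |2 * (conj μ * β).re| * (‖f n‖ * s ^ n)
        ≤ 1 * |2 * (conj μ * β).re| * C := by
          gcongr
          · exact hp n
          · exact hC n
      _ = _ := by ring
  have e4 : ‖∑ k ∈ Finset.range (n + 1), Pc μ a γ β (n - k) * ((1 - ‖μ‖ ^ (2 * (k + 1)) : ℝ) : ℂ) *
      conj (f k)‖ * s ^ n ≤ D * C * (1 - s)⁻¹ := by
    calc _ ≤ (∑ k ∈ Finset.range (n + 1), ‖Pc μ a γ β (n - k) * ((1 - ‖μ‖ ^ (2 * (k + 1)) : ℝ) : ℂ) *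
          conj (f k)‖) * s ^ n := by
          gcongr
          exact norm_sum_le _ _
      _ = ∑ k ∈ Finset.range (n + 1), ‖Pc μ a γ β (n - k) * ((1 - ‖μ‖ ^ (2 * (k + 1)) : ℝ) : ℂ) *
          conj (f k)‖ * s ^ n := by rw [Finset.sum_mul]
      _ ≤ ∑ k ∈ Finset.range (n + 1), D * C * s ^ (n - k) := by
          refine Finset.sum_le_sum fun k hk => ?_
          have hk' : k ≤ n := by
            have := Finset.mem_range.1 hk
            omega
          rw [norm_mul, norm_mul, RCLike.norm_conj, Complex.norm_real, Real.norm_eq_abs]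
          have h3 : |1 - ‖μ‖ ^ (2 * (k + 1))| ≤ 1 := by
            rw [abs_le]
            have := hp (k + 1)
            have h0 : 0 ≤ ‖μ‖ ^ (2 * (k + 1)) := by positivity
            constructor <;> linarith
          have h4 := hD (n - k)
          rw [one_pow, mul_one] at h4
          calc ‖Pc μ a γ β (n - k)‖ * |1 - ‖μ‖ ^ (2 * (k + 1))| * ‖f k‖ * s ^ n
              = ‖Pc μ a γ β (n - k)‖ * |1 - ‖μ‖ ^ (2 * (k + 1))| * (‖f k‖ * s ^ k) * s ^ (n - k) := by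
                rw [show s ^ n = s ^ k * s ^ (n - k) by rw [← pow_add]; congr 1; omega]
                ring
            _ ≤ D * 1 * C * s ^ (n - k) := by
                gcongr
                exact hC k
            _ = _ := by ring
      _ = D * C * ∑ k ∈ Finset.range (n + 1), s ^ (n - k) := by rw [Finset.mul_sum]
      _ = D * C * ∑ k ∈ Finset.range (n + 1), s ^ k := by
          rw [← Finset.sum_range_reflect (fun k => s ^ k)]
          congr 1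
      _ ≤ D * C * (1 - s)⁻¹ := by
          gcongr
          rw [← tsum_geometric_of_lt_one hs.le hs1]
          exact (summable_geometric_of_lt_one hs.le hs1).sum_le_tsum _ fun _ _ => by positivity
  calc ‖w n‖ * s ^ n * (1 - ‖μ‖ ^ 2) = (1 - ‖μ‖ ^ 2) * ‖w n‖ * s ^ n := by ring
    _ ≤ ‖(((1 - ‖μ‖ ^ (2 * (n + 1)) : ℝ)) : ℂ) * conj (w n)‖ * s ^ n := by gcongr
    _ ≤ (‖((‖μ‖ ^ (2 * n) * (2 * (conj μ * β).re) : ℝ) : ℂ) * conj (f n)‖ +
        ‖∑ k ∈ Finset.range (n + 1), Pc μ a γ β (n - k) * ((1 - ‖μ‖ ^ (2 * (k + 1)) : ℝ) : ℂ) *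
          conj (f k)‖) * s ^ n := by
        rw [e1]
        gcongr
        exact norm_sub_le _ _
    _ ≤ _ := by
        rw [add_mul]
        exact add_le_add e3 e4

private theorem Ll_gd {μ : ℂ} {G g : ℕ → ℂ} (hG : Gr G) (hg : ∀ n, g n = conj μ ^ n * G n) : Dc μ g := by
  intro s hs hsμ
  obtain ⟨t, ht⟩ : ∃ t : ℝ, t = max (s * ‖μ‖) (1 / 2) := ⟨_, rfl⟩
  have ht0 : 0 < t := by rw [ht]; exact lt_max_of_lt_right (by norm_num)
  have ht1 : t < 1 := by rw [ht]; exact max_lt hsμ (by norm_num)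
  have hst : s * ‖μ‖ ≤ t := by rw [ht]; exact le_max_left _ _
  obtain ⟨C, hC⟩ := hG t ht0 ht1
  refine ⟨C, fun n => le_trans ?_ (hC n)⟩
  rw [hg, norm_mul, norm_pow, RCLike.norm_conj]
  calc ‖μ‖ ^ n * ‖G n‖ * s ^ n = ‖G n‖ * (s * ‖μ‖) ^ n := by rw [mul_pow]; ring
    _ ≤ ‖G n‖ * t ^ n := by gcongr

private theorem Ll_gc {f w T : ℕ → ℂ} (hf : Gr f) (hw : Gr w) (hT : Gr T) (p q : ℂ) :
    Gr (fun n => p * conj (w n) + q * conj (f n) - T n) := by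
  intro s hs hs1
  obtain ⟨C1, h1⟩ := hf s hs hs1
  obtain ⟨C2, h2⟩ := hw s hs hs1
  obtain ⟨C3, h3⟩ := hT s hs hs1
  refine ⟨‖p‖ * C2 + ‖q‖ * C1 + C3, fun n => ?_⟩
  calc ‖p * conj (w n) + q * conj (f n) - T n‖ * s ^ n
      ≤ (‖p‖ * ‖w n‖ + ‖q‖ * ‖f n‖ + ‖T n‖) * s ^ n := by
        gcongr
        refine (norm_sub_le _ _).trans ?_
        gcongr
        refine (norm_add_le _ _).trans ?_
        rw [norm_mul, norm_mul, RCLike.norm_conj, RCLike.norm_conj]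
    _ = ‖p‖ * (‖w n‖ * s ^ n) + ‖q‖ * (‖f n‖ * s ^ n) + ‖T n‖ * s ^ n := by ring
    _ ≤ _ := by
        gcongr
        · exact h2 n
        · exact h1 n
        · exact h3 n

/-- the recurrence for the finite sums -/
private theorem Ll_fs {μ : ℂ} {a : ℝ} {γ β : ℂ} (h : ℕ → ℂ) (n : ℕ) :
    (∑ k ∈ Finset.range (n + 2 + 1), conj (Pc μ a γ β (n + 2 - k)) * h k) -
      conj μ * (∑ k ∈ Finset.range (n + 1), conj (Pc μ a γ β (n - k)) * h k) =
      a * h (n + 2) + conj γ * h (n + 1) + (a * conj μ + conj β) * h n := by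
  have h1 : ∀ k ∈ Finset.range n, conj (Pc μ a γ β (n + 2 - k)) * h k =
      conj μ * (conj (Pc μ a γ β (n - k)) * h k) := by
    intro k hk
    have hk' := Finset.mem_range.1 hk
    obtain ⟨j, hj⟩ : ∃ j, n = k + (j + 1) := ⟨n - k - 1, by omega⟩
    rw [show n + 2 - k = j + 3 by omega, show n - k = j + 1 by omega, Pc, map_mul]
    ring
  rw [Finset.sum_range_succ, Finset.sum_range_succ, Finset.sum_range_succ, Finset.sum_congr rfl h1,
    ← Finset.mul_sum, Finset.sum_range_succ, show n + 2 - (n + 2) = 0 by omega,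
    show n + 2 - (n + 1) = 1 by omega, show n + 2 - n = 2 by omega, show n - n = 0 by omega]
  simp only [Pc, map_add, map_mul, Complex.conj_ofReal, map_ofNat]
  ring

private theorem Ll_RA {μ γ β : ℂ} {a : ℝ} {f X : ℕ → ℂ}
    (hX : ∀ n, X n - μ * X (n + 2) = a * f n + γ * f (n + 1) + (a * μ + β) * f (n + 2)) {A E : ℤ → ℂ}
    (hA : A = Ll_z X (μ * X 1 + γ * f 0 + (a * μ + β) * f 1) (fun n => μ ^ (n + 1) * X n + β * μ ^ n * f n))
    (hE : E = Ll_z f 0 (fun n => -(μ ^ (n + 1) * f n))) (N : ℤ) :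
    A N - μ * A (N + 2) = γ * E (N + 1) + a * E N + (a * μ + β) * E (N + 2) := by
  subst hA hE
  match N with
  | .ofNat 0 =>
    change (μ * X 1 + γ * f 0 + (a * μ + β) * f 1) - μ * X 1 = γ * f 0 + a * 0 + (a * μ + β) * f 1
    ring
  | .ofNat (n + 1) =>
    change X n - μ * X (n + 2) = γ * f (n + 1) + a * f n + (a * μ + β) * f (n + 2)
    linear_combination hX n
  | .negSucc 0 =>
    change (μ ^ (0 + 1) * X 0 + β * μ ^ 0 * f 0) - μ * X 0 =
      γ * 0 + a * (-(μ ^ (0 + 1) * f 0)) + (a * μ + β) * f 0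
    ring
  | .negSucc 1 =>
    change (μ ^ (1 + 1) * X 1 + β * μ ^ 1 * f 1) - μ * (μ * X 1 + γ * f 0 + (a * μ + β) * f 1) =
      γ * (-(μ ^ (0 + 1) * f 0)) + a * (-(μ ^ (1 + 1) * f 1)) + (a * μ + β) * 0
    ring
  | .negSucc (n + 2) =>
    change (μ ^ (n + 2 + 1) * X (n + 2) + β * μ ^ (n + 2) * f (n + 2)) -
      μ * (μ ^ (n + 1) * X n + β * μ ^ n * f n) =
      γ * (-(μ ^ (n + 1 + 1) * f (n + 1))) + a * (-(μ ^ (n + 2 + 1) * f (n + 2))) +
        (a * μ + β) * (-(μ ^ (n + 1) * f n))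
    linear_combination (-μ ^ (n + 2)) * hX n

private theorem Ll_RB {μ γ β : ℂ} {a : ℝ} {f w g Z S : ℕ → ℂ}
    (hg : ∀ n, conj (g n) = μ ^ (n + 1) * w n + μ ^ n * β * f n - conj (Z n))
    (hZ : ∀ n, conj (Z n) - conj μ * conj (Z (n + 2)) = a * μ ^ (n + 1) * f n +
      conj γ * μ ^ (n + 2) * f (n + 1) + (a * conj μ + conj β) * μ ^ (n + 3) * f (n + 2))
    (hw : ∀ n, -(1 - (μ * conj μ) ^ (n + 1)) * w n = S n - (μ * conj μ) ^ n * (conj μ * β + μ * conj β) * f n)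
    (hS0 : S 0 = a * ((1 - (μ * conj μ) ^ 1) * f 0))
    (hS1 : S 1 = conj γ * ((1 - (μ * conj μ) ^ 1) * f 0) + a * ((1 - (μ * conj μ) ^ 2) * f 1))
    (hS : ∀ n, S (n + 2) - conj μ * S n = a * ((1 - (μ * conj μ) ^ (n + 3)) * f (n + 2)) +
      conj γ * ((1 - (μ * conj μ) ^ (n + 2)) * f (n + 1)) +
      (a * conj μ + conj β) * ((1 - (μ * conj μ) ^ (n + 1)) * f n)) {B E : ℤ → ℂ}
    (hB : B = Ll_z (fun n => conj μ ^ (n + 1) * conj (g n) - w n)
      (-(conj μ * conj (Z 1) + conj γ * μ * f 0 + (a * conj μ + conj β) * μ ^ 2 * f 1)) (fun n => -conj (Z n)))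
    (hE : E = Ll_z f 0 (fun n => -(μ ^ (n + 1) * f n))) (N : ℤ) :
    B (N + 2) - conj μ * B N = conj γ * E (N + 1) + a * E (N + 2) + (a * conj μ + conj β) * E N := by
  subst hB hE
  match N with
  | .ofNat 0 =>
    change (conj μ ^ (1 + 1) * conj (g 1) - w 1) -
      conj μ * (-(conj μ * conj (Z 1) + conj γ * μ * f 0 + (a * conj μ + conj β) * μ ^ 2 * f 1)) =
      conj γ * f 0 + a * f 1 + (a * conj μ + conj β) * 0
    linear_combination conj μ ^ 2 * hg 1 + hw 1 + hS1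
  | .ofNat (n + 1) =>
    change (conj μ ^ (n + 2 + 1) * conj (g (n + 2)) - w (n + 2)) -
      conj μ * (conj μ ^ (n + 1) * conj (g n) - w n) =
      conj γ * f (n + 1) + a * f (n + 2) + (a * conj μ + conj β) * f n
    linear_combination conj μ ^ (n + 3) * hg (n + 2) - conj μ ^ (n + 2) * hg n + hw (n + 2) -
      conj μ * hw n + hS n + conj μ ^ (n + 2) * hZ n
  | .negSucc 0 =>
    change (conj μ ^ (0 + 1) * conj (g 0) - w 0) - conj μ * (-conj (Z 0)) =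
      conj γ * 0 + a * f 0 + (a * conj μ + conj β) * (-(μ ^ (0 + 1) * f 0))
    linear_combination conj μ * hg 0 + hw 0 + hS0
  | .negSucc 1 =>
    change (-(conj μ * conj (Z 1) + conj γ * μ * f 0 + (a * conj μ + conj β) * μ ^ 2 * f 1)) -
      conj μ * (-conj (Z 1)) =
      conj γ * (-(μ ^ (0 + 1) * f 0)) + a * 0 + (a * conj μ + conj β) * (-(μ ^ (1 + 1) * f 1))
    ring
  | .negSucc (n + 2) =>
    change (-conj (Z n)) - conj μ * (-conj (Z (n + 2))) =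
      conj γ * (-(μ ^ (n + 1 + 1) * f (n + 1))) + a * (-(μ ^ (n + 1) * f n)) +
        (a * conj μ + conj β) * (-(μ ^ (n + 2 + 1) * f (n + 2)))
    linear_combination (-1) * hZ n

private theorem Ll_xk (μ : ℂ) (k : ℕ) : ((‖μ‖ ^ (2 * k) : ℝ) : ℂ) = (μ * conj μ) ^ k := by
  rw [pow_mul, ← Ll_x]
  push_cast
  rfl

/-- convergence of the two series of `sY` -/
private theorem Ll_Y {μ : ℂ} {g : ℕ → ℂ} (hμ : ‖μ‖ < 1) (hg : Dc μ g) {v : ℂ} (h1 : ‖μ‖ < ‖v‖) (h2 : ‖v‖ < 1) :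
    Summable (fun n => g n * v ^ (n + 1)) ∧ Summable (fun n => g n * (μ * v⁻¹) ^ (n + 1)) ∧
    Summable (fun n => g n * (conj v)⁻¹ ^ (n + 1)) ∧ Summable (fun n => g n * (μ * conj v) ^ (n + 1)) := by
  have hm := norm_nonneg μ
  have hv : 0 < ‖v‖ := lt_of_le_of_lt hm h1
  obtain ⟨C, hC⟩ := hg 1 one_pos (by linarith)
  obtain ⟨D, hD⟩ := hg (2 / (‖v‖ + ‖μ‖)) (by positivity) (by
    rw [div_mul_eq_mul_div, div_lt_one (by positivity)]
    linarith)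
  refine ⟨Ll_q one_pos hC h2, Ll_q one_pos hC ?_, Ll_q (by positivity) hD ?_, Ll_q one_pos hC ?_⟩
  · rw [norm_mul, norm_inv, ← div_eq_mul_inv, div_lt_one hv]
    exact h1
  · rw [norm_inv, RCLike.norm_conj, inv_eq_one_div, div_lt_div_iff₀ hv (by positivity)]
    linarith
  · rw [norm_mul, RCLike.norm_conj]
    nlinarith

theorem DDG {μ : ℂ} (hμ : ‖μ‖ < 1) {l : ℝ} (hl : |l| < 1) {a : ℝ} {γ β : ℂ} {f w : ℕ → ℂ} (hf : Gr f)
    (h1 : ∀ n : ℕ, ∑' k : ℕ, Pc μ a γ β k * (f (n + k) - l * conj μ ^ (n + k + 1) * conj (f (n + k))) =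
      w n - l * conj μ ^ n * conj β * conj (f n) - l * conj μ ^ (n + 1) * conj (w n))
    (h2 : ∀ n : ℕ, ∑ k ∈ Finset.range (n + 1), Pc μ a γ β (n - k) * ((1 - ‖μ‖ ^ (2 * (k + 1)) : ℝ) : ℂ) * conj (f k) =
      ((‖μ‖ ^ (2 * n) * (2 * (conj μ * β).re) : ℝ) : ℂ) * conj (f n) - ((1 - ‖μ‖ ^ (2 * (n + 1)) : ℝ) : ℂ) * conj (w n)) :
    ∃ (y : ℂ) (g : ℕ → ℂ), Dc μ g ∧
      ∀ x : ℂ, ‖μ‖ < ‖x‖ → ‖x‖ < 1 → 2 * Uw μ a γ β x * sE μ f x = TT μ y g l x := by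
  have hm := norm_nonneg μ
  have hwG : Gr w := Ll_gw hμ hf h2
  -- the sequences
  obtain ⟨X, hX⟩ : ∃ X : ℕ → ℂ, ∀ n, X n = ∑' k, Pc μ a γ β k * f (n + k) := ⟨_, fun _ => rfl⟩
  obtain ⟨K, hK⟩ : ∃ K : ℕ → ℂ, ∀ n, K n = conj μ ^ (n + 1) * conj (f n) := ⟨_, fun _ => rfl⟩
  have hKf : ∀ n, ‖K n‖ ≤ ‖f n‖ := fun n => by
    rw [hK, norm_mul, norm_pow, RCLike.norm_conj, RCLike.norm_conj]
    have : ‖μ‖ ^ (n + 1) ≤ 1 := pow_le_one₀ hm hμ.le
    calc ‖μ‖ ^ (n + 1) * ‖f n‖ ≤ 1 * ‖f n‖ := by gcongr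
      _ = _ := one_mul _
  have hKG : Gr K := by
    intro s hs hs1
    obtain ⟨C, hC⟩ := hf s hs hs1
    refine ⟨C, fun n => le_trans ?_ (hC n)⟩
    gcongr
    exact hKf n
  obtain ⟨Z, hZ⟩ : ∃ Z : ℕ → ℂ, ∀ n, Z n = ∑' k, Pc μ a γ β k * K (n + k) := ⟨_, fun _ => rfl⟩
  have hXr : ∀ n, X n - μ * X (n + 2) = a * f n + γ * f (n + 1) + (a * μ + β) * f (n + 2) := fun n => by
    rw [hX, hX]
    exact Ll_rec (Ll_s hμ a γ β hf) n
  have hZr : ∀ n, Z n - μ * Z (n + 2) = a * K n + γ * K (n + 1) + (a * μ + β) * K (n + 2) := fun n => by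
    rw [hZ, hZ]
    exact Ll_rec (Ll_s hμ a γ β hKG) n
  obtain ⟨g, hg⟩ : ∃ g : ℕ → ℂ, ∀ n, g n =
      conj μ ^ (n + 1) * conj (w n) + conj μ ^ n * conj β * conj (f n) - Z n := ⟨_, fun _ => rfl⟩
  have hlg : ∀ n, l * g n = w n - X n := by
    intro n
    have e := h1 n
    have e1 : ∑' k : ℕ, Pc μ a γ β k * (f (n + k) - l * conj μ ^ (n + k + 1) * conj (f (n + k))) =
        X n - l * Z n := by
      rw [hX, hZ, ← tsum_mul_left,
        ← Summable.tsum_sub (Ll_s hμ a γ β hf n) ((Ll_s hμ a γ β hKG n).mul_left _)]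
      congr 1
      ext k
      rw [hK]
      ring
    rw [e1] at e
    rw [hg]
    linear_combination e
  -- decay
  have hgD : Dc μ g := by
    obtain ⟨T, hT⟩ : ∃ T : ℕ → ℂ, T = fun n => ∑' k, Pc μ a γ β k * (conj μ ^ (k + 1) * conj (f (n + k))) :=
      ⟨_, rfl⟩
    have hTG : Gr T := by
      rw [hT]
      refine Ll_t hμ a γ β hf fun n k => ?_
      rw [norm_mul, norm_mul, norm_pow, RCLike.norm_conj, RCLike.norm_conj]
      have : ‖μ‖ ^ (k + 1) ≤ 1 := pow_le_one₀ hm hμ.le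
      calc ‖Pc μ a γ β k‖ * (‖μ‖ ^ (k + 1) * ‖f (n + k)‖) ≤ ‖Pc μ a γ β k‖ * (1 * ‖f (n + k)‖) := by gcongr
        _ = _ := by rw [one_mul]
    refine Ll_gd (Ll_gc hf hwG hTG (conj μ) (conj β)) fun n => ?_
    have e1 : Z n = conj μ ^ n * T n := by
      rw [hZ, hT, ← tsum_mul_left]
      congr 1
      ext k
      rw [hK]
      ring
    rw [hg, e1]
    ring
  -- conjugates
  have hgc : ∀ n, conj (g n) = μ ^ (n + 1) * w n + μ ^ n * β * f n - conj (Z n) := fun n => by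
    rw [hg]
    simp only [map_sub, map_add, map_mul, map_pow, Complex.conj_conj]
  have hZc : ∀ n, conj (Z n) - conj μ * conj (Z (n + 2)) = a * μ ^ (n + 1) * f n +
      conj γ * μ ^ (n + 2) * f (n + 1) + (a * conj μ + conj β) * μ ^ (n + 3) * f (n + 2) := fun n => by
    have e := congrArg conj (hZr n)
    rw [hK, hK, hK] at e
    simp only [map_sub, map_add, map_mul, map_pow, Complex.conj_conj, Complex.conj_ofReal] at e
    rw [e]
    ring
  obtain ⟨S, hS⟩ : ∃ S : ℕ → ℂ, ∀ n, S n =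
      ∑ k ∈ Finset.range (n + 1), conj (Pc μ a γ β (n - k)) * ((1 - (μ * conj μ) ^ (k + 1)) * f k) :=
    ⟨_, fun _ => rfl⟩
  have hw : ∀ n, -(1 - (μ * conj μ) ^ (n + 1)) * w n =
      S n - (μ * conj μ) ^ n * (conj μ * β + μ * conj β) * f n := fun n => by
    have e := congrArg conj (h2 n)
    rw [map_sum] at e
    have e1 : ∑ k ∈ Finset.range (n + 1), conj (Pc μ a γ β (n - k) * ((1 - ‖μ‖ ^ (2 * (k + 1)) : ℝ) : ℂ) *
        conj (f k)) = S n := by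
      rw [hS]
      refine Finset.sum_congr rfl fun k _ => ?_
      rw [map_mul, map_mul, Complex.conj_conj, Complex.conj_ofReal, Complex.ofReal_sub, Ll_xk, Complex.ofReal_one]
      ring
    rw [e1, map_sub, map_mul, map_mul, Complex.conj_conj, Complex.conj_conj, Complex.conj_ofReal,
      Complex.conj_ofReal, Complex.ofReal_sub, Ll_xk, Complex.ofReal_one, Complex.ofReal_mul, Ll_xk,
      Complex.ofReal_mul, Ll_re] at e
    rw [e]
    push_cast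
    ring
  have hS0 : S 0 = a * ((1 - (μ * conj μ) ^ 1) * f 0) := by
    rw [hS, Finset.sum_range_one, Nat.sub_self, Pc, Complex.conj_ofReal]
  have hS1 : S 1 = conj γ * ((1 - (μ * conj μ) ^ 1) * f 0) + a * ((1 - (μ * conj μ) ^ 2) * f 1) := by
    rw [hS, Finset.sum_range_succ, Finset.sum_range_one, Nat.sub_self, Nat.sub_zero, Pc, Pc, Complex.conj_ofReal]
  have hSr : ∀ n, S (n + 2) - conj μ * S n = a * ((1 - (μ * conj μ) ^ (n + 3)) * f (n + 2)) +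
      conj γ * ((1 - (μ * conj μ) ^ (n + 2)) * f (n + 1)) +
      (a * conj μ + conj β) * ((1 - (μ * conj μ) ^ (n + 1)) * f n) := fun n => by
    rw [hS, hS]
    exact Ll_fs (fun k => (1 - (μ * conj μ) ^ (k + 1)) * f k) n
  -- the two-sided sequences
  obtain ⟨E, hE⟩ : ∃ E : ℤ → ℂ, E = Ll_z f 0 (fun n => -(μ ^ (n + 1) * f n)) := ⟨_, rfl⟩
  obtain ⟨A0, hA0⟩ : ∃ A0 : ℂ, A0 = μ * X 1 + γ * f 0 + (a * μ + β) * f 1 := ⟨_, rfl⟩
  obtain ⟨B0, hB0⟩ : ∃ B0 : ℂ, B0 = -(conj μ * conj (Z 1) + conj γ * μ * f 0 +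
    (a * conj μ + conj β) * μ ^ 2 * f 1) := ⟨_, rfl⟩
  obtain ⟨A, hA⟩ : ∃ A : ℤ → ℂ, A = Ll_z X A0 (fun n => μ ^ (n + 1) * X n + β * μ ^ n * f n) := ⟨_, rfl⟩
  obtain ⟨B, hB⟩ : ∃ B : ℤ → ℂ, B = Ll_z (fun n => conj μ ^ (n + 1) * conj (g n) - w n) B0
    (fun n => -conj (Z n)) := ⟨_, rfl⟩
  have hl2 : (1 - (l : ℂ) ^ 2) ≠ 0 := by
    have h3 : l ^ 2 < 1 := by
      rw [← sq_abs]
      have := abs_nonneg l
      nlinarith
    have h4 : (1 - l ^ 2 : ℝ) ≠ 0 := by linarith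
    exact_mod_cast h4
  obtain ⟨y, hy⟩ : ∃ y : ℂ, conj y - l * y = A0 + B0 := by
    refine ⟨(conj (A0 + B0) + l * (A0 + B0)) / (1 - (l : ℂ) ^ 2), ?_⟩
    rw [map_div₀, map_add, map_mul, Complex.conj_conj, map_sub, map_one, map_pow, Complex.conj_ofReal]
    field_simp
    ring
  refine ⟨y, g, hgD, fun v hv1 hv2 => ?_⟩
  have hv0 : 0 < ‖v‖ := lt_of_le_of_lt hm hv1
  have hv : v ≠ 0 := norm_pos_iff.1 hv0
  -- the series of `E`
  obtain ⟨s, hs1, hs2⟩ := exists_between hv2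
  obtain ⟨C, hC⟩ := hf s (hv0.trans hs1) hs2
  have hq : ‖μ * v⁻¹‖ < 1 := by
    rw [norm_mul, norm_inv, ← div_eq_mul_inv, div_lt_one hv0]
    exact hv1
  obtain ⟨s', hs1', hs2'⟩ := exists_between hq
  obtain ⟨C', hC'⟩ := hf s' (lt_of_le_of_lt (norm_nonneg _) hs1') hs2'
  have f1 := Ll_q (hv0.trans hs1) hC hs1
  have f2 := Ll_q (lt_of_le_of_lt (norm_nonneg _) hs1') hC' hs1'
  obtain ⟨g1, g2, g3, g4⟩ := Ll_Y hμ hgD hv1 hv2
  have hEs : HasSum (fun N : ℤ => E N * v ^ N) (sE μ f v) := by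
    have e := Ll_sum (c := 0) (m := fun n => -(μ ^ (n + 1) * f n)) (v := v) f1.hasSum
      (Ll_c f2.hasSum.neg fun n => by
        rw [mul_pow]
        ring)
    rw [← hE] at e
    have e1 : sE μ f v = 0 + (∑' n, f n * v ^ (n + 1)) + -(∑' n, f n * (μ * v⁻¹) ^ (n + 1)) := by
      unfold sE
      rw [zero_add, ← sub_eq_add_neg, ← Summable.tsum_sub f1 f2]
      congr 1
      ext n
      ring
    rw [e1]
    exact e
  -- the series of `Y`
  have hY1 : sY μ y g v = y + ((∑' n, g n * v ^ (n + 1)) + (∑' n, g n * (μ * v⁻¹) ^ (n + 1))) := by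
    unfold sY
    rw [← Summable.tsum_add g1 g2]
    congr 2
    ext n
    ring
  have hY2 : sY μ y g (conj v)⁻¹ =
      y + ((∑' n, g n * (conj v)⁻¹ ^ (n + 1)) + (∑' n, g n * (μ * conj v) ^ (n + 1))) := by
    unfold sY
    rw [← Summable.tsum_add g3 g4, inv_inv]
    congr 2
    ext n
    ring
  have k3 : HasSum (fun n => conj (g n) * v⁻¹ ^ (n + 1)) (conj (∑' n, g n * (conj v)⁻¹ ^ (n + 1))) := by
    refine Ll_c (Complex.hasSum_conj'.2 g3.hasSum) fun n => ?_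
    simp only [map_mul, map_pow, map_inv₀, Complex.conj_conj]
  have k4 : HasSum (fun n => conj (g n) * (conj μ * v) ^ (n + 1)) (conj (∑' n, g n * (μ * conj v) ^ (n + 1))) := by
    refine Ll_c (Complex.hasSum_conj'.2 g4.hasSum) fun n => ?_
    simp only [map_mul, map_pow, Complex.conj_conj]
  have hCs : HasSum (fun N : ℤ => (A N + B N) * v ^ N) (conj (sY μ y g (conj v)⁻¹) - l * sY μ y g v) := by
    have e := Ll_sum (c := conj y - l * y) (p := fun n => conj μ ^ (n + 1) * conj (g n) - l * g n)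
      (m := fun n => conj (g n) - l * μ ^ (n + 1) * g n) (v := v)
      (Ll_c (k4.sub (g1.hasSum.mul_left (l : ℂ))) fun n => by
        rw [mul_pow]
        ring)
      (Ll_c (k3.sub (g2.hasSum.mul_left (l : ℂ))) fun n => by
        rw [mul_pow]
        ring)
    have e1 : conj (sY μ y g (conj v)⁻¹) - l * sY μ y g v = conj y - l * y +
        (conj (∑' n, g n * (μ * conj v) ^ (n + 1)) - l * ∑' n, g n * v ^ (n + 1)) +
        (conj (∑' n, g n * (conj v)⁻¹ ^ (n + 1)) - l * ∑' n, g n * (μ * v⁻¹) ^ (n + 1)) := by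
      rw [hY1, hY2, map_add, map_add]
      ring
    rw [e1]
    refine Ll_c e fun N => ?_
    congr 1
    rw [hA, hB]
    match N with
    | .ofNat 0 =>
      change A0 + B0 = conj y - l * y
      exact hy.symm
    | .ofNat (n + 1) =>
      change X n + (conj μ ^ (n + 1) * conj (g n) - w n) = conj μ ^ (n + 1) * conj (g n) - l * g n
      linear_combination hlg n
    | .negSucc n =>
      change (μ ^ (n + 1) * X n + β * μ ^ n * f n) + -conj (Z n) = conj (g n) - l * μ ^ (n + 1) * g n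
      linear_combination μ ^ (n + 1) * hlg n - hgc n
  subst hA0 hB0
  exact Ll_alg (fun N => Ll_RA hXr hA hE N) (fun N => Ll_RB hgc hZc hw hS0 hS1 hSr hB hE N) hv hEs hCs

end LD1
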