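import Mathlib

/-!
ROW LD/Lm. Pure complex analysis: a function with boundary values in a sector around the positive reals has no negative values. (1) `O` is bounded, `‖G‖ ≤ M` on the compact closure. For `t > M` the function `G + t` has no zeros in the closure. (2) If `G + t` has no zeros in `closure O` (`t > 0`), then `1/(G + t)` is holomorphic, continuous on the
closure, so by the maximum principle (`Complex.norm_le_of_forall_mem_frontier_norm_le`) `‖G + t‖ ≥ c t` in `O`. (3) So the set of `t > 0` such that `‖G w + t‖ ≥ c t` for all `w ∈ closure O` is closed in `(0,∞)`, and open by (2) and `‖G + t'‖ ≥ c t - |t - t'|`, contains `t > M`: it is `(0,∞)`. (4) If `G` is not zero on `O`, then it is not constant near `w₀`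
(preconnected, identity theorem; if it is locally constant it is `0`), so by the open mapping theorem (`AnalyticAt.eventually_constant_or_nhds_le_map_nhds`) it takes a value `-t`, `t > 0`, near `w₀`: contradiction.
-/

set_option autoImplicit false

namespace LD1

open Complex Set Filter Topology

private theorem Lm_noZero {O : Set ℂ} (hOb : Bornology.IsBounded O) (_hO : IsOpen O) {G : ℂ → ℂ}
    (hG : DifferentiableOn ℂ G O) (hGc : ContinuousOn G (closure O)) {c : ℝ} (hc : 0 < c)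
    (hb : ∀ w ∈ frontier O, ∀ t : ℝ, 0 < t → c * t ≤ ‖G w + t‖) {t : ℝ} (ht : 0 < t)
    (hz : ∀ w ∈ closure O, G w + t ≠ 0) : ∀ w ∈ closure O, c * t ≤ ‖G w + t‖ := by
  intro w hw
  have hct : 0 < c * t := mul_pos hc ht
  have hd : DiffContOnCl ℂ (fun z => (G z + t)⁻¹) O := by
    refine ⟨?_, ?_⟩
    · exact (hG.add (differentiableOn_const _)).inv fun z hz' => hz z (subset_closure hz')
    · exact (hGc.add continuousOn_const).inv₀ hz
  have h1 : ‖(G w + t)⁻¹‖ ≤ (c * t)⁻¹ := by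
    refine Complex.norm_le_of_forall_mem_frontier_norm_le hOb hd (fun z hz' => ?_) hw
    rw [norm_inv]
    exact inv_anti₀ hct (hb z hz' t ht)
  rw [norm_inv] at h1
  exact (inv_le_inv₀ (norm_pos_iff.2 (hz w hw)) hct).1 h1

private theorem Lm_all {O : Set ℂ} (hOb : Bornology.IsBounded O) (hO : IsOpen O) {G : ℂ → ℂ}
    (hG : DifferentiableOn ℂ G O) (hGc : ContinuousOn G (closure O)) {c : ℝ} (hc : 0 < c)
    (hb : ∀ w ∈ frontier O, ∀ t : ℝ, 0 < t → c * t ≤ ‖G w + t‖) {t : ℝ} (ht : 0 < t) :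
    ∀ w ∈ closure O, c * t ≤ ‖G w + t‖ := by
  obtain ⟨M, hM⟩ := hOb.isCompact_closure.exists_bound_of_continuousOn hGc
  by_contra hcon
  -- the set of the bad `t`
  obtain ⟨B, hB⟩ : ∃ B : Set ℝ, ∀ s, s ∈ B ↔ 0 < s ∧ ¬ ∀ w ∈ closure O, c * s ≤ ‖G w + s‖ := ⟨{s | _}, fun s => Iff.rfl⟩
  have hBt : t ∈ B := (hB t).2 ⟨ht, hcon⟩
  have hBb : ∀ s ∈ B, s ≤ M := by
    intro s hs
    by_contra h
    push Not at h
    refine ((hB s).1 hs).2 (Lm_noZero hOb hO hG hGc hc hb ((hB s).1 hs).1 fun w hw h0 => ?_)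
    have h1 := hM w hw
    have h2 : G w = -(s : ℂ) := eq_neg_of_add_eq_zero_left h0
    rw [h2, norm_neg, Complex.norm_real, Real.norm_eq_abs, abs_of_pos ((hB s).1 hs).1] at h1
    linarith
  have hBdd : BddAbove B := ⟨M, fun s hs => hBb s hs⟩
  obtain ⟨s, hs⟩ : ∃ s, s = sSup B := ⟨_, rfl⟩
  have hts : t ≤ s := hs ▸ le_csSup hBdd hBt
  have hs0 : 0 < s := ht.trans_le hts
  have hgood : ∀ s' > s, ∀ w ∈ closure O, c * s' ≤ ‖G w + s'‖ := by
    intro s' hs' w hw
    by_contra h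
    have h1 : s' ∈ B := (hB s').2 ⟨hs0.trans hs', fun h2 => h (h2 w hw)⟩
    have h2 : s' ≤ s := hs ▸ le_csSup hBdd h1
    exact absurd hs' (not_lt.2 h2)
  have hsg : ∀ w ∈ closure O, c * s ≤ ‖G w + s‖ := by
    intro w hw
    have h1 : Tendsto (fun x : ℝ => c * x) (𝓝[>] s) (𝓝 (c * s)) :=
      ((continuous_const.mul continuous_id).tendsto s).mono_left nhdsWithin_le_nhds
    have h2 : Tendsto (fun x : ℝ => ‖G w + x‖) (𝓝[>] s) (𝓝 ‖G w + s‖) :=
      (((continuous_const.add Complex.continuous_ofReal).norm).tendsto s).mono_left nhdsWithin_le_nhds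
    refine le_of_tendsto_of_tendsto h1 h2 ?_
    filter_upwards [self_mem_nhdsWithin] with x hx
    exact hgood x hx w hw
  -- a bad parameter slightly below `s`
  have hε : 0 < min (c * s) s := lt_min (mul_pos hc hs0) hs0
  obtain ⟨r, hr, hrs⟩ : ∃ r ∈ B, s - min (c * s) s < r := by
    rw [hs] at hε ⊢
    exact exists_lt_of_lt_csSup ⟨t, hBt⟩ (by linarith)
  have hr0 := ((hB r).1 hr).1
  have hrs' : r ≤ s := hs ▸ le_csSup hBdd hr
  refine ((hB r).1 hr).2 (Lm_noZero hOb hO hG hGc hc hb hr0 fun w hw h0 => ?_)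
  have h1 := hsg w hw
  have h2 : G w + s = ((s - r : ℝ) : ℂ) := by
    have h3 : G w = -(r : ℂ) := eq_neg_of_add_eq_zero_left h0
    rw [h3]
    push_cast
    ring
  rw [h2, Complex.norm_real, Real.norm_eq_abs, abs_of_nonneg (by linarith)] at h1
  have h3 : min (c * s) s ≤ c * s := min_le_left _ _
  linarith

theorem omit1 {O : Set ℂ} (hO : IsOpen O) (hOc : IsPreconnected O) (hOb : Bornology.IsBounded O) {G : ℂ → ℂ}
    (hG : DifferentiableOn ℂ G O) (hGc : ContinuousOn G (closure O)) {c : ℝ} (hc : 0 < c)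
    (hb : ∀ w ∈ frontier O, ∀ t : ℝ, 0 < t → c * t ≤ ‖G w + t‖) {w₀ : ℂ} (hw₀ : w₀ ∈ O) (h0 : G w₀ = 0) : ∀ w ∈ O, G w = 0 := by
  have hA : AnalyticOnNhd ℂ G O := hG.analyticOnNhd hO
  rcases (hA w₀ hw₀).eventually_constant_or_nhds_le_map_nhds with h | h
  · have h1 : EqOn G (fun _ => (0 : ℂ)) O := by
      refine hA.eqOn_of_preconnected_of_eventuallyEq analyticOnNhd_const hOc hw₀ ?_
      filter_upwards [h] with z hz
      rw [hz, h0]
    exact fun w hw => h1 hw
  · exfalso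
    have h1 : G '' O ∈ 𝓝 (0 : ℂ) := by
      rw [h0] at h
      exact h (image_mem_map (hO.mem_nhds hw₀))
    have h2 : Tendsto (fun x : ℝ => -(x : ℂ)) (𝓝[>] 0) (𝓝 0) := by
      have h3 : Tendsto (fun x : ℝ => -(x : ℂ)) (𝓝 0) (𝓝 (-((0 : ℝ) : ℂ))) :=
        (Complex.continuous_ofReal.neg).tendsto 0
      rw [Complex.ofReal_zero, neg_zero] at h3
      exact h3.mono_left nhdsWithin_le_nhds
    obtain ⟨x, hx, hx0⟩ := ((h2.eventually h1).and self_mem_nhdsWithin).exists
    obtain ⟨w, hw, hwx⟩ := hx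
    have h4 := Lm_all hOb hO hG hGc hc hb (show (0 : ℝ) < x from hx0) w (subset_closure hw)
    rw [hwx, neg_add_cancel, norm_zero] at h4
    exact absurd h4 (not_le.2 (mul_pos hc hx0))

end LD1
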