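import Pool.Agent.H1.LD.Lk
import Pool.Agent.H1.LD.Lm

/-!
ROW LD/Ln. The linearized uniqueness. `E = sE μ f` (`‖μ‖ < ‖x‖ < 1`), `Y = sY μ y g`, `T = TT μ y g l` (holomorphic near the unit circle: `x ↦ conj (Y (1/conj x))` is), `2 Uw E = T` inside, `‖T‖² ≤ C |Uw|` on the circle, where `T = ‖pw‖² (conj Y - l Y)` (`ps = conj pw`, `(conj x)⁻¹ = x` there), so `(1 - l²) ‖pw‖² Y = conj T + l T`.
`Uw` is not zero (coefficients `conj β/2`, `(conj γ - conj μ γ)/2`, `a(1-‖μ‖²) - Re(conj μ β)`; `h3`), finitely many zeros. `Y T = (‖T‖² + l T²)/((1-l²)‖pw‖²)` on the circle is at most `C' |Uw|`, so `Y T/(2 Uw)` has removable singularities at the zeros of `Uw` on the circle: a function `R`, holomorphic near the unit circle,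
equal to `Y E` inside. Put `G = R²`. On the circle where `Uw ≠ 0`: `G = τ (1 + l u)²`, `τ ≥ 0`, `‖u‖ = 1` (`u = T/conj T`; `G = 0` if `T = 0`), and `‖τ (1+lu)² + t‖ ≥ t Re(1+lu)/‖1+lu‖ · ... ≥ t (1-|l|)/(1+|l|)` (`|τ s² + t| ≥ |s| Re (τ s + t/s) ≥ t Re s/|s|`); by continuity on the whole circle.
If `μ ≠ 0`: `O = {‖μ‖ < ‖x‖ < 1}`, `G (μ/x) = G x` (`Y (μ/x) = Y x`, `E (μ/x) = -E x`; use this to extend `G` to `‖x‖ = ‖μ‖`), `G (√μ) = 0` since `E (√μ) = 0`. If `μ = 0`: `O` = the unit disk, `E` and `Y` are power series, `E 0 = 0` (extend `G` by `0`). `omit1` (`LD/Lm.lean`): `G = 0`, so `Y E = 0`, so (identity theorem) `E = 0` or `Y = 0`;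
in the second case `T = 0`, `E = 0`. Then `sE_inj`.
-/

set_option autoImplicit false

namespace LD1

open Complex Set Filter Topology MeasureTheory EW1 EX1 ND1
open scoped ComplexConjugate ContDiff Real

private theorem Ln_annulus {J : Set ℝ} (hJ : IsPreconnected J) (hpos : ∀ r ∈ J, 0 ≤ r) :
    IsPreconnected {w : ℂ | ‖w‖ ∈ J} := by
  have h1 : {w : ℂ | ‖w‖ ∈ J} =
      (fun p : ℝ × ℝ => (p.1 : ℂ) * Complex.exp (p.2 * Complex.I)) '' (J ×ˢ Set.univ) := by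
    ext w
    constructor
    · intro hw
      exact ⟨(‖w‖, Complex.arg w), ⟨hw, trivial⟩, Complex.norm_mul_exp_arg_mul_I w⟩
    · rintro ⟨⟨r, t⟩, ⟨hr, -⟩, rfl⟩
      have hr' : r ∈ J := hr
      simp only [Set.mem_ofPred_eq, norm_mul, Complex.norm_real, Complex.norm_exp_ofReal_mul_I, mul_one,
        Real.norm_eq_abs, abs_of_nonneg (hpos r hr')]
      exact hr'
  rw [h1]
  refine (hJ.prod isPreconnected_univ).image _ (Continuous.continuousOn ?_)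
  fun_prop

private theorem Ln_quot {x₀ : ℂ} (hx : ‖x₀‖ = 1) {P D : ℂ → ℂ} (hP : AnalyticAt ℂ P x₀)
    (hD : AnalyticAt ℂ D x₀) (hD0 : ¬ ∀ᶠ z in 𝓝 x₀, D z = 0) {C : ℝ}
    (hb : ∀ z : ℂ, ‖z‖ = 1 → ‖P z‖ ≤ C * ‖D z‖) :
    ∃ H : ℂ → ℂ, AnalyticAt ℂ H x₀ ∧ ∀ᶠ z in 𝓝 x₀, P z = D z * H z := by
  by_cases hP0 : ∀ᶠ z in 𝓝 x₀, P z = 0
  · exact ⟨fun _ => 0, analyticAt_const, hP0.mono fun z hz => by rw [hz, mul_zero]⟩
  obtain ⟨n, P₁, hP1, hPn, hPe⟩ := (hP.exists_eventuallyEq_pow_smul_nonzero_iff).2 hP0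
  obtain ⟨m, D₁, hD1, hDn, hDe⟩ := (hD.exists_eventuallyEq_pow_smul_nonzero_iff).2 hD0
  have hmn : m ≤ n := by
    by_contra hlt
    have hlt' : n < m := not_le.1 hlt
    let L : Filter ℂ := Filter.map (fun t : ℝ => x₀ * exp (t * I)) (𝓝[>] 0)
    have hL : L ≤ 𝓝 x₀ := by
      have h1 : ContinuousAt (fun t : ℝ => x₀ * exp (t * I)) 0 := by fun_prop
      have h2 := h1.tendsto.mono_left (nhdsWithin_le_nhds : 𝓝[>] (0 : ℝ) ≤ 𝓝 0)
      simp only [ofReal_zero, zero_mul, exp_zero, mul_one] at h2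
      exact h2
    have hcirc : ∀ᶠ z in L, ‖z‖ = 1 := by
      rw [Filter.eventually_map]
      exact Eventually.of_forall fun t => by
        rw [norm_mul, hx, Complex.norm_exp_ofReal_mul_I, one_mul]
    have hx0 : x₀ ≠ 0 := fun h => by rw [h, norm_zero] at hx; exact zero_ne_one hx
    have hne : ∀ᶠ z in L, z ≠ x₀ := by
      rw [Filter.eventually_map]
      filter_upwards [Ioo_mem_nhdsGT Real.pi_pos] with t ht h
      have h1 : exp ((t : ℂ) * I) = 1 := by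
        have := mul_left_cancel₀ hx0 (h.trans (mul_one x₀).symm)
        exact this
      have h2 := congrArg Complex.im h1
      rw [Complex.exp_ofReal_mul_I_im, Complex.one_im] at h2
      exact (Real.sin_pos_of_pos_of_lt_pi ht.1 ht.2).ne' h2
    have hle : ∀ᶠ z in L, ‖P₁ z‖ ≤ C * ‖z - x₀‖ ^ (m - n) * ‖D₁ z‖ := by
      filter_upwards [hcirc, hne, hL hPe, hL hDe] with z h1 h2 h3 h4
      have h5 := hb z h1
      rw [h3, h4, norm_smul, norm_smul, norm_pow, norm_pow] at h5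
      have h6 : 0 < ‖z - x₀‖ ^ n := pow_pos (norm_pos_iff.2 (sub_ne_zero.2 h2)) n
      have h7 : ‖z - x₀‖ ^ m = ‖z - x₀‖ ^ (m - n) * ‖z - x₀‖ ^ n := by
        rw [← pow_add]; congr 1; omega
      rw [h7] at h5
      have h8 : ‖z - x₀‖ ^ n * ‖P₁ z‖ ≤ ‖z - x₀‖ ^ n * (C * ‖z - x₀‖ ^ (m - n) * ‖D₁ z‖) := by
        calc _ ≤ _ := h5
          _ = _ := by ring
      exact le_of_mul_le_mul_left h8 h6
    have hlim1 : Tendsto (fun z => C * ‖z - x₀‖ ^ (m - n) * ‖D₁ z‖) L (𝓝 0) := by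
      have h1 : ContinuousAt (fun z => C * ‖z - x₀‖ ^ (m - n) * ‖D₁ z‖) x₀ := by
        have := hD1.continuousAt
        fun_prop
      have h2 := h1.tendsto.mono_left hL
      have h3 : m - n ≠ 0 := by omega
      simpa [h3] using h2
    have hlim2 : Tendsto (fun z => ‖P₁ z‖) L (𝓝 ‖P₁ x₀‖) := hP1.continuousAt.norm.tendsto.mono_left hL
    have hLne : L.NeBot := Filter.map_neBot
    have h9 := le_of_tendsto_of_tendsto hlim2 hlim1 hle
    exact hPn (norm_le_zero_iff.1 h9)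
  refine ⟨fun z => (z - x₀) ^ (n - m) * P₁ z / D₁ z, ?_, ?_⟩
  · have h1 : AnalyticAt ℂ (fun z : ℂ => (z - x₀) ^ (n - m)) x₀ := by fun_prop
    exact (h1.mul hP1).div hD1 hDn
  · filter_upwards [hPe, hDe, hD1.continuousAt.eventually_ne hDn] with z h3 h4 h5
    rw [h3, h4, smul_eq_mul, smul_eq_mul]
    have h7 : (z - x₀) ^ n = (z - x₀) ^ m * (z - x₀) ^ (n - m) := by
      rw [← pow_add]; congr 1; omega
    rw [h7]
    field_simp

private theorem Ln_sector {l : ℝ} (hl : |l| < 1) {τ t : ℝ} (hτ : 0 ≤ τ) (ht : 0 < t) {u : ℂ}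
    (hu : ‖u‖ = 1) : (1 - |l|) / (1 + |l|) * t ≤ ‖(τ : ℂ) * (1 + l * u) ^ 2 + t‖ := by
  set s : ℂ := 1 + l * u with hs
  have hlu : ‖(l : ℂ) * u‖ = |l| := by rw [norm_mul, hu, mul_one, Complex.norm_real, Real.norm_eq_abs]
  have h1 : 1 - |l| ≤ s.re := by
    have h2 := (Complex.abs_re_le_norm ((l : ℂ) * u)).trans hlu.le
    have h3 := (abs_le.1 h2).1
    rw [hs, Complex.add_re, Complex.one_re]
    linarith
  have h2 : ‖s‖ ≤ 1 + |l| := by
    have := norm_add_le (1 : ℂ) (l * u)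
    rwa [norm_one, hlu] at this
  have h0 : 0 < s.re := by linarith
  have key : t * s.re ≤ ‖(τ : ℂ) * s ^ 2 + t‖ * ‖s‖ := by
    have e1 : ((τ : ℂ) * s ^ 2 + t) * conj s = ((τ * normSq s : ℝ) : ℂ) * s + (t : ℂ) * conj s := by
      have := Complex.mul_conj s
      push_cast
      rw [← this]
      ring
    have e2 : (((τ : ℂ) * s ^ 2 + t) * conj s).re = τ * normSq s * s.re + t * s.re := by
      rw [e1, Complex.add_re, Complex.re_ofReal_mul, Complex.re_ofReal_mul, Complex.conj_re]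
    have e3 := Complex.re_le_norm (((τ : ℂ) * s ^ 2 + t) * conj s)
    rw [e2, norm_mul, Complex.norm_conj] at e3
    have e4 : 0 ≤ τ * normSq s * s.re := mul_nonneg (mul_nonneg hτ (normSq_nonneg s)) h0.le
    linarith
  have hpos : 0 < 1 + |l| := by positivity
  rw [div_mul_eq_mul_div, div_le_iff₀ hpos]
  have h5 : (1 - |l|) * t ≤ t * s.re := by nlinarith
  have h6 : ‖(τ : ℂ) * s ^ 2 + t‖ * ‖s‖ ≤ ‖(τ : ℂ) * s ^ 2 + t‖ * (1 + |l|) :=
    mul_le_mul_of_nonneg_left h2 (norm_nonneg _)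
  linarith

private theorem Ln_alg {l : ℝ} (hl : |l| < 1) {P U : ℝ} (_hP : 0 < P) (hU : U ≠ 0) {Y T : ℂ}
    (hT : T = P * (conj Y - l * Y)) {t : ℝ} (ht : 0 < t) :
    (1 - |l|) / (1 + |l|) * t ≤ ‖(Y * T / (2 * U)) ^ 2 + t‖ := by
  by_cases hY : Y = 0
  · rw [hY, zero_mul, zero_div, zero_pow two_ne_zero, zero_add, Complex.norm_real, Real.norm_eq_abs,
      abs_of_pos ht]
    have h1 : (1 - |l|) / (1 + |l|) ≤ 1 := by
      rw [div_le_one (by positivity)]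
      have := abs_nonneg l
      linarith
    nlinarith
  · have hn : (normSq Y : ℝ) ≠ 0 := fun h => hY (normSq_eq_zero.1 h)
    have hn' : (normSq Y : ℂ) ≠ 0 := by exact_mod_cast hn
    have hu : ‖-(Y ^ 2 / (normSq Y : ℂ))‖ = 1 := by
      rw [norm_neg, norm_div, norm_pow, Complex.norm_real, Real.norm_eq_abs, abs_of_nonneg (normSq_nonneg Y),
        Complex.normSq_eq_norm_sq]
      exact div_self (pow_ne_zero 2 (norm_ne_zero_iff.2 hY))
    have h1 := Ln_sector hl (τ := (P * normSq Y / (2 * U)) ^ 2) (sq_nonneg _) ht hu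
    have h2 : (((P * normSq Y / (2 * U)) ^ 2 : ℝ) : ℂ) * (1 + l * -(Y ^ 2 / (normSq Y : ℂ))) ^ 2 =
        (Y * T / (2 * U)) ^ 2 := by
      have h3 : Y * T = P * ((normSq Y : ℂ) - l * Y ^ 2) := by
        rw [hT, ← Complex.mul_conj Y]; ring
      have hU' : (U : ℂ) ≠ 0 := by exact_mod_cast hU
      rw [h3]
      push_cast
      rw [← mul_pow]
      congr 1
      field_simp
      ring
    rwa [h2] at h1

private theorem Ln_YT {l : ℝ} (_hl : |l| < 1) {P : ℝ} (hP : 0 < P) {Y T : ℂ}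
    (hT : T = P * (conj Y - l * Y)) : ‖Y * T‖ * ((1 - |l|) * P) ≤ ‖T‖ ^ 2 := by
  have h1 : P * ((1 - |l|) * ‖Y‖) ≤ ‖T‖ := by
    rw [hT, norm_mul, Complex.norm_real, Real.norm_eq_abs, abs_of_pos hP]
    refine mul_le_mul_of_nonneg_left ?_ hP.le
    have h2 := norm_sub_norm_le (conj Y) ((l : ℂ) * Y)
    rw [Complex.norm_conj, norm_mul, Complex.norm_real, Real.norm_eq_abs] at h2
    linarith
  rw [norm_mul]
  nlinarith [norm_nonneg T, norm_nonneg Y]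

private theorem Ln_L {x₀ : ℂ} (hx : ‖x₀‖ = 1) : ∃ L : Filter ℂ, L.NeBot ∧ L ≤ 𝓝 x₀ ∧
    (∀ᶠ z in L, ‖z‖ = 1) ∧ ∀ᶠ z in L, z ≠ x₀ := by
  refine ⟨Filter.map (fun t : ℝ => x₀ * exp (t * I)) (𝓝[>] 0), Filter.map_neBot, ?_, ?_, ?_⟩
  · have h1 : ContinuousAt (fun t : ℝ => x₀ * exp (t * I)) 0 := by fun_prop
    have h2 := h1.tendsto.mono_left (nhdsWithin_le_nhds : 𝓝[>] (0 : ℝ) ≤ 𝓝 0)
    simp only [ofReal_zero, zero_mul, exp_zero, mul_one] at h2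
    exact h2
  · rw [Filter.eventually_map]
    exact Eventually.of_forall fun t => by
      rw [norm_mul, hx, Complex.norm_exp_ofReal_mul_I, one_mul]
  · have hx0 : x₀ ≠ 0 := fun h => by rw [h, norm_zero] at hx; exact zero_ne_one hx
    rw [Filter.eventually_map]
    filter_upwards [Ioo_mem_nhdsGT Real.pi_pos] with t ht h
    have h1 : exp ((t : ℂ) * I) = 1 := by
      have := mul_left_cancel₀ hx0 (h.trans (mul_one x₀).symm)
      exact this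
    have h2 := congrArg Complex.im h1
    rw [Complex.exp_ofReal_mul_I_im, Complex.one_im] at h2
    exact (Real.sin_pos_of_pos_of_lt_pi ht.1 ht.2).ne' h2

private theorem Ln_cinv {x : ℂ} (hx : ‖x‖ = 1) : conj x = x⁻¹ := by
  have h1 : x * conj x = 1 := by
    rw [Complex.mul_conj, Complex.normSq_eq_norm_sq, hx]; norm_num
  exact eq_inv_of_mul_eq_one_right h1

private theorem Ln_ps {μ x : ℂ} (hx : ‖x‖ = 1) : pw μ x * ps μ x = ((‖pw μ x‖ ^ 2 : ℝ) : ℂ) := by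
  have h1 : ps μ x = conj (pw μ x) := by
    unfold ps pw
    rw [map_sub, map_mul, map_inv₀, Ln_cinv hx, inv_inv]
  rw [h1, Complex.mul_conj, Complex.normSq_eq_norm_sq]

private theorem Ln_pw {μ x : ℂ} (hx : ‖x‖ = 1) : 1 - ‖μ‖ ≤ ‖pw μ x‖ := by
  have := norm_sub_norm_le x (μ * x⁻¹)
  rw [norm_mul, norm_inv, hx, inv_one, mul_one] at this
  exact this

private theorem Ln_TT {μ y : ℂ} {g : ℕ → ℂ} {l : ℝ} {x : ℂ} (hx : ‖x‖ = 1) :
    TT μ y g l x = ((‖pw μ x‖ ^ 2 : ℝ) : ℂ) * (conj (sY μ y g x) - l * sY μ y g x) := by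
  unfold TT
  rw [Ln_ps hx, Ln_cinv hx, inv_inv]

private theorem Ln_Uw {μ : ℂ} {a : ℝ} {γ β x : ℂ} (hx : ‖x‖ = 1) :
    Uw μ a γ β x = ((Uw μ a γ β x).re : ℂ) := by
  symm
  rw [← Complex.conj_eq_iff_re]
  unfold Uw
  simp only [map_add, map_mul, map_div₀, map_sub, map_pow, map_inv₀, Complex.conj_conj,
    Complex.conj_ofReal, Ln_cinv hx, inv_inv, map_ofNat]
  ring

private theorem Ln_Uw_an {μ : ℂ} {a : ℝ} {γ β x : ℂ} (hx : x ≠ 0) :
    AnalyticAt ℂ (Uw μ a γ β) x := by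
  have h1 : AnalyticAt ℂ (fun w : ℂ => w⁻¹) x := analyticAt_inv hx
  unfold Uw
  fun_prop

theorem Uw_ne {μ : ℂ} (hμ : ‖μ‖ < 1) {a : ℝ} {γ β : ℂ} (h3 : ‖γ‖ + |a| + ‖β‖ = 1) : {x : ℂ | x ≠ 0 ∧ Uw μ a γ β x = 0}.Finite := by
  set c : ℝ := a * (1 - ‖μ‖ ^ 2) - (conj μ * β).re with hc
  let p : Polynomial ℂ := Polynomial.C (conj β / 2) * Polynomial.X ^ 4 +
    Polynomial.C ((conj γ - conj μ * γ) / 2) * Polynomial.X ^ 3 + Polynomial.C (c : ℂ) * Polynomial.X ^ 2 +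
    Polynomial.C ((γ - μ * conj γ) / 2) * Polynomial.X + Polynomial.C (β / 2)
  have hp : p ≠ 0 := by
    intro h0
    have h4 := congrArg (fun q => q.coeff 4) h0
    have h3' := congrArg (fun q => q.coeff 3) h0
    have h2 := congrArg (fun q => q.coeff 2) h0
    simp [p] at h4 h3' h2
    have hβ : β = 0 := h4
    have ha : a = 0 := by
      rw [hβ, mul_zero, Complex.zero_re, sub_zero] at hc
      rw [hc] at h2
      rcases mul_eq_zero.1 h2 with h | h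
      · exact h
      · exfalso
        have := norm_nonneg μ
        nlinarith
    have hγ : γ = 0 := by
      have h5 : conj γ = conj μ * γ := sub_eq_zero.1 h3'
      have h6 := congrArg norm h5
      rw [norm_mul, Complex.norm_conj, Complex.norm_conj] at h6
      by_contra hne
      have h7 : 0 < ‖γ‖ := norm_pos_iff.2 hne
      nlinarith
    rw [hβ, ha, hγ] at h3
    simp at h3
  refine (p.roots.toFinset.finite_toSet).subset ?_
  rintro x ⟨hx, h0⟩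
  simp only [Finset.mem_coe, Multiset.mem_toFinset]
  rw [Polynomial.mem_roots hp, Polynomial.IsRoot.def]
  have h1 : p.eval x = x ^ 2 * Uw μ a γ β x := by
    simp only [p, Polynomial.eval_add, Polynomial.eval_mul, Polynomial.eval_pow, Polynomial.eval_C,
      Polynomial.eval_X]
    unfold Uw
    rw [← hc]
    field_simp
  rw [h1, h0, mul_zero]

private theorem Ln_iso {μ : ℂ} (hμ : ‖μ‖ < 1) {a : ℝ} {γ β : ℂ} (h3 : ‖γ‖ + |a| + ‖β‖ = 1) {x : ℂ}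
    (hx : x ≠ 0) : ∀ᶠ z in 𝓝 x, z ≠ x → Uw μ a γ β z ≠ 0 := by
  have hS := Uw_ne hμ h3
  have h1 : ({x : ℂ | x ≠ 0 ∧ Uw μ a γ β x = 0} \ {x})ᶜ ∈ 𝓝 x :=
    (hS.subset Set.sdiff_subset).isClosed.isOpen_compl.mem_nhds (by simp)
  have h2 : ∀ᶠ z in 𝓝 x, z ≠ 0 := isOpen_ne.mem_nhds hx
  filter_upwards [h1, h2] with z hz hz0 hne h0
  exact hz ⟨⟨hz0, h0⟩, hne⟩

private theorem Ln_Y_diff {μ : ℂ} (hμ : ‖μ‖ < 1) (y : ℂ) {g : ℕ → ℂ} (hg : Dc μ g) {x : ℂ}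
    (h1 : ‖μ‖ ^ 2 < ‖x‖) (h2 : ‖x‖ * ‖μ‖ < 1) : DifferentiableAt ℂ (sY μ y g) x := by
  have hop : IsOpen {w : ℂ | ‖μ‖ ^ 2 < ‖w‖ ∧ ‖w‖ * ‖μ‖ < 1} :=
    (isOpen_lt continuous_const continuous_norm).inter
      (isOpen_lt (continuous_norm.mul continuous_const) continuous_const)
  exact (sY_hol hμ y hg).1.differentiableAt (hop.mem_nhds ⟨h1, h2⟩)

private theorem Ln_refl {μ x : ℂ} (hμ : ‖μ‖ < 1) (h1 : ‖μ‖ < ‖x‖) (h2 : ‖x‖ * ‖μ‖ < 1) :
    ‖μ‖ ^ 2 < ‖(conj x)⁻¹‖ ∧ ‖(conj x)⁻¹‖ * ‖μ‖ < 1 := by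
  have h0 := norm_nonneg μ
  have hx : 0 < ‖x‖ := lt_of_le_of_lt h0 h1
  rw [norm_inv, Complex.norm_conj]
  constructor
  · rw [← one_div, lt_div_iff₀ hx]
    nlinarith
  · rw [inv_mul_lt_iff₀ hx]
    linarith

private theorem Ln_TT_diff {μ : ℂ} (hμ : ‖μ‖ < 1) (y : ℂ) {g : ℕ → ℂ} (hg : Dc μ g) (l : ℝ) {x : ℂ}
    (h1 : ‖μ‖ < ‖x‖) (h2 : ‖x‖ * ‖μ‖ < 1) : DifferentiableAt ℂ (TT μ y g l) x := by
  have h0 := norm_nonneg μ
  have hxp : 0 < ‖x‖ := lt_of_le_of_lt h0 h1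
  have hx : x ≠ 0 := norm_pos_iff.1 hxp
  have hcx : conj x ≠ 0 := (map_ne_zero _).2 hx
  have hY : DifferentiableAt ℂ (sY μ y g) x := Ln_Y_diff hμ y hg (by nlinarith) h2
  obtain ⟨r1, r2⟩ := Ln_refl hμ h1 h2
  have hY2 : DifferentiableAt ℂ (fun w => sY μ y g w⁻¹) (conj x) := by
    have h3 : DifferentiableAt ℂ (sY μ y g) (conj x)⁻¹ := Ln_Y_diff hμ y hg r1 r2
    exact DifferentiableAt.comp (g := sY μ y g) (f := fun w : ℂ => w⁻¹) (conj x) h3
      (differentiableAt_inv hcx)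
  have hY3 : DifferentiableAt ℂ (fun w => conj (sY μ y g (conj w)⁻¹)) x := by
    have h4 := hY2.star_conj
    rw [Complex.conj_conj] at h4
    exact h4
  have hinv : DifferentiableAt ℂ (fun w : ℂ => w⁻¹) x := differentiableAt_inv hx
  have hpw : DifferentiableAt ℂ (pw μ) x := by
    unfold pw; fun_prop
  have hps : DifferentiableAt ℂ (ps μ) x := by
    unfold ps; fun_prop
  unfold TT
  exact (hpw.mul hps).mul (hY3.sub (hY.const_mul _))

private theorem Ln_bdry {μ : ℂ} (hμ : ‖μ‖ < 1) {l : ℝ} (hl : |l| < 1) {a : ℝ} {γ β : ℂ}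
    (h3 : ‖γ‖ + |a| + ‖β‖ = 1) {f : ℕ → ℂ} {y : ℂ} {g : ℕ → ℂ} (hg : Dc μ g)
    (hD : ∀ x : ℂ, ‖μ‖ < ‖x‖ → ‖x‖ < 1 → 2 * Uw μ a γ β x * sE μ f x = TT μ y g l x)
    {C : ℝ} (hb : ∀ x : ℂ, ‖x‖ = 1 → ‖TT μ y g l x‖ ^ 2 ≤ C * |(Uw μ a γ β x).re|)
    {x₀ : ℂ} (hx : ‖x₀‖ = 1) :
    ∃ H₀ : ℂ, Tendsto (fun w => sY μ y g w * sE μ f w) (𝓝[Metric.ball 0 1] x₀) (𝓝 H₀) ∧
      ∀ t : ℝ, 0 < t → (1 - |l|) / (1 + |l|) * t ≤ ‖H₀ ^ 2 + t‖ := by
  have hx0 : x₀ ≠ 0 := fun h => by rw [h, norm_zero] at hx; exact zero_ne_one hx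
  have hiso := Ln_iso hμ h3 hx0
  have hopB : IsOpen {w : ℂ | ‖μ‖ < ‖w‖ ∧ ‖w‖ * ‖μ‖ < 1} :=
    (isOpen_lt continuous_const continuous_norm).inter
      (isOpen_lt (continuous_norm.mul continuous_const) continuous_const)
  have hxB : x₀ ∈ {w : ℂ | ‖μ‖ < ‖w‖ ∧ ‖w‖ * ‖μ‖ < 1} := ⟨by rw [hx]; exact hμ, by rw [hx, one_mul]; exact hμ⟩
  have hTan : AnalyticAt ℂ (TT μ y g l) x₀ := by
    rw [Complex.analyticAt_iff_eventually_differentiableAt]
    filter_upwards [hopB.mem_nhds hxB] with z hz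
    exact Ln_TT_diff hμ y hg l hz.1 hz.2
  have hYan : AnalyticAt ℂ (sY μ y g) x₀ := by
    rw [Complex.analyticAt_iff_eventually_differentiableAt]
    filter_upwards [hopB.mem_nhds hxB] with z hz
    have := norm_nonneg μ
    exact Ln_Y_diff hμ y hg (by nlinarith [hz.1]) hz.2
  have hUan : AnalyticAt ℂ (Uw μ a γ β) x₀ := Ln_Uw_an hx0
  have hD0 : ¬ ∀ᶠ z in 𝓝 x₀, 2 * Uw μ a γ β z = 0 := by
    intro h
    have h1 : ∀ᶠ z in 𝓝[≠] x₀, False := by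
      filter_upwards [h.filter_mono nhdsWithin_le_nhds, hiso.filter_mono nhdsWithin_le_nhds,
        self_mem_nhdsWithin] with z h1 h2 h3
      exact h2 h3 (by simpa using h1)
    exact h1.exists.choose_spec
  have hl1 : 0 < 1 - |l| := by linarith
  have hμ1 : 0 < 1 - ‖μ‖ := by linarith
  set K : ℝ := (1 - |l|) * (1 - ‖μ‖) ^ 2 with hK
  have hKpos : 0 < K := by positivity
  have hb' : ∀ z : ℂ, ‖z‖ = 1 → ‖sY μ y g z * TT μ y g l z‖ ≤ C / (2 * K) * ‖2 * Uw μ a γ β z‖ := by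
    intro z hz
    have hpw := Ln_pw (μ := μ) hz
    have hP : 0 < ‖pw μ z‖ ^ 2 := by
      have : 0 < ‖pw μ z‖ := by linarith
      positivity
    have e1 := Ln_YT hl hP (Ln_TT (μ := μ) (y := y) (g := g) (l := l) hz)
    have e2 := hb z hz
    have e3 : ‖Uw μ a γ β z‖ = |(Uw μ a γ β z).re| := by
      conv_lhs => rw [Ln_Uw hz]
      rw [Complex.norm_real, Real.norm_eq_abs]
    have e4 : ‖sY μ y g z * TT μ y g l z‖ * K ≤ ‖sY μ y g z * TT μ y g l z‖ * ((1 - |l|) * ‖pw μ z‖ ^ 2) := by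
      rw [hK]
      gcongr
    rw [norm_mul (2 : ℂ), Complex.norm_ofNat, e3, div_mul_eq_mul_div, le_div_iff₀ (by positivity)]
    nlinarith
  obtain ⟨H, hH, hHe⟩ := Ln_quot hx (hYan.mul hTan) ((analyticAt_const (v := (2 : ℂ))).mul hUan) hD0 hb'
  refine ⟨H x₀, ?_, ?_⟩
  · have h1 : Tendsto H (𝓝[Metric.ball 0 1] x₀) (𝓝 (H x₀)) :=
      hH.continuousAt.tendsto.mono_left nhdsWithin_le_nhds
    refine h1.congr' ?_
    filter_upwards [hHe.filter_mono nhdsWithin_le_nhds, hiso.filter_mono nhdsWithin_le_nhds,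
      self_mem_nhdsWithin, (hopB.mem_nhds hxB : _ ∈ 𝓝 x₀) |> mem_nhdsWithin_of_mem_nhds] with z e1 e2 e3 e4
    have hz1 : ‖z‖ < 1 := mem_ball_zero_iff.1 e3
    have hne : z ≠ x₀ := fun h => by rw [h, hx] at hz1; exact lt_irrefl _ hz1
    have hU := e2 hne
    have e5 := hD z e4.1 hz1
    simp only [Pi.mul_apply] at e1
    rw [← e5] at e1
    have h2U : (2 : ℂ) * Uw μ a γ β z ≠ 0 := mul_ne_zero two_ne_zero hU
    have e6 : 2 * Uw μ a γ β z * (sY μ y g z * sE μ f z) = 2 * Uw μ a γ β z * H z := by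
      rw [← e1]; ring
    exact (mul_left_cancel₀ h2U e6).symm
  · intro t ht
    obtain ⟨L, hLn, hL, hL1, hL2⟩ := Ln_L hx
    have h1 : Tendsto (fun z => ‖H z ^ 2 + (t : ℂ)‖) L (𝓝 ‖H x₀ ^ 2 + (t : ℂ)‖) := by
      have h2 : ContinuousAt (fun z => ‖H z ^ 2 + (t : ℂ)‖) x₀ := by
        have := hH.continuousAt
        fun_prop
      exact h2.tendsto.mono_left hL
    refine ge_of_tendsto h1 ?_
    filter_upwards [hL1, hL2, hL hHe, hL hiso] with z e1 e2 e3 e4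
    have hU := e4 e2
    have hU' : (Uw μ a γ β z).re ≠ 0 := by
      intro h
      rw [Ln_Uw e1, h] at hU
      exact hU Complex.ofReal_zero
    have hpw := Ln_pw (μ := μ) e1
    have hP : 0 < ‖pw μ z‖ ^ 2 := by
      have : 0 < ‖pw μ z‖ := by linarith
      positivity
    have e5 := Ln_alg hl hP hU' (Ln_TT (μ := μ) (y := y) (g := g) (l := l) e1) ht
    rw [← Ln_Uw e1] at e5
    have e6 : H z = sY μ y g z * TT μ y g l z / (2 * Uw μ a γ β z) := by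
      rw [eq_div_iff (mul_ne_zero two_ne_zero hU)]
      simp only [Pi.mul_apply] at e3
      rw [e3]; ring
    rw [e6]
    exact e5

/-- power series near the origin -/
private theorem Ln_small {c : ℕ → ℂ} {C : ℝ} (hc : ∀ n, ‖c n‖ * (1 / 2) ^ n ≤ C) {w : ℂ}
    (hw : ‖w‖ ≤ 1 / 4) : ‖∑' n : ℕ, c n * w ^ (n + 1)‖ ≤ C * ‖w‖ * 2 := by
  have h1 : HasSum (fun n : ℕ => C * ‖w‖ * (1 / 2 : ℝ) ^ n) (C * ‖w‖ * 2) :=
    (hasSum_geometric_two).mul_left _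
  refine tsum_of_norm_bounded h1 fun n => ?_
  rw [norm_mul, norm_pow, pow_succ]
  have h2 : ‖w‖ ^ n ≤ (1 / 4 : ℝ) ^ n := pow_le_pow_left₀ (norm_nonneg _) hw n
  have h3 : (1 / 4 : ℝ) ^ n = (1 / 2) ^ n * (1 / 2) ^ n := by rw [← mul_pow]; norm_num
  calc ‖c n‖ * (‖w‖ ^ n * ‖w‖) ≤ ‖c n‖ * ((1 / 2 : ℝ) ^ n * (1 / 2) ^ n * ‖w‖) := by
        rw [← h3]; gcongr
    _ = (‖c n‖ * (1 / 2 : ℝ) ^ n) * (‖w‖ * (1 / 2) ^ n) := by ring
    _ ≤ C * (‖w‖ * (1 / 2) ^ n) := by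
        refine mul_le_mul_of_nonneg_right (hc n) (by positivity)
    _ = C * ‖w‖ * (1 / 2 : ℝ) ^ n := by ring

private theorem Ln_sE0 (f : ℕ → ℂ) (w : ℂ) : sE 0 f w = ∑' n : ℕ, f n * w ^ (n + 1) := by
  unfold sE
  refine tsum_congr fun n => ?_
  rw [zero_mul, zero_pow (Nat.succ_ne_zero n), sub_zero]

private theorem Ln_sY0 (y : ℂ) (g : ℕ → ℂ) (w : ℂ) : sY 0 y g w = y + ∑' n : ℕ, g n * w ^ (n + 1) := by
  unfold sY
  congr 1
  refine tsum_congr fun n => ?_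
  rw [zero_mul, zero_pow (Nat.succ_ne_zero n), add_zero]

private theorem Ln_zero_tendsto {f : ℕ → ℂ} (hf : Gr f) {y : ℂ} {g : ℕ → ℂ} (hg : Dc 0 g) :
    ContinuousAt (fun w => (sY 0 y g w * sE 0 f w) ^ 2) 0 := by
  obtain ⟨C, hC⟩ := hf (1 / 2) (by norm_num) (by norm_num)
  obtain ⟨C', hC'⟩ := hg (1 / 2) (by norm_num) (by norm_num)
  have h0 : (sY 0 y g 0 * sE 0 f 0) ^ 2 = 0 := by
    rw [Ln_sE0]
    simp
  rw [ContinuousAt, h0]
  have h1 : Tendsto (fun w : ℂ => ((‖y‖ + C' * ‖w‖ * 2) * (C * ‖w‖ * 2)) ^ 2) (𝓝 0) (𝓝 0) := by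
    have h2 : ContinuousAt (fun w : ℂ => ((‖y‖ + C' * ‖w‖ * 2) * (C * ‖w‖ * 2)) ^ 2) 0 := by fun_prop
    have h3 := h2.tendsto
    simpa using h3
  refine squeeze_zero_norm' ?_ h1
  have hball : ∀ᶠ w : ℂ in 𝓝 0, ‖w‖ ≤ 1 / 4 := by
    filter_upwards [Metric.closedBall_mem_nhds (0 : ℂ) (show (0 : ℝ) < 1 / 4 by norm_num)] with w hw
    exact mem_closedBall_zero_iff.1 hw
  filter_upwards [hball] with w hw
  rw [norm_pow, norm_mul]
  have e1 : ‖sE 0 f w‖ ≤ C * ‖w‖ * 2 := by rw [Ln_sE0]; exact Ln_small hC hw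
  have e2 : ‖sY 0 y g w‖ ≤ ‖y‖ + C' * ‖w‖ * 2 := by
    rw [Ln_sY0]
    exact (norm_add_le _ _).trans (add_le_add le_rfl (Ln_small hC' hw))
  have e3 : ‖sY 0 y g w‖ * ‖sE 0 f w‖ ≤ (‖y‖ + C' * ‖w‖ * 2) * (C * ‖w‖ * 2) :=
    mul_le_mul e2 e1 (norm_nonneg _) ((norm_nonneg _).trans e2)
  exact pow_le_pow_left₀ (mul_nonneg (norm_nonneg _) (norm_nonneg _)) e3 2

private theorem Ln_sE_refl {μ : ℂ} (hμ0 : μ ≠ 0) (f : ℕ → ℂ) {w : ℂ} (hw : w ≠ 0) :
    sE μ f (μ * w⁻¹) = - sE μ f w := by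
  unfold sE
  rw [← tsum_neg]
  refine tsum_congr fun n => ?_
  have h1 : μ * (μ * w⁻¹)⁻¹ = w := by field_simp
  rw [h1]
  ring

private theorem Ln_sY_refl {μ : ℂ} (hμ0 : μ ≠ 0) (y : ℂ) (g : ℕ → ℂ) {w : ℂ} (hw : w ≠ 0) :
    sY μ y g (μ * w⁻¹) = sY μ y g w := by
  unfold sY
  congr 1
  refine tsum_congr fun n => ?_
  have h1 : μ * (μ * w⁻¹)⁻¹ = w := by field_simp
  rw [h1]
  ring

private theorem Ln_isOpenA (r s : ℝ) : IsOpen {w : ℂ | ‖w‖ ∈ Ioo r s} :=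
  isOpen_Ioo.preimage continuous_norm

private theorem Ln_YE_diff {μ : ℂ} (hμ : ‖μ‖ < 1) {f : ℕ → ℂ} (hf : Gr f) (y : ℂ) {g : ℕ → ℂ}
    (hg : Dc μ g) {w : ℂ} (h1 : ‖μ‖ < ‖w‖) (h2 : ‖w‖ < 1) :
    DifferentiableAt ℂ (sY μ y g) w ∧ DifferentiableAt ℂ (sE μ f) w := by
  have h0 := norm_nonneg μ
  have hop : IsOpen {w : ℂ | ‖μ‖ < ‖w‖ ∧ ‖w‖ < 1} :=
    (isOpen_lt continuous_const continuous_norm).inter (isOpen_lt continuous_norm continuous_const)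
  exact ⟨Ln_Y_diff hμ y hg (by nlinarith) (by nlinarith),
    (sE_hol hμ hf).1.differentiableAt (hop.mem_nhds ⟨h1, h2⟩)⟩

/-- the product of the two functions vanishes -/
private theorem Ln_prod {μ : ℂ} (hμ : ‖μ‖ < 1) {l : ℝ} (hl : |l| < 1) {a : ℝ} {γ β : ℂ}
    (h3 : ‖γ‖ + |a| + ‖β‖ = 1) {f : ℕ → ℂ} (hf : Gr f) {y : ℂ} {g : ℕ → ℂ} (hg : Dc μ g)
    (hD : ∀ x : ℂ, ‖μ‖ < ‖x‖ → ‖x‖ < 1 → 2 * Uw μ a γ β x * sE μ f x = TT μ y g l x)
    {C : ℝ} (hb : ∀ x : ℂ, ‖x‖ = 1 → ‖TT μ y g l x‖ ^ 2 ≤ C * |(Uw μ a γ β x).re|) (w : ℂ)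
    (hw1 : ‖μ‖ < ‖w‖) (hw2 : ‖w‖ < 1) : sY μ y g w * sE μ f w = 0 := by
  have hl0 := abs_nonneg l
  have hc : 0 < (1 - |l|) / (1 + |l|) := div_pos (by linarith) (by linarith)
  have hbd := fun {x₀ : ℂ} (hx : ‖x₀‖ = 1) => Ln_bdry hμ hl h3 hg hD hb hx
  set F : ℂ → ℂ := fun w => (sY μ y g w * sE μ f w) ^ 2 with hF
  have hpow : ∀ {O : Set ℂ} {x₀ H₀ : ℂ}, O ⊆ Metric.ball 0 1 →
      Tendsto (fun w => sY μ y g w * sE μ f w) (𝓝[Metric.ball 0 1] x₀) (𝓝 H₀) →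
      Tendsto F (𝓝[O] x₀) (𝓝 (H₀ ^ 2)) := fun hO h =>
    (h.mono_left (nhdsWithin_mono _ hO)).pow 2
  by_cases hμ0 : μ = 0
  · have hdiff : DifferentiableOn ℂ F (Metric.ball 0 1) := by
      intro z hz
      have hz1 := mem_ball_zero_iff.1 hz
      have haux : ∀ z : ℂ, z ≠ 0 → ‖z‖ < 1 → DifferentiableAt ℂ F z := by
        intro z h0 h1
        obtain ⟨e1, e2⟩ := Ln_YE_diff hμ hf y hg (w := z) (by rw [hμ0, norm_zero]; exact norm_pos_iff.2 h0) h1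
        exact (e1.mul e2).pow 2
      by_cases h0 : z = 0
      · have h4 : AnalyticAt ℂ F z := by
          refine Complex.analyticAt_of_differentiable_on_punctured_nhds_of_continuousAt ?_ ?_
          · filter_upwards [self_mem_nhdsWithin,
              mem_nhdsWithin_of_mem_nhds (Metric.isOpen_ball.mem_nhds hz)] with x hx hx1
            exact haux x (by rw [h0] at hx; exact hx) (mem_ball_zero_iff.1 hx1)
          · rw [h0]
            subst hμ0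
            exact Ln_zero_tendsto hf hg
        exact h4.differentiableAt.differentiableWithinAt
      · exact (haux z h0 hz1).differentiableWithinAt
    have hcl : closure (Metric.ball (0 : ℂ) 1) = Metric.closedBall 0 1 := closure_ball 0 one_ne_zero
    have hlim : ∀ x ∈ closure (Metric.ball (0 : ℂ) 1), ∃ v, Tendsto F (𝓝[Metric.ball 0 1] x) (𝓝 v) := by
      intro x hx
      rw [hcl, mem_closedBall_zero_iff] at hx
      rcases lt_or_eq_of_le hx with h | h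
      · exact ⟨F x, (hdiff.continuousOn x (mem_ball_zero_iff.2 h))⟩
      · obtain ⟨H₀, h1, -⟩ := hbd h
        exact ⟨_, hpow le_rfl h1⟩
    have hmain := omit1 Metric.isOpen_ball (convex_ball (0 : ℂ) 1).isPreconnected Metric.isBounded_ball
      (G := extendFrom (Metric.ball 0 1) F)
      (hdiff.congr fun z hz => extendFrom_extends hdiff.continuousOn z hz)
      (continuousOn_extendFrom le_rfl hlim) hc
      (fun x hx t ht => by
        have hx' := hx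
        rw [frontier_ball (0 : ℂ) one_ne_zero, mem_sphere_zero_iff_norm] at hx'
        obtain ⟨H₀, h1, h2⟩ := hbd hx'
        rw [extendFrom_eq (frontier_subset_closure hx) (hpow le_rfl h1)]
        exact h2 t ht)
      (w₀ := 0) (Metric.mem_ball_self one_pos)
      (by
        rw [extendFrom_extends hdiff.continuousOn 0 (Metric.mem_ball_self one_pos), hF]
        simp only
        rw [hμ0, Ln_sE0]
        simp)
      w (mem_ball_zero_iff.2 hw2)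
    rw [extendFrom_extends hdiff.continuousOn w (mem_ball_zero_iff.2 hw2)] at hmain
    exact pow_eq_zero_iff two_ne_zero |>.1 hmain
  · have hμp : 0 < ‖μ‖ := norm_pos_iff.2 hμ0
    set O : Set ℂ := {w : ℂ | ‖w‖ ∈ Ioo ‖μ‖ 1} with hO
    have hOo : IsOpen O := Ln_isOpenA _ _
    have hOb : O ⊆ Metric.ball 0 1 := fun z hz => mem_ball_zero_iff.2 hz.2
    have hdiff : DifferentiableOn ℂ F O := by
      intro z hz
      obtain ⟨e1, e2⟩ := Ln_YE_diff hμ hf y hg (w := z) hz.1 hz.2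
      exact ((e1.mul e2).pow 2).differentiableWithinAt
    have hclO : closure O ⊆ {w : ℂ | ‖w‖ ∈ Icc ‖μ‖ 1} :=
      closure_minimal (fun z hz => Ioo_subset_Icc_self hz) (isClosed_Icc.preimage continuous_norm)
    have hinner : ∀ x : ℂ, ‖x‖ = ‖μ‖ → ∃ H₀ : ℂ, Tendsto F (𝓝[O] x) (𝓝 (H₀ ^ 2)) ∧
        ∀ t : ℝ, 0 < t → (1 - |l|) / (1 + |l|) * t ≤ ‖H₀ ^ 2 + t‖ := by
      intro x hx
      have hxne : x ≠ 0 := fun h => by rw [h, norm_zero] at hx; exact hμp.ne hx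
      have hx1 : ‖μ * x⁻¹‖ = 1 := by rw [norm_mul, norm_inv, hx]; exact mul_inv_cancel₀ hμp.ne'
      obtain ⟨H₀, h1, h2⟩ := hbd hx1
      refine ⟨H₀, ?_, h2⟩
      have h4 : Tendsto (fun z : ℂ => μ * z⁻¹) (𝓝[O] x) (𝓝[Metric.ball 0 1] (μ * x⁻¹)) := by
        refine tendsto_nhdsWithin_iff.2 ⟨?_, ?_⟩
        · exact ((continuousAt_const.mul (continuousAt_inv₀ hxne)).tendsto).mono_left nhdsWithin_le_nhds
        · filter_upwards [self_mem_nhdsWithin] with z hz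
          have hz' : z ∈ O := hz
          rw [mem_ball_zero_iff, norm_mul, norm_inv, ← div_eq_mul_inv, div_lt_one (hμp.trans hz'.1)]
          exact hz'.1
      have h5 := (hpow le_rfl h1).comp h4
      refine h5.congr' ?_
      filter_upwards [self_mem_nhdsWithin] with z hz
      have hz' : z ∈ O := hz
      have hzne : z ≠ 0 := norm_pos_iff.1 (hμp.trans hz'.1)
      simp only [Function.comp_apply, hF]
      rw [Ln_sE_refl hμ0 f hzne, Ln_sY_refl hμ0 y g hzne]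
      ring
    have hval : ∀ x ∈ closure O, x ∉ O → ∃ H₀ : ℂ, Tendsto F (𝓝[O] x) (𝓝 (H₀ ^ 2)) ∧
        ∀ t : ℝ, 0 < t → (1 - |l|) / (1 + |l|) * t ≤ ‖H₀ ^ 2 + t‖ := by
      intro x hx hxO
      obtain ⟨e1, e2⟩ := hclO hx
      rcases lt_or_eq_of_le e2 with h | h
      · rcases lt_or_eq_of_le e1 with h' | h'
        · exact absurd ⟨h', h⟩ hxO
        · exact hinner x h'.symm
      · obtain ⟨H₀, h1, h2⟩ := hbd h
        exact ⟨H₀, hpow hOb h1, h2⟩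
    have hlim : ∀ x ∈ closure O, ∃ v, Tendsto F (𝓝[O] x) (𝓝 v) := by
      intro x hx
      by_cases hxO : x ∈ O
      · exact ⟨F x, hdiff.continuousOn x hxO⟩
      · obtain ⟨H₀, h1, -⟩ := hval x hx hxO
        exact ⟨_, h1⟩
    obtain ⟨w₀, hw₀⟩ := IsAlgClosed.exists_pow_nat_eq μ two_pos
    have hn0 : ‖w₀‖ ^ 2 = ‖μ‖ := by rw [← norm_pow, hw₀]
    have hw0p : 0 < ‖w₀‖ := by
      rcases (norm_nonneg w₀).lt_or_eq with h | h
      · exact h
      · exfalso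
        have h5 : ‖μ‖ = 0 := by rw [← hn0, ← h]; norm_num
        linarith
    have hw0lt : ‖w₀‖ < 1 := by nlinarith
    have hw0O : w₀ ∈ O := ⟨by nlinarith, hw0lt⟩
    have hw0ne : w₀ ≠ 0 := norm_pos_iff.1 hw0p
    have hmain := omit1 hOo (Ln_annulus isPreconnected_Ioo fun r hr => hμp.le.trans hr.1.le)
      (Metric.isBounded_ball.subset hOb) (G := extendFrom O F)
      (hdiff.congr fun z hz => extendFrom_extends hdiff.continuousOn z hz)
      (continuousOn_extendFrom le_rfl hlim) hc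
      (fun x hx t ht => by
        have hxO : x ∉ O := by
          rw [hOo.frontier_eq] at hx
          exact hx.2
        obtain ⟨H₀, h1, h2⟩ := hval x (frontier_subset_closure hx) hxO
        rw [extendFrom_eq (frontier_subset_closure hx) h1]
        exact h2 t ht)
      (w₀ := w₀) hw0O
      (by
        rw [extendFrom_extends hdiff.continuousOn w₀ hw0O, hF]
        have h5 : sE μ f w₀ = 0 := by
          unfold sE
          have h6 : μ * w₀⁻¹ = w₀ := by rw [← hw₀]; field_simp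
          simp [h6]
        simp only
        rw [h5, mul_zero, zero_pow two_ne_zero])
      w ⟨hw1, hw2⟩
    rw [extendFrom_extends hdiff.continuousOn w ⟨hw1, hw2⟩] at hmain
    exact pow_eq_zero_iff two_ne_zero |>.1 hmain

theorem finG {μ : ℂ} (hμ : ‖μ‖ < 1) {l : ℝ} (hl : |l| < 1) {a : ℝ} {γ β : ℂ} (h3 : ‖γ‖ + |a| + ‖β‖ = 1) {f : ℕ → ℂ} (hf : Gr f)
    {y : ℂ} {g : ℕ → ℂ} (hg : Dc μ g) (hD : ∀ x : ℂ, ‖μ‖ < ‖x‖ → ‖x‖ < 1 → 2 * Uw μ a γ β x * sE μ f x = TT μ y g l x)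
    {C : ℝ} (hb : ∀ x : ℂ, ‖x‖ = 1 → ‖TT μ y g l x‖ ^ 2 ≤ C * |(Uw μ a γ β x).re|) (n : ℕ) : f n = 0 := by
  have h0 := norm_nonneg μ
  set A : Set ℂ := {w : ℂ | ‖w‖ ∈ Ioo ‖μ‖ 1} with hA
  have hAo : IsOpen A := Ln_isOpenA _ _
  have hAc : IsPreconnected A := Ln_annulus isPreconnected_Ioo fun r hr => h0.trans hr.1.le
  have hYan : AnalyticOnNhd ℂ (sY μ y g) A := by
    refine DifferentiableOn.analyticOnNhd (fun z hz => ?_) hAo
    exact (Ln_YE_diff hμ hf y hg hz.1 hz.2).1.differentiableWithinAt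
  have hEan : AnalyticOnNhd ℂ (sE μ f) A := by
    refine DifferentiableOn.analyticOnNhd (fun z hz => ?_) hAo
    exact (Ln_YE_diff hμ hf y hg hz.1 hz.2).2.differentiableWithinAt
  obtain ⟨z₀, hz₀⟩ : ∃ z₀, z₀ ∈ A := by
    refine ⟨(((‖μ‖ + 1) / 2 : ℝ) : ℂ), ?_⟩
    show ‖(((‖μ‖ + 1) / 2 : ℝ) : ℂ)‖ ∈ Ioo ‖μ‖ 1
    rw [Complex.norm_real, Real.norm_eq_abs, abs_of_nonneg (by positivity)]
    constructor <;> linarith
  have hz₀ne : z₀ ≠ 0 := norm_pos_iff.1 (lt_of_le_of_lt h0 hz₀.1)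
  have hEzero : ∀ z ∈ A, sE μ f z = 0 := by
    rcases hYan.eq_zero_or_eq_zero_of_mul_eq_zero hEan
      (fun z hz => Ln_prod hμ hl h3 hf hg hD hb z hz.1 hz.2) hAc with hY | hE
    · -- `Y = 0`
      set B : Set ℂ := {w : ℂ | ‖w‖ ∈ {r : ℝ | ‖μ‖ ^ 2 < r ∧ r * ‖μ‖ < 1}} with hB
      have hBo : IsOpen B := (isOpen_lt continuous_const continuous_norm).inter
        (isOpen_lt (continuous_norm.mul continuous_const) continuous_const)
      have hJ : IsPreconnected {r : ℝ | ‖μ‖ ^ 2 < r ∧ r * ‖μ‖ < 1} := by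
        refine Set.OrdConnected.isPreconnected ⟨?_⟩
        rintro r ⟨hr1, hr2⟩ s ⟨hs1, hs2⟩ x ⟨hx1, hx2⟩
        exact ⟨lt_of_lt_of_le hr1 hx1, lt_of_le_of_lt (mul_le_mul_of_nonneg_right hx2 h0) hs2⟩
      have hBc : IsPreconnected B := Ln_annulus hJ fun r hr => (sq_nonneg ‖μ‖).trans hr.1.le
      have hYB : AnalyticOnNhd ℂ (sY μ y g) B := by
        refine DifferentiableOn.analyticOnNhd (fun z hz => ?_) hBo
        exact (Ln_Y_diff hμ y hg hz.1 hz.2).differentiableWithinAt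
      have hAB : A ⊆ B := fun z hz => ⟨by nlinarith [hz.1], by nlinarith [hz.2]⟩
      have hY0 : EqOn (sY μ y g) 0 B := by
        refine hYB.eqOn_zero_of_preconnected_of_eventuallyEq_zero hBc (hAB hz₀) ?_
        filter_upwards [hAo.mem_nhds hz₀] with z hz
        exact hY z hz
      have hT0 : ∀ z ∈ A, 2 * Uw μ a γ β z * sE μ f z = 0 := by
        intro z hz
        rw [hD z hz.1 hz.2]
        unfold TT
        have h5 : (conj z)⁻¹ ∈ B := Ln_refl hμ hz.1 (by nlinarith [hz.2])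
        rw [hY0 h5, hY0 (hAB hz)]
        simp
      have hUan : AnalyticOnNhd ℂ (fun z => 2 * Uw μ a γ β z) A := fun z hz =>
        (analyticAt_const (v := (2 : ℂ))).mul (Ln_Uw_an (norm_pos_iff.1 (lt_of_le_of_lt h0 hz.1)))
      rcases hUan.eq_zero_or_eq_zero_of_mul_eq_zero hEan hT0 hAc with hU | hE
      · exfalso
        have hiso := Ln_iso hμ h3 hz₀ne
        have h1 : ∀ᶠ z in 𝓝[≠] z₀, False := by
          filter_upwards [hiso.filter_mono nhdsWithin_le_nhds, self_mem_nhdsWithin,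
            mem_nhdsWithin_of_mem_nhds (hAo.mem_nhds hz₀)] with z h1 h2 h3
          exact h1 h2 (by simpa using hU z h3)
        exact h1.exists.choose_spec
      · exact hE
    · exact hE
  exact sE_inj hμ hf (fun w h1 h2 => hEzero w ⟨h1, h2⟩) n

end LD1
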