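import Pool.Agent.H1.LD.Lh
import Pool.Agent.H1.LD.Li
import Pool.Agent.H1.LD.Lk
import Pool.Agent.H1.ND.Nk

/-!
ROW LD/Lo. The bound on the unit circle. `M_n = fc 0 1 μ m₀ ρ (n+1) = f_n - l₀ conj μ^(n+1) conj f_n` (from `hf`: `fh`), so for `‖μ‖ < ‖x‖ < 1`: `Uw m₀(zw x) pw = Uw sE μ M = T/2 - l₀ Uw sE μ K`, `K_n = conj μ^(n+1) conj f_n` (`Dc μ K`), so `J = Uw m₀(zw x) = (T/2 - l₀ Uw sE μ K)/pw` is holomorphic for `‖μ‖ < ‖x‖² `, `‖x‖ ‖μ‖ < 1` (`pw ≠ 0` there).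
By Cauchy's theorem `∫ J(pr ρ t)² g gs dt = ∫ J(e^(it))² ‖g(e^(it))‖² dt` (`gs g = conj g` on the unit circle). `PlimG`: this is `(1+x)/(2(1-x))` times the limit of `(1/d²) ∫_EE |UU| ‖g v‖² m²`, at most `limsup (1/d²) ∫_EE |UU| ‖m‖² ‖g v‖²`, at most `C SM² lim ∫ |UU (zz μ₁ e^(it))| ‖g‖²/d = C' ∫ |Re Uw| ‖g‖²` (`T1b`; `SM` from `LBG.bd`;
`UlimG`, `UbdG`, dominated convergence; `∫` over the unit circle). So for all polynomials `g`: `‖∫ J² ‖g‖² dt‖ ≤ C' ∫ |Re Uw| ‖g‖² dt`; with peak functions `g = ((1 + conj b x)/2)^N` (as in `ND/Nk.lean`) `‖J b‖² ≤ C' |Re Uw b|` for `‖b‖ = 1`. Finally `T = 2 pw J + 2 l₀ Uw sE μ K`, and `Uw` is real on the circle and bounded.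
-/

set_option autoImplicit false

namespace LD1

open Complex Set Filter Topology MeasureTheory EW1 EX1 ND1
open scoped ComplexConjugate ContDiff Real

theorem Lo_mu {μ₀ : ℝ} {S : Sq} {μ : ℂ} {a : ℝ} {γ β : ℂ} (hS : LimG S μ₀ μ a γ β) : ‖μ‖ ≤ μ₀ :=
  le_of_tendsto hS.lm1.norm (Eventually.of_forall hS.m1)

theorem Lo_fh {l : ℝ} (hl : |l| < 1) {μ : ℂ} (hμ : ‖μ‖ < 1) (M : ℂ) (n : ℕ) :
    M = fh l μ M n - l * (conj μ ^ (n + 1) * conj (fh l μ M n)) := by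
  have hD : ((1 - l ^ 2 * ‖μ‖ ^ (2 * (n + 1)) : ℝ) : ℂ) ≠ 0 := by
    rw [Ne, Complex.ofReal_eq_zero]
    have h1 : l ^ 2 < 1 := by
      rw [← sq_abs]
      nlinarith [abs_nonneg l]
    have h2 : ‖μ‖ ^ (2 * (n + 1)) ≤ 1 := pow_le_one₀ (norm_nonneg _) hμ.le
    have h3 : 0 ≤ ‖μ‖ ^ (2 * (n + 1)) := by positivity
    nlinarith [sq_nonneg l]
  have hc : (‖μ‖ : ℂ) ^ (2 * (n + 1)) = μ ^ (n + 1) * conj μ ^ (n + 1) := by
    rw [pow_mul, ← mul_pow, Complex.mul_conj, Complex.normSq_eq_norm_sq]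
    push_cast
    rfl
  have e : conj (fh l μ M n) = (conj M + l * μ ^ (n + 1) * M) / ((1 - l ^ 2 * ‖μ‖ ^ (2 * (n + 1)) : ℝ) : ℂ) := by
    unfold fh
    rw [map_div₀, Complex.conj_ofReal]
    simp only [map_add, map_mul, map_pow, Complex.conj_conj, Complex.conj_ofReal]
  rw [e]
  unfold fh
  rw [eq_sub_iff_add_eq, ← mul_div_assoc, ← mul_div_assoc, eq_div_iff hD, add_mul, div_mul_cancel₀ _ hD]
  push_cast
  rw [hc]
  ring

theorem Lo_K {μ : ℂ} {f : ℕ → ℂ} (hf : Gr f) : Dc μ (fun n => conj μ ^ (n + 1) * conj (f n)) := by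
  intro s hs hs1
  obtain ⟨C, hC⟩ := hf (max (s * ‖μ‖) (1 / 2)) (lt_max_of_lt_right (by norm_num)) (max_lt hs1 (by norm_num))
  refine ⟨‖μ‖ * C, fun n => ?_⟩
  have e : ‖conj μ ^ (n + 1) * conj (f n)‖ * s ^ n = ‖μ‖ * (‖f n‖ * (s * ‖μ‖) ^ n) := by
    rw [norm_mul, norm_pow, RCLike.norm_conj, RCLike.norm_conj, mul_pow, pow_succ]
    ring
  rw [e]
  refine mul_le_mul_of_nonneg_left (le_trans ?_ (hC n)) (norm_nonneg _)
  refine mul_le_mul_of_nonneg_left ?_ (norm_nonneg _)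
  exact pow_le_pow_left₀ (by positivity) (le_max_left _ _) n

theorem Lo_reg {μ x : ℂ} (hμ : ‖μ‖ < 1) (hx : ‖μ‖ < ‖x‖) : ‖μ‖ ^ 2 < ‖x‖ := by
  have := norm_nonneg μ
  nlinarith

theorem Lo_eq {μ : ℂ} (hμ : ‖μ‖ < 1) {ρ : ℝ} (hρ : 0 < ρ) (h1 : ‖μ‖ < ρ ^ 2) (hρ1 : ρ < 1) {m₀ : ℂ → ℂ}
    (hm₀ : DifferentiableOn ℂ m₀ (Dp 0 1 μ 1)) {l : ℝ} (hl : |l| < 1) {f : ℕ → ℂ}
    (hf : ∀ n, f n = fh l μ (fc 0 1 μ m₀ ρ (n + 1)) n) (hfg : Gr f) {x : ℂ} (hx : ‖μ‖ < ‖x‖) (hx1 : ‖x‖ < 1) :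
    m₀ (zw μ x) * pw μ x = sE μ f x - l * sE μ (fun n => conj μ ^ (n + 1) * conj (f n)) x := by
  rw [((anaG hμ hρ h1 hρ1 hm₀).2 x hx hx1).2]
  have hs := (sE_hol hμ hfg).2 x hx hx1
  have hb : ‖x‖ * ‖μ‖ < 1 := by nlinarith [norm_nonneg μ, norm_nonneg x]
  have hK := ((sY_hol hμ 0 (Lo_K hfg)).2.2 x (Lo_reg hμ hx) hb).2
  unfold sE
  rw [← tsum_mul_left, ← hs.tsum_sub (hK.mul_left _)]
  refine tsum_congr fun n => ?_
  have h3 := Lo_fh hl hμ (fc 0 1 μ m₀ ρ (n + 1)) n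
  rw [← hf] at h3
  have h4 : fc 0 1 μ m₀ ρ (n + 1) * (x ^ (n + 1) - (μ * x⁻¹) ^ (n + 1)) =
      (f n - l * (conj μ ^ (n + 1) * conj (f n))) * (x ^ (n + 1) - (μ * x⁻¹) ^ (n + 1)) :=
    congrArg (fun u => u * (x ^ (n + 1) - (μ * x⁻¹) ^ (n + 1))) h3
  show fc 0 1 μ m₀ ρ (n + 1) * (x ^ (n + 1) - (μ * x⁻¹) ^ (n + 1)) = _
  rw [h4]
  ring

theorem Lo_cc {F : ℂ → ℂ} {w : ℂ} (hw : w ≠ 0) (hF : DifferentiableAt ℂ F (conj w)⁻¹) :
    DifferentiableAt ℂ (fun z => conj (F (conj z)⁻¹)) w := by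
  have hw' : conj w ≠ 0 := by simpa using hw
  have h1 : DifferentiableAt ℂ (fun u => F u⁻¹) (conj w) :=
    DifferentiableAt.comp (conj w) hF (differentiableAt_inv hw')
  have h2 := h1.conj_conj
  rw [Complex.conj_conj] at h2
  exact h2

/-- the continuation of `Uw m₀ (zw)` to the unit circle -/
noncomputable def LoJ (μ y : ℂ) (g : ℕ → ℂ) (l a : ℝ) (γ β : ℂ) (K : ℕ → ℂ) (x : ℂ) : ℂ :=
  (TT μ y g l x / 2 - l * Uw μ a γ β x * sE μ K x) / pw μ x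

theorem Lo_pw {μ x : ℂ} (hx : ‖μ‖ < ‖x‖ ^ 2) : x ≠ 0 ∧ pw μ x ≠ 0 := by
  have hx0 : x ≠ 0 := by
    rintro rfl
    rw [norm_zero] at hx
    have := norm_nonneg μ
    norm_num at hx
    linarith
  refine ⟨hx0, fun h => ?_⟩
  unfold pw at h
  have h1 : x * x = μ := by
    have h2 : x = μ * x⁻¹ := sub_eq_zero.1 h
    calc x * x = (μ * x⁻¹) * x := by rw [← h2]
      _ = μ := by rw [mul_assoc, inv_mul_cancel₀ hx0, mul_one]
  have h3 : ‖x‖ ^ 2 = ‖μ‖ := by rw [← h1, norm_mul, pow_two]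
  linarith

theorem Lo_big {μ x : ℂ} (hμ : ‖μ‖ < 1) (hx : ‖μ‖ < ‖x‖ ^ 2) : ‖μ‖ < ‖x‖ := by
  by_contra h
  push Not at h
  have h1 := norm_nonneg μ
  have h2 := norm_nonneg x
  nlinarith

theorem LoJ_diff {μ : ℂ} (hμ : ‖μ‖ < 1) {y : ℂ} {g : ℕ → ℂ} (hg : Dc μ g) {K : ℕ → ℂ} (hK : Dc μ K) {l a : ℝ}
    {γ β : ℂ} {x : ℂ} (hx : ‖μ‖ < ‖x‖ ^ 2) (hx1 : ‖x‖ * ‖μ‖ < 1) :
    DifferentiableAt ℂ (LoJ μ y g l a γ β K) x := by
  obtain ⟨hx0, hp⟩ := Lo_pw hx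
  have hb := Lo_big hμ hx
  have hxn : 0 < ‖x‖ := norm_pos_iff.2 hx0
  have hopen : IsOpen {w : ℂ | ‖μ‖ ^ 2 < ‖w‖ ∧ ‖w‖ * ‖μ‖ < 1} :=
    (isOpen_lt continuous_const continuous_norm).inter
      (isOpen_lt (continuous_norm.mul continuous_const) continuous_const)
  have hY : ∀ w : ℂ, ‖μ‖ ^ 2 < ‖w‖ → ‖w‖ * ‖μ‖ < 1 → DifferentiableAt ℂ (sY μ y g) w := fun w h1 h2 =>
    (sY_hol hμ y hg).1.differentiableAt (hopen.mem_nhds ⟨h1, h2⟩)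
  have hE : DifferentiableAt ℂ (sE μ K) x :=
    (sY_hol hμ y hK).2.1.differentiableAt (hopen.mem_nhds ⟨Lo_reg hμ hb, hx1⟩)
  have hn : ‖(conj x)⁻¹‖ = ‖x‖⁻¹ := by rw [norm_inv, RCLike.norm_conj]
  have hY2 : DifferentiableAt ℂ (fun z => conj (sY μ y g (conj z)⁻¹)) x := by
    refine Lo_cc hx0 (hY _ ?_ ?_)
    · rw [hn, ← one_div, lt_div_iff₀ hxn]
      nlinarith [norm_nonneg μ]
    · rw [hn, inv_mul_lt_iff₀ hxn, mul_one]
      exact hb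
  have hpd : DifferentiableAt ℂ (pw μ) x := by
    unfold pw
    exact differentiableAt_id.sub ((differentiableAt_inv hx0).const_mul μ)
  have hps : DifferentiableAt ℂ (ps μ) x := by
    unfold ps
    exact (differentiableAt_inv hx0).sub (differentiableAt_id.const_mul (conj μ))
  have hU : DifferentiableAt ℂ (Uw μ a γ β) x := by
    unfold Uw
    fun_prop (disch := exact hx0)
  have hT : DifferentiableAt ℂ (TT μ y g l) x := by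
    unfold TT
    exact (hpd.mul hps).mul (hY2.sub ((hY x (Lo_reg hμ hb) hx1).const_mul _))
  unfold LoJ
  exact ((hT.div_const 2).sub ((hU.const_mul _).mul hE)).div hpd hp

theorem Lo_cau {G : ℂ → ℂ} {ρ : ℝ} (hρ : 0 < ρ) (hρ1 : ρ < 1)
    (hG : ∀ w : ℂ, ρ ≤ ‖w‖ → ‖w‖ ≤ 1 → DifferentiableAt ℂ G w) :
    ∫ t in (0 : ℝ)..(2 * π), G (pr ρ t) = ∫ t in (0 : ℝ)..(2 * π), G (exp (t * I)) := by
  have h1 := Complex.circleIntegral_sub_center_inv_smul_eq_of_differentiable_on_annulus_off_countable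
    (c := 0) hρ hρ1.le (f := G) (s := ∅) countable_empty (by
      intro w hw
      refine (hG w ?_ ?_).continuousAt.continuousWithinAt
      · have := hw.2
        rw [mem_ball_zero_iff, not_lt] at this
        exact this
      · have := hw.1
        rwa [mem_closedBall_zero_iff] at this) (by
      intro w hw
      refine hG w ?_ ?_
      · have := hw.1.2
        rw [mem_closedBall_zero_iff, not_le] at this
        exact this.le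
      · have := hw.1.1
        rw [mem_ball_zero_iff] at this
        exact this.le)
  have h2 : ∀ R : ℝ, 0 < R → (∮ z in C(0, R), (z - 0)⁻¹ • G z) =
      I * ∫ t in (0 : ℝ)..(2 * π), G (R * exp (t * I)) := by
    intro R hR
    rw [circleIntegral, ← intervalIntegral.integral_const_mul]
    refine intervalIntegral.integral_congr fun t _ => ?_
    have hne : (R : ℂ) * exp (t * I) ≠ 0 := mul_ne_zero (by exact_mod_cast hR.ne') (Complex.exp_ne_zero _)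
    simp only [deriv_circleMap, circleMap, sub_zero, zero_add, smul_eq_mul]
    have e0 : (R : ℂ) * exp (t * I) * I * (((R : ℂ) * exp (t * I))⁻¹ * G ((R : ℂ) * exp (t * I))) =
        ((R : ℂ) * exp (t * I)) * ((R : ℂ) * exp (t * I))⁻¹ * (I * G ((R : ℂ) * exp (t * I))) := by ring
    rw [e0, mul_inv_cancel₀ hne, one_mul]
  rw [h2 1 one_pos, h2 ρ hρ] at h1
  have h3 := mul_left_cancel₀ I_ne_zero h1
  simp only [Complex.ofReal_one, one_mul] at h3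
  exact h3.symm

theorem Lo_UUc (S : Sq) (j : ℕ) : Continuous (S.UU j) := by
  have hv : ∀ (c : ℂ) (r : ℝ) (μ : ℂ), Continuous (vv c r μ) := by
    intro c r μ
    unfold vv
    exact ((continuous_id.sub continuous_const).sub
      (continuous_const.mul (Complex.continuous_conj.comp (continuous_id.sub continuous_const)))).div_const _
  have hq : ∀ (c : ℂ) (r : ℝ) (μ : ℂ), Continuous (QQ c r μ) := by
    intro c r μ
    unfold QQ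
    exact (((hv c r μ).norm.pow 2).sub continuous_const).const_mul _
  unfold Sq.UU
  exact (hq _ _ _).sub (hq _ _ _)

theorem Lo_sig {μ₀ ρ : ℝ} (h0 : 0 ≤ μ₀) (h1 : μ₀ < ρ ^ 2) (hρ : 0 < ρ) (hρ1 : ρ < 1) :
    ∃ σ : ℝ, 0 < σ ∧ (ρ ^ 2 + μ₀) / (ρ * (1 + μ₀)) < σ ∧ σ < 1 := by
  have h2 : 0 < ρ * (1 + μ₀) := by positivity
  have h3 : (ρ ^ 2 + μ₀) / (ρ * (1 + μ₀)) < 1 := by
    rw [div_lt_one h2]
    have : μ₀ < ρ := by nlinarith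
    nlinarith
  have h4 : 0 ≤ (ρ ^ 2 + μ₀) / (ρ * (1 + μ₀)) := by positivity
  exact ⟨((ρ ^ 2 + μ₀) / (ρ * (1 + μ₀)) + 1) / 2, by linarith, by linarith, by linarith⟩

/-- the limit of the integrals of `|UU|` over the circle -/
theorem Lo_lim {μ₀ : ℝ} (h0 : 0 ≤ μ₀) (h1 : μ₀ < 1) {S : Sq} {μ : ℂ} {a : ℝ} {γ β : ℂ}
    (hS : LimG S μ₀ μ a γ β) (g : Polynomial ℂ) :
    Tendsto (fun j => ∫ t in (0 : ℝ)..(2 * π), |S.UU j (zz 0 1 (S.μ₁ j) (exp (t * I)))| *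
      ‖g.eval (exp (t * I))‖ ^ 2 / S.d j) atTop
      (𝓝 (∫ t in (0 : ℝ)..(2 * π), 2 * ((1 - ‖μ‖ ^ 2) / (1 + ‖μ‖ ^ 2)) *
        (|(Uw μ a γ β (exp (t * I))).re| * ‖g.eval (exp (t * I))‖ ^ 2))) := by
  obtain ⟨C, hC, hU⟩ := UbdG h0 h1
  have hexp : Continuous fun t : ℝ => exp (t * I) := by fun_prop
  have hg : Continuous fun t : ℝ => ‖g.eval (exp (t * I))‖ ^ 2 := ((g.continuous.comp hexp).norm).pow 2
  have hκ : 0 ≤ (1 - ‖μ‖ ^ 2) / (1 + ‖μ‖ ^ 2) := by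
    have h2 : ‖μ‖ < 1 := lt_of_le_of_lt (Lo_mu hS) h1
    have := norm_nonneg μ
    exact div_nonneg (by nlinarith) (by positivity)
  refine intervalIntegral.tendsto_integral_filter_of_dominated_convergence
    (fun t => C * ‖g.eval (exp (t * I))‖ ^ 2) ?_ ?_ ((hg.const_mul C).intervalIntegrable _ _) ?_
  · refine Eventually.of_forall fun j => ?_
    refine Continuous.aestronglyMeasurable ?_
    have hz : Continuous fun t : ℝ => zz 0 1 (S.μ₁ j) (exp (t * I)) := by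
      unfold zz
      exact continuous_const.add (continuous_const.mul (hexp.add
        (continuous_const.mul (Complex.continuous_conj.comp hexp))))
    exact ((((Lo_UUc S j).comp hz).abs).mul hg).div_const _
  · refine Eventually.of_forall fun j => Eventually.of_forall fun t _ => ?_
    have hz : ‖zz 0 1 (S.μ₁ j) (exp (t * I))‖ ≤ 3 := by
      unfold zz
      rw [zero_add, Complex.ofReal_one, one_mul]
      refine (norm_add_le _ _).trans ?_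
      rw [norm_mul, RCLike.norm_conj, Complex.norm_exp_ofReal_mul_I, mul_one]
      have := hS.m1 j
      linarith
    have h2 := (hU hS j _ _ hz hz).1
    have hd := hS.pos j
    rw [Real.norm_eq_abs, abs_div, abs_of_pos hd, abs_mul, abs_abs, abs_of_nonneg (by positivity : (0 : ℝ) ≤
      ‖g.eval (exp (t * I))‖ ^ 2), div_le_iff₀ hd]
    have h3 : (0 : ℝ) ≤ ‖g.eval (exp (t * I))‖ ^ 2 := by positivity
    calc |S.UU j (zz 0 1 (S.μ₁ j) (exp (t * I)))| * ‖g.eval (exp (t * I))‖ ^ 2 ≤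
        (C * S.d j) * ‖g.eval (exp (t * I))‖ ^ 2 := mul_le_mul_of_nonneg_right h2 h3
      _ = _ := by ring
  · refine Eventually.of_forall fun t _ => ?_
    have h2 := (UlimG h0 h1 hS (Complex.norm_exp_ofReal_mul_I t)).abs.mul_const (‖g.eval (exp (t * I))‖ ^ 2)
    have e1 : |-2 * ((1 - ‖μ‖ ^ 2) / (1 + ‖μ‖ ^ 2)) * (Uw μ a γ β (exp (t * I))).re| *
        ‖g.eval (exp (t * I))‖ ^ 2 = 2 * ((1 - ‖μ‖ ^ 2) / (1 + ‖μ‖ ^ 2)) *
        (|(Uw μ a γ β (exp (t * I))).re| * ‖g.eval (exp (t * I))‖ ^ 2) := by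
      rw [abs_mul, abs_mul, abs_of_nonneg hκ]
      norm_num
      ring
    rw [e1] at h2
    refine h2.congr fun j => ?_
    rw [abs_div, abs_of_pos (hS.pos j)]
    ring

theorem Lo_int {μ₀ ρ : ℝ} (h0 : 0 ≤ μ₀) (h1 : μ₀ < ρ ^ 2) (hρ : 0 < ρ) (hρ1 : ρ < 1) {S : Sq} {μ : ℂ} {a : ℝ} {γ β : ℂ}
    (hS : LimG S μ₀ μ a γ β) {l : ℕ → ℝ} {l₀ : ℝ} (hl : ∀ j, |l j| ≤ 1) (hl₀ : |l₀| < 1) {N : ℕ → Set ℂ}
    {m : ℕ → ℂ → ℂ} {m₀ : ℂ → ℂ} (hs : SolG S ρ l N m) (hm : LBG S μ m m₀) {f : ℕ → ℂ}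
    (hf : ∀ n, f n = fh l₀ μ (fc 0 1 μ m₀ ρ (n + 1)) n) (hfg : Gr f) {y : ℂ} {g : ℕ → ℂ} (hg : Dc μ g)
    (hD : ∀ x : ℂ, ‖μ‖ < ‖x‖ → ‖x‖ < 1 → 2 * Uw μ a γ β x * sE μ f x = TT μ y g l₀ x) :
    ∃ C : ℝ, 0 ≤ C ∧ ∀ q : Polynomial ℂ,
      ‖∫ t in (0 : ℝ)..(2 * π), LoJ μ y g l₀ a γ β (fun n => conj μ ^ (n + 1) * conj (f n)) (exp (t * I)) ^ 2 *
        ((‖q.eval (exp (t * I))‖ ^ 2 : ℝ) : ℂ)‖ ≤
      C * ∫ t in (0 : ℝ)..(2 * π), |(Uw μ a γ β (exp (t * I))).re| * ‖q.eval (exp (t * I))‖ ^ 2 := by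
  have hρ2 : ρ ^ 2 < 1 := by nlinarith
  have hμ₀ : ‖μ‖ ≤ μ₀ := Lo_mu hS
  have hμρ : ‖μ‖ < ρ ^ 2 := lt_of_le_of_lt hμ₀ h1
  have hμ : ‖μ‖ < 1 := hμρ.trans hρ2
  have h11 : μ₀ < 1 := h1.trans hρ2
  have hμn := norm_nonneg μ
  obtain ⟨σ, hσ0, hσ, hσ1⟩ := Lo_sig h0 h1 hρ hρ1
  obtain ⟨C, hC, hT⟩ := T1b h0 h1 hρ hρ1 hσ hσ1
  obtain ⟨SM, hSM⟩ := hm.bd σ hσ0 hσ1
  refine ⟨C * SM ^ 2, by positivity, fun q => ?_⟩
  obtain ⟨Cg, hev⟩ := hT hS hl hs q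
  set κ : ℝ := 2 * ((1 - ‖μ‖ ^ 2) / (1 + ‖μ‖ ^ 2)) with hκ
  have hκ0 : 0 < κ := by
    rw [hκ]
    have : 0 < (1 - ‖μ‖ ^ 2) / (1 + ‖μ‖ ^ 2) := div_pos (by nlinarith) (by positivity)
    linarith
  have hK := Lo_K (μ := μ) hfg
  set J := LoJ μ y g l₀ a γ β (fun n => conj μ ^ (n + 1) * conj (f n)) with hJ
  -- the function on the annulus
  have hG : ∀ w : ℂ, ρ ≤ ‖w‖ → ‖w‖ ≤ 1 → DifferentiableAt ℂ (fun w => J w ^ 2 * q.eval w * gs q w) w := by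
    intro w hw hw1
    have hw0 : w ≠ 0 := norm_pos_iff.1 (hρ.trans_le hw)
    have hx : ‖μ‖ < ‖w‖ ^ 2 := hμρ.trans_le (pow_le_pow_left₀ hρ.le hw 2)
    have hx1 : ‖w‖ * ‖μ‖ < 1 := by nlinarith [norm_nonneg w]
    have hgs : DifferentiableAt ℂ (gs q) w := Lo_cc hw0 q.differentiableAt
    exact (((LoJ_diff hμ hg hK hx hx1).pow 2).mul q.differentiableAt).mul hgs
  have hcau := Lo_cau hρ hρ1 hG
  have hlhs : ∀ t : ℝ, J (exp (t * I)) ^ 2 * q.eval (exp (t * I)) * gs q (exp (t * I)) =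
      J (exp (t * I)) ^ 2 * ((‖q.eval (exp (t * I))‖ ^ 2 : ℝ) : ℂ) := by
    intro t
    have e1 : (conj (exp (t * I)))⁻¹ = exp (t * I) := by
      rw [← Complex.exp_conj, ← Complex.exp_neg]
      congr 1
      simp
    unfold gs
    rw [e1, mul_assoc, Complex.mul_conj, Complex.normSq_eq_norm_sq]
  have hrhs : ∀ t : ℝ, Uw μ a γ β (pr ρ t) ^ 2 * m₀ (zw μ (pr ρ t)) ^ 2 * q.eval (pr ρ t) * gs q (pr ρ t) =
      J (pr ρ t) ^ 2 * q.eval (pr ρ t) * gs q (pr ρ t) := by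
    intro t
    have hn : ‖pr ρ t‖ = ρ := by
      unfold pr
      rw [norm_mul, Complex.norm_exp_ofReal_mul_I, mul_one, Complex.norm_real, Real.norm_eq_abs, abs_of_pos hρ]
    have hb1 : ‖μ‖ < ‖pr ρ t‖ := by
      rw [hn]
      nlinarith
    have hb2 : ‖pr ρ t‖ < 1 := by rw [hn]; exact hρ1
    obtain ⟨-, hp⟩ := Lo_pw (μ := μ) (x := pr ρ t) (by rw [hn]; exact hμρ)
    have e1 : J (pr ρ t) = Uw μ a γ β (pr ρ t) * m₀ (zw μ (pr ρ t)) := by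
      rw [hJ]
      unfold LoJ
      rw [← hD _ hb1 hb2, div_eq_iff hp, mul_assoc (Uw μ a γ β (pr ρ t)),
        Lo_eq hμ hρ hμρ hρ1 hm.hol0 hl₀ hf hfg hb1 hb2]
      ring
    rw [e1]
    ring
  have hP := PlimG h0 h1 hρ hρ1 hS hm q
  have e2 : (∫ t in (0 : ℝ)..(2 * π), Uw μ a γ β (pr ρ t) ^ 2 * m₀ (zw μ (pr ρ t)) ^ 2 *
        q.eval (pr ρ t) * gs q (pr ρ t)) =
      ∫ t in (0 : ℝ)..(2 * π), J (exp (t * I)) ^ 2 * ((‖q.eval (exp (t * I))‖ ^ 2 : ℝ) : ℂ) := by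
    simp only [hrhs]
    rw [hcau]
    simp only [hlhs]
  rw [e2] at hP
  have hR : Tendsto (fun j => C * SM ^ 2 * (∫ t in (0 : ℝ)..(2 * π), |S.UU j (zz 0 1 (S.μ₁ j) (exp (t * I)))| *
      ‖q.eval (exp (t * I))‖ ^ 2 / S.d j) + Cg * S.d j) atTop
      (𝓝 (C * SM ^ 2 * (∫ t in (0 : ℝ)..(2 * π), κ *
        (|(Uw μ a γ β (exp (t * I))).re| * ‖q.eval (exp (t * I))‖ ^ 2)) + Cg * 0)) :=
    ((Lo_lim h0 h11 hS q).const_mul _).add (hS.ld.const_mul _)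
  have hle := le_of_tendsto_of_tendsto hP.norm hR (by
    filter_upwards [hev] with j hj
    refine le_trans ?_ (hj SM (fun z hz => hSM j z (Or.inl hz)))
    rw [norm_div, norm_pow, Complex.norm_real, Real.norm_eq_abs, abs_of_pos (hS.pos j)]
    refine div_le_div_of_nonneg_right ?_ (by positivity)
    refine (norm_integral_le_integral_norm _).trans (le_of_eq ?_)
    refine integral_congr_ae (Eventually.of_forall fun z => ?_)
    show ‖((|S.UU j z| * ‖q.eval (vv 0 1 (S.μ₁ j) z)‖ ^ 2 : ℝ) : ℂ) * m j z ^ 2‖ = _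
    rw [norm_mul, norm_pow, Complex.norm_real, Real.norm_eq_abs, abs_of_nonneg (by positivity)]
    ring)
  rw [norm_mul, Complex.norm_real, Real.norm_eq_abs, ← hκ, abs_of_pos hκ0, intervalIntegral.integral_const_mul,
    mul_zero, add_zero] at hle
  refine le_of_mul_le_mul_left ?_ hκ0
  refine hle.trans (le_of_eq ?_)
  ring

theorem Lo_unit (z : ℂ) : ∃ θ : ℂ, ‖θ‖ ≤ 1 ∧ (θ * z).re = ‖z‖ := by
  by_cases h : z = 0
  · exact ⟨0, by simp, by simp [h]⟩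
  · have hn : ‖z‖ ≠ 0 := norm_ne_zero_iff.2 h
    refine ⟨conj z / (‖z‖ : ℂ), ?_, ?_⟩
    · rw [norm_div, RCLike.norm_conj, Complex.norm_real, norm_norm, div_self hn]
    · rw [div_mul_eq_mul_div, mul_comm, Complex.mul_conj, Complex.normSq_eq_norm_sq]
      have : ((‖z‖ ^ 2 : ℝ) : ℂ) / (‖z‖ : ℂ) = ((‖z‖ : ℝ) : ℂ) := by
        rw [← Complex.ofReal_div]
        congr 1
        field_simp
      rw [this, Complex.ofReal_re]

theorem Lo_peak {F : ℂ → ℂ} {V : ℂ → ℝ} {C : ℝ} (hF : Continuous fun t : ℝ => F (exp (t * I)))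
    (hV : Continuous fun t : ℝ => V (exp (t * I)))
    (h : ∀ q : Polynomial ℂ, ‖∫ t in (0 : ℝ)..(2 * π), F (exp (t * I)) * ((‖q.eval (exp (t * I))‖ ^ 2 : ℝ) : ℂ)‖ ≤
      C * ∫ t in (0 : ℝ)..(2 * π), V (exp (t * I)) * ‖q.eval (exp (t * I))‖ ^ 2) {x : ℂ} (hx : ‖x‖ = 1) :
    ‖F x‖ ≤ C * V x := by
  obtain ⟨θ, hθ, hθx⟩ := Lo_unit (F x)
  have hexp : Continuous fun t : ℝ => exp (t * I) := by fun_prop
  have hw : Continuous fun t : ℝ => C * V (exp (t * I)) - (θ * F (exp (t * I))).re :=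
    (hV.const_mul C).sub (Complex.continuous_re.comp (hF.const_mul θ))
  have hq : ∀ q : Polynomial ℂ, Continuous fun t : ℝ => ‖q.eval (exp (t * I))‖ ^ 2 := fun q =>
    ((q.continuous.comp hexp).norm).pow 2
  have hN := Nk_nonneg hw (by
    intro q
    have i1 : Continuous fun t : ℝ => V (exp (t * I)) * ‖q.eval (exp (t * I))‖ ^ 2 := hV.mul (hq q)
    have i2 : Continuous fun t : ℝ => F (exp (t * I)) * ((‖q.eval (exp (t * I))‖ ^ 2 : ℝ) : ℂ) :=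
      hF.mul (Complex.continuous_ofReal.comp (hq q))
    have e1 : (fun t : ℝ => (C * V (exp (t * I)) - (θ * F (exp (t * I))).re) * ‖q.eval (exp (t * I))‖ ^ 2) =
        fun t : ℝ => C * (V (exp (t * I)) * ‖q.eval (exp (t * I))‖ ^ 2) -
          Complex.reCLM (θ * (F (exp (t * I)) * ((‖q.eval (exp (t * I))‖ ^ 2 : ℝ) : ℂ))) := by
      funext t
      rw [Complex.reCLM_apply, ← mul_assoc θ, Complex.re_mul_ofReal]
      ring
    have e2 : (∫ t in (0 : ℝ)..(2 * π), Complex.reCLM (θ * (F (exp (t * I)) * ((‖q.eval (exp (t * I))‖ ^ 2 : ℝ) : ℂ)))) =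
        (θ * ∫ t in (0 : ℝ)..(2 * π), F (exp (t * I)) * ((‖q.eval (exp (t * I))‖ ^ 2 : ℝ) : ℂ)).re := by
      rw [ContinuousLinearMap.intervalIntegral_comp_comm _ ((i2.const_mul θ).intervalIntegrable _ _),
        intervalIntegral.integral_const_mul, Complex.reCLM_apply]
    have i3 : Continuous fun t : ℝ => Complex.reCLM (θ * (F (exp (t * I)) * ((‖q.eval (exp (t * I))‖ ^ 2 : ℝ) : ℂ))) :=
      Complex.reCLM.continuous.comp (i2.const_mul θ)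
    rw [e1, intervalIntegral.integral_sub ((i1.const_mul C).intervalIntegrable _ _) (i3.intervalIntegrable _ _),
      intervalIntegral.integral_const_mul, e2]
    have h3 := h q
    have h4 := Complex.re_le_norm (θ * ∫ t in (0 : ℝ)..(2 * π), F (exp (t * I)) *
      ((‖q.eval (exp (t * I))‖ ^ 2 : ℝ) : ℂ))
    rw [norm_mul] at h4
    have h5 := mul_le_mul_of_nonneg_right hθ (norm_nonneg (∫ t in (0 : ℝ)..(2 * π), F (exp (t * I)) *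
      ((‖q.eval (exp (t * I))‖ ^ 2 : ℝ) : ℂ)))
    linarith)
  obtain ⟨t, ht, rfl⟩ : ∃ t ∈ Icc 0 (2 * π), exp (t * I) = x := by
    have hπ := Real.pi_pos
    have harg : exp (arg x * I) = x := by
      have := Complex.norm_mul_exp_arg_mul_I x
      rwa [hx, Complex.ofReal_one, one_mul] at this
    by_cases h0 : 0 ≤ arg x
    · exact ⟨arg x, ⟨h0, by linarith [Complex.arg_le_pi x]⟩, harg⟩
    · push Not at h0
      refine ⟨arg x + 2 * π, ⟨by linarith [Complex.neg_pi_lt_arg x], by linarith⟩, ?_⟩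
      push_cast
      rw [add_mul, Complex.exp_add, Complex.exp_two_pi_mul_I, mul_one]
      exact harg
  have h2 : 0 ≤ C * V (exp (t * I)) - (θ * F (exp (t * I))).re := hN t ht
  rw [hθx] at h2
  linarith

theorem bndG {μ₀ ρ : ℝ} (h0 : 0 ≤ μ₀) (h1 : μ₀ < ρ ^ 2) (hρ : 0 < ρ) (hρ1 : ρ < 1) {S : Sq} {μ : ℂ} {a : ℝ} {γ β : ℂ}
    (hS : LimG S μ₀ μ a γ β) {l : ℕ → ℝ} {l₀ : ℝ} (hl : ∀ j, |l j| ≤ 1) (hl₀ : |l₀| < 1) {N : ℕ → Set ℂ}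
    {m : ℕ → ℂ → ℂ} {m₀ : ℂ → ℂ} (hs : SolG S ρ l N m) (hm : LBG S μ m m₀) {f : ℕ → ℂ}
    (hf : ∀ n, f n = fh l₀ μ (fc 0 1 μ m₀ ρ (n + 1)) n) (hfg : Gr f) {y : ℂ} {g : ℕ → ℂ} (hg : Dc μ g)
    (hD : ∀ x : ℂ, ‖μ‖ < ‖x‖ → ‖x‖ < 1 → 2 * Uw μ a γ β x * sE μ f x = TT μ y g l₀ x) :
    ∃ C : ℝ, ∀ x : ℂ, ‖x‖ = 1 → ‖TT μ y g l₀ x‖ ^ 2 ≤ C * |(Uw μ a γ β x).re| := by
  have hρ2 : ρ ^ 2 < 1 := by nlinarith
  have hμ₀ : ‖μ‖ ≤ μ₀ := Lo_mu hS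
  have hμρ : ‖μ‖ < ρ ^ 2 := lt_of_le_of_lt hμ₀ h1
  have hμ : ‖μ‖ < 1 := hμρ.trans hρ2
  have hK := Lo_K (μ := μ) hfg
  obtain ⟨C, hC, hint⟩ := Lo_int h0 h1 hρ hρ1 hS hl hl₀ hs hm hf hfg hg hD
  set K : ℕ → ℂ := fun n => conj μ ^ (n + 1) * conj (f n) with hKd
  have hc1 : ∀ x : ℂ, ‖x‖ = 1 → ‖μ‖ < ‖x‖ ^ 2 ∧ ‖x‖ * ‖μ‖ < 1 := fun x hx => by
    rw [hx]
    norm_num
    exact hμ
  have hJd : ∀ x : ℂ, ‖x‖ = 1 → DifferentiableAt ℂ (LoJ μ y g l₀ a γ β K) x := fun x hx =>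
    LoJ_diff hμ hg hK (hc1 x hx).1 (hc1 x hx).2
  have hUd : ∀ x : ℂ, ‖x‖ = 1 → DifferentiableAt ℂ (Uw μ a γ β) x := by
    intro x hx
    have hx0 : x ≠ 0 := by
      rintro rfl
      rw [norm_zero] at hx
      exact zero_ne_one hx
    unfold Uw
    fun_prop (disch := exact hx0)
  have hEd : ∀ x : ℂ, ‖x‖ = 1 → DifferentiableAt ℂ (sE μ K) x := by
    intro x hx
    have hopen : IsOpen {w : ℂ | ‖μ‖ ^ 2 < ‖w‖ ∧ ‖w‖ * ‖μ‖ < 1} :=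
      (isOpen_lt continuous_const continuous_norm).inter
        (isOpen_lt (continuous_norm.mul continuous_const) continuous_const)
    exact (sY_hol hμ y hK).2.1.differentiableAt (hopen.mem_nhds
      ⟨Lo_reg hμ (Lo_big hμ (hc1 x hx).1), (hc1 x hx).2⟩)
  have hexp : Continuous fun t : ℝ => exp (t * I) := by fun_prop
  have hcont : ∀ {F : ℂ → ℂ}, (∀ x : ℂ, ‖x‖ = 1 → DifferentiableAt ℂ F x) →
      Continuous fun t : ℝ => F (exp (t * I)) := by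
    intro F hF
    rw [continuous_iff_continuousAt]
    intro t
    exact ContinuousAt.comp (f := fun t : ℝ => exp (t * I)) (g := F)
      (hF _ (Complex.norm_exp_ofReal_mul_I t)).continuousAt hexp.continuousAt
  have hpk : ∀ x : ℂ, ‖x‖ = 1 → ‖LoJ μ y g l₀ a γ β K x ^ 2‖ ≤ C * |(Uw μ a γ β x).re| := fun x hx =>
    Lo_peak (F := fun x => LoJ μ y g l₀ a γ β K x ^ 2) (V := fun x => |(Uw μ a γ β x).re|)
      ((hcont hJd).pow 2) ((Complex.continuous_re.comp (hcont hUd)).abs) hint hx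
  have hsph : IsCompact (Metric.sphere (0 : ℂ) 1) := isCompact_sphere _ _
  obtain ⟨BU, hBU⟩ := hsph.exists_bound_of_continuousOn (f := Uw μ a γ β) (fun x hx =>
    (hUd x (by simpa using hx)).continuousAt.continuousWithinAt)
  obtain ⟨BK, hBK⟩ := hsph.exists_bound_of_continuousOn (f := sE μ K) (fun x hx =>
    (hEd x (by simpa using hx)).continuousAt.continuousWithinAt)
  refine ⟨32 * C + 8 * BU * BK ^ 2, fun x hx => ?_⟩
  have hxs : x ∈ Metric.sphere (0 : ℂ) 1 := by simpa using hx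
  have h2 := hpk x hx
  have h3 := hBU x hxs
  have h4 := hBK x hxs
  have hUre : ‖Uw μ a γ β x‖ = |(Uw μ a γ β x).re| := by
    have h5 := Uw_im (μ := μ) (a := a) (γ := γ) (β := β) hx
    have h6 : Uw μ a γ β x = (((Uw μ a γ β x).re : ℝ) : ℂ) := by
      apply Complex.ext
      · rw [Complex.ofReal_re]
      · rw [h5, Complex.ofReal_im]
    rw [h6, Complex.norm_real, Real.norm_eq_abs, Complex.ofReal_re]
  obtain ⟨hx0, hp⟩ := Lo_pw (hc1 x hx).1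
  have e1 : TT μ y g l₀ x = 2 * (LoJ μ y g l₀ a γ β K x * pw μ x) + 2 * l₀ * Uw μ a γ β x * sE μ K x := by
    unfold LoJ
    rw [div_mul_cancel₀ _ hp]
    ring
  have hpn : ‖pw μ x‖ ≤ 2 := by
    unfold pw
    refine (norm_sub_le _ _).trans ?_
    rw [norm_mul, norm_inv, hx, inv_one, mul_one]
    linarith
  rw [norm_pow] at h2
  have hl0 := abs_nonneg l₀
  have hJ0 := norm_nonneg (LoJ μ y g l₀ a γ β K x)
  have hU0 := norm_nonneg (Uw μ a γ β x)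
  have hE0 := norm_nonneg (sE μ K x)
  have hpn0 := norm_nonneg (pw μ x)
  have e2 : ‖TT μ y g l₀ x‖ ≤ 4 * ‖LoJ μ y g l₀ a γ β K x‖ + 2 * (‖Uw μ a γ β x‖ * BK) := by
    rw [e1]
    refine (norm_add_le _ _).trans (add_le_add ?_ ?_)
    · rw [norm_mul, norm_mul]
      have h7 : ‖(2 : ℂ)‖ = 2 := by simp
      rw [h7]
      nlinarith
    · rw [norm_mul, norm_mul, norm_mul, Complex.norm_real, Real.norm_eq_abs]
      have h7 : ‖(2 : ℂ)‖ = 2 := by simp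
      rw [h7]
      have h8 : ‖Uw μ a γ β x‖ * ‖sE μ K x‖ ≤ ‖Uw μ a γ β x‖ * BK := mul_le_mul_of_nonneg_left h4 hU0
      have h9 : |l₀| * (‖Uw μ a γ β x‖ * ‖sE μ K x‖) ≤ 1 * (‖Uw μ a γ β x‖ * ‖sE μ K x‖) :=
        mul_le_mul_of_nonneg_right hl₀.le (by positivity)
      calc 2 * |l₀| * ‖Uw μ a γ β x‖ * ‖sE μ K x‖ = 2 * (|l₀| * (‖Uw μ a γ β x‖ * ‖sE μ K x‖)) := by ring
        _ ≤ _ := by linarith
  have e3 : ‖TT μ y g l₀ x‖ ^ 2 ≤ (4 * ‖LoJ μ y g l₀ a γ β K x‖ + 2 * (‖Uw μ a γ β x‖ * BK)) ^ 2 :=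
    pow_le_pow_left₀ (norm_nonneg _) e2 2
  have e4 : (4 * ‖LoJ μ y g l₀ a γ β K x‖ + 2 * (‖Uw μ a γ β x‖ * BK)) ^ 2 ≤
      32 * ‖LoJ μ y g l₀ a γ β K x‖ ^ 2 + 8 * (‖Uw μ a γ β x‖ * BK) ^ 2 := by
    nlinarith [sq_nonneg (4 * ‖LoJ μ y g l₀ a γ β K x‖ - 2 * (‖Uw μ a γ β x‖ * BK))]
  have e5 : (‖Uw μ a γ β x‖ * BK) ^ 2 ≤ BU * BK ^ 2 * |(Uw μ a γ β x).re| := by
    rw [← hUre]
    have : ‖Uw μ a γ β x‖ * (‖Uw μ a γ β x‖ * BK ^ 2) ≤ BU * (‖Uw μ a γ β x‖ * BK ^ 2) :=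
      mul_le_mul_of_nonneg_right h3 (by positivity)
    calc (‖Uw μ a γ β x‖ * BK) ^ 2 = ‖Uw μ a γ β x‖ * (‖Uw μ a γ β x‖ * BK ^ 2) := by ring
      _ ≤ _ := this
      _ = _ := by ring
  calc ‖TT μ y g l₀ x‖ ^ 2 ≤ 32 * ‖LoJ μ y g l₀ a γ β K x‖ ^ 2 + 8 * (‖Uw μ a γ β x‖ * BK) ^ 2 := e3.trans e4
    _ ≤ 32 * (C * |(Uw μ a γ β x).re|) + 8 * (BU * BK ^ 2 * |(Uw μ a γ β x).re|) := by linarith
    _ = _ := by ring

end LD1
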