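import Pool.Agent.H1.LD.Lj
import Pool.Agent.H1.LD.Ll
import Pool.Agent.H1.LD.Ln
import Pool.Agent.H1.LD.Lo
import Pool.Agent.H1.EX.Xh
import Pool.Agent.H1.ND.Nl

/-!
ROW LD/Lp. Compactness, as `near_thm` in `ND/Nl.lean` (adapt that proof: `nl_*`, Montel). Suppose the statement is false: for every `j` data with `δ = 1/(100 (j+2))` and `m z ≠ 0` somewhere in the first ellipse; `NN > 0` (`F3n`), normalize `NN = d²` (multiply `m` by a positive number). `F3n` (`r₀ = 1/2`, `R = 2`, the given `μ₀`) for both orders: `‖m_j‖ ≤ C_σ` on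
`E₁ σ ∪ E₂ σ`. Subsequence: `l_j`, `μ₁ j`, `c₂/d`, `(r₂-1)/d`, `(μ₂-μ₁)/d` converge (`‖γ‖ + |a| + ‖β‖ = 1`), and `m_j → m₀` pointwise on `Dp 0 1 μ 1` (e.g. `fc`/Taylor coefficients or Montel by a diagonal argument; every compact subset of `Dp 0 1 μ 1` is in `E₁ σ j` for some `σ < 1` and large `j`). So `LimG`, `LBG`, `SolG` for the subsequence.
`f n = fh l₀ μ (fc 0 1 μ m₀ ρ (n+1)) n`, `Gr f` (`anaG`, `|l₀| < 1`). `T2G`, `czP`, `DDG`, `bndG`, `finG`: `f = 0`, so `fc 0 1 μ m₀ ρ (n+1) = 0` for all `n` and `m₀ = 0` on `Dp 0 1 μ 1` (`anaG`; `pw ≠ 0` except for `w² = μ`, continuity). So `sup_{E₁ σ j} ‖m_j‖ → 0` (uniform convergence on compact sets), and `T1b` with `g = 1`: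
`1 = (1/d²) ∫_EE |UU| ‖m‖² ≤ C SM² ∫ |UU| /d + Cg d → 0` (`UbdG`): contradiction.
-/

set_option autoImplicit false

namespace LD1

open Complex Set Filter Topology MeasureTheory EW1 EX1 ND1
open scoped ComplexConjugate ContDiff Real

private theorem Lp_fh {l : ℝ} (hl : |l| < 1) {μ : ℂ} (hμ : ‖μ‖ < 1) (M : ℂ) (n : ℕ) :
    M = fh l μ M n - l * conj μ ^ (n + 1) * conj (fh l μ M n) := by
  have hx : ‖μ‖ ^ (2 * (n + 1)) ≤ 1 := pow_le_one₀ (norm_nonneg _) hμ.le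
  have hx0 : 0 ≤ ‖μ‖ ^ (2 * (n + 1)) := by positivity
  have hl2 : l ^ 2 < 1 := by
    rw [← sq_abs]
    nlinarith [abs_nonneg l]
  have hD : 0 < 1 - l ^ 2 * ‖μ‖ ^ (2 * (n + 1)) := by nlinarith [sq_nonneg l]
  have hDC : ((1 - l ^ 2 * ‖μ‖ ^ (2 * (n + 1)) : ℝ) : ℂ) ≠ 0 := by exact_mod_cast hD.ne'
  have hc : conj μ ^ (n + 1) * μ ^ (n + 1) = ((‖μ‖ ^ (2 * (n + 1)) : ℝ) : ℂ) := by
    rw [← mul_pow, mul_comm, Complex.mul_conj, Complex.normSq_eq_norm_sq, ← Complex.ofReal_pow, ← pow_mul]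
  unfold fh
  rw [map_div₀, Complex.conj_ofReal, ← mul_div_assoc, ← sub_div, eq_div_iff hDC]
  simp only [map_add, map_mul, map_pow, Complex.conj_ofReal, Complex.conj_conj]
  push_cast
  push_cast at hc
  linear_combination ((l : ℂ) ^ 2 * M) * hc

private theorem Lp_fh_le {l : ℝ} (hl : |l| < 1) {μ : ℂ} (hμ : ‖μ‖ < 1) (M : ℂ) (n : ℕ) :
    ‖fh l μ M n‖ ≤ 2 / (1 - l ^ 2) * ‖M‖ := by
  have hx : ‖μ‖ ^ (2 * (n + 1)) ≤ 1 := pow_le_one₀ (norm_nonneg _) hμ.le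
  have hx0 : 0 ≤ ‖μ‖ ^ (2 * (n + 1)) := by positivity
  have hl2 : l ^ 2 < 1 := by
    rw [← sq_abs]
    nlinarith [abs_nonneg l]
  have hD : 1 - l ^ 2 ≤ 1 - l ^ 2 * ‖μ‖ ^ (2 * (n + 1)) := by nlinarith [sq_nonneg l]
  have hD0 : 0 < 1 - l ^ 2 := by linarith
  unfold fh
  rw [norm_div, Complex.norm_real, Real.norm_of_nonneg (by linarith)]
  have h1 : ‖M + l * conj μ ^ (n + 1) * conj M‖ ≤ 2 * ‖M‖ := by
    calc ‖M + l * conj μ ^ (n + 1) * conj M‖ ≤ ‖M‖ + ‖l * conj μ ^ (n + 1) * conj M‖ := norm_add_le _ _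
      _ = ‖M‖ + |l| * ‖μ‖ ^ (n + 1) * ‖M‖ := by
          rw [norm_mul, norm_mul, norm_pow, RCLike.norm_conj, RCLike.norm_conj, Complex.norm_real, Real.norm_eq_abs]
      _ ≤ ‖M‖ + 1 * 1 * ‖M‖ := by
          have : ‖μ‖ ^ (n + 1) ≤ 1 := pow_le_one₀ (norm_nonneg _) hμ.le
          gcongr
      _ = 2 * ‖M‖ := by ring
  calc ‖M + l * conj μ ^ (n + 1) * conj M‖ / (1 - l ^ 2 * ‖μ‖ ^ (2 * (n + 1))) ≤ (2 * ‖M‖) / (1 - l ^ 2) :=
        div_le_div₀ (by positivity) h1 hD0 hD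
    _ = 2 / (1 - l ^ 2) * ‖M‖ := by ring

/-- a field with zero coefficients vanishes -/
private theorem Lp_zero {μ : ℂ} (hμ : ‖μ‖ < 1) {ρ : ℝ} (hρ : 0 < ρ) (h1 : ‖μ‖ < ρ ^ 2) (hρ1 : ρ < 1) {F : ℂ → ℂ}
    (hF : DifferentiableOn ℂ F (Dp 0 1 μ 1)) (h : ∀ n : ℕ, fc 0 1 μ F ρ (n + 1) = 0) : ∀ z ∈ Dp 0 1 μ 1, F z = 0 := by
  obtain ⟨-, hE⟩ := anaG hμ hρ h1 hρ1 hF
  have hs : ∀ w, sE μ (fun n => fc 0 1 μ F ρ (n + 1)) w = 0 := by
    intro w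
    unfold sE
    simp [h]
  have hρμ : ‖μ‖ < ρ := by nlinarith
  have hw0 : ((ρ : ℝ) : ℂ) ≠ 0 := by exact_mod_cast hρ.ne'
  set z₀ : ℂ := zw μ ρ with hz₀
  have hn0 : ‖(ρ : ℂ)‖ = ρ := by rw [Complex.norm_real, Real.norm_of_nonneg hρ.le]
  have hz₀m : z₀ ∈ Dp 0 1 μ 1 := (hE ρ (by rw [hn0]; exact hρμ) (by rw [hn0]; exact hρ1)).1
  have hA : AnalyticOnNhd ℂ F (Dp 0 1 μ 1) := hF.analyticOnNhd (Dp_open _ _ _ _)
  have hfr : ∃ᶠ z in 𝓝[≠] z₀, F z = 0 := by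
    -- points zw μ w, w real near ρ
    have hc : Tendsto (fun t : ℝ => zw μ (t : ℂ)) (𝓝[≠] ρ) (𝓝[≠] z₀) := by
      rw [tendsto_nhdsWithin_iff]
      refine ⟨?_, ?_⟩
      · have h2 : ContinuousAt (fun t : ℝ => zw μ (t : ℂ)) ρ := by
          unfold zw
          refine ContinuousAt.add Complex.continuous_ofReal.continuousAt (ContinuousAt.mul continuousAt_const ?_)
          exact ContinuousAt.inv₀ Complex.continuous_ofReal.continuousAt hw0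
        exact h2.tendsto.mono_left nhdsWithin_le_nhds
      · have h2 : ∀ᶠ t : ℝ in 𝓝[≠] ρ, ‖μ‖ / ρ < t := by
          refine Filter.Eventually.filter_mono nhdsWithin_le_nhds ?_
          refine lt_mem_nhds ?_
          rw [div_lt_iff₀ hρ]
          nlinarith
        filter_upwards [h2, self_mem_nhdsWithin] with t ht hne
        intro heq
        have ht0 : 0 < t := lt_of_le_of_lt (by positivity) ht
        have htC : ((t : ℝ) : ℂ) ≠ 0 := by exact_mod_cast ht0.ne'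
        have h3 : ((t : ℂ) - ρ) * (t * ρ - μ) = 0 := by
          have h4 : zw μ (t : ℂ) = zw μ ρ := heq
          unfold zw at h4
          have h5 : (t : ℂ) * (t : ℂ)⁻¹ = 1 := mul_inv_cancel₀ htC
          have h6 : (ρ : ℂ) * (ρ : ℂ)⁻¹ = 1 := mul_inv_cancel₀ hw0
          linear_combination ((t : ℂ) * ρ) * h4 - μ * ρ * h5 + μ * t * h6
        rcases mul_eq_zero.1 h3 with h4 | h4
        · apply hne
          have : (t : ℂ) = ρ := by linear_combination h4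
          exact_mod_cast this
        · have h5 : μ = t * ρ := by linear_combination -h4
          have h6 : ‖μ‖ = t * ρ := by
            rw [h5, norm_mul, hn0, Complex.norm_real, Real.norm_of_nonneg ht0.le]
          rw [div_lt_iff₀ hρ] at ht
          linarith
    have h2 : ∀ᶠ t : ℝ in 𝓝[≠] ρ, F (zw μ t) = 0 := by
      have h3 : ∀ᶠ t : ℝ in 𝓝 ρ, ‖μ‖ < t ∧ t < 1 ∧ ‖μ‖ < t ^ 2 := by
        refine (lt_mem_nhds hρμ).and ((gt_mem_nhds hρ1).and ?_)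
        exact (continuous_pow 2).continuousAt.eventually_const_lt h1
      filter_upwards [h3.filter_mono nhdsWithin_le_nhds] with t ht
      have ht0 : 0 < t := (norm_nonneg _).trans_lt ht.1
      have htC : ((t : ℝ) : ℂ) ≠ 0 := by exact_mod_cast ht0.ne'
      have hnt : ‖(t : ℂ)‖ = t := by rw [Complex.norm_real, Real.norm_of_nonneg ht0.le]
      have h4 := (hE t (by rw [hnt]; exact ht.1) (by rw [hnt]; exact ht.2.1)).2
      rw [hs] at h4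
      refine (mul_eq_zero.1 h4).resolve_right fun h5 => ?_
      unfold pw at h5
      have h6 : μ = t ^ 2 := by
        have h7 := congrArg (fun x => x * (t : ℂ)) h5
        simp only [sub_mul, zero_mul, mul_assoc, inv_mul_cancel₀ htC, mul_one] at h7
        linear_combination -h7
      have h7 : ‖μ‖ = t ^ 2 := by rw [h6, norm_pow, hnt]
      linarith [ht.2.2]
    exact hc.frequently h2.frequently
  intro z hz
  exact hA.eqOn_zero_of_preconnected_of_frequently_eq_zero (Dp_convex _ _ _ _).isPreconnected hz₀m hfr hz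

/-- the parametrization is continuous in the parameters -/
private theorem Lp_vv {μ : ℂ} (hμ : ‖μ‖ < 1) (z : ℂ) : ContinuousAt (fun p : ℂ × ℂ => ‖vv 0 1 p.1 p.2‖) (μ, z) := by
  unfold vv
  have h1 : (0 : ℝ) < 1 - ‖μ‖ ^ 2 := by nlinarith [norm_nonneg μ]
  refine ContinuousAt.norm (ContinuousAt.div ?_ ?_ ?_)
  · fun_prop
  · fun_prop
  · simp only [one_mul]
    exact_mod_cast h1.ne'

/-- uniform convergence of the fields to zero on the smaller ellipses -/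
private theorem Lp_unif {μ₀ : ℝ} (h1 : μ₀ < 1) {S : Sq} {μ : ℂ} {a : ℝ} {γ β : ℂ}
    (hS : LimG S μ₀ μ a γ β) (hμ : ‖μ‖ ≤ μ₀) {m : ℕ → ℂ → ℂ} {m₀ : ℂ → ℂ} (hm : LBG S μ m m₀) (hm0 : ∀ z ∈ Dp 0 1 μ 1, m₀ z = 0)
    {σ : ℝ} (hσ : 0 < σ) (hσ1 : σ < 1) {ε : ℝ} (hε : 0 < ε) : ∀ᶠ j in atTop, ∀ z ∈ S.E₁ σ j, ‖m j z‖ ≤ ε := by
  by_contra hcon
  have hfr : ∃ᶠ j in atTop, ∃ z ∈ S.E₁ σ j, ε < ‖m j z‖ := by
    intro hev
    apply hcon
    filter_upwards [hev] with j hj z hz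
    by_contra h2
    exact hj ⟨z, hz, not_le.1 h2⟩
  obtain ⟨φ, hφ, hz⟩ := extraction_of_frequently_atTop hfr
  choose z hz1 hz2 using hz
  have hb : ∀ k, z k ∈ Metric.closedBall (0 : ℂ) (2 * 1 * σ) := by
    intro k
    have h2 : Dp 0 1 (S.μ₁ (φ k)) σ ⊆ Metric.ball 0 (2 * 1 * σ) := Dp_ball one_pos ((hS.m1 (φ k)).trans_lt h1)
    have h3 : z k ∈ Dp 0 1 (S.μ₁ (φ k)) σ := hz1 k
    exact Metric.ball_subset_closedBall (h2 h3)
  obtain ⟨w, -, ψ, hψ, hlim⟩ := (isCompact_closedBall (0 : ℂ) (2 * 1 * σ)).tendsto_subseq hb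
  have hμ1 : ‖μ‖ < 1 := hμ.trans_lt h1
  have hθt : Tendsto (fun k => φ (ψ k)) atTop atTop := hφ.tendsto_atTop.comp hψ.tendsto_atTop
  have hμl : Tendsto (fun k => S.μ₁ (φ (ψ k))) atTop (𝓝 μ) := hS.lm1.comp hθt
  -- the limit point is in the closed smaller ellipse
  have hw : ‖vv 0 1 μ w‖ ≤ σ := by
    have h2' : Tendsto (fun k => (S.μ₁ (φ (ψ k)), z (ψ k))) atTop (𝓝 (μ, w)) := hμl.prodMk_nhds hlim
    have h2 := (Lp_vv hμ1 w).tendsto.comp h2'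
    refine le_of_tendsto h2 (Eventually.of_forall fun k => ?_)
    have h4 : ‖vv 0 1 (S.μ₁ (φ (ψ k))) (z (ψ k))‖ < σ := hz1 (ψ k)
    exact h4.le
  set τ : ℝ := (σ + 1) / 2 with hτ
  have hτ1 : τ < 1 := by rw [hτ]; linarith
  have hστ : σ < τ := by rw [hτ]; linarith
  obtain ⟨C, hC⟩ := hm.bd τ (by linarith) hτ1
  -- a ball around the limit point
  obtain ⟨r, hr, hball⟩ : ∃ r : ℝ, 0 < r ∧ ∀ᶠ k in atTop, Metric.ball w r ⊆ S.E₁ τ (φ (ψ k)) := by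
    have h2 : ∀ᶠ p : ℂ × ℂ in 𝓝 (μ, w), ‖vv 0 1 p.1 p.2‖ < τ := (Lp_vv hμ1 w).eventually_lt_const (hw.trans_lt hστ)
    rw [Metric.eventually_nhds_iff] at h2
    obtain ⟨r, hr, h3⟩ := h2
    refine ⟨r, hr, ?_⟩
    filter_upwards [hμl.eventually (Metric.ball_mem_nhds μ hr)] with k hk y hy
    show ‖vv 0 1 (S.μ₁ (φ (ψ k))) y‖ < τ
    exact h3 (y := (S.μ₁ (φ (ψ k)), y)) (by rw [Prod.dist_eq]; exact max_lt hk hy)
  have hC0 : 0 ≤ C := by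
    obtain ⟨k, hk⟩ := hball.exists
    exact (norm_nonneg _).trans (hC (φ (ψ k)) w (Or.inl (hk (Metric.mem_ball_self hr))))
  have hlw : Tendsto (fun k => ‖m (φ (ψ k)) w‖) atTop (𝓝 0) := by
    have h2 := hm.lim w (show ‖vv 0 1 μ w‖ < 1 by linarith)
    rw [hm0 w (show ‖vv 0 1 μ w‖ < 1 by linarith)] at h2
    have h3 := (h2.comp hθt).norm
    rw [norm_zero] at h3
    exact h3
  have hzw : Tendsto (fun k => dist (z (ψ k)) w) atTop (𝓝 0) := tendsto_iff_dist_tendsto_zero.1 hlim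
  have hsum : Tendsto (fun k => (2 * C + 1) / r * dist (z (ψ k)) w + ‖m (φ (ψ k)) w‖) atTop (𝓝 ((2 * C + 1) / r * 0 + 0)) :=
    (hzw.const_mul _).add hlw
  rw [mul_zero, add_zero] at hsum
  have hlast : ∀ᶠ k in atTop, ‖m (φ (ψ k)) (z (ψ k))‖ ≤ (2 * C + 1) / r * dist (z (ψ k)) w + ‖m (φ (ψ k)) w‖ := by
    filter_upwards [hball, hzw.eventually_lt_const hr] with k hk hkz
    obtain ⟨N, hN, hN1, -, hd⟩ := hm.hol (φ (ψ k))
    have hsub : Metric.ball w r ⊆ N := hk.trans fun y hy => hN1 (by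
      have h3 : ‖vv 0 1 (S.μ₁ (φ (ψ k))) y‖ < τ := hy
      show ‖vv 0 1 (S.μ₁ (φ (ψ k))) y‖ ≤ 1
      linarith)
    have hmaps : MapsTo (m (φ (ψ k))) (Metric.ball w r) (Metric.ball (m (φ (ψ k)) w) (2 * C + 1)) := by
      intro y hy
      rw [mem_ball_iff_norm]
      calc ‖m (φ (ψ k)) y - m (φ (ψ k)) w‖ ≤ ‖m (φ (ψ k)) y‖ + ‖m (φ (ψ k)) w‖ := norm_sub_le _ _
        _ ≤ C + C := add_le_add (hC _ _ (Or.inl (hk hy))) (hC _ _ (Or.inl (hk (Metric.mem_ball_self hr))))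
        _ < 2 * C + 1 := by linarith
    have h4 := Complex.dist_le_div_mul_dist_of_mapsTo_ball (hd.mono hsub)
      (fun y hy => Metric.ball_subset_closedBall (hmaps hy)) (Metric.mem_ball.2 hkz)
    rw [dist_eq_norm] at h4
    calc ‖m (φ (ψ k)) (z (ψ k))‖ = ‖(m (φ (ψ k)) (z (ψ k)) - m (φ (ψ k)) w) + m (φ (ψ k)) w‖ := by rw [sub_add_cancel]
      _ ≤ ‖m (φ (ψ k)) (z (ψ k)) - m (φ (ψ k)) w‖ + ‖m (φ (ψ k)) w‖ := norm_add_le _ _
      _ ≤ _ := by linarith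
  obtain ⟨k, hk1, hk2⟩ := (hlast.and (hsum.eventually_lt_const hε)).exists
  have := hz2 (ψ k)
  linarith

/-- the conclusion of the argument for a converging sequence -/
theorem limG_zero {μ₀ ρ : ℝ} (h0 : 0 ≤ μ₀) (h1 : μ₀ < ρ ^ 2) (hρ : 0 < ρ) (hρ1 : ρ < 1) {S : Sq} {μ : ℂ} {a : ℝ} {γ β : ℂ}
    (hS : LimG S μ₀ μ a γ β) (h3 : ‖γ‖ + |a| + ‖β‖ = 1) {l : ℕ → ℝ} {l₀ : ℝ} (hl : ∀ j, |l j| ≤ 1) (hl₀ : Tendsto l atTop (𝓝 l₀))
    (hl₁ : |l₀| < 1) {N : ℕ → Set ℂ} {m : ℕ → ℂ → ℂ} {m₀ : ℂ → ℂ} (hs : SolG S ρ l N m) (hm : LBG S μ m m₀) : False := by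
  have hρ2 : ρ ^ 2 < 1 := by nlinarith
  have hμ01 : μ₀ < 1 := h1.trans hρ2
  have hμ : ‖μ‖ ≤ μ₀ := le_of_tendsto hS.lm1.norm (Eventually.of_forall hS.m1)
  have hμ1 : ‖μ‖ < 1 := hμ.trans_lt hμ01
  have hμρ : ‖μ‖ < ρ ^ 2 := hμ.trans_lt h1
  set M : ℕ → ℂ := fun n => fc 0 1 μ m₀ ρ (n + 1) with hM
  obtain ⟨hMg, -⟩ := anaG hμ1 hρ hμρ hρ1 hm.hol0
  set f : ℕ → ℂ := fun n => fh l₀ μ (M n) n with hf
  have hfg : Gr f := by
    intro s hs0 hs1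
    obtain ⟨C, hC⟩ := hMg s hs0 hs1
    have hl2 : l₀ ^ 2 < 1 := by
      rw [← sq_abs]
      nlinarith [abs_nonneg l₀]
    have hl3 : 0 < 1 - l₀ ^ 2 := by linarith
    refine ⟨2 / (1 - l₀ ^ 2) * C, fun n => ?_⟩
    calc ‖f n‖ * s ^ n ≤ (2 / (1 - l₀ ^ 2) * ‖M n‖) * s ^ n := mul_le_mul_of_nonneg_right (Lp_fh_le hl₁ hμ1 _ _) (by positivity)
      _ = 2 / (1 - l₀ ^ 2) * (‖M n‖ * s ^ n) := by ring
      _ ≤ 2 / (1 - l₀ ^ 2) * C := mul_le_mul_of_nonneg_left (hC n) (by positivity)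
  have hff : ∀ n, f n = fh l₀ μ (fc 0 1 μ m₀ ρ (n + 1)) n := fun n => rfl
  obtain ⟨w, hw1, hw2⟩ := T2G h0 h1 hρ hρ1 hS hl hl₀ hs hm hff
  have hd1 : ∀ n : ℕ, ∑' k : ℕ, Pc μ a γ β k * (f (n + k) - l₀ * conj μ ^ (n + k + 1) * conj (f (n + k))) =
      w n - l₀ * conj μ ^ n * conj β * conj (f n) - l₀ * conj μ ^ (n + 1) * conj (w n) := by
    intro n
    rw [← hw1 n, czP hμ1 hρ hμρ hρ1 hm.hol0]
    refine tsum_congr fun k => ?_
    have h4 := Lp_fh hl₁ hμ1 (M (n + k)) (n + k)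
    rw [← h4]
  obtain ⟨y, g, hg, hD⟩ := DDG hμ1 hl₁ hfg hd1 hw2
  obtain ⟨C, hC⟩ := bndG h0 h1 hρ hρ1 hS hl hl₁ hs hm hff hfg hg hD
  have hfz : ∀ n, f n = 0 := fun n => finG hμ1 hl₁ h3 hfg hg hD hC n
  have hMz : ∀ n : ℕ, fc 0 1 μ m₀ ρ (n + 1) = 0 := by
    intro n
    have h4 := Lp_fh hl₁ hμ1 (M n) n
    have h5 : fh l₀ μ (M n) n = 0 := hfz n
    rw [h5, map_zero, mul_zero, sub_zero] at h4
    exact h4
  have hm0 := Lp_zero hμ1 hρ hμρ hρ1 hm.hol0 hMz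
  -- the first test with `g = 1`
  have hσq : (ρ ^ 2 + μ₀) / (ρ * (1 + μ₀)) < 1 := by
    rw [div_lt_one (by positivity)]
    have h4 : μ₀ < ρ := by nlinarith
    nlinarith [mul_pos (sub_pos.2 hρ1) (sub_pos.2 h4)]
  have hσq0 : 0 < (ρ ^ 2 + μ₀) / (ρ * (1 + μ₀)) := by positivity
  obtain ⟨σ, hσ, hσ1⟩ := exists_between hσq
  have hσ0 : 0 < σ := hσq0.trans hσ
  obtain ⟨C₁, hC₁, hT⟩ := T1b h0 h1 hρ hρ1 hσ hσ1
  obtain ⟨Cg, hCg⟩ := hT hS hl hs 1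
  obtain ⟨CU, hCU, hU⟩ := UbdG h0 hμ01
  set ε : ℝ := Real.sqrt (1 / (2 * (C₁ * (2 * π * CU) + 1))) with hε
  have hden : 0 < 2 * (C₁ * (2 * π * CU) + 1) := by positivity
  have hεp : 0 < ε := Real.sqrt_pos.2 (by positivity)
  have hε2 : ε ^ 2 = 1 / (2 * (C₁ * (2 * π * CU) + 1)) := Real.sq_sqrt (by positivity)
  have hdl : Tendsto (fun j => Cg * S.d j) atTop (𝓝 0) := by
    have := hS.ld.const_mul Cg
    rwa [mul_zero] at this
  obtain ⟨j, hj1, hj2, hj3⟩ := (hCg.and ((Lp_unif hμ01 hS hμ hm hm0 hσ0 hσ1 hεp).and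
    (hdl.eventually_lt_const (show (0 : ℝ) < 1 / 2 by norm_num)))).exists
  have h4 := hj1 ε hj2
  simp only [Polynomial.eval_one, norm_one, one_pow, mul_one] at h4
  have h5 : (∫ z in S.EE j, |S.UU j z| * ‖m j z‖ ^ 2) = S.d j ^ 2 := hs.nn j
  have h6 : S.d j ≠ 0 := (hS.pos j).ne'
  rw [h5, div_self (pow_ne_zero _ h6)] at h4
  have h7 : (∫ t in (0 : ℝ)..(2 * π), |S.UU j (zz 0 1 (S.μ₁ j) (exp (t * I)))| / S.d j) ≤ CU * (2 * π) := by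
    have h8 : ‖∫ t in (0 : ℝ)..(2 * π), |S.UU j (zz 0 1 (S.μ₁ j) (exp (t * I)))| / S.d j‖ ≤ CU * |2 * π - 0| := by
      refine intervalIntegral.norm_integral_le_of_norm_le_const fun t _ => ?_
      have h9 : ‖zz 0 1 (S.μ₁ j) (exp (t * I))‖ ≤ 3 := by
        unfold zz
        have h10 : ‖exp ((t : ℂ) * I)‖ = 1 := Complex.norm_exp_ofReal_mul_I t
        have h11 := (hS.m1 j).trans hμ01.le
        rw [zero_add, Complex.ofReal_one, one_mul]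
        calc ‖exp ((t : ℂ) * I) + S.μ₁ j * conj (exp ((t : ℂ) * I))‖ ≤
            ‖exp ((t : ℂ) * I)‖ + ‖S.μ₁ j * conj (exp ((t : ℂ) * I))‖ := norm_add_le _ _
          _ = 1 + ‖S.μ₁ j‖ := by rw [norm_mul, RCLike.norm_conj, h10, mul_one]
          _ ≤ 3 := by linarith
      have h10 := (hU hS j _ _ h9 h9).1
      rw [norm_div, Real.norm_eq_abs, abs_abs, Real.norm_eq_abs, abs_of_pos (hS.pos j), div_le_iff₀ (hS.pos j)]
      exact h10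
    rw [sub_zero, abs_of_pos (by positivity)] at h8
    exact (le_abs_self _).trans h8
  have h8 : C₁ * ε ^ 2 * (∫ t in (0 : ℝ)..(2 * π), |S.UU j (zz 0 1 (S.μ₁ j) (exp (t * I)))| / S.d j) ≤
      C₁ * ε ^ 2 * (CU * (2 * π)) := mul_le_mul_of_nonneg_left h7 (by positivity)
  have h9 : C₁ * ε ^ 2 * (CU * (2 * π)) < 1 / 2 := by
    rw [hε2]
    have h10 : C₁ * (1 / (2 * (C₁ * (2 * π * CU) + 1))) * (CU * (2 * π)) = C₁ * (2 * π * CU) / (2 * (C₁ * (2 * π * CU) + 1)) := by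
      ring
    rw [h10, div_lt_div_iff₀ hden (by norm_num)]
    linarith
  linarith

end LD1
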