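import Pool.Agent.H1.LD.Lp
import Pool.Agent.H1.ND.Nl
import Pool.Agent.H1.EX.Xh

/-!
# LD/Lq: compactness for a general base ellipse
-/

set_option autoImplicit false

namespace LD1

open Complex Set Filter Topology MeasureTheory EW1 EX1 ND1
open scoped ComplexConjugate ContDiff Real

/-- Montel -/
theorem Lq_montel {O : Set ℂ} {F : ℕ → ℂ → ℂ} (h : ∀ z ∈ O, ∃ (s : ℝ) (J : ℕ) (C : ℝ), 0 < s ∧ Metric.ball z s ⊆ O ∧
    ∀ j ≥ J, DifferentiableOn ℂ (F j) (Metric.ball z s) ∧ ∀ x ∈ Metric.ball z s, ‖F j x‖ ≤ C) :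
    ∃ φ : ℕ → ℕ, StrictMono φ ∧ ∃ F₀ : ℂ → ℂ, DifferentiableOn ℂ F₀ O ∧
      ∀ z ∈ O, Tendsto (fun j => F (φ j) z) atTop (𝓝 (F₀ z)) := by
  classical
  -- bounds at the points
  have hpt : ∀ z : ℂ, ∃ (J : ℕ) (C : ℝ), 0 ≤ C ∧ (z ∈ O → ∀ j ≥ J, ‖F j z‖ ≤ C) := by
    intro z
    by_cases hz : z ∈ O
    · obtain ⟨s, J, C, hs, -, hJ⟩ := h z hz
      exact ⟨J, |C|, abs_nonneg _, fun _ j hj => ((hJ j hj).2 z (Metric.mem_ball_self hs)).trans (le_abs_self _)⟩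
    · exact ⟨0, 0, le_rfl, fun h' => absurd h' hz⟩
  choose J C hC0 hC using hpt
  set u : ℕ → ℂ := TopologicalSpace.denseSeq ℂ with hu
  set G : ℕ → ℕ → ℂ := fun j k => if u k ∈ O ∧ J (u k) ≤ j then F j (u k) else 0 with hG
  have hmem : ∀ j, G j ∈ Set.pi Set.univ (fun k : ℕ => Metric.closedBall (0 : ℂ) (C (u k))) := by
    intro j k _
    rw [mem_closedBall_zero_iff]
    by_cases hk : u k ∈ O ∧ J (u k) ≤ j
    · simp only [hG, if_pos hk]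
      exact hC (u k) hk.1 j hk.2
    · simp only [hG, if_neg hk, norm_zero]
      exact hC0 _
  obtain ⟨b, -, φ, hφ, hlim⟩ := (isCompact_univ_pi fun k : ℕ => isCompact_closedBall (0 : ℂ) (C (u k))).tendsto_subseq hmem
  have hlim' : ∀ k, Tendsto (fun j => G (φ j) k) atTop (𝓝 (b k)) := fun k => (tendsto_pi_nhds.1 hlim) k
  have hconv : ∀ z ∈ O, ∃ y : ℂ, Tendsto (fun j => F (φ j) z) atTop (𝓝 y) := by
    intro z hz
    obtain ⟨s, J', C', hs, hsub, hJ'⟩ := h z hz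
    have hC' : 0 ≤ C' := (norm_nonneg _).trans ((hJ' J' le_rfl).2 z (Metric.mem_ball_self hs))
    refine cauchySeq_tendsto_of_complete ?_
    rw [Metric.cauchySeq_iff]
    intro ε hε
    obtain ⟨η, hη⟩ : ∃ η : ℝ, η = min s (ε / 4 * (s / (2 * C' + 1))) := ⟨_, rfl⟩
    have hη0 : 0 < η := by rw [hη]; positivity
    obtain ⟨k, hk⟩ := (TopologicalSpace.denseRange_denseSeq ℂ).exists_mem_open Metric.isOpen_ball (Metric.nonempty_ball.2 hη0 : (Metric.ball z η).Nonempty)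
    have hk' : dist (u k) z < η := hk
    have hks : u k ∈ Metric.ball z s := lt_of_lt_of_le hk' (by rw [hη]; exact min_le_left _ _)
    have hkO : u k ∈ O := hsub hks
    have hclose : ∀ j ≥ J', dist (F j (u k)) (F j z) ≤ ε / 4 := by
      intro j hj
      obtain ⟨hd, hb⟩ := hJ' j hj
      have hmap : MapsTo (F j) (Metric.ball z s) (Metric.closedBall (F j z) (2 * C' + 1)) := by
        intro x hx
        rw [Metric.mem_closedBall, dist_eq_norm]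
        have e1 := hb x hx
        have e2 := hb z (Metric.mem_ball_self hs)
        have e3 := norm_sub_le (F j x) (F j z)
        linarith
      have e4 := Complex.dist_le_div_mul_dist_of_mapsTo_ball hd hmap hks
      refine e4.trans ?_
      have e5 : dist (u k) z ≤ ε / 4 * (s / (2 * C' + 1)) := hk'.le.trans (by rw [hη]; exact min_le_right _ _)
      calc (2 * C' + 1) / s * dist (u k) z ≤ (2 * C' + 1) / s * (ε / 4 * (s / (2 * C' + 1))) := by gcongr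
        _ = ε / 4 := by field_simp
    have hcau := (hlim' k).cauchySeq
    rw [Metric.cauchySeq_iff] at hcau
    obtain ⟨N₀, hN₀⟩ := hcau (ε / 4) (by positivity)
    refine ⟨max N₀ (max J' (J (u k))), fun i hi j hj => ?_⟩
    have hi1 : N₀ ≤ i := (le_max_left _ _).trans hi
    have hj1 : N₀ ≤ j := (le_max_left _ _).trans hj
    have hi2 : J' ≤ φ i := ((le_max_left _ _).trans ((le_max_right _ _).trans hi)).trans (hφ.id_le i)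
    have hj2 : J' ≤ φ j := ((le_max_left _ _).trans ((le_max_right _ _).trans hj)).trans (hφ.id_le j)
    have hi3 : J (u k) ≤ φ i := ((le_max_right _ _).trans ((le_max_right _ _).trans hi)).trans (hφ.id_le i)
    have hj3 : J (u k) ≤ φ j := ((le_max_right _ _).trans ((le_max_right _ _).trans hj)).trans (hφ.id_le j)
    have e1 := hclose _ hi2
    have e2 := hclose _ hj2
    have e3 := hN₀ i hi1 j hj1
    have g1 : G (φ i) k = F (φ i) (u k) := by simp only [hG, if_pos (⟨hkO, hi3⟩ : u k ∈ O ∧ J (u k) ≤ φ i)]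
    have g2 : G (φ j) k = F (φ j) (u k) := by simp only [hG, if_pos (⟨hkO, hj3⟩ : u k ∈ O ∧ J (u k) ≤ φ j)]
    rw [g1, g2] at e3
    rw [dist_comm] at e1
    have e4 := dist_triangle4 (F (φ i) z) (F (φ i) (u k)) (F (φ j) (u k)) (F (φ j) z)
    linarith
  have hex : ∀ z : ℂ, ∃ y : ℂ, z ∈ O → Tendsto (fun j => F (φ j) z) atTop (𝓝 y) := by
    intro z
    by_cases hz : z ∈ O
    · obtain ⟨y, hy⟩ := hconv z hz
      exact ⟨y, fun _ => hy⟩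
    · exact ⟨0, fun h' => absurd h' hz⟩
  choose F₀ hF₀ using hex
  refine ⟨φ, hφ, F₀, fun z hz => ?_, fun z hz => hF₀ z hz⟩
  obtain ⟨s, J', C', hs, hsub, hJ'⟩ := h z hz
  have hsc : (s : ℂ) ≠ 0 := by exact_mod_cast hs.ne'
  have hmap : ∀ x ∈ Metric.ball (0 : ℂ) 1, z + s * x ∈ Metric.ball z s := by
    intro x hx
    rw [mem_ball_zero_iff] at hx
    rw [Metric.mem_ball, dist_eq_norm, add_sub_cancel_left, norm_mul, Complex.norm_real, Real.norm_of_nonneg hs.le]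
    nlinarith
  obtain ⟨ψ, hψ, H, hH, hHl⟩ := nl_montel (F := fun j x => F (φ j) (z + s * x)) (by
    intro s' hs'0 hs'1
    refine ⟨J', C', fun j hj => ?_⟩
    obtain ⟨hd, hb⟩ := hJ' (φ j) (hj.trans (hφ.id_le j))
    have hsub' : ∀ x ∈ Metric.ball (0 : ℂ) s', z + s * x ∈ Metric.ball z s := fun x hx =>
      hmap x (Metric.ball_subset_ball hs'1.le hx)
    exact ⟨hd.comp (by fun_prop) hsub', fun x hx => hb _ (hsub' x hx)⟩)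
  have heq : ∀ x ∈ Metric.ball (0 : ℂ) 1, F₀ (z + s * x) = H x := by
    intro x hx
    refine tendsto_nhds_unique ?_ (hHl x hx)
    exact (hF₀ _ (hsub (hmap x hx))).comp hψ.tendsto_atTop
  have hball : ∀ x ∈ Metric.ball z s, (x - z) / s ∈ Metric.ball (0 : ℂ) 1 := by
    intro x hx
    rw [Metric.mem_ball, dist_eq_norm] at hx
    rw [mem_ball_zero_iff, norm_div, Complex.norm_real, Real.norm_of_nonneg hs.le, div_lt_one hs]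
    exact hx
  have hd : DifferentiableOn ℂ (fun x => H ((x - z) / s)) (Metric.ball z s) := hH.comp (by fun_prop) hball
  have hd' : DifferentiableOn ℂ F₀ (Metric.ball z s) := by
    refine hd.congr fun x hx => ?_
    rw [← heq _ (hball x hx)]
    congr 1
    field_simp
    ring
  exact (hd'.differentiableAt (Metric.ball_mem_nhds z hs)).differentiableWithinAt

/-- joint continuity of the coordinate -/
theorem Lq_vv {μ z : ℂ} (hμ : ‖μ‖ < 1) {σ : ℝ} (hz : ‖vv 0 1 μ z‖ < σ) : ∃ s : ℝ, 0 < s ∧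
    ∀ᶠ μ' in 𝓝 μ, ∀ x ∈ Metric.ball z s, ‖vv 0 1 μ' x‖ < σ := by
  have hc : ContinuousAt (fun p : ℂ × ℂ => ‖vv 0 1 p.1 p.2‖) (μ, z) := by
    unfold vv
    refine ContinuousAt.norm (ContinuousAt.div (by fun_prop) (by fun_prop) ?_)
    have : (1 : ℝ) - ‖μ‖ ^ 2 ≠ 0 := by nlinarith [norm_nonneg μ]
    simp only [one_mul]
    exact_mod_cast this
  have hev : ∀ᶠ p in 𝓝 (μ, z), ‖vv 0 1 (p : ℂ × ℂ).1 p.2‖ < σ := hc.eventually_lt continuousAt_const hz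
  rw [nhds_prod_eq, Filter.eventually_prod_iff] at hev
  obtain ⟨pa, ha, pb, hb, hab⟩ := hev
  obtain ⟨s, hs, hsb⟩ := Metric.eventually_nhds_iff_ball.1 hb
  exact ⟨s, hs, ha.mono fun μ' h1 x hx => hab h1 (hsb x hx)⟩

theorem near_genQ {L μ₀ ρ : ℝ} (hL : L < 1) (h0 : 0 ≤ μ₀) (h1 : μ₀ < ρ ^ 2) (hρ : 0 < ρ) (hρ1 : ρ < 1) : ∃ δ : ℝ, 0 < δ ∧
    ∀ (μ₁ c₂ : ℂ) (r₂ : ℝ) (μ₂ : ℂ), ‖μ₁‖ ≤ μ₀ → ‖μ₂‖ ≤ μ₀ → 0 < dd 0 1 μ₁ c₂ r₂ μ₂ → dd 0 1 μ₁ c₂ r₂ μ₂ ≤ δ → ∀ l : ℝ, |l| ≤ L →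
    ∀ (N : Set ℂ) (m : ℂ → ℂ), IsOpen N → Kp 0 1 μ₁ ⊆ N → Kp c₂ r₂ μ₂ ⊆ N → DifferentiableOn ℂ m N →
    (∀ A : ℂ → ℂ, DifferentiableOn ℂ A N → Idn 0 1 μ₁ c₂ r₂ μ₂ l ρ A m) → ∀ z ∈ Dp 0 1 μ₁ 1, m z = 0 := by
  have hμ01 : μ₀ < 1 := h1.trans (by nlinarith)
  by_contra hcon
  push Not at hcon
  -- the uniform bounds
  have hF3 : ∀ σ : ℝ, 0 < σ → σ < 1 → ∃ C : ℝ, 0 < C ∧ ∀ (c₁ : ℂ) (r₁ : ℝ) (μ₁ c₂ : ℂ) (r₂ : ℝ) (μ₂ : ℂ),
      PS (1 / 2) 2 μ₀ c₁ r₁ μ₁ → PS (1 / 2) 2 μ₀ c₂ r₂ μ₂ → 0 < dd c₁ r₁ μ₁ c₂ r₂ μ₂ →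
      ∀ (N : Set ℂ) (m : ℂ → ℂ), IsOpen N → {z | ‖vv c₁ r₁ μ₁ z‖ ≤ 1} ⊆ N → {z | ‖vv c₂ r₂ μ₂ z‖ ≤ 1} ⊆ N →
      DifferentiableOn ℂ m N → ∀ z ∈ Dp c₁ r₁ μ₁ σ,
        dd c₁ r₁ μ₁ c₂ r₂ μ₂ * ‖m z‖ ≤ C * Real.sqrt (NN c₁ r₁ μ₁ c₂ r₂ μ₂ m) := fun σ h1 h2 =>
    F3n (by norm_num) (by norm_num) h0 hμ01 h1 h2
  -- the normalized sequence
  have key : ∀ j : ℕ, ∃ (μ₁ c₂ : ℂ) (r₂ : ℝ) (μ₂ : ℂ) (l : ℝ) (N : Set ℂ) (m : ℂ → ℂ),
      ‖μ₁‖ ≤ μ₀ ∧ ‖μ₂‖ ≤ μ₀ ∧ 0 < dd 0 1 μ₁ c₂ r₂ μ₂ ∧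
      dd 0 1 μ₁ c₂ r₂ μ₂ ≤ 1 / (100 * ((j : ℝ) + 2)) ∧ |l| ≤ L ∧
      PS (1 / 2) 2 μ₀ 0 1 μ₁ ∧ PS (1 / 2) 2 μ₀ c₂ r₂ μ₂ ∧ IsOpen N ∧ Kp 0 1 μ₁ ⊆ N ∧ Kp c₂ r₂ μ₂ ⊆ N ∧
      DifferentiableOn ℂ m N ∧ (∀ A : ℂ → ℂ, DifferentiableOn ℂ A N → Idn 0 1 μ₁ c₂ r₂ μ₂ l ρ A m) ∧
      NN 0 1 μ₁ c₂ r₂ μ₂ m = dd 0 1 μ₁ c₂ r₂ μ₂ ^ 2 := by
    intro j
    have hδ : 0 < 1 / (100 * ((j : ℝ) + 2)) := by positivity
    have hδ2 : 1 / (100 * ((j : ℝ) + 2)) ≤ 1 / 200 := by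
      apply one_div_le_one_div_of_le (by norm_num)
      have : (0 : ℝ) ≤ j := Nat.cast_nonneg j
      linarith
    obtain ⟨μ₁, c₂, r₂, μ₂, h1, h2, h3, h4, l, hl, N, m, hN, hN1, hN2, hm, hid, z, hz, hmz⟩ := hcon _ hδ
    have hdef : dd 0 1 μ₁ c₂ r₂ μ₂ = ‖(0 : ℂ) - c₂‖ + |1 - r₂| + ‖μ₁ - μ₂‖ := rfl
    have hc : ‖c₂‖ ≤ 1 / 200 := by
      rw [zero_sub, norm_neg] at hdef
      have := abs_nonneg (1 - r₂)
      have := norm_nonneg (μ₁ - μ₂)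
      linarith
    have hr : |1 - r₂| ≤ 1 / 200 := by
      have := norm_nonneg ((0 : ℂ) - c₂)
      have := norm_nonneg (μ₁ - μ₂)
      linarith
    rw [abs_le] at hr
    have p1 : PS (1 / 2) 2 μ₀ 0 1 μ₁ := ⟨by simp, by norm_num, by norm_num, by linarith⟩
    have p2 : PS (1 / 2) 2 μ₀ c₂ r₂ μ₂ := ⟨by linarith, by linarith, by linarith, by linarith⟩
    have hNN0 := NN_nonneg 0 1 μ₁ c₂ r₂ μ₂ m
    have hNNp : 0 < NN 0 1 μ₁ c₂ r₂ μ₂ m := by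
      refine lt_of_le_of_ne hNN0 fun h0 => hmz ?_
      have hz' : ‖vv 0 1 μ₁ z‖ < 1 := hz
      obtain ⟨C, hC, hF⟩ := hF3 ((‖vv 0 1 μ₁ z‖ + 1) / 2) (by linarith [norm_nonneg (vv 0 1 μ₁ z)]) (by linarith)
      have h5 := hF 0 1 μ₁ c₂ r₂ μ₂ p1 p2 h3 N m hN hN1 hN2 hm z (show ‖vv 0 1 μ₁ z‖ < (‖vv 0 1 μ₁ z‖ + 1) / 2 by linarith)
      rw [← h0, Real.sqrt_zero, mul_zero] at h5
      have h6 : ‖m z‖ ≤ 0 := by
        by_contra h7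
        push Not at h7
        have := mul_pos h3 h7
        linarith
      exact norm_le_zero_iff.1 h6
    set t : ℝ := dd 0 1 μ₁ c₂ r₂ μ₂ / Real.sqrt (NN 0 1 μ₁ c₂ r₂ μ₂ m) with ht
    refine ⟨μ₁, c₂, r₂, μ₂, l, N, fun z => (t : ℂ) * m z, h1, h2, h3, h4, hl, p1, p2, hN, hN1, hN2, hm.const_mul _,
      fun A hA => nl_Idn t (hid A hA), ?_⟩
    rw [nl_NN, ht, div_pow, Real.sq_sqrt hNN0, div_mul_cancel₀ _ hNNp.ne']
  choose μ₁ c₂ r₂ μ₂ l N m k1 k2 k3 k4 k5 p1 p2 kN kN1 kN2 km kid kNN using key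
  set d : ℕ → ℝ := fun j => dd 0 1 (μ₁ j) (c₂ j) (r₂ j) (μ₂ j) with hd
  have hlim0 : Tendsto (fun j : ℕ => 1 / (100 * ((j : ℝ) + 2))) atTop (𝓝 0) := by
    have h1 : Tendsto (fun j : ℕ => 100 * ((j : ℝ) + 2)) atTop atTop := by
      refine Tendsto.const_mul_atTop (by norm_num) ?_
      exact tendsto_atTop_add_const_right _ _ tendsto_natCast_atTop_atTop
    have h2 := h1.inv_tendsto_atTop
    refine h2.congr fun j => ?_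
    rw [Pi.inv_apply, one_div]
  have hd0 : Tendsto d atTop (𝓝 0) := squeeze_zero (fun j => (k3 j).le) k4 hlim0
  have hδ2 : ∀ j : ℕ, 1 / (100 * ((j : ℝ) + 2)) ≤ 1 / 200 := by
    intro j
    apply one_div_le_one_div_of_le (by norm_num)
    have : (0 : ℝ) ≤ j := Nat.cast_nonneg j
    linarith
  -- bounds of `m`
  have hbd : ∀ σ : ℝ, 0 < σ → σ < 1 → ∃ C : ℝ, ∀ j z, z ∈ Dp 0 1 (μ₁ j) σ ∪ Dp (c₂ j) (r₂ j) (μ₂ j) σ → ‖m j z‖ ≤ C := by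
    intro σ h1 h2
    obtain ⟨C, hC, hF⟩ := hF3 σ h1 h2
    refine ⟨C, fun j z hz => ?_⟩
    have hdj : 0 < d j := k3 j
    have hsq : Real.sqrt (NN 0 1 (μ₁ j) (c₂ j) (r₂ j) (μ₂ j) (m j)) = d j := by
      rw [kNN, Real.sqrt_sq hdj.le]
    rcases hz with hz | hz
    · have h5 := hF 0 1 (μ₁ j) (c₂ j) (r₂ j) (μ₂ j) (p1 j) (p2 j) (k3 j) (N j) (m j) (kN j) (kN1 j) (kN2 j) (km j) z hz
      rw [hsq, mul_comm] at h5
      exact le_of_mul_le_mul_right h5 hdj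
    · have h6 : 0 < dd (c₂ j) (r₂ j) (μ₂ j) 0 1 (μ₁ j) := by rw [dd_symm]; exact k3 j
      have h5 := hF (c₂ j) (r₂ j) (μ₂ j) 0 1 (μ₁ j) (p2 j) (p1 j) h6 (N j) (m j) (kN j) (kN2 j) (kN1 j) (km j) z hz
      rw [dd_symm, NN_symm, hsq, mul_comm] at h5
      exact le_of_mul_le_mul_right h5 hdj
  -- the parameters
  have hsum : ∀ j, ‖c₂ j / (d j : ℂ)‖ + |(r₂ j - 1) / d j| + ‖(μ₂ j - μ₁ j) / (d j : ℂ)‖ = 1 := by
    intro j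
    have hdj : 0 < d j := k3 j
    have e : d j = ‖c₂ j‖ + |r₂ j - 1| + ‖μ₂ j - μ₁ j‖ := by
      show ‖(0 : ℂ) - c₂ j‖ + |1 - r₂ j| + ‖μ₁ j - μ₂ j‖ = _
      rw [zero_sub, norm_neg, abs_sub_comm, norm_sub_rev]
    rw [norm_div, norm_div, abs_div, Complex.norm_real, Real.norm_of_nonneg hdj.le, abs_of_pos hdj, ← add_div, ← add_div,
      ← e, div_self hdj.ne']
  have hmem : ∀ j, ((c₂ j / (d j : ℂ), (r₂ j - 1) / d j, (μ₂ j - μ₁ j) / (d j : ℂ), l j, μ₁ j) : ℂ × ℝ × ℂ × ℝ × ℂ) ∈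
      Metric.closedBall (0 : ℂ × ℝ × ℂ × ℝ × ℂ) 1 := by
    intro j
    have h1 := hsum j
    have n1 := norm_nonneg (c₂ j / (d j : ℂ))
    have n2 := abs_nonneg ((r₂ j - 1) / d j)
    have n3 := norm_nonneg ((μ₂ j - μ₁ j) / (d j : ℂ))
    have n4 := k5 j
    have n5 := k1 j
    rw [mem_closedBall_zero_iff, Prod.norm_def, Prod.norm_def, Prod.norm_def, Prod.norm_def]
    simp only [max_le_iff, Real.norm_eq_abs]
    exact ⟨by linarith, by linarith, by linarith, by linarith, by linarith⟩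
  obtain ⟨⟨γ, a, β, l₀, μ⟩, -, φ₁, hφ₁, hlim⟩ := (isCompact_closedBall (0 : ℂ × ℝ × ℂ × ℝ × ℂ) 1).tendsto_subseq hmem
  rw [Prod.tendsto_iff, Prod.tendsto_iff, Prod.tendsto_iff, Prod.tendsto_iff] at hlim
  obtain ⟨lγ, la, lβ, ll, lμ⟩ := hlim
  have lμ' : Tendsto (fun j => μ₁ (φ₁ j)) atTop (𝓝 μ) := lμ
  have hμμ : ‖μ‖ ≤ μ₀ := le_of_tendsto lμ'.norm (Eventually.of_forall fun j => k1 _)
  have hμ1 : ‖μ‖ < 1 := hμμ.trans_lt hμ01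
  -- the fields
  obtain ⟨φ₂, hφ₂, m₀, hm₀, hm₀l⟩ := Lq_montel (O := Dp 0 1 μ 1) (F := fun j => m (φ₁ j)) (by
    intro z hz
    have hz' : ‖vv 0 1 μ z‖ < 1 := hz
    obtain ⟨σ, hσ1, hσ2⟩ := exists_between hz'
    obtain ⟨C, hC⟩ := hbd σ ((norm_nonneg _).trans_lt hσ1) hσ2
    obtain ⟨s, hs, hev⟩ := Lq_vv hμ1 hσ1
    obtain ⟨J, hJ⟩ := eventually_atTop.1 (lμ'.eventually hev)
    have hself := hev.self_of_nhds
    refine ⟨s, J, C, hs, fun x hx => (hself x hx).trans hσ2, fun j hj => ?_⟩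
    have hsub : Metric.ball z s ⊆ Dp 0 1 (μ₁ (φ₁ j)) σ := fun x hx => hJ j hj x hx
    refine ⟨(km (φ₁ j)).mono (hsub.trans fun x hx => kN1 (φ₁ j) ?_), fun x hx => hC (φ₁ j) x (Or.inl (hsub hx))⟩
    have h3 : ‖vv 0 1 (μ₁ (φ₁ j)) x‖ < σ := hx
    show ‖vv 0 1 (μ₁ (φ₁ j)) x‖ ≤ 1
    linarith)
  set φ : ℕ → ℕ := fun j => φ₁ (φ₂ j) with hφ
  have hφt : Tendsto φ atTop atTop := hφ₁.tendsto_atTop.comp hφ₂.tendsto_atTop
  set S : Sq := ⟨fun j => μ₁ (φ j), fun j => c₂ (φ j), fun j => r₂ (φ j), fun j => μ₂ (φ j)⟩ with hS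
  have hSd : ∀ j, S.d j = d (φ j) := fun j => rfl
  have hdφ : Tendsto (fun j => d (φ j)) atTop (𝓝 0) := hd0.comp hφt
  have hμ1φ : Tendsto (fun j => μ₁ (φ j)) atTop (𝓝 μ) := lμ'.comp hφ₂.tendsto_atTop
  have hμ2φ : Tendsto (fun j => μ₂ (φ j)) atTop (𝓝 μ) := by
    have h1 : Tendsto (fun j => μ₂ (φ j) - μ₁ (φ j)) atTop (𝓝 0) := by
      refine squeeze_zero_norm (fun j => ?_) hdφ
      show ‖μ₂ (φ j) - μ₁ (φ j)‖ ≤ ‖(0 : ℂ) - c₂ (φ j)‖ + |1 - r₂ (φ j)| + ‖μ₁ (φ j) - μ₂ (φ j)‖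
      have n1 := norm_nonneg ((0 : ℂ) - c₂ (φ j))
      have n2 := abs_nonneg (1 - r₂ (φ j))
      rw [norm_sub_rev]
      linarith
    have h2 := h1.add hμ1φ
    simp only [sub_add_cancel, zero_add] at h2
    exact h2
  have hLim : LimG S μ₀ μ a γ β := by
    refine ⟨fun j => k3 (φ j), fun j => ?_, fun j => k1 _, fun j => k2 _, hμ1φ, hμ2φ, hdφ, ?_, ?_, ?_⟩
    · have := (k4 (φ j)).trans (hδ2 _)
      show dd 0 1 (μ₁ (φ j)) (c₂ (φ j)) (r₂ (φ j)) (μ₂ (φ j)) ≤ 1 / 100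
      linarith
    · exact lγ.comp hφ₂.tendsto_atTop
    · exact la.comp hφ₂.tendsto_atTop
    · exact lβ.comp hφ₂.tendsto_atTop
  have hLB : LBG S μ (fun j => m (φ j)) m₀ := by
    refine ⟨fun j => ⟨N (φ j), kN _, kN1 _, kN2 _, km _⟩, fun σ h1 h2 => ?_, hm₀, hm₀l⟩
    obtain ⟨C, hC⟩ := hbd σ h1 h2
    exact ⟨C, fun j z hz => hC (φ j) z hz⟩
  have hSol : SolG S ρ (fun j => l (φ j)) (fun j => N (φ j)) (fun j => m (φ j)) :=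
    ⟨fun j => kN _, fun j => kN1 _, fun j => kN2 _, fun j => km _, fun j A hA => kid (φ j) A hA, fun j => kNN (φ j)⟩
  have hl1 : ∀ j, |l (φ j)| ≤ 1 := fun j => (k5 (φ j)).trans hL.le
  have hll : Tendsto (fun j => l (φ j)) atTop (𝓝 l₀) := ll.comp hφ₂.tendsto_atTop
  have hl0 : |l₀| < 1 := (le_of_tendsto hll.abs (Eventually.of_forall fun j => k5 (φ j))).trans_lt hL
  have hone : ‖γ‖ + |a| + ‖β‖ = 1 := by
    have h1 := (lγ.norm.add la.abs).add lβ.norm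
    refine tendsto_nhds_unique h1 ?_
    refine tendsto_const_nhds.congr fun j => ?_
    exact (hsum (φ₁ j)).symm
  exact limG_zero h0 h1 hρ hρ1 hLim hone hl1 hll hl0 hSol hLB

end LD1
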