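import Pool.Agent.H1.EX.T6
import Pool.Agent.H1.ND.T7
import Pool.Agent.H1.LD.Lq

/-!
# LD: close ellipses, every conductivity: assembly
-/

set_option autoImplicit false

namespace LD1

open Complex Set Filter Topology MeasureTheory MD12 ED1 EW1 EX1 EY1 ND1
open scoped ComplexConjugate ContDiff Real

/-- two close ellipses -/
theorem loc_thm {L μ₀ ρ : ℝ} (hL : L < 1) (h0 : 0 ≤ μ₀) (h1 : μ₀ < ρ ^ 2) (hρ : 0 < ρ) (hρ1 : ρ < 1) :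
    ∃ δ : ℝ, 0 < δ ∧ ∀ (c₁ : ℂ) (r₁ : ℝ) (μ₁ c₂ : ℂ) (r₂ : ℝ) (μ₂ : ℂ), ‖μ₁‖ ≤ μ₀ → ‖μ₂‖ ≤ μ₀ → 0 < r₁ → 0 < r₂ →
      ‖c₂ - c₁‖ ≤ δ * r₁ → |r₂ - r₁| ≤ δ * r₁ → ‖μ₁ - μ₂‖ ≤ δ → 0 < dd c₁ r₁ μ₁ c₂ r₂ μ₂ → ∀ l : ℝ, |l| ≤ L →
      ∀ (N : Set ℂ) (m : ℂ → ℂ), IsOpen N → Kp c₁ r₁ μ₁ ⊆ N → Kp c₂ r₂ μ₂ ⊆ N → DifferentiableOn ℂ m N →
      (∀ A : ℂ → ℂ, DifferentiableOn ℂ A N → Idn c₁ r₁ μ₁ c₂ r₂ μ₂ l ρ A m) →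
      ∀ z ∈ Dp c₁ r₁ μ₁ 1, m z = 0 := by
  obtain ⟨δ, hδ, hnear⟩ := near_genQ hL h0 h1 hρ hρ1
  refine ⟨δ / 3, by positivity, ?_⟩
  intro c₁ r₁ μ₁ c₂ r₂ μ₂ hμ₁ hμ₂ hr₁ hr₂ hcc hrr hμμ hd l hl N m hN hN₁ hN₂ hm hid z hz
  have hrc : (r₁ : ℂ) ≠ 0 := by exact_mod_cast hr₁.ne'
  have e1 : (c₁ - c₁) / (r₁ : ℂ) = 0 := by simp
  have e2 : r₁ / r₁ = 1 := div_self hr₁.ne'
  -- the transported data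
  obtain ⟨c', hc'⟩ : ∃ c' : ℂ, c' = (c₂ - c₁) / r₁ := ⟨_, rfl⟩
  obtain ⟨r', hr'⟩ : ∃ r' : ℝ, r' = r₂ / r₁ := ⟨_, rfl⟩
  have q1 : ‖0 - c'‖ ≤ δ / 3 := by
    rw [zero_sub, norm_neg, hc', norm_div, Complex.norm_real, Real.norm_eq_abs, abs_of_pos hr₁, div_le_iff₀ hr₁]
    exact hcc
  have q2 : |1 - r'| ≤ δ / 3 := by
    have e : 1 - r' = (r₁ - r₂) / r₁ := by
      rw [hr']
      field_simp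
    rw [e, abs_div, abs_of_pos hr₁, div_le_iff₀ hr₁, abs_sub_comm]
    exact hrr
  have hdδ : dd 0 1 μ₁ c' r' μ₂ ≤ δ := by
    unfold dd
    linarith
  have hd' : 0 < dd 0 1 μ₁ c' r' μ₂ := by
    by_contra hcon
    have h5 : dd 0 1 μ₁ c' r' μ₂ ≤ 0 := not_lt.1 hcon
    unfold dd at h5
    have a1 := norm_nonneg (0 - c')
    have a2 := abs_nonneg (1 - r')
    have a3 := norm_nonneg (μ₁ - μ₂)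
    have b1 : ‖0 - c'‖ = 0 := by linarith
    have b2 : |1 - r'| = 0 := by linarith
    have b3 : ‖μ₁ - μ₂‖ = 0 := by linarith
    have f1 : c₂ = c₁ := by
      have h6 : c' = 0 := (sub_eq_zero.1 (norm_eq_zero.1 b1)).symm
      rw [hc', div_eq_zero_iff] at h6
      rcases h6 with h6 | h6
      · exact sub_eq_zero.1 h6
      · exact absurd h6 hrc
    have f2 : r₂ = r₁ := by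
      have h6 : r' = 1 := (sub_eq_zero.1 (abs_eq_zero.1 b2)).symm
      rw [hr', div_eq_one_iff_eq hr₁.ne'] at h6
      exact h6
    have f3 : μ₁ = μ₂ := sub_eq_zero.1 (norm_eq_zero.1 b3)
    rw [f1, f2, f3] at hd
    unfold dd at hd
    simp at hd
  have hcont : Continuous fun w : ℂ => c₁ + r₁ * w := by fun_prop
  have hdiff : Differentiable ℂ fun w : ℂ => c₁ + r₁ * w := by fun_prop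
  have hv1 : ∀ w, vv c₁ r₁ μ₁ (c₁ + r₁ * w) = vv 0 1 μ₁ w := fun w => by rw [vv_aff c₁ c₁ r₁ μ₁ hr₁, e1, e2]
  have hv2 : ∀ w, vv c₂ r₂ μ₂ (c₁ + r₁ * w) = vv c' r' μ₂ w := fun w => by rw [vv_aff c₁ c₂ r₂ μ₂ hr₁, hc', hr']
  have hN' : IsOpen ((fun w : ℂ => c₁ + r₁ * w) ⁻¹' N) := hN.preimage hcont
  have hN₁' : {w | ‖vv 0 1 μ₁ w‖ ≤ 1} ⊆ (fun w : ℂ => c₁ + r₁ * w) ⁻¹' N := by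
    intro w hw
    apply hN₁
    show ‖vv c₁ r₁ μ₁ (c₁ + r₁ * w)‖ ≤ 1
    rw [hv1]
    exact hw
  have hN₂' : {w | ‖vv c' r' μ₂ w‖ ≤ 1} ⊆ (fun w : ℂ => c₁ + r₁ * w) ⁻¹' N := by
    intro w hw
    apply hN₂
    show ‖vv c₂ r₂ μ₂ (c₁ + r₁ * w)‖ ≤ 1
    rw [hv2]
    exact hw
  have hm' : DifferentiableOn ℂ (fun w : ℂ => m (c₁ + r₁ * w)) ((fun w : ℂ => c₁ + r₁ * w) ⁻¹' N) :=
    hm.comp hdiff.differentiableOn (fun w hw => hw)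
  have hid' : ∀ B : ℂ → ℂ, DifferentiableOn ℂ B ((fun w : ℂ => c₁ + r₁ * w) ⁻¹' N) →
      Idn 0 1 μ₁ c' r' μ₂ l ρ B (fun w => m (c₁ + r₁ * w)) := by
    intro B hB
    have e3 : ∀ w : ℂ, (c₁ + r₁ * w - c₁) / r₁ = w := fun w => by
      rw [add_sub_cancel_left, mul_div_cancel_left₀ _ hrc]
    have hA : DifferentiableOn ℂ (fun z => B ((z - c₁) / r₁)) N := by
      refine hB.comp (f := fun z : ℂ => (z - c₁) / r₁) (by fun_prop) fun z hz => ?_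
      show c₁ + r₁ * ((z - c₁) / r₁) ∈ N
      rw [mul_div_cancel₀ _ hrc, add_sub_cancel]
      exact hz
    have h5 := hid _ hA
    unfold Idn at h5 ⊢
    rw [int_aff c₁ c₁ r₁ μ₁ hr₁, int_aff c₁ c₂ r₂ μ₂ hr₁, RR_aff c₁ c₁ r₁ μ₁ hr₁, RR_aff c₁ c₂ r₂ μ₂ hr₁, e1, e2, ← hc', ← hr',
      ← mul_add, ← mul_add] at h5
    have h6 := mul_left_cancel₀ (pow_ne_zero 2 hrc) h5
    simp only [e3] at h6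
    exact h6
  have hmem : (z - c₁) / r₁ ∈ Dp 0 1 μ₁ 1 := by
    show ‖vv 0 1 μ₁ ((z - c₁) / r₁)‖ < 1
    rw [← hv1, mul_div_cancel₀ _ hrc, add_sub_cancel]
    exact hz
  have h7 : m (c₁ + r₁ * ((z - c₁) / r₁)) = 0 :=
    hnear μ₁ c' r' μ₂ hμ₁ hμ₂ hd' hdδ l hl _ (fun w => m (c₁ + r₁ * w)) hN' hN₁' hN₂' hm' hid' _ hmem
  rw [mul_div_cancel₀ _ hrc, add_sub_cancel] at h7
  exact h7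

theorem main7 {L μ₀ : ℝ} (hL : L < 1) (h0 : 0 ≤ μ₀) (h1 : μ₀ < 1) : ∃ δ : ℝ, 0 < δ ∧ ∀ k : ℝ, 0 < k → k ≠ 1 → |(k - 1) / (k + 1)| ≤ L →
    ∀ Ω : Set ℂ, IsOpen Ω → Bornology.IsBounded Ω → IsPreconnected Ω → μH[1] (frontier Ω) < ⊤ →
    ∀ (c₁ : ℂ) (r₁ : ℝ) (μ₁ c₂ : ℂ) (r₂ : ℝ) (μ₂ : ℂ), 0 < r₁ → 0 < r₂ → ‖μ₁‖ ≤ μ₀ → ‖μ₂‖ ≤ μ₀ →
    ‖c₂ - c₁‖ ≤ δ * r₁ → |r₂ - r₁| ≤ δ * r₁ → ‖μ₁ - μ₂‖ ≤ δ →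
    Kp c₁ r₁ μ₁ ⊆ Ω → Kp c₂ r₂ μ₂ ⊆ Ω →
    ∀ (g u₁ u₂ : ℂ → ℝ) (G₁ G₂ : ℂ → ℂ), MemLp g 2 (μH[1].restrict (frontier Ω)) →
    ¬ g =ᵐ[μH[1].restrict (frontier Ω)] 0 →
    SolvesC Ω (MD12.cond k (Dp c₁ r₁ μ₁ 1)) g u₁ G₁ → SolvesC Ω (MD12.cond k (Dp c₂ r₂ μ₂ 1)) g u₂ G₂ →
    SameTrace Ω u₁ u₂ G₁ G₂ → c₁ = c₂ ∧ r₁ = r₂ ∧ μ₁ = μ₂ := by
  set ρ : ℝ := Real.sqrt ((1 + μ₀) / 2) with hρd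
  have hρ2 : ρ ^ 2 = (1 + μ₀) / 2 := Real.sq_sqrt (by linarith)
  have hρ0 : 0 < ρ := Real.sqrt_pos.2 (by linarith)
  have hρ1 : ρ < 1 := by nlinarith
  have hμρ : μ₀ < ρ ^ 2 := by rw [hρ2]; linarith
  obtain ⟨δ, hδ, hloc⟩ := loc_thm hL h0 hμρ hρ0 hρ1
  refine ⟨δ, hδ, ?_⟩
  intro k hk hk1 hkL Ω hΩo hΩb hΩc hσ c₁ r₁ μ₁ c₂ r₂ μ₂ hr₁ hr₂ hμ₁ hμ₂ hcc hrr hμμ hK₁ hK₂ g u₁ u₂ G₁ G₂ hg hg0 h₁ h₂ ht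
  have hn₁ : ‖μ₁‖ < 1 := hμ₁.trans_lt h1
  have hn₂ : ‖μ₂‖ < 1 := hμ₂.trans_lt h1
  have hDn : (Dp c₁ r₁ μ₁ 1).Nonempty := ⟨c₁, by
    show ‖vv c₁ r₁ μ₁ c₁‖ < 1
    have : vv c₁ r₁ μ₁ c₁ = 0 := by unfold vv; simp
    rw [this, norm_zero]
    exact one_pos⟩
  have hfin : ¬ ∀ᵐ z ∂volume.restrict (Dp c₁ r₁ μ₁ 1), G₁ z = 0 := fun h =>
    hg0 (Fg hΩo hΩb hΩc hσ (Dp_open _ _ _ _) hDn ((Dp_Kp _ _ _).trans hK₁) hg h₁ h)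
  by_cases hd : Disjoint (Kp c₁ r₁ μ₁) (Kp c₂ r₂ μ₂)
  · exfalso
    obtain ⟨M₁, hF₁⟩ := fld_any hΩo hk hk1 hr₁ hn₁ hρ0 (hμ₁.trans_lt hμρ) hρ1 hK₁ h₁
    exact hfin (hF₁.mom fun N A hN hN₁ hA => disj hΩo hΩb hk1 hr₁ hr₂ hn₁ hn₂ hK₁ hK₂ hd h₁ h₂ ht hN hN₁ hA)
  obtain ⟨M, hM, hid, hz⟩ := pde2 hΩo hΩb hΩc hk hk1 h0 hμρ hρ0 hρ1 hr₁ hr₂ hμ₁ hμ₂ hK₁ hK₂ h₁ h₂ ht
  have hdd : ¬ 0 < dd c₁ r₁ μ₁ c₂ r₂ μ₂ := fun hd0 =>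
    hfin (hz (hloc c₁ r₁ μ₁ c₂ r₂ μ₂ hμ₁ hμ₂ hr₁ hr₂ hcc hrr hμμ hd0 _ hkL Ω M hΩo hK₁ hK₂ hM hid))
  have h5 : dd c₁ r₁ μ₁ c₂ r₂ μ₂ ≤ 0 := not_lt.1 hdd
  unfold dd at h5
  have a1 := norm_nonneg (c₁ - c₂)
  have a2 := abs_nonneg (r₁ - r₂)
  have a3 := norm_nonneg (μ₁ - μ₂)
  have h6 : ‖c₁ - c₂‖ = 0 := by linarith
  have h7 : |r₁ - r₂| = 0 := by linarith
  have h8 : ‖μ₁ - μ₂‖ = 0 := by linarith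
  exact ⟨sub_eq_zero.1 (norm_eq_zero.1 h6), sub_eq_zero.1 (abs_eq_zero.1 h7), sub_eq_zero.1 (norm_eq_zero.1 h8)⟩


end LD1
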